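import Pool.Agent.P.MP_e94e4b_nt.LF.IfB

/-! Step AVS. -/

namespace Pool.Agent.P.LF

open Finset Real Filter Topology MeasureTheory
open Pool.Agent.P.MP_e86632_nt (ee nn ee_add norm_ee ee_neg ee_zero)
open Pool.Agent.P.MP_8be758_nt.Avg (gs nsq gs_pos gs_le_one gs_neg gs_anti)
open Pool.Agent.P.E2
open Pool.Agent.P.PAR
open ArithmeticFunction (cardFactors vonMangoldt)
open DirichletCharacter (LFunction)

namespace AVSc

theorem shift {G : ℕ → ℂ} (hG : ∀ n, ‖G n‖ ≤ 1) {A B : ℕ} (h : A ≤ B) (j : ℕ) :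
    ‖∑ x ∈ Ioc A B, G (x + j) - ∑ n ∈ Ioc A B, G n‖ ≤ 2 * j := by
  have e1 : ∑ x ∈ Ioc A B, G (x + j) = ∑ n ∈ Ioc (A + j) (B + j), G n := by
    rw [← map_add_right_Ioc, sum_map]; rfl
  have e2 := sum_Ioc_consecutive G (Nat.le_add_right A j) (Nat.add_le_add_right h j)
  have e3 := sum_Ioc_consecutive G h (Nat.le_add_right B j)
  have b1 := norm_es_le hG A j 0
  have b2 := norm_es_le hG B j 0
  rw [es_zero] at b1 b2
  rw [e1, show ∑ n ∈ Ioc (A + j) (B + j), G n - ∑ n ∈ Ioc A B, G n =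
    ∑ n ∈ Ioc B (B + j), G n - ∑ n ∈ Ioc A (A + j), G n by linear_combination e2 - e3]
  linarith [norm_sub_le (∑ n ∈ Ioc B (B + j), G n) (∑ n ∈ Ioc A (A + j), G n)]

theorem avg {G : ℕ → ℂ} (hG : ∀ n, ‖G n‖ ≤ 1) {A B : ℕ} (hAB : A ≤ B) (h : ℕ) :
    ‖∑ x ∈ Ioc A B, es G x h 0 - h * ∑ n ∈ Ioc A B, G n‖ ≤ 2 * (h : ℝ) ^ 2 := by
  induction h with
  | zero => simp [es]
  | succ h ih =>
    have e : ∀ x, es G x (h + 1) 0 = es G x h 0 + G (x + (h + 1)) := fun x => by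
      rw [es_zero, es_zero, ← add_assoc, sum_Ioc_succ_top (Nat.le_add_right _ _)]
    have b := shift hG hAB (h + 1)
    simp only [e, sum_add_distrib]
    refine le_trans (le_of_eq (congrArg _ ?_)) ((norm_add_le _ _).trans ((add_le_add ih b).trans ?_))
    · push_cast; ring
    · push_cast; nlinarith [Nat.cast_nonneg (α := ℝ) h]

end AVSc

theorem r_AVS :
    K_AVS := by
  intro G A B h hG h1
  have h0 : (0 : ℝ) < h := by exact_mod_cast h1
  rcases le_or_gt A B with hAB | hAB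
  · have a1 := AVSc.avg hG hAB h
    have a2 := norm_sum_le (Ioc A B) fun x => es G x h 0
    have a3 := norm_sub_norm_le ((h : ℂ) * ∑ n ∈ Ioc A B, G n) (∑ x ∈ Ioc A B, es G x h 0)
    rw [norm_sub_rev, norm_mul, Complex.norm_natCast] at a3
    rw [← sub_le_iff_le_add, le_div_iff₀ h0]
    nlinarith
  · rw [Ioc_eq_empty hAB.not_gt]
    simp

end Pool.Agent.P.LF
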