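import Pool.Agent.P.MP_e94e4b_nt.LF.IfA

/-! Step BMA. -/

namespace Pool.Agent.P.LF

open Finset Real Filter Topology MeasureTheory
open Pool.Agent.P.MP_e86632_nt (ee nn ee_add norm_ee ee_neg ee_zero)
open Pool.Agent.P.MP_8be758_nt.Avg (gs nsq gs_pos gs_le_one gs_neg gs_anti)
open Pool.Agent.P.E2
open Pool.Agent.P.PAR
open ArithmeticFunction (cardFactors vonMangoldt)
open DirichletCharacter (LFunction)

namespace BMAc

end BMAc

theorem r_BMA (hUM : S_UM) :
    K_BMA := by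
  intro κ hκ
  obtain ⟨α, b, hα, h⟩ := hUM (κ / 2) (half_pos hκ)
  refine ⟨α, b, hα, ?_⟩
  filter_upwards [h, eventually_ge_atTop 1, ev_pp 1 (half_pos hκ) (show 1 < 13 by norm_num)]
    with r h r1 r2 l ρ α' S hb hρ hα'
  refine ⟨(meas_bw _ _ _).inter (meas_band _ _), fun t ht => ht.2, ?_⟩
  have hP : 0 ≤ sP ρ := by linarith [S.p4]
  have hd := S.d0.le
  set y := yy (sP ρ) (sd ρ) with hy
  set A : ℕ → Set ℝ := fun v => {t : ℝ | |t| ≤ Real.exp (2 * r ^ 13) ∧ y v ^ (1 - α) <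
    ‖dq (PP (y v)) (fun p => if p ∈ pw l (sP ρ) (sd ρ) v then 1 else 0) t‖} with hA
  have y1 : ∀ v, 1 ≤ y v := fun v => by linarith [le_yy hP hd v, S.p4]
  have sub : bw l ρ α' ∩ {t | Real.exp (4 * r) ≤ |t| ∧ |t| ≤ Real.exp (2 * r ^ 13)} ⊆
      ⋃ v ∈ range (sV ρ), A v := by
    rintro t ⟨⟨v, hv, h1⟩, -, h2⟩
    refine Set.mem_biUnion (mem_range.2 hv) ⟨h2, ?_⟩
    have e : dq (PP (y v)) (fun p => if p ∈ pw l (sP ρ) (sd ρ) v then 1 else 0) t =
        qw l (sP ρ) (sd ρ) v t := by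
      rw [qw, dq, dq]
      simp only [ite_mul, zero_mul]
      rw [sum_ite_mem, inter_eq_right.2]
      refine (pw_subset _ _ _ _).trans <| filter_subset_filter _ (Ioc_subset_Ioc_right (Nat.floor_le_floor ?_))
      rw [yy_succ]
      exact mul_le_mul_of_nonneg_right (by linarith [S.d1]) (by linarith [y1 v])
    rw [e]
    exact (Real.rpow_le_rpow_of_exponent_le (y1 v) (by linarith)).trans_lt h1
  have fin : volume (⋃ v ∈ range (sV ρ), A v) ≠ ⊤ := by
    refine ne_top_of_le_ne_top (b := volume (Set.Icc (-Real.exp (2 * r ^ 13))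
      (Real.exp (2 * r ^ 13)))) (by simp) (measure_mono ?_)
    exact Set.iUnion₂_subset fun v _ t ht => abs_le.1 ht.1
  refine (measureReal_mono sub fin).trans ((measureReal_biUnion_finset_le _ _).trans ?_)
  refine (sum_le_card_nsmul _ _ (Real.exp (κ / 2 * r ^ 13)) fun v hv => h _ _ ?_ ?_ fun p => ?_).trans ?_
  · refine le_trans ?_ (S.yl v)
    rw [← Real.exp_log (show 0 < r by linarith), ← Real.exp_nat_mul]
    exact Real.exp_le_exp.2 hb
  · exact (S.yu v (mem_range.1 hv).le).trans (Real.exp_le_exp.2 hρ)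
  · split_ifs <;> simp
  rw [card_range, nsmul_eq_mul, show κ * r ^ 13 = κ / 2 * r ^ 13 + κ / 2 * r ^ 13 by ring,
    Real.exp_add]
  refine mul_le_mul_of_nonneg_right (S.vu.trans ?_) (Real.exp_pos _).le
  have r8 := S.r8
  have a1 : ρ ^ 18 ≤ ρ ^ 24 := pow_le_pow_right₀ (by linarith) (by norm_num)
  have a2 : (2 * ρ ^ 12) ^ 2 ≤ r ^ 2 := pow_le_pow_left₀ (by positivity) hρ 2
  have a3 := Real.quadratic_le_exp_of_nonneg (show 0 ≤ r by linarith)
  have a4 : Real.exp r ≤ Real.exp (κ / 2 * r ^ 13) := Real.exp_le_exp.2 (by linarith)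
  nlinarith

end Pool.Agent.P.LF
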