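import Pool.Agent.P.MP_e94e4b_nt.LF.IfA

/-! Step BWA. -/

namespace Pool.Agent.P.LF

open Finset Real Filter Topology MeasureTheory
open Pool.Agent.P.MP_e86632_nt (ee nn ee_add norm_ee ee_neg ee_zero)
open Pool.Agent.P.MP_8be758_nt.Avg (gs nsq gs_pos gs_le_one gs_neg gs_anti)
open Pool.Agent.P.E2
open Pool.Agent.P.PAR
open ArithmeticFunction (cardFactors vonMangoldt)
open DirichletCharacter (LFunction)

namespace BWAc

theorem wcs (S : Finset ℕ) (w x : ℕ → ℝ) (hw : ∀ v, 0 ≤ w v) :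
    (∑ v ∈ S, w v * x v) ^ 2 ≤ (∑ v ∈ S, w v) * ∑ v ∈ S, w v * x v ^ 2 := by
  have h := Finset.sum_mul_sq_le_sq_mul_sq S (fun v => √(w v)) (fun v => √(w v) * x v)
  have e1 : ∀ v, √(w v) * (√(w v) * x v) = w v * x v := fun v => by
    rw [← mul_assoc, Real.mul_self_sqrt (hw v)]
  have e2 : ∀ v, √(w v) ^ 2 = w v := fun v => Real.sq_sqrt (hw v)
  have e3 : ∀ v, (√(w v) * x v) ^ 2 = w v * x v ^ 2 := fun v => by rw [mul_pow, e2]
  simpa only [e1, e2, e3] using h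

theorem yy2 {P δ : ℝ} (hP : 2 ≤ P) (hδ : 0 ≤ δ) (v : ℕ) : 2 ≤ yy P δ v := by
  have : 1 ≤ (1 + δ) ^ v := one_le_pow₀ (by linarith)
  unfold yy
  nlinarith

end BWAc

theorem r_BWA :
    K_BWA := by
  intro l g X V P δ Z η K T hP hδ hZ hη hK hT hq hr
  have hy : ∀ v, 0 < yy P δ v := fun v => by linarith [BWAc.yy2 hP hδ v]
  have hl : ∀ v, 0 < Real.log (yy P δ v) := fun v =>
    Real.log_pos (by linarith [BWAc.yy2 hP hδ v])
  set w : ℕ → ℝ := fun v => 1 / Real.log (yy P δ v) with hw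
  have hw0 : ∀ v, 0 ≤ w v := fun v => (one_div_pos.2 (hl v)).le
  set W : ℝ := ∑ v ∈ range V, w v with hW
  have hW0 : 0 ≤ W := sum_nonneg fun v _ => hw0 v
  have hint : ∀ v, Integrable fun t => (η ^ 2 * W * (w v * yy P δ v ^ 2)) *
      (gs (t / Z) * ‖rc g X P δ v t‖ ^ 2) := fun v => ((bd_rc g X P δ v).int hZ).const_mul _
  have key : ∀ t ∈ T, gs (t / Z) * ‖bm l g X P δ V t‖ ^ 2 ≤
      ∑ v ∈ range V, (η ^ 2 * W * (w v * yy P δ v ^ 2)) * (gs (t / Z) * ‖rc g X P δ v t‖ ^ 2) := by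
    intro t ht
    have h1 : ‖bm l g X P δ V t‖ ≤ η * ∑ v ∈ range V, w v * (yy P δ v * ‖rc g X P δ v t‖) := by
      rw [bm, mul_sum]
      refine norm_sum_le_of_le _ fun v hv => ?_
      rw [norm_mul]
      refine (mul_le_mul_of_nonneg_right (hq v (mem_range.1 hv) t ht) (norm_nonneg _)).trans_eq ?_
      simp only [hw]
      ring
    have h2 := BWAc.wcs (range V) w (fun v => yy P δ v * ‖rc g X P δ v t‖) hw0
    have h3 : ‖bm l g X P δ V t‖ ^ 2 ≤
        η ^ 2 * (W * ∑ v ∈ range V, w v * (yy P δ v * ‖rc g X P δ v t‖) ^ 2) := by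
      refine (pow_le_pow_left₀ (norm_nonneg _) h1 2).trans ?_
      rw [mul_pow]
      exact mul_le_mul_of_nonneg_left h2 (by positivity)
    refine (mul_le_mul_of_nonneg_left h3 (gs_pos _).le).trans_eq ?_
    rw [mul_sum, mul_sum, mul_sum]
    exact sum_congr rfl fun v _ => by ring
  have h4 := setIntegral_mono_on ((bd_bm l g X P δ V).int hZ).integrableOn
    (integrable_finsetSum (range V) fun v _ => hint v).integrableOn hT key
  refine h4.trans ?_
  rw [integral_finsetSum _ fun v _ => (hint v).integrableOn]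
  have h5 : ∀ v ∈ range V, ∫ t in T, (η ^ 2 * W * (w v * yy P δ v ^ 2)) *
      (gs (t / Z) * ‖rc g X P δ v t‖ ^ 2) ≤ (η ^ 2 * W * K * X ^ 2) * w v := by
    intro v hv
    rw [integral_const_mul]
    have h0 : 0 ≤ η ^ 2 * W * (w v * yy P δ v ^ 2) := by have := hw0 v; positivity
    refine (mul_le_mul_of_nonneg_left (hr v (mem_range.1 hv)) h0).trans_eq ?_
    have := (hy v).ne'
    field_simp
  refine (sum_le_sum h5).trans_eq ?_
  rw [← mul_sum, ← hW]
  ring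

end Pool.Agent.P.LF
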