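import Pool.Agent.P.MP_e94e4b_nt.LF.IfB

/-! Step CHB. -/

namespace Pool.Agent.P.LF

open Finset Real Filter Topology MeasureTheory
open Pool.Agent.P.MP_e86632_nt (ee nn ee_add norm_ee ee_neg ee_zero)
open Pool.Agent.P.MP_8be758_nt.Avg (gs nsq gs_pos gs_le_one gs_neg gs_anti)
open Pool.Agent.P.E2
open Pool.Agent.P.PAR
open ArithmeticFunction (cardFactors vonMangoldt)
open DirichletCharacter (LFunction)

namespace CHBc

theorem point {d : ℝ} (hd : 0 < d) {r : ℕ} (hr : 1 ≤ r) (b : Bool) (c : ℕ → Bool) :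
    vl (d / 2) b + d / 2 - 4 / (r * d) ^ 2 * (∑ i ∈ range r, vl (d / 2) (c i)) ^ 2 ≤
      if b = true ∧ ∃ i < r, c i = true then 1 else 0 := by
  have h0 : 0 ≤ 4 / (r * d) ^ 2 * (∑ i ∈ range r, vl (d / 2) (c i)) ^ 2 := by positivity
  have hr0 : (0 : ℝ) < r := by exact_mod_cast hr
  cases b
  · simp only [vl, Bool.false_eq_true, if_false, false_and] at h0 ⊢
    linarith
  · have h1 : vl (d / 2) true + d / 2 = 1 := by simp [vl]
    rw [h1]
    split_ifs with h
    · linarith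
    · have h2 : ∑ i ∈ range r, vl (d / 2) (c i) = r * (-(d / 2)) := by
        rw [sum_congr rfl fun i hi => show vl (d / 2) (c i) = -(d / 2) by
          have : c i ≠ true := fun e => h ⟨rfl, i, mem_range.1 hi, e⟩
          simp [vl, this]]
        simp
      rw [h2]
      apply le_of_eq
      field_simp
      ring

end CHBc

theorem r_CHB (hCW2 : L_CW2) (hFEJ : K_FEJ) :
    K_CHB := by
  intro p s t r hr hR hd
  set Q : ℕ → ℝ := fun m => (∑ i ∈ range r, fv p s (Ai (2 * i + 3) m)) ^ 2 with hQ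
  have hQ0 : ∀ m, 0 ≤ Q m := fun m => sq_nonneg _
  obtain ⟨f0, f1⟩ := hFEJ r hr
  have hu : ∀ u ∈ uu p (3 * r), p.U < u ∧ u ≤ p.Y ∧ Odd u ∧ 20 * (3 * r) ^ 2 ≤ u := fun u h => by
    obtain ⟨h1, h2⟩ := mem_filter.1 h
    obtain ⟨h3, h4⟩ := mem_Ioc.1 h1
    exact ⟨h3, h4.trans (Nat.div_le_self _ _), h2, hR.ku.trans h3.le⟩
  have hc := fun u (h : u ∈ uu p (3 * r)) => hCW2 (3 * r) u (by omega) (hu u h).2.2.2
  have h1 : ∑ u ∈ uu p (3 * r), 1 / (u : ℝ) ^ 2 * ∑ m ∈ iu (3 * r) u, Q m ≤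
      ∑ m ∈ Ioc (4 * p.w) (p.Y ^ 2), fj r m * Q m / m := by
    calc _ ≤ ∑ u ∈ uu p (3 * r), ∑ m ∈ iu (3 * r) u, fj r m * Q m / m := by
          refine sum_le_sum fun u h => ?_
          rw [mul_sum]
          refine sum_le_sum fun m hm => ?_
          obtain ⟨-, a2, a3⟩ := (hc u h).2.1 m hm
          have b1 : (0 : ℝ) < m := by exact_mod_cast (Nat.zero_le _).trans_lt a3
          have b2 : (m : ℝ) ≤ (u : ℝ) ^ 2 := by exact_mod_cast le_trans (by omega) a2
          rw [one_div, mul_comm, ← div_eq_mul_inv]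
          exact div_le_div₀ (mul_nonneg (f0 _) (hQ0 m))
            (le_mul_of_one_le_left (hQ0 m) (f1 u m (hu u h).2.2.1 hm)) b1 b2
      _ = ∑ m ∈ (uu p (3 * r)).biUnion (iu (3 * r)), fj r m * Q m / m := by
          refine (sum_biUnion fun u h u' h' e => ?_).symm
          rcases lt_or_gt_of_ne e with e | e
          · exact (hc u h).2.2.1 u' e
          · exact ((hc u' h').2.2.1 u e).symm
      _ ≤ _ := by
          refine sum_le_sum_of_subset_of_nonneg (fun m hm => ?_) fun m _ _ =>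
            div_nonneg (mul_nonneg (f0 _) (hQ0 m)) (Nat.cast_nonneg m)
          obtain ⟨u, h, hm⟩ := mem_biUnion.1 hm
          obtain ⟨a1, a2, -⟩ := (hc u h).2.1 m hm
          have b1 := Nat.pow_lt_pow_left (hu u h).1 two_ne_zero
          have b2 := Nat.pow_le_pow_left (hu u h).2.1 2
          have b3 := hR.wu
          exact mem_Ioc.2 ⟨by omega, by omega⟩
  refine le_trans (sub_le_sub_left (mul_le_mul_of_nonneg_left h1 (by positivity)) _) ?_
  rw [mul_sum, ← sum_sub_distrib, tt]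
  refine sum_le_sum fun u _ => ?_
  rw [mul_left_comm, ← mul_sub, mul_sum _ _ (4 / (r * rs (lp p)) ^ 2), ← sum_sub_distrib,
    card_filter]
  refine mul_le_mul_of_nonneg_left ?_ (by positivity)
  push_cast
  exact sum_le_sum fun m _ => by
    simpa only [hQ, fv] using
      CHBc.point hd hr (fb p t (su u - m)) fun i => fb p s (Ai (2 * i + 3) m)

end Pool.Agent.P.LF
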