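import Pool.Agent.P.MP_e94e4b_nt.LF.IfB

/-! Step CO2. -/

namespace Pool.Agent.P.LF

open Finset Real Filter Topology MeasureTheory
open Pool.Agent.P.MP_e86632_nt (ee nn ee_add norm_ee ee_neg ee_zero)
open Pool.Agent.P.MP_8be758_nt.Avg (gs nsq gs_pos gs_le_one gs_neg gs_anti)
open Pool.Agent.P.E2
open Pool.Agent.P.PAR
open ArithmeticFunction (cardFactors vonMangoldt)
open DirichletCharacter (LFunction)

namespace CO2c

theorem lt (hUF : K_UF) (hCOR : K_COR) (hPRG : K_PRG) (hREL : K_REL) {k k' : ℕ} (ω : ℝ) {ε : ℝ}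
    (hk : Odd k) (hk' : Odd k') (h : k' < k) (hε : 0 < ε) : ∃ K : ℕ,
    ∀ (p : Pm) (s : Bool) (σ : ℝ), Rm K p → |σ| ≤ 1 →
      cr σ ω (fun m => fv p s (Ai k m) * fv p s (Ai k' m)) (4 * p.w) (p.Y ^ 2) ≤
        ε * Real.log p.Y := by
  obtain ⟨f1, f2, f3, -⟩ := hREL ⟨0, 0, 0, 0, 0⟩ true k k' 0 2 hk hk' h le_rfl le_rfl
  have k1 : 1 ≤ k ^ 2 := Nat.one_le_pow _ _ hk.pos
  have k2 : 1 ≤ k' ^ 2 := Nat.one_le_pow _ _ hk'.pos
  have k3 : (0 : ℝ) < (k ^ 2 : ℕ) := by exact_mod_cast k1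
  obtain ⟨e, e0, hC⟩ := hCOR (k ^ 2 * k' ^ 2) (ck k * k' ^ 2) (ck k * k' ^ 2 - ck k' * k ^ 2) ω
    (ε / 2) (Nat.mul_pos k1 k2) f1 f2 ((Nat.sub_le _ _).trans f1) (half_pos hε)
  obtain ⟨H0, hU⟩ := hUF (2 * e / ((k ^ 2 : ℕ) : ℝ) ^ 2) (by positivity)
  obtain ⟨L, hC⟩ := hC H0
  obtain ⟨K1, hU⟩ := hU (k ^ 2 * L)
  obtain ⟨Y0, hC⟩ := eventually_atTop.1 hC
  refine ⟨K1 + L + 2 * (k ^ 2 * L) + Y0 + 1, fun p s σ hp hσ => ?_⟩
  have a1 := hp.kY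
  have a2 := hp.kz
  have a3 := hp.kw
  have a4 : p.Y ≤ p.Y ^ 2 := Nat.le_self_pow two_ne_zero _
  have d0 := rs_nonneg (lp p)
  have d1 := hp.d1
  have := hC (p.Y ^ 2) (by omega) (4 * p.w) (rs (lp p) / 2) σ _ _ (by omega) (by linarith)
    (by linarith) hσ (fun m => by
      rw [abs_mul]; exact mul_le_one₀ (abs_fv d1 _ _) (abs_nonneg _) (abs_fv d1 _ _))
    (hREL p s k k' L (4 * p.w) hk hk' h (by omega) (by omega)).2.2.2 fun H h1 h2 α => by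
      refine (hPRG (fun n => (fv p (!s) n : ℂ)) (k ^ 2) (ck k) (4 * p.w) (2 * p.w)
        (2 * L * p.Y ^ 2) (p.Y ^ 3) H _ k1 f3 (by omega) ?_
        (hU p (!s) (hp.mono (by omega)) (k ^ 2 * H) (h1.trans (Nat.le_mul_of_pos_left _ k1))
          (Nat.mul_le_mul_left _ h2)) α).trans_eq ?_
      · calc k ^ 2 * (2 * L * p.Y ^ 2) = 2 * (k ^ 2 * L) * p.Y ^ 2 := by ring
          _ ≤ p.Y * p.Y ^ 2 := Nat.mul_le_mul_right _ (by omega)
          _ = _ := by ring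
      · rw [Nat.cast_mul, Nat.cast_pow p.Y, Real.log_pow]
        have k4 : (0 : ℝ) < k := by exact_mod_cast hk.pos
        push_cast
        field_simp
  rw [Nat.cast_pow, Real.log_pow] at this
  push_cast at this
  linarith

end CO2c

theorem r_CO2 (hUF : K_UF) (hCOR : K_COR) (hPRG : K_PRG) (hREL : K_REL) :
    K_CO2 := by
  intro k k' ω ε hk hk' h hε
  rcases lt_or_gt_of_ne h with h | h
  · obtain ⟨K, hK⟩ := CO2c.lt hUF hCOR hPRG hREL ω hk' hk h hε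
    exact ⟨K, fun p s σ a b => by simpa only [mul_comm (fv p s (Ai k _))] using hK p s σ a b⟩
  · exact CO2c.lt hUF hCOR hPRG hREL ω hk hk' h hε

end Pool.Agent.P.LF
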