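import Pool.Agent.P.MP_e94e4b_nt.LF.IfB

/-! Step COR. -/

namespace Pool.Agent.P.LF

open Finset Real Filter Topology MeasureTheory
open Pool.Agent.P.MP_e86632_nt (ee nn ee_add norm_ee ee_neg ee_zero)
open Pool.Agent.P.MP_8be758_nt.Avg (gs nsq gs_pos gs_le_one gs_neg gs_anti)
open Pool.Agent.P.E2
open Pool.Agent.P.PAR
open ArithmeticFunction (cardFactors vonMangoldt)
open DirichletCharacter (LFunction)

namespace CORc

theorem ev_small {κ : ℝ} (hκ : 0 < κ) : ∀ᶠ P : ℕ in atTop, Real.log P ≤ κ * P := by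
  have h := tendsto_natCast_atTop_atTop.eventually (Real.isLittleO_log_id_atTop.bound hκ)
  filter_upwards [h] with P hP
  rw [Real.norm_eq_abs, Real.norm_eq_abs, id, Nat.abs_cast] at hP
  exact (le_abs_self _).trans hP

theorem inv_le {κ l x : ℝ} (hl : 0 < l) (hx : 0 < x) (h : l ≤ κ * x) : 1 / x ≤ κ / l := by
  rw [div_le_div_iff₀ hx hl]; linarith

/-- one level, summed against the weights -/
theorem level {S : Finset ℕ} {t : ℕ → ℝ} {k0 δ l x y W : ℝ} (hk : 0 < k0) (hδ : 0 < δ)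
    (hl : 0 < l) (hx : x ≤ k0 * δ / 32 / 4 / l) (hy : y ≤ k0 * δ / 32 / 4 / l)
    (hH : ∑ b ∈ S, 1 / (b : ℝ) ≤ 2 * W)
    (ht : δ / 16 * W ≤ ∑ b ∈ S, 1 / (b : ℝ) * t b) :
    k0 * δ / 32 * W * (1 / l) ≤ ∑ b ∈ S, 1 / (b : ℝ) * (k0 / l * t b - x - y) := by
  have e : ∑ b ∈ S, 1 / (b : ℝ) * (k0 / l * t b - x - y) =
      k0 / l * (∑ b ∈ S, 1 / (b : ℝ) * t b) - (x + y) * ∑ b ∈ S, 1 / (b : ℝ) := by
    rw [mul_sum, mul_sum, ← sum_sub_distrib]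
    exact sum_congr rfl fun b _ => by ring
  have h0 : 0 ≤ ∑ b ∈ S, 1 / (b : ℝ) := sum_nonneg fun _ _ => by positivity
  have h1 : (x + y) * ∑ b ∈ S, 1 / (b : ℝ) ≤ (k0 * δ / 32 / 4 / l + k0 * δ / 32 / 4 / l) * (2 * W) :=
    (mul_le_mul_of_nonneg_right (add_le_add hx hy) h0).trans
      (mul_le_mul_of_nonneg_left hH (by positivity))
  have h2 : k0 / l * (δ / 16 * W) ≤ k0 / l * ∑ b ∈ S, 1 / (b : ℝ) * t b :=
    mul_le_mul_of_nonneg_left ht (by positivity)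
  have h3 : k0 * δ / 32 * W * (1 / l) = k0 / l * (δ / 16 * W) -
      (k0 * δ / 32 / 4 / l + k0 * δ / 32 / 4 / l) * (2 * W) := by ring
  rw [e, h3]
  linarith

end CORc

theorem r_COR (hPQC : L_PQC) (hLAD : L_LAD) (hEB2 : K_EB2) (hTH2 : K_TH2) :
    K_COR := by
  intro D s Δ ω ε hD hs hΔ1 hΔ2 hε
  obtain ⟨η, ε', K, hη, hη1, hε', hK, hev⟩ := hTH2 D s Δ ω ε hD hs hΔ1 hΔ2 hε
  refine ⟨ε', hε', fun H0 => ?_⟩
  have hD0 : (0 : ℝ) < D := by exact_mod_cast hD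
  obtain ⟨δ, hδe⟩ : ∃ δ : ℝ, δ = 16 * (ε / 9) := ⟨_, rfl⟩
  have hδ : 0 < δ := by rw [hδe]; positivity
  have hδ' : δ / 16 = ε / 9 := by rw [hδe]; ring
  obtain ⟨k0, hk0e⟩ : ∃ k0 : ℝ, k0 = η ^ 2 / (5184 * D) := ⟨_, rfl⟩
  have hk0 : 0 < k0 := by rw [hk0e]; positivity
  have hk1 : 0 < k0 * δ / 32 := by positivity
  have hκ : 0 < k0 * δ / 32 / 4 := by positivity
  obtain ⟨P0, hP0⟩ := eventually_atTop.1
    (hev.and ((hPQC.2 D hD).and ((CORc.ev_small hκ).and (eventually_ge_atTop H0))))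
  obtain ⟨J, P, k, hP, hT⟩ := hLAD (k0 * δ / 32 / 4) (2 * (Real.log 4 + 1) / (k0 * δ / 32)) P0 hκ
  obtain ⟨M, hM⟩ : ∃ M : ℕ, M = ∏ j ∈ range J, (P j * ∏ q ∈ pq D (P j), q) := ⟨_, rfl⟩
  have hq0 : ∀ j, 0 < ∏ q ∈ pq D (P j), q := fun j =>
    prod_pos fun q hq => (mem_pq.1 hq).2.1.pos
  have hM0 : 0 < M := by
    rw [hM]
    exact prod_pos fun j _ => Nat.mul_pos (by have := (hP j).2.1; omega) (hq0 j)
  have hd : ∀ j ∈ range J, (P j * ∏ q ∈ pq D (P j), q) ∣ M := fun j hj => by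
    rw [hM]; exact dvd_prod_of_mem _ hj
  have hL0 : 0 < K * M := Nat.mul_pos (by omega) hM0
  have hdq : ∀ j ∈ range J, (∏ q ∈ pq D (P j), q) ∣ K * M := fun j hj =>
    ((Dvd.intro_left _ rfl).trans (hd j hj)).trans (Dvd.intro_left _ rfl)
  have hKP : ∀ j ∈ range J, K * P j ≤ K * M := fun j hj =>
    Nat.mul_le_mul_left _ (Nat.le_of_dvd hM0 ((Dvd.intro _ rfl).trans (hd j hj)))
  have hall := (eventually_all_finset (range J)).2 fun j hj =>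
    (hP0 (P j) (hP j).1).1 (K * M) (hKP j hj)
      fun q hq => (dvd_prod_of_mem (fun q => q) hq).trans (hdq j hj)
  refine ⟨K * M, ?_⟩
  filter_upwards [hall, ev_log 1 one_pos] with Z hZ hZ1 lo d σ ξ γ hlo hd0 hd1 hσ hγ hR hU
  rw [one_mul] at hZ1
  by_contra hcon
  have hcon' := (not_le.1 hcon).le
  have hH : ∑ b ∈ Ioc lo Z, 1 / (b : ℝ) ≤ 2 * Real.log Z := (harm_Ioc lo Z).trans (by linarith)
  have hb : ∀ b : ℕ, ∑ j ∈ range J,
      (k0 / Real.log (P j) * tc D s Δ (P j) (K * M) d η (wb σ ω (K * M) b) ξ b -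
      1 / P j - 1 / k j) ≤ Real.log 4 := fun b => by
    rw [hk0e]
    exact hEB2 D s Δ (K * M) b J d η _ ξ P k hD hΔ2 hd0 hd1 hη.le hη1
      (fun q => abs_wt hσ _ _) hL0 (by have := (hP 0).2.1; omega)
      fun j hj => ⟨(hP j).2.1, (hP j).2.2.1, (hP j).2.2.2.1, hdq j (mem_range.2 hj),
        (hP0 (P j) (hP j).1).2.1⟩
  have h4 : 0 ≤ Real.log 4 := Real.log_nonneg (by norm_num)
  have h1 : ∑ j ∈ range J, k0 * δ / 32 * Real.log Z * (1 / Real.log (P j)) ≤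
      ∑ j ∈ range J, ∑ b ∈ Ioc lo Z, 1 / (b : ℝ) *
        (k0 / Real.log (P j) * tc D s Δ (P j) (K * M) d η (wb σ ω (K * M) b) ξ b -
          1 / P j - 1 / k j) := by
    refine sum_le_sum fun j hj => ?_
    have h2 : (2 : ℝ) ≤ P j := by exact_mod_cast (hP j).2.1
    have h3 : (1 : ℝ) ≤ k j := by exact_mod_cast (hP j).2.2.1
    have hl : 0 < Real.log (P j) := Real.log_pos (by linarith)
    have h8 : 8 * P j ≤ K * M := (Nat.mul_le_mul_right _ hK).trans (hKP j hj)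
    have hH0 : H0 ≤ P j := (hP0 (P j) (hP j).1).2.2.2
    refine CORc.level hk0 hδ hl (CORc.inv_le hl (by linarith) (hP0 (P j) (hP j).1).2.2.1)
      (CORc.inv_le hl (by linarith) (hP j).2.2.2.2) hH ?_
    rw [hδ']
    exact hZ j hj lo d σ ξ γ hlo hd0 hd1 hσ hγ
      (fun q m i a b c e g => hR q m i a (by omega) c e g)
      (hU (4 * P j) (by omega) (by omega)) hcon'
  rw [sum_comm, ← mul_sum] at h1
  have h5 : ∑ b ∈ Ioc lo Z, ∑ j ∈ range J, 1 / (b : ℝ) *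
      (k0 / Real.log (P j) * tc D s Δ (P j) (K * M) d η (wb σ ω (K * M) b) ξ b -
        1 / P j - 1 / k j) ≤
      ∑ b ∈ Ioc lo Z, 1 / (b : ℝ) * Real.log 4 := by
    refine sum_le_sum fun b _ => ?_
    rw [← mul_sum]
    exact mul_le_mul_of_nonneg_left (hb b) (by positivity)
  rw [← sum_mul] at h5
  have h6 := mul_le_mul_of_nonneg_right hH h4
  have h7 := mul_le_mul_of_nonneg_left hT (by positivity : 0 ≤ k0 * δ / 32 * Real.log Z)
  have h8 : k0 * δ / 32 * Real.log Z * (2 * (Real.log 4 + 1) / (k0 * δ / 32)) =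
      2 * Real.log Z * Real.log 4 + 2 * Real.log Z := by
    field_simp
  linarith

end Pool.Agent.P.LF
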