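import Pool.Agent.P.MP_e94e4b_nt.LF.IfB

/-! Step CT. -/

namespace Pool.Agent.P.LF

open Finset Real Filter Topology MeasureTheory
open Pool.Agent.P.MP_e86632_nt (ee nn ee_add norm_ee ee_neg ee_zero)
open Pool.Agent.P.MP_8be758_nt.Avg (gs nsq gs_pos gs_le_one gs_neg gs_anti)
open Pool.Agent.P.E2
open Pool.Agent.P.PAR
open ArithmeticFunction (cardFactors vonMangoldt)
open DirichletCharacter (LFunction)

namespace CTc

theorem card_le (hGEO : K_GEO) {p : Pm} (s t : Bool) {r u : ℕ}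
    (h : Rm (20 * (3 * r) ^ 2) p) (hu : u ∈ uu p (3 * r)) :
    ((iu (3 * r) u).filter fun m =>
      fb p t (su u - m) ∧ ∃ i < r, fb p s (Ai (2 * i + 3) m)).card ≤
      ∑ i ∈ range r, cn p s t ((2 * i + 3) * u / 2) := by
  obtain ⟨⟨h1, h2⟩, h3⟩ := mem_uu.1 hu
  refine le_trans (card_le_card (t := (range r).biUnion fun i => (iu (2 * i + 3) u).filter
    fun m => fb p t (su u - m) ∧ fb p s (Ai (2 * i + 3) m)) ?_)
    (card_biUnion_le.trans (sum_le_sum fun i hi => ?_))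
  · intro m hm
    obtain ⟨a, b, i, hi, c⟩ := mem_filter.1 hm
    exact mem_biUnion.2 ⟨i, mem_range.2 hi, mem_filter.2 ⟨iu_anti (by omega) u a, b, c⟩⟩
  · have hi := mem_range.1 hi
    have k1 : 2 * i + 3 ≤ 3 * r := by omega
    have k2 : (2 * i + 3) ^ 2 ≤ (3 * r) ^ 2 := Nat.pow_le_pow_left k1 2
    have k3 : 3 * r ≤ (3 * r) ^ 2 := Nat.le_self_pow two_ne_zero _
    have k4 := h.kz
    have k5 := h.ku
    exact hGEO p s t _ u ⟨i + 1, by ring⟩ (by omega) (by omega) h3 (by omega)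

theorem inner (p : Pm) (s t : Bool) {r k : ℕ} (hk : Odd k) (h3 : 3 ≤ k) (hkr : k ≤ 3 * r) :
    ∑ u ∈ uu p (3 * r), 1 / (u : ℝ) ^ 2 * (cn p s t (k * u / 2) : ℝ) ≤
      9 * r ^ 2 * ∑ N ∈ Icc 1 p.Y, (cn p s t N : ℝ) / N ^ 2 := by
  have hb : ∀ u ∈ uu p (3 * r), 1 ≤ k * u / 2 ∧ k * u / 2 ≤ 3 * r * u ∧ 3 * r * u ≤ p.Y ∧
      1 ≤ u ∧ k * u = 2 * (k * u / 2) + 1 := fun u hu => by
    obtain ⟨⟨h1, h2⟩, h4⟩ := mem_uu.1 hu
    have a1 := (Nat.le_div_iff_mul_le (by omega)).1 h2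
    have a2 : 3 * u ≤ k * u := Nat.mul_le_mul_right u h3
    have a3 : k * u ≤ 3 * r * u := Nat.mul_le_mul_right u hkr
    have a4 := Nat.odd_iff.1 (hk.mul h4)
    rw [mul_comm] at a1
    omega
  have hinj : Set.InjOn (fun u => k * u / 2) (uu p (3 * r)) := fun u hu v hv e => by
    have e1 := (hb u hu).2.2.2.2
    have e2 := (hb v hv).2.2.2.2
    have e3 : k * u / 2 = k * v / 2 := e
    exact Nat.eq_of_mul_eq_mul_left (by omega : 0 < k) (by omega)
  calc _ ≤ ∑ u ∈ uu p (3 * r), 9 * (r : ℝ) ^ 2 *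
        ((cn p s t (k * u / 2) : ℝ) / ((k * u / 2 : ℕ) : ℝ) ^ 2) := by
        refine sum_le_sum fun u hu => ?_
        obtain ⟨a1, a2, -, a4, -⟩ := hb u hu
        have b1 : (0 : ℝ) < (k * u / 2 : ℕ) := by exact_mod_cast a1
        have b2 : ((k * u / 2 : ℕ) : ℝ) ≤ 3 * r * u := by exact_mod_cast a2
        have b3 : (0 : ℝ) < u := by exact_mod_cast a4
        have b4 : 1 / (u : ℝ) ^ 2 ≤ 9 * (r : ℝ) ^ 2 / ((k * u / 2 : ℕ) : ℝ) ^ 2 := by
          rw [div_le_div_iff₀ (by positivity) (by positivity)]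
          have := pow_le_pow_left₀ b1.le b2 2
          linarith
        calc _ ≤ 9 * (r : ℝ) ^ 2 / ((k * u / 2 : ℕ) : ℝ) ^ 2 * (cn p s t (k * u / 2) : ℝ) :=
              mul_le_mul_of_nonneg_right b4 (Nat.cast_nonneg _)
          _ = _ := by ring
    _ ≤ _ := by
        rw [← mul_sum, ← sum_image (f := fun N : ℕ => (cn p s t N : ℝ) / (N : ℝ) ^ 2) hinj]
        refine mul_le_mul_of_nonneg_left (sum_le_sum_of_subset_of_nonneg (fun N hN => ?_)
          fun _ _ _ => by positivity) (by positivity)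
        obtain ⟨u, hu, rfl⟩ := mem_image.1 hN
        obtain ⟨a1, a2, a3, -⟩ := hb u hu
        exact mem_Icc.2 ⟨a1, a2.trans a3⟩

end CTc

theorem r_CT (hGEO : K_GEO) :
    K_CT := by
  intro p s t r hr h
  calc tt p s t r ≤ ∑ u ∈ uu p (3 * r), ∑ i ∈ range r,
        1 / (u : ℝ) ^ 2 * (cn p s t ((2 * i + 3) * u / 2) : ℝ) := by
        refine sum_le_sum fun u hu => ?_
        rw [← mul_sum]
        refine mul_le_mul_of_nonneg_left ?_ (by positivity)
        exact_mod_cast CTc.card_le hGEO s t h hu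
    _ ≤ ∑ _i ∈ range r, 9 * (r : ℝ) ^ 2 * ∑ N ∈ Icc 1 p.Y, (cn p s t N : ℝ) / N ^ 2 := by
        rw [sum_comm]
        refine sum_le_sum fun i hi => ?_
        have := mem_range.1 hi
        exact CTc.inner p s t ⟨i + 1, by ring⟩ (by omega) (by omega)
    _ = _ := by
        rw [sum_const, card_range, nsmul_eq_mul]
        ring

end Pool.Agent.P.LF
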