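import Pool.Agent.P.MP_e94e4b_nt.LF.IfB

/-! Step CVX. -/

namespace Pool.Agent.P.LF

open Finset Real Filter Topology MeasureTheory
open Pool.Agent.P.MP_e86632_nt (ee nn ee_add norm_ee ee_neg ee_zero)
open Pool.Agent.P.MP_8be758_nt.Avg (gs nsq gs_pos gs_le_one gs_neg gs_anti)
open Pool.Agent.P.E2
open Pool.Agent.P.PAR
open ArithmeticFunction (cardFactors vonMangoldt)
open DirichletCharacter (LFunction)

namespace CVXc

theorem key {x y z w : ℝ} (hx : 0 < x) (hy : 0 < y) (hz : 0 < z) (hw : 0 < w)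
    (h1 : x ^ 2 + y ^ 2 = z ^ 2 + w ^ 2) (h2 : 1 / x + 1 / y = 1 / z + 1 / w) : x * y = z * w := by
  have h3 : (x + y) * (z * w) = (z + w) * (x * y) := by
    field_simp at h2
    linarith
  have h4 : ((x + y) * (z * w)) ^ 2 = ((z + w) * (x * y)) ^ 2 := by rw [h3]
  have h5 : (z * w - x * y) * ((x ^ 2 + y ^ 2) * (x * y + z * w) + 2 * (x * y) * (z * w)) = 0 := by
    linear_combination h4 - (x * y) ^ 2 * h1
  have h6 : 0 < (x ^ 2 + y ^ 2) * (x * y + z * w) + 2 * (x * y) * (z * w) := by positivity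
  have h7 := (mul_eq_zero.1 h5).resolve_right h6.ne'
  linarith

end CVXc

theorem r_CVX :
    K_CVX := by
  intro a b c d ha hb hc hd hs h
  have s : ∀ n : ℕ, √(n : ℝ) ^ 2 = n := fun n => Real.sq_sqrt (Nat.cast_nonneg n)
  have t : ∀ n : ℕ, 0 < n → 0 < √(n : ℝ) := fun n hn => Real.sqrt_pos.2 (by exact_mod_cast hn)
  have h1 := CVXc.key (t a ha) (t b hb) (t c hc) (t d hd)
    (by rw [s, s, s, s]; exact_mod_cast hs) h
  have h2 : (a : ℝ) * b = c * d := by
    rw [← s a, ← s b, ← s c, ← s d, ← mul_pow, ← mul_pow, h1]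
  have h3 : (a : ℤ) * b = c * d := by exact_mod_cast h2
  have h4 : (a : ℤ) + b = c + d := by exact_mod_cast hs
  have h5 : ((a : ℤ) - c) * ((a : ℤ) - d) = 0 := by linear_combination a * h4 - h3
  rcases mul_eq_zero.1 h5 with e | e
  · left; omega
  · right; omega

end Pool.Agent.P.LF
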