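import Pool.Agent.P.MP_e94e4b_nt.LF.IfB

/-! Step DS0. -/

namespace Pool.Agent.P.LF

open Finset Real Filter Topology MeasureTheory
open Pool.Agent.P.MP_e86632_nt (ee nn ee_add norm_ee ee_neg ee_zero)
open Pool.Agent.P.MP_8be758_nt.Avg (gs nsq gs_pos gs_le_one gs_neg gs_anti)
open Pool.Agent.P.E2
open Pool.Agent.P.PAR
open ArithmeticFunction (cardFactors vonMangoldt)
open DirichletCharacter (LFunction)

namespace DS0c

theorem loc (hFOU : K_FOU) {D Δ P : ℕ} (hΔ : Δ ≤ 2 * D) (hP : 1 ≤ P) {τ d σ : ℝ} (hτ : 0 ≤ τ)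
    (h0 : 0 ≤ d) (h1 : d ≤ 1) (hσ : |σ| ≤ 1) (ξ : ℕ → BB) (Ξ : Finset ℕ)
    (hΞ : ∀ k < 16 * P, k ∉ Ξ →
      ‖hat (pq D P) (fun q => 1 / (q : ℂ)) (fun q => Δ * tq D q) (16 * P) k‖ ≤ τ) (x : ℕ) :
    ∑ q ∈ pq D P, σ * Mq D Δ P d (fun j => ξ (x + 1 + j)) q ≤ 8 * P * τ + ∑ k ∈ Ξ,
      (pq D P).card / P / 2 * ‖es (ph1 d ξ) x (4 * P) ((k : ℝ) / (16 * P : ℕ))‖ := by
  have h := hFOU (pq D P) Ξ (fun q => 1 / (q : ℂ)) (fun j => ph1 d ξ (x + 1 + j))
    (fun j => (vl d (ξ (x + 1 + j)).2 : ℝ)) (fun q => Δ * tq D q) P τ hP hτ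
    (fun q hq => mul_tq_le hΔ hq) (fun j => norm_ph1 h0 h1 ξ _)
    (fun j => by rw [Complex.norm_real]; exact abs_vl h0 h1 _) hΞ
  have e : ((∑ q ∈ pq D P, Mq D Δ P d (fun j => ξ (x + 1 + j)) q : ℝ) : ℂ) =
      ∑ q ∈ pq D P, 1 / (q : ℂ) * ∑ j ∈ range (4 * P),
        ph1 d ξ (x + 1 + j) * (vl d (ξ (x + 1 + (j + Δ * tq D q))).2 : ℝ) := by
    simp only [Mq, pp, ph1]
    push_cast
    exact sum_congr rfl fun q _ => by ring
  rw [← e, Complex.norm_real, Real.norm_eq_abs] at h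
  rw [← mul_sum]
  refine (le_abs_self _).trans ?_
  rw [abs_mul]
  refine (mul_le_of_le_one_left (abs_nonneg _) hσ).trans (h.trans (add_le_add le_rfl
    (sum_le_sum fun k _ => ?_)))
  rw [norm_es_range, mul_div_right_comm]
  refine mul_le_mul_of_nonneg_right (div_le_div_of_nonneg_right ((norm_sum_le_of_le _
    fun q _ => ?_).trans (rs_pq_le D P hP)) two_pos.le) (norm_nonneg _)
  rw [norm_mul, norm_ee, mul_one, norm_div, norm_one, Complex.norm_natCast]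

theorem blk (g : ℕ → ℂ) {L : ℕ} (hL : 2 ≤ L) (lo hi H : ℕ) (α : ℝ) :
    ∑ b ∈ Ioc lo hi, ∑ i ∈ range L, 1 / ((b : ℝ) * L) * ‖es g (b * L + i - 1) H α‖ ≤
      2 * ua g lo (2 * L * hi) H α := by
  have key : ∀ b ∈ Ioc lo hi, 2 * b ≤ b * L ∧ L ≤ b * L ∧ b * L ≤ L * hi ∧ lo < b := fun b hb => by
    obtain ⟨h1, h2⟩ := mem_Ioc.1 hb
    exact ⟨by nlinarith, Nat.le_mul_of_pos_left _ (by omega), by nlinarith, h1⟩
  have inj : Set.InjOn (fun z : ℕ × ℕ => z.1 * L + z.2 - 1) (Ioc lo hi ×ˢ range L : Finset _) := by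
    rintro ⟨b, i⟩ h1 ⟨c, j⟩ h2 h
    obtain ⟨a1, a2⟩ := mem_product.1 (mem_coe.1 h1)
    obtain ⟨a3, a4⟩ := mem_product.1 (mem_coe.1 h2)
    have a5 := key b a1
    have a6 := key c a3
    have a7 : b * L + i = c * L + j := by simp only at h; omega
    have a8 := congrArg (· % L) a7
    simp only [Nat.mul_add_mod_self_right, Nat.mod_eq_of_lt (mem_range.1 a2),
      Nat.mod_eq_of_lt (mem_range.1 a4)] at a8
    subst a8
    rw [Nat.eq_of_mul_eq_mul_right (by omega) (Nat.add_right_cancel a7)]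
  refine le_trans ?_ (mul_le_mul_of_nonneg_left (le_ua g H α (S := (Ioc lo hi ×ˢ range L).image
    fun z : ℕ × ℕ => z.1 * L + z.2 - 1) fun x hx => ?_) two_pos.le)
  · rw [sum_image inj, mul_sum, sum_product]
    refine sum_le_sum fun b hb => sum_le_sum fun i hi => ?_
    have a1 := key b hb
    have a2 := mem_range.1 hi
    have a3 : (0 : ℝ) < (b * L + i - 1 : ℕ) := by exact_mod_cast (by omega : 0 < b * L + i - 1)
    have a4 : ((b * L + i - 1 : ℕ) : ℝ) ≤ 2 * (b * L) := by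
      exact_mod_cast (by omega : b * L + i - 1 ≤ 2 * (b * L))
    rw [← mul_div_assoc, mul_div_right_comm]
    refine mul_le_mul_of_nonneg_right ?_ (norm_nonneg _)
    rw [div_le_div_iff₀ (by linarith) a3]
    linarith
  · obtain ⟨⟨b, i⟩, h1, rfl⟩ := mem_image.1 hx
    obtain ⟨a1, a2⟩ := mem_product.1 h1
    have a3 := key b a1
    have a4 := mem_range.1 a2
    rw [mul_assoc]
    exact mem_Ioc.2 ⟨by simp only at *; omega, by simp only at *; omega⟩

end DS0c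

theorem r_DS0 (hFOU : K_FOU) (hSPC : K_SPC) :
    K_DS0 := by
  intro D Δ η hD h1 h2 hη
  obtain ⟨K0, hK, h3⟩ := hSPC D Δ (η / 32) hD h1 h2 (by positivity)
  refine ⟨η / (8 * K0), by positivity, ?_⟩
  filter_upwards [h3, eventually_ge_atTop 1] with P h4 hP L lo hi d σ ξ hL hhi d0 d1 hσ hu
  set Ξ := (range (16 * P)).filter fun k => η / 32 * ((pq D P).card / P) <
    ‖hat (pq D P) (fun q => 1 / (q : ℂ)) (fun q => Δ * tq D q) (16 * P) k‖
  have p0 : (0 : ℝ) < P := by exact_mod_cast hP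
  have l0 : (0 : ℝ) < L := by exact_mod_cast (by omega : 0 < L)
  have lg : 1 ≤ Real.log hi := by
    rw [Real.le_log_iff_exp_le (by exact_mod_cast (by omega : 0 < hi))]
    exact Real.exp_one_lt_three.le.trans (by exact_mod_cast hhi)
  have a1 : da D Δ P L d σ 0 ξ lo hi ≤ ∑ b ∈ Ioc lo hi, ∑ i ∈ range L, 1 / ((b : ℝ) * L) *
      (8 * P * (η / 32 * ((pq D P).card / P)) + ∑ k ∈ Ξ, (pq D P).card / P / 2 *
        ‖es (ph1 d ξ) (b * L + i - 1) (4 * P) ((k : ℝ) / (16 * P : ℕ))‖) := by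
    refine sum_le_sum fun b hb => sum_le_sum fun i _ =>
      mul_le_mul_of_nonneg_left ?_ (by positivity)
    have : 0 < b * L := Nat.mul_pos (Nat.zero_lt_of_lt (mem_Ioc.1 hb).1) (by omega)
    have h := DS0c.loc hFOU h2 hP (by positivity) d0 d1 hσ ξ Ξ (fun k hk h =>
      not_lt.1 fun h' => h (mem_filter.2 ⟨mem_range.2 hk, h'⟩)) (b * L + i - 1)
    rw [show b * L + i - 1 + 1 = b * L + i by omega] at h
    simpa only [wb, wt_zero] using h
  have a2 : ∑ b ∈ Ioc lo hi, ∑ _i ∈ range L, 1 / ((b : ℝ) * L) *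
      (8 * P * (η / 32 * ((pq D P).card / P))) ≤ η / 2 * (pq D P).card * Real.log hi := by
    refine (sum_congr rfl fun b _ => ?_ : _ = ∑ b ∈ Ioc lo hi,
      η / 4 * (pq D P).card * (1 / (b : ℝ))).trans_le ?_
    · rw [sum_const, card_range, nsmul_eq_mul]
      field_simp
      ring
    · rw [← mul_sum]
      refine (mul_le_mul_of_nonneg_left ((harm_Ioc lo hi).trans (add_le_add lg le_rfl))
        (by positivity)).trans_eq (by ring)
  have a3 : ∀ k ∈ Ξ, ∑ b ∈ Ioc lo hi, ∑ i ∈ range L, 1 / ((b : ℝ) * L) * ((pq D P).card / P / 2 *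
      ‖es (ph1 d ξ) (b * L + i - 1) (4 * P) ((k : ℝ) / (16 * P : ℕ))‖) ≤
      η / 2 * (pq D P).card * Real.log hi / K0 := fun k _ => by
    have h := mul_le_mul_of_nonneg_left ((DS0c.blk _ hL lo hi _ _).trans
      (mul_le_mul_of_nonneg_left (hu ((k : ℝ) / (16 * P : ℕ))) two_pos.le))
      (show 0 ≤ ((pq D P).card : ℝ) / P / 2 by positivity)
    simp only [mul_sum, mul_left_comm (((pq D P).card : ℝ) / P / 2)] at h
    refine h.trans_eq ?_
    push_cast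
    field_simp
    ring
  have a4 := sum_le_card_nsmul _ _ _ a3
  rw [nsmul_eq_mul] at a4
  have a5 := a4.trans (mul_le_mul_of_nonneg_right h4 (by positivity))
  rw [mul_div_cancel₀ _ hK.ne', sum_comm] at a5
  simp only [sum_comm (s := Ξ)] at a5
  simp only [mul_add, sum_add_distrib, mul_sum Ξ] at a1
  linarith

end Pool.Agent.P.LF
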