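import Pool.Agent.P.MP_e94e4b_nt.LF.IfB

/-! Step DS1. -/

namespace Pool.Agent.P.LF

open Finset Real Filter Topology MeasureTheory
open Pool.Agent.P.MP_e86632_nt (ee nn ee_add norm_ee ee_neg ee_zero)
open Pool.Agent.P.MP_8be758_nt.Avg (gs nsq gs_pos gs_le_one gs_neg gs_anti)
open Pool.Agent.P.E2
open Pool.Agent.P.PAR
open ArithmeticFunction (cardFactors vonMangoldt)
open DirichletCharacter (LFunction)

namespace DS1c

theorem pw4 {x τ S : ℝ} (hτ : 0 < τ) (h0 : 0 ≤ x) (h : x ^ 4 ≤ S) : x ≤ τ + S / τ ^ 3 := by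
  have s0 : 0 ≤ S := le_trans (by positivity) h
  rcases le_total x τ with a | a
  · exact a.trans (le_add_of_nonneg_right (by positivity))
  · refine le_trans ?_ (le_add_of_nonneg_left hτ.le)
    rw [le_div_iff₀ (by positivity)]
    calc x * τ ^ 3 ≤ x * x ^ 3 := by gcongr
      _ = x ^ 4 := by ring
      _ ≤ S := h

theorem loc (hFOU : K_FOU) {D Δ P : ℕ} (hΔ : Δ ≤ 2 * D) (hP : 1 ≤ P) {τ d σ : ℝ} (hτ : 0 < τ)
    (h0 : 0 ≤ d) (h1 : d ≤ 1) (hσ : |σ| ≤ 1) (ω : ℝ) (L b : ℕ) (x : ℕ → BB) :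
    ∑ q ∈ pq D P, wb σ ω L b q * Mq D Δ P d x q ≤ 8 * P * (τ + (∑ k ∈ range (16 * P),
      ‖hat (pq D P) (fun q => ee (ω * √((b : ℝ) * L / q)) / q) (fun q => Δ * tq D q)
        (16 * P) k‖ ^ 4) / τ ^ 3) := by
  have h := hFOU (pq D P) ∅ (fun q => ee (ω * √((b : ℝ) * L / q)) / q) (fun j => ph1 d x j)
    (fun j => (vl d (x j).2 : ℝ)) (fun q => Δ * tq D q) P _ hP (by positivity)
    (fun q hq => mul_tq_le hΔ hq) (fun j => norm_ph1 h0 h1 x _)
    (fun j => by rw [Complex.norm_real]; exact abs_vl h0 h1 _) fun k hk _ =>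
      pw4 hτ (norm_nonneg _) (single_le_sum (f := fun k => ‖hat (pq D P)
        (fun q => ee (ω * √((b : ℝ) * L / q)) / q) (fun q => Δ * tq D q) (16 * P) k‖ ^ 4)
        (fun _ _ => by positivity) (mem_range.2 hk))
  rw [sum_empty, add_zero] at h
  have e : ∑ q ∈ pq D P, wb σ ω L b q * Mq D Δ P d x q =
      σ * (∑ q ∈ pq D P, ee (ω * √((b : ℝ) * L / q)) / q * ∑ j ∈ range (4 * P),
        ph1 d x j * (vl d (x (j + Δ * tq D q)).2 : ℝ)).re := by
    rw [Complex.re_sum, mul_sum]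
    refine sum_congr rfl fun q _ => ?_
    rw [wb, wt_eq, mul_assoc, ← Complex.re_mul_ofReal]
    congr 2
    simp only [Mq, pp, ph1]
    push_cast; ring
  rw [e]
  refine (le_abs_self _).trans ?_
  rw [abs_mul]
  exact (mul_le_of_le_one_left (abs_nonneg _) hσ).trans ((Complex.abs_re_le_norm _).trans h)

end DS1c

theorem r_DS1 (hPQC : L_PQC) (hFOU : K_FOU) (hM4 : K_M4) :
    K_DS1 := by
  intro D Δ ω η hD h1 h2 hω hη
  have D0 : (0 : ℝ) < D := by exact_mod_cast hD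
  obtain ⟨c, hc, c0⟩ : ∃ c : ℝ, c = η * (η / 64) ^ 3 / (8192 * D ^ 2) ∧ 0 < c :=
    ⟨_, rfl, by positivity⟩
  have ev : ∀ᶠ P : ℕ in atTop, Real.log P ^ 2 ≤ c * P := by
    have := (Real.isLittleO_pow_log_id_atTop (n := 2)).bound c0
    filter_upwards [tendsto_natCast_atTop_atTop.eventually this] with P h
    simpa using h
  filter_upwards [hPQC.2 D hD, ev, eventually_ge_atTop 2] with P a1 a2 hP L hL
  obtain ⟨C, hC⟩ := hM4 D Δ P L ω h1 h2 (by omega) hL hω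
  have p0 : (1 : ℝ) < P := by exact_mod_cast hP
  have lp := Real.log_pos p0
  set N : ℝ := ((pq D P).card : ℝ) with hN
  have N0 : 0 < N := lt_of_lt_of_le (by positivity) a1
  obtain ⟨τ, hτ, τ0⟩ : ∃ τ : ℝ, τ = η / 64 * (N / P) ∧ 0 < τ := ⟨_, rfl, by positivity⟩
  filter_upwards [ev_log (8 * P / τ ^ 3 * C) (c := η / 2 * N) (by positivity), ev_log 1 one_pos]
    with hi b1 b2 lo d σ ξ d0 d1 hσ
  have l0 : (0 : ℝ) < L := by exact_mod_cast hL
  have e1 : da D Δ P L d σ ω ξ lo hi ≤ ∑ b ∈ Ioc lo hi, (8 * P * τ * (1 / (b : ℝ)) +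
      8 * P / τ ^ 3 * (1 / (b : ℝ) * ∑ k ∈ range (16 * P),
      ‖hat (pq D P) (fun q => ee (ω * √((b : ℝ) * L / q)) / q) (fun q => Δ * tq D q)
        (16 * P) k‖ ^ 4)) := by
    refine sum_le_sum fun b _ => (sum_le_sum fun i _ => mul_le_mul_of_nonneg_left
      (DS1c.loc hFOU h2 (by omega) τ0 d0 d1 hσ ω L b _) (by positivity)).trans_eq ?_
    rw [sum_const, card_range, nsmul_eq_mul]
    field_simp
  rw [sum_add_distrib, ← mul_sum, ← mul_sum] at e1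
  have e2 := mul_le_mul_of_nonneg_left (harm_Ioc lo hi) (show 0 ≤ 8 * P * τ by positivity)
  have e3 := mul_le_mul_of_nonneg_left (hC lo hi) (show 0 ≤ 8 * P / τ ^ 3 by positivity)
  have e4 : 8 * P * τ = η / 8 * N := by rw [hτ]; field_simp; ring
  have e5 : 8 * P / τ ^ 3 * (32 * N ^ 2 / P ^ 3) ≤ η / 8 * N := by
    have f1 : (P : ℝ) ^ 2 ≤ (N * (2 * D * Real.log P)) ^ 2 :=
      pow_le_pow_left₀ (by positivity) ((div_le_iff₀ (by positivity)).1 a1) 2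
    have f2 : (P : ℝ) * P ≤ 4 * D ^ 2 * N ^ 2 * c * P := by
      nlinarith [mul_le_mul_of_nonneg_left a2 (show 0 ≤ 4 * (D : ℝ) ^ 2 * N ^ 2 by positivity)]
    have f3 := le_of_mul_le_mul_right f2 (by linarith)
    calc _ = 256 / ((η / 64) ^ 3 * N) * P := by rw [hτ]; field_simp; ring
      _ ≤ 256 / ((η / 64) ^ 3 * N) * (4 * D ^ 2 * N ^ 2 * c) := by gcongr
      _ = _ := by rw [hc]; field_simp; ring
  have e6 := mul_le_mul_of_nonneg_right e5 (show 0 ≤ 1 + Real.log hi by linarith)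
  have e7 := mul_le_mul_of_nonneg_left b2 (show 0 ≤ η * N by positivity)
  rw [e4] at e1 e2
  nlinarith

end Pool.Agent.P.LF
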