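import Pool.Agent.P.MP_e94e4b_nt.LF.IfA

/-! Step DYA. -/

namespace Pool.Agent.P.LF

open Finset Real Filter Topology MeasureTheory
open Pool.Agent.P.MP_e86632_nt (ee nn ee_add norm_ee ee_neg ee_zero)
open Pool.Agent.P.MP_8be758_nt.Avg (gs nsq gs_pos gs_le_one gs_neg gs_anti)
open Pool.Agent.P.E2
open Pool.Agent.P.PAR
open ArithmeticFunction (cardFactors vonMangoldt)
open DirichletCharacter (LFunction)

namespace DYAc

theorem ind {F : ℕ → ℝ} {w hi : ℕ} {B : ℝ} (hw : 1 ≤ w) (hF : ∀ x, 0 ≤ F x)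
    (h : ∀ X, w ≤ X → X ≤ hi → ∑ x ∈ Ioc (2 * X) (4 * X), F x ≤ B * X) (j : ℕ)
    (hj : 2 ^ j * w ≤ hi) : ∑ x ∈ Ioc (2 * w) (2 * (2 ^ j * w)), F x / x ≤ j * B / 2 := by
  induction j with
  | zero => simp
  | succ j ih =>
    have e : 2 ^ (j + 1) * w = 2 * (2 ^ j * w) := by ring
    rw [e] at hj ⊢
    have hle : w ≤ 2 ^ j * w := Nat.le_mul_of_pos_left _ (by positivity)
    set X := 2 ^ j * w with hX
    have hX0 : (0 : ℝ) < X := by exact_mod_cast (show 0 < X by omega)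
    have e2 : 2 * (2 * X) = 4 * X := by ring
    rw [e2, ← sum_Ioc_consecutive _ (show 2 * w ≤ 2 * X by omega) (show 2 * X ≤ 4 * X by omega)]
    have h1 := ih (by omega)
    have h2 : ∑ x ∈ Ioc (2 * X) (4 * X), F x / x ≤ B / 2 := by
      calc _ ≤ ∑ x ∈ Ioc (2 * X) (4 * X), F x / (2 * X : ℝ) := by
            refine sum_le_sum fun x hx => div_le_div_of_nonneg_left (hF x) (by positivity) ?_
            exact_mod_cast (mem_Ioc.1 hx).1.le
        _ = (∑ x ∈ Ioc (2 * X) (4 * X), F x) / (2 * X : ℝ) := (sum_div _ _ _).symm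
        _ ≤ B * X / (2 * X : ℝ) :=
            div_le_div_of_nonneg_right (h X hle (by omega)) (by positivity)
        _ = B / 2 := by field_simp
    push_cast
    linarith

end DYAc

theorem r_DYA :
    K_DYA := by
  intro F w hi B hw hB hF h
  have hl0 : 0 ≤ Real.log hi := Real.log_natCast_nonneg hi
  rcases lt_or_ge hi w with hlt | hle
  · rw [Ioc_eq_empty (by omega), sum_empty]
    positivity
  set j := Nat.log 2 (hi / w) with hj
  have hq : 0 < hi / w := Nat.div_pos hle (by omega)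
  have a1 : 2 ^ j * w ≤ hi :=
    (Nat.mul_le_mul_right w (Nat.pow_log_le_self 2 hq.ne')).trans (Nat.div_mul_le_self _ _)
  have a2 : hi < 2 ^ (j + 1) * w :=
    (Nat.div_lt_iff_lt_mul (by omega)).1 (Nat.lt_pow_succ_log_self (by norm_num) _)
  have e : 2 ^ (j + 1) * w = 2 * (2 ^ j * w) := by ring
  rw [e] at a2
  have a3 : 2 ^ j ≤ hi := (Nat.le_mul_of_pos_right _ (by omega)).trans a1
  have a4 : (j : ℝ) * Real.log 2 ≤ Real.log hi := by
    rw [← Real.log_pow]
    exact Real.log_le_log (by positivity) (by exact_mod_cast a3)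
  have a5 : (j : ℝ) / 2 ≤ Real.log hi := by
    have := Real.log_two_gt_d9
    have hj0 : (0 : ℝ) ≤ j := Nat.cast_nonneg j
    nlinarith
  calc _ ≤ ∑ x ∈ Ioc (2 * w) (2 * (2 ^ j * w)), F x / x :=
        sum_le_sum_of_subset_of_nonneg (Ioc_subset_Ioc_right a2.le) fun x _ _ =>
          div_nonneg (hF x) (Nat.cast_nonneg x)
    _ ≤ j * B / 2 := DYAc.ind hw hF h j a1
    _ = B * (j / 2) := by ring
    _ ≤ _ := mul_le_mul_of_nonneg_left (by linarith) hB

end Pool.Agent.P.LF
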