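import Pool.Agent.P.MP_e94e4b_nt.LF.IfB

/-! Step EB2. -/

namespace Pool.Agent.P.LF

open Finset Real Filter Topology MeasureTheory
open Pool.Agent.P.MP_e86632_nt (ee nn ee_add norm_ee ee_neg ee_zero)
open Pool.Agent.P.MP_8be758_nt.Avg (gs nsq gs_pos gs_le_one gs_neg gs_anti)
open Pool.Agent.P.E2
open Pool.Agent.P.PAR
open ArithmeticFunction (cardFactors vonMangoldt)
open DirichletCharacter (LFunction)

namespace EB2c

theorem term {η a P k N T lQ lP : ℝ} (ha : 1 ≤ a) (hP : 2 ≤ P)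
    (hk : 1 ≤ k) (hT : 0 ≤ T) (hl : 0 < lP) (hN : P / (2 * a * lP) ≤ N) (hQ : lQ ≤ 3 * P) :
    η ^ 2 / (5184 * a) / lP * T - 1 / P - 1 / k ≤
      (η ^ 2 * N / 324 * T - Real.log 2) / (8 * P) - lQ / (8 * (k * P)) := by
  have h2 : Real.log 2 ≤ 1 := by
    have := Real.log_le_sub_one_of_pos (show (0 : ℝ) < 2 by norm_num); linarith
  have hP0 : 0 < P := by linarith
  have h3 : η ^ 2 / (5184 * a) / lP * T ≤ η ^ 2 * N / 324 * T / (8 * P) := by
    calc _ = η ^ 2 * (P / (2 * a * lP)) / 324 * T / (8 * P) := by field_simp; ring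
      _ ≤ _ := by gcongr
  have h4 : Real.log 2 / (8 * P) ≤ 1 / P :=
    div_le_div₀ zero_le_one h2 hP0 (by nlinarith)
  have h5 : lQ / (8 * (k * P)) ≤ 1 / k := by
    rw [div_le_div_iff₀ (by positivity) (by positivity)]
    have h6 : 0 < k * P := by positivity
    nlinarith [mul_le_mul_of_nonneg_right hQ (show 0 ≤ k by positivity)]
  rw [sub_div]
  linarith

end EB2c

theorem r_EB2 (hED : L_ED) (hPQC : L_PQC) (hGD2 : K_GD2) :
    K_EB2 := by
  intro D s Δ L b J d η w ξ P k hD hΔ d0 d1 η0 η1 hw hL hP0 h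
  have key := hED (fun n => ξ (b * L + n % L)) L J (fun j => 8 * P j) k
    (fun j => ∏ q ∈ pq D (P j), q) (fun j => η ^ 2 * (pq D (P j)).card / 324)
    (fun j => Ge D s Δ (P j) d η w) hL
    (fun n => by rw [Nat.add_mod_right]) (Nat.mul_pos (by omega) hP0) (fun j hj => by
      obtain ⟨h1, h2, h3, h4, -⟩ := h j hj
      obtain ⟨g1, g2, g3⟩ := hGD2 D s Δ (P j) d η w hΔ d0 d1 η0 η1 hw
      refine ⟨h2, by rw [h3]; ring, prod_pos fun q hq => (mem_pq.1 hq).2.1.pos, h4, g1, g2,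
        fun x => le_of_eq_of_le ?_ (g3 x)⟩
      rfl)
  refine le_trans (sum_le_sum fun j hj => ?_) key
  obtain ⟨h1, h2, h3, h4, h5⟩ := h j (mem_range.1 hj)
  have h6 : (2 : ℝ) ≤ P j := by exact_mod_cast h1
  have h7 := EB2c.term (η := η) (T := tc D s Δ (P j) L d η w ξ b)
    (show (1 : ℝ) ≤ D by exact_mod_cast hD) h6 (show (1 : ℝ) ≤ k j by exact_mod_cast h2)
    (tc_nonneg _ _ _ _ _ _ _ _ _ _) (Real.log_pos (by linarith)) h5 (hPQC.1 D (P j))
  refine h7.trans_eq ?_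
  simp only [h3]
  push_cast
  rfl

end Pool.Agent.P.LF
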