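import Pool.Agent.P.MP_e94e4b_nt.LF.IfB

/-! Step F4. -/

namespace Pool.Agent.P.LF

open Finset Real Filter Topology MeasureTheory
open Pool.Agent.P.MP_e86632_nt (ee nn ee_add norm_ee ee_neg ee_zero)
open Pool.Agent.P.MP_8be758_nt.Avg (gs nsq gs_pos gs_le_one gs_neg gs_anti)
open Pool.Agent.P.E2
open Pool.Agent.P.PAR
open ArithmeticFunction (cardFactors vonMangoldt)
open DirichletCharacter (LFunction)

namespace F4c

theorem hat_sq (S : Finset ℕ) (c : ℕ → ℂ) (e : ℕ → ℕ) (M k : ℕ) :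
    hat S c e M k * hat S c e M k = ∑ y ∈ S ×ˢ S,
      c y.1 * c y.2 * ee ((k : ℝ) * (e y.1 + e y.2 : ℕ) / M) := by
  rw [hat, sum_mul_sum, sum_product]
  refine sum_congr rfl fun a _ => sum_congr rfl fun b _ => ?_
  rw [show (k : ℝ) * (e a + e b : ℕ) / M = (k : ℝ) * e a / M + (k : ℝ) * e b / M by
    push_cast; ring, ee_add]
  ring

theorem four (S : Finset ℕ) (c : ℕ → ℂ) (e : ℕ → ℕ) (M k : ℕ) :
    ((‖hat S c e M k‖ ^ 4 : ℝ) : ℂ) = ∑ x ∈ (S ×ˢ S) ×ˢ (S ×ˢ S),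
      c x.1.1 * c x.1.2 * (starRingEnd ℂ) (c x.2.1 * c x.2.2) *
        ee ((k : ℝ) * (((e x.1.1 + e x.1.2 : ℕ) : ℤ) - (e x.2.1 + e x.2.2 : ℕ) : ℤ) / M) := by
  have h1 : ((‖hat S c e M k‖ ^ 4 : ℝ) : ℂ) = (hat S c e M k * hat S c e M k) *
      (starRingEnd ℂ) (hat S c e M k * hat S c e M k) := by
    rw [Complex.mul_conj, Complex.normSq_eq_norm_sq, norm_mul]
    congr 1; ring
  rw [h1, hat_sq, map_sum, sum_mul_sum, sum_product (S ×ˢ S)]
  refine sum_congr rfl fun a _ => sum_congr rfl fun b _ => ?_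
  rw [show (k : ℝ) * (((e a.1 + e a.2 : ℕ) : ℤ) - (e b.1 + e b.2 : ℕ) : ℤ) / M =
    (k : ℝ) * (e a.1 + e a.2 : ℕ) / M + -((k : ℝ) * (e b.1 + e b.2 : ℕ) / M) by
    push_cast; ring, ee_add, ee_neg, map_mul (starRingEnd ℂ) (c b.1 * c b.2)]
  ring

end F4c

theorem r_F4 (hORT : K_ORT) :
    K_F4 := by
  intro S c e M hM he
  rw [Complex.ofReal_sum, sum_congr rfl fun k _ => F4c.four S c e M k, sum_comm, sum_filter,
    mul_sum]
  refine sum_congr rfl fun x hx => ?_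
  obtain ⟨h1, h2⟩ := mem_product.1 hx
  have a1 := he _ (mem_product.1 h1).1
  have a2 := he _ (mem_product.1 h1).2
  have a3 := he _ (mem_product.1 h2).1
  have a4 := he _ (mem_product.1 h2).2
  rw [← mul_sum, hORT M _ hM]
  by_cases h : e x.1.1 + e x.1.2 = e x.2.1 + e x.2.2
  · rw [if_pos h, if_pos (by rw [h, sub_self]; exact dvd_zero _)]
    ring
  · rw [if_neg h, if_neg, mul_zero, mul_zero]
    intro hd
    have := Int.eq_zero_of_abs_lt_dvd hd (by rw [abs_lt]; constructor <;> omega)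
    omega

end Pool.Agent.P.LF
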