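import Pool.Agent.P.MP_e94e4b_nt.LF.IfB

/-! Step FEJ. -/

namespace Pool.Agent.P.LF

open Finset Real Filter Topology MeasureTheory
open Pool.Agent.P.MP_e86632_nt (ee nn ee_add norm_ee ee_neg ee_zero)
open Pool.Agent.P.MP_8be758_nt.Avg (gs nsq gs_pos gs_le_one gs_neg gs_anti)
open Pool.Agent.P.E2
open Pool.Agent.P.PAR
open ArithmeticFunction (cardFactors vonMangoldt)
open DirichletCharacter (LFunction)

namespace FEJc

theorem sum_eq (J : ℕ) (x : ℝ) :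
    ∑ a ∈ range J, ∑ b ∈ range J, wt ((-1) ^ (a + b)) ((a : ℝ) - b) x =
      (∑ a ∈ range J, (-1 : ℝ) ^ a * Real.cos (2 * π * (a * √x))) ^ 2 +
      (∑ a ∈ range J, (-1 : ℝ) ^ a * Real.sin (2 * π * (a * √x))) ^ 2 := by
  rw [pow_two, pow_two, sum_mul_sum, sum_mul_sum, ← sum_add_distrib]
  refine sum_congr rfl fun a _ => ?_
  rw [← sum_add_distrib]
  refine sum_congr rfl fun b _ => ?_
  rw [wt, show 2 * π * (((a : ℝ) - b) * √x) = 2 * π * (a * √x) - 2 * π * (b * √x) by ring,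
    Real.cos_sub, pow_add]
  ring

theorem close {J u m : ℕ} (hJ : 1 ≤ J) (hu : 1 ≤ u) (h : m ∈ iu (3 * J) u) :
    J * |√(m : ℝ) - u / 2| ≤ 1 / 6 := by
  obtain ⟨-, h1, h2⟩ := mem_iu.1 h
  have h1' : (3 * J : ℝ) * (4 * m) ≤ 3 * J * u ^ 2 + u := by exact_mod_cast h1
  have h2' : (3 * J : ℝ) * u ^ 2 ≤ 3 * J * (4 * m) + u := by exact_mod_cast h2
  have hy : 0 ≤ √(m : ℝ) := Real.sqrt_nonneg _
  have hm : √(m : ℝ) ^ 2 = m := Real.sq_sqrt (Nat.cast_nonneg m)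
  have hu' : (1 : ℝ) ≤ u := by exact_mod_cast hu
  have hJ' : (1 : ℝ) ≤ J := by exact_mod_cast hJ
  set y := √(m : ℝ) with hyd
  rw [← hm] at h1' h2'
  have e1 : (u : ℝ) * (J * |y - u / 2|) ≤ u * (1 / 6) := by
    rcases abs_cases (y - u / 2) with ⟨e, he⟩ | ⟨e, he⟩
    · rw [e]
      have : 0 ≤ (J : ℝ) * ((y - u / 2) * y) := by positivity
      nlinarith
    · rw [e]
      have h3 : 0 ≤ -(y - u / 2) := by linarith
      have : 0 ≤ (J : ℝ) * (-(y - u / 2) * y) := by positivity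
      nlinarith
  exact le_of_mul_le_mul_left e1 (by linarith)

theorem term {J u m a b : ℕ} (hJ : 1 ≤ J) (hu : Odd u) (h : m ∈ iu (3 * J) u) (ha : a < J)
    (hb : b < J) : 1 / 4 ≤ wt ((-1) ^ (a + b)) ((a : ℝ) - b) m := by
  have hc := close hJ hu.pos h
  set e := √(m : ℝ) - u / 2 with he
  have h1 : 2 * π * (((a : ℝ) - b) * √(m : ℝ)) =
      2 * π * ((a - b) * e) + ((((a : ℤ) - b) * u : ℤ) : ℝ) * π := by
    push_cast
    rw [he]
    ring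
  have h2 : ((-1 : ℝ) ^ (a + b)) * (-1 : ℝ) ^ (((a : ℤ) - b) * u) = 1 := by
    rw [← zpow_natCast, ← zpow_add₀ (by norm_num)]
    apply Even.neg_one_zpow
    obtain ⟨t, ht⟩ := hu
    refine ⟨a + ((a : ℤ) - b) * t, ?_⟩
    rw [ht]
    push_cast
    ring
  rw [wt, h1, Real.cos_add_int_mul_pi, ← mul_assoc, h2, one_mul]
  have hab : |(a : ℝ) - b| ≤ J := by
    have ha' : (a : ℝ) ≤ J := by exact_mod_cast ha.le
    have hb' : (b : ℝ) ≤ J := by exact_mod_cast hb.le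
    have ha0 : (0 : ℝ) ≤ a := Nat.cast_nonneg a
    have hb0 : (0 : ℝ) ≤ b := Nat.cast_nonneg b
    rw [abs_le]
    constructor <;> linarith
  have h3 : |((a : ℝ) - b) * e| ≤ 1 / 6 := by
    rw [abs_mul]
    exact (mul_le_mul_of_nonneg_right hab (abs_nonneg _)).trans hc
  have h4 : (((a : ℝ) - b) * e) ^ 2 ≤ (1 / 6) ^ 2 := by
    rw [← sq_abs]
    exact pow_le_pow_left₀ (abs_nonneg _) h3 2
  have h5 : π ^ 2 ≤ 3.15 ^ 2 := pow_le_pow_left₀ Real.pi_pos.le Real.pi_lt_d2.le 2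
  have h6 : π ^ 2 * (((a : ℝ) - b) * e) ^ 2 ≤ 3.15 ^ 2 * (1 / 6) ^ 2 :=
    mul_le_mul h5 h4 (by positivity) (by positivity)
  have h7 := Real.one_sub_sq_div_two_le_cos (x := 2 * π * (((a : ℝ) - b) * e))
  have h8 : (2 * π * (((a : ℝ) - b) * e)) ^ 2 = 4 * (π ^ 2 * (((a : ℝ) - b) * e) ^ 2) := by ring
  rw [h8] at h7
  norm_num at h6 h7 ⊢
  linarith

end FEJc

theorem r_FEJ :
    K_FEJ := by
  intro J hJ
  refine ⟨fun x => ?_, fun u m hu h => ?_⟩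
  · rw [fj, FEJc.sum_eq]
    positivity
  · have hJ' : (0 : ℝ) < J := by exact_mod_cast hJ
    have h1 : ∑ _a ∈ range J, ∑ _b ∈ range J, (1 / 4 : ℝ) ≤
        ∑ a ∈ range J, ∑ b ∈ range J, wt ((-1) ^ (a + b)) ((a : ℝ) - b) m :=
      sum_le_sum fun a ha => sum_le_sum fun b hb =>
        FEJc.term hJ hu h (mem_range.1 ha) (mem_range.1 hb)
    rw [sum_const, sum_const, card_range, nsmul_eq_mul, nsmul_eq_mul] at h1
    calc (1 : ℝ) = 4 / (J : ℝ) ^ 2 * (J * (J * (1 / 4))) := by field_simp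
      _ ≤ fj J m := mul_le_mul_of_nonneg_left h1 (by positivity)

end Pool.Agent.P.LF
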