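import Pool.Agent.P.MP_e94e4b_nt.LF.IfA

/-! Step FFA. -/

namespace Pool.Agent.P.LF

open Finset Real Filter Topology MeasureTheory
open Pool.Agent.P.MP_e86632_nt (ee nn ee_add norm_ee ee_neg ee_zero)
open Pool.Agent.P.MP_8be758_nt.Avg (gs nsq gs_pos gs_le_one gs_neg gs_anti)
open Pool.Agent.P.E2
open Pool.Agent.P.PAR
open ArithmeticFunction (cardFactors vonMangoldt)
open DirichletCharacter (LFunction)

namespace FFAc

theorem small {g : ℕ → ℂ} {X : ℕ} {Z T B : ℝ} (hT : 0 ≤ T)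
    (hB : ∀ t : ℝ, |t| ≤ T → ‖FG g X t‖ ≤ B) :
    mg g X Z {t | |t| ≤ T} ≤ 2 * T * B ^ 2 := by
  have hU : Us 0 T (2 * T) {t | |t| ≤ T} := by
    refine ⟨meas_abs_le T, fun t ht => ⟨abs_nonneg t, ht⟩, ?_⟩
    rw [show {t : ℝ | |t| ≤ T} = Set.Icc (-T) T from
      Set.ext fun t => (abs_le (a := t) (b := T) :),
      Real.volume_real_Icc_of_le (by linarith)]
    linarith
  refine hU.int_le (by fun_prop) (by positivity) fun t ht => ?_
  exact (mul_le_of_le_one_left (by positivity) (gs_le_one _)).trans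
    (pow_le_pow_left₀ (norm_nonneg _) (hB t ht) 2)

theorem tail {g : ℕ → ℂ} (hg : ∀ n, ‖g n‖ ≤ 1) {X : ℕ} {Z ε : ℝ}
    (hZ : 0 < Z) (hZX : Z ≤ X) (hX : 98 ≤ ε * X) :
    mg g X Z {t | (X : ℝ) ^ 2 ≤ |t|} ≤ ε * X ^ 2 := by
  have h0 : (0 : ℝ) < X := hZ.trans_le hZX
  have h1 : mg g X Z {t | (X : ℝ) ^ 2 ≤ |t|} ≤ mg g X Z {t | Z * X ≤ |t|} :=
    mg_mono g X hZ fun t (ht : (X : ℝ) ^ 2 ≤ |t|) => show Z * X ≤ |t| by nlinarith
  have h2 : mg g X Z {t | Z * X ≤ |t|} ≤ ∫ t in {t : ℝ | Z * X ≤ |t|}, gs (t / Z) * (7 * X) ^ 2 :=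
    setIntegral_mono_on ((bd_FG g X).int hZ).integrableOn
      ((gs_integrable hZ).mul_const _).integrableOn (meas_abs_ge _) fun t _ =>
      mul_le_mul_of_nonneg_left (pow_le_pow_left₀ (norm_nonneg _) (norm_FG_le hg X t) 2) (gs_pos _).le
  rw [integral_mul_const] at h2
  have h3 := gs_tail hZ h0.le
  have h4 : Real.exp (-(X : ℝ) ^ 2) * X ^ 2 ≤ 1 := by
    rw [Real.exp_neg, inv_mul_le_iff₀ (Real.exp_pos _)]
    linarith [Real.add_one_le_exp ((X : ℝ) ^ 2)]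
  have h5 := Real.exp_pos (-(X : ℝ) ^ 2)
  calc _ ≤ 2 * Z * Real.exp (-(X : ℝ) ^ 2) * (7 * X) ^ 2 :=
        (h1.trans h2).trans (mul_le_mul_of_nonneg_right h3 (by positivity))
    _ = 98 * Z * (Real.exp (-(X : ℝ) ^ 2) * X ^ 2) := by ring
    _ ≤ ε * X * X * 1 := by gcongr
    _ = _ := by ring

end FFAc

theorem r_FFA (hCHA : K_CHA) (hBMA : K_BMA) (hMIA : K_MIA) (hUUA : K_UUA) (hSMA : K_SMA) :
    K_FFA := by
  intro l ε hl hε
  have hε5 : 0 < ε / 5 := by positivity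
  obtain ⟨κ0, hκ, hUU⟩ := hUUA
  obtain ⟨α, b, hα, hBM⟩ := hBMA κ0 hκ
  obtain ⟨h0, hh0, hCH⟩ := hCHA l α (ε / 5) b hl hα hε5
  obtain ⟨T1, hMID⟩ := hMIA l (ε / 5) hl hε5
  set T := max T1 1 with hT
  have hT1 : 1 ≤ T := le_max_right _ _
  set e := min 1 (ε / (10 * T)) with he
  have he0 : 0 < e := lt_min one_pos (by positivity)
  obtain ⟨ε', hε', hSM⟩ := hSMA T e he0
  refine ⟨h0, ε', hh0, hε', ?_⟩
  filter_upwards [ev_X (((hUU l (ε / 5) hl hε5).and hBM).and (hCH.and hMID)),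
    tendsto_natCast_atTop_atTop.eventually_ge_atTop h0,
    (tendsto_natCast_atTop_atTop.const_mul_atTop hε5).eventually_ge_atTop (98 : ℝ)]
    with X ⟨r, ⟨⟨k1, k2⟩, k3, k4⟩, hX⟩ k6 k7 κ g hI hS
  have hX0 : (0 : ℝ) ≤ X := Nat.cast_nonneg X
  have z1 : 1 ≤ (X : ℝ) / h0 := (one_le_div (by linarith)).2 k6
  have z2 : (X : ℝ) / h0 ≤ X := div_le_self hX0 hh0
  have z0 : 0 < (X : ℝ) / h0 := by linarith
  obtain ⟨ρ, α', s1, s2, s3, s4, s6⟩ := k3 X hX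
  have s5 := s6 κ g hI
  have m1 := FFAc.small (Z := X / h0) (by linarith : 0 ≤ T) fun t ht => hSM g X t hS ht
  have m2 := k4 X κ g _ hX hI z1 z2
  have m4 := k1 X κ g _ _ hX hI z1 z2 (k2 l ρ α' s1 s2 s3 s4)
  have m5 := FFAc.tail hI.bd z0 z2 k7
  have hx2 : (X : ℝ) ^ 2 = Real.exp (2 * r ^ 13) := by
    rw [hX, XX, ← Real.exp_nat_mul]; norm_num
  have m1' : 2 * T * (e * X) ^ 2 ≤ ε / 5 * X ^ 2 := by
    have a1 : e ≤ 1 := min_le_left _ _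
    have a2 : e * (10 * T) ≤ ε := (le_div_iff₀ (by positivity)).1 (min_le_right _ _)
    have a3 : 2 * T * e ^ 2 ≤ ε / 5 := by nlinarith
    calc _ = 2 * T * e ^ 2 * X ^ 2 := by ring
      _ ≤ _ := by gcongr
  have c := mg_mono g X z0 (T := Set.univ) (T' := {t | |t| ≤ T} ∪
    ({t | T1 ≤ |t| ∧ |t| ≤ Real.exp (4 * r)} ∪ ((bw l ρ α')ᶜ ∪
      ((bw l ρ α' ∩ {t | Real.exp (4 * r) ≤ |t| ∧ |t| ≤ Real.exp (2 * r ^ 13)}) ∪
        {t | (X : ℝ) ^ 2 ≤ |t|})))) fun t _ => by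
    rcases le_total |t| T with h | h
    · exact Or.inl h
    rcases le_total |t| (Real.exp (4 * r)) with h' | h'
    · exact Or.inr (Or.inl ⟨(le_max_left _ _).trans h, h'⟩)
    by_cases hb : t ∈ bw l ρ α'
    · rcases le_total |t| (Real.exp (2 * r ^ 13)) with h'' | h''
      · exact Or.inr (Or.inr (Or.inr (Or.inl ⟨hb, h', h''⟩)))
      · exact Or.inr (Or.inr (Or.inr (Or.inr (hx2.le.trans h''))))
    · exact Or.inr (Or.inr (Or.inl hb))
  refine c.trans ((mg_union g X z0 (meas_abs_le T)).trans ?_)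
  refine (add_le_add le_rfl ((mg_union g X z0 (meas_band _ _)).trans (add_le_add le_rfl
    ((mg_union g X z0 (meas_bw l ρ α').compl).trans (add_le_add le_rfl
      (mg_union g X z0 ((meas_bw l ρ α').inter (meas_band _ _)))))))).trans ?_
  linarith

end Pool.Agent.P.LF
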