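import Pool.Agent.P.MP_e94e4b_nt.LF.IfB

/-! Step FIN. -/

namespace Pool.Agent.P.LF

open Finset Real Filter Topology MeasureTheory
open Pool.Agent.P.MP_e86632_nt (ee nn ee_add norm_ee ee_neg ee_zero)
open Pool.Agent.P.MP_8be758_nt.Avg (gs nsq gs_pos gs_le_one gs_neg gs_anti)
open Pool.Agent.P.E2
open Pool.Agent.P.PAR
open ArithmeticFunction (cardFactors vonMangoldt)
open DirichletCharacter (LFunction)

namespace FINc

theorem par_mod {n s : ℕ} (hs : s < 2) (h : par n = decide (s = 0)) : cardFactors n % 2 = s := by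
  have h1 := @par_iff_mod n
  rcases (by omega : s = 0 ∨ s = 1) with rfl | rfl
  · exact h1.1 (by simpa using h)
  · have h2 : ¬ par n = true := by simp [h]
    rw [h1] at h2; omega

theorem big {η η' d0 : ℝ} {K N n : ℕ} {p : Pm} (h : Rn η' d0 K p) (h1 : η' ≤ η) (h2 : η' ≤ 1 / 4)
    (hN : N ∈ Icc 1 p.Y) (hn : Hp p n) : ∃ q : ℕ, q.Prime ∧ q ∣ n ∧ (N : ℝ) ^ (2 - η) < q := by
  obtain ⟨q, hq, hd⟩ := hn
  obtain ⟨⟨a, -⟩, b⟩ := mem_lp.1 hq
  obtain ⟨c, e⟩ := mem_Icc.1 hN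
  refine ⟨q, b, hd, ?_⟩
  calc (N : ℝ) ^ (2 - η) ≤ (N : ℝ) ^ (2 - η') :=
        Real.rpow_le_rpow_of_exponent_le (by exact_mod_cast c) (by linarith)
    _ ≤ (p.Y : ℝ) ^ (2 - η') :=
        Real.rpow_le_rpow (Nat.cast_nonneg _) (by exact_mod_cast e) (by linarith)
    _ ≤ p.z1 := h.zl
    _ < q := by exact_mod_cast a

end FINc

theorem r_FIN (hRNG : K_RNG) (hMAIN : K_MAIN) :
    K_FIN := by
  classical
  intro η s t hη hs ht
  have e0 : 0 < min η (1 / 4) := lt_min hη (by norm_num)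
  obtain ⟨c, K, hc, H⟩ := hMAIN _ (min η (1 / 4) / 32) e0 (by positivity)
  refine ⟨c / 4, by positivity, ?_⟩
  filter_upwards [hRNG _ K e0 (min_le_right _ _), ev_log 1 one_pos] with Y ⟨p, hY, hp⟩ hl
  subst hY
  have h1 := H p (decide (s = 0)) (decide (t = 0)) hp
  have h2 : ∑ N ∈ Icc 1 p.Y, (cn p (decide (s = 0)) (decide (t = 0)) N : ℝ) / N ^ 2 ≤
      ∑ N ∈ Icc 1 p.Y, (2 * (if c / 4 * N ≤ (cf η s t N : ℝ) then 1 / (N : ℝ) else 0) +
        c / 4 * (1 / (N : ℝ))) := by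
    refine sum_le_sum fun N hN => ?_
    have n0 : (0 : ℝ) < N := by exact_mod_cast (mem_Icc.1 hN).1
    have a : cn p (decide (s = 0)) (decide (t = 0)) N ≤ cf η s t N := by
      refine card_le_card fun k hk => ?_
      obtain ⟨k1, k2, k3⟩ := mem_filter.1 hk
      obtain ⟨k4, k5⟩ := fb_iff.1 k2
      obtain ⟨k6, k7⟩ := fb_iff.1 k3
      exact mem_filter.2 ⟨k1, FINc.par_mod hs k5, FINc.par_mod ht k7,
        FINc.big hp (min_le_left _ _) (min_le_right _ _) hN k4,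
        FINc.big hp (min_le_left _ _) (min_le_right _ _) hN k6⟩
    have b : cn p (decide (s = 0)) (decide (t = 0)) N ≤ 2 * N :=
      (card_filter_le _ _).trans (by rw [Nat.card_Icc]; omega)
    have a' := (Nat.cast_le (α := ℝ)).2 a
    have b' := (Nat.cast_le (α := ℝ)).2 b
    push_cast at b'
    rw [div_le_iff₀ (by positivity)]
    split_ifs with h
    · have : (2 * (1 / (N : ℝ)) + c / 4 * (1 / N)) * N ^ 2 = 2 * N + c / 4 * N := by field_simp
      rw [this]; nlinarith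
    · have : (2 * 0 + c / 4 * (1 / (N : ℝ))) * N ^ 2 = c / 4 * N := by field_simp; ring
      rw [this]; linarith [not_le.1 h]
  rw [sum_add_distrib, ← mul_sum, ← mul_sum, ← lm_ite] at h2
  have h3 := mul_le_mul_of_nonneg_left (harm_le p.Y) (show 0 ≤ c / 4 by positivity)
  have h4 := mul_le_mul_of_nonneg_left hl hc.le
  nlinarith

end Pool.Agent.P.LF
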