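import Pool.Agent.P.MP_e94e4b_nt.LF.IfB

/-! Step FJM. -/

namespace Pool.Agent.P.LF

open Finset Real Filter Topology MeasureTheory
open Pool.Agent.P.MP_e86632_nt (ee nn ee_add norm_ee ee_neg ee_zero)
open Pool.Agent.P.MP_8be758_nt.Avg (gs nsq gs_pos gs_le_one gs_neg gs_anti)
open Pool.Agent.P.E2
open Pool.Agent.P.PAR
open ArithmeticFunction (cardFactors vonMangoldt)
open DirichletCharacter (LFunction)

namespace FJMc

theorem one (hOSC : K_OSC) (a b : ℕ) : ∃ C : ℝ, ∀ lo hi : ℕ,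
    ∑ m ∈ Ioc lo hi, wt ((-1) ^ (a + b)) ((a : ℝ) - b) m / m ≤
      (if a = b then 1 + Real.log hi else 0) + C := by
  by_cases h : a = b
  · subst h
    refine ⟨0, fun lo hi => ?_⟩
    simp only [sub_self, wt_zero, if_true, add_zero, Even.neg_one_pow (Even.add_self a)]
    exact harm_Ioc lo hi
  · obtain ⟨C, hC⟩ := hOSC ((a : ℝ) - b) (sub_ne_zero.2 (by exact_mod_cast h))
    refine ⟨C, fun lo hi => ?_⟩
    rw [if_neg h, zero_add]
    have h1 : ∑ m ∈ Ioc lo hi, wt ((-1) ^ (a + b)) ((a : ℝ) - b) m / m =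
        (-1) ^ (a + b) * (∑ m ∈ Ioc lo hi, ee (((a : ℝ) - b) * √(m : ℝ)) / m).re := by
      rw [Complex.re_sum, mul_sum]
      refine sum_congr rfl fun m _ => ?_
      rw [wt_eq, Complex.div_natCast_re, mul_div_assoc]
    rw [h1]
    refine (le_abs_self _).trans ?_
    rw [abs_mul, abs_pow, abs_neg, abs_one, one_pow, one_mul]
    exact (Complex.abs_re_le_norm _).trans (hC lo hi)

end FJMc

theorem r_FJM (hOSC : K_OSC) :
    K_FJM := by
  intro J hJ
  choose C hC using FJMc.one hOSC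
  refine ⟨4 / (J : ℝ) ^ 2 * ∑ a ∈ range J, ∑ b ∈ range J, C a b, fun lo hi => ?_⟩
  have hJ0 : (0 : ℝ) < J := by positivity
  have h1 : ∑ m ∈ Ioc lo hi, fj J m / m = 4 / (J : ℝ) ^ 2 * ∑ a ∈ range J, ∑ b ∈ range J,
      ∑ m ∈ Ioc lo hi, wt ((-1) ^ (a + b)) ((a : ℝ) - b) m / m := by
    simp only [fj, mul_div_assoc, sum_div]
    rw [← mul_sum, sum_comm]
    congr 1
    exact sum_congr rfl fun a _ => sum_comm
  have h2 : ∑ a ∈ range J, ∑ b ∈ range J,
      ∑ m ∈ Ioc lo hi, wt ((-1) ^ (a + b)) ((a : ℝ) - b) m / m ≤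
      J * (1 + Real.log hi) + ∑ a ∈ range J, ∑ b ∈ range J, C a b := by
    refine (sum_le_sum fun a _ => sum_le_sum fun b _ => hC a b lo hi).trans_eq ?_
    simp only [sum_add_distrib]
    congr 1
    rw [sum_congr rfl fun a ha => (by rw [sum_ite_eq, if_pos ha] :
      ∑ b ∈ range J, (if a = b then 1 + Real.log hi else 0) = 1 + Real.log hi),
      sum_const, card_range, nsmul_eq_mul]
  rw [h1]
  refine (mul_le_mul_of_nonneg_left h2 (by positivity)).trans_eq ?_
  field_simp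

end Pool.Agent.P.LF
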