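import Pool.Agent.P.MP_e94e4b_nt.LF.IfB

/-! Step FM. -/

namespace Pool.Agent.P.LF

open Finset Real Filter Topology MeasureTheory
open Pool.Agent.P.MP_e86632_nt (ee nn ee_add norm_ee ee_neg ee_zero)
open Pool.Agent.P.MP_8be758_nt.Avg (gs nsq gs_pos gs_le_one gs_neg gs_anti)
open Pool.Agent.P.E2
open Pool.Agent.P.PAR
open ArithmeticFunction (cardFactors vonMangoldt)
open DirichletCharacter (LFunction)

namespace FMc

/-- the reflected window -/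
def W (k u : ℕ) : Finset ℕ := (iu k u).image fun m => su u - m

theorem mem_W (hCW2 : L_CW2) {k u x : ℕ} (hk : 3 ≤ k) (hu : 20 * k ^ 2 ≤ u) (ho : Odd u)
    (hx : x ∈ W k u) : ∃ m ∈ iu k u, x + m = su u := by
  obtain ⟨m, hm, rfl⟩ := mem_image.1 hx
  have h1 := ((hCW2 k u hk hu).2.1 m hm).2.1
  have h2 := su_spec ho
  exact ⟨m, hm, by omega⟩

theorem W_eq (hCW2 : L_CW2) {k u : ℕ} (hk : 3 ≤ k) (hu : 20 * k ^ 2 ≤ u) (ho : Odd u) :
    ∃ a b, W k u = Ioc a b := by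
  obtain ⟨-, h1, -, A, B, -, h3, h4⟩ := hCW2 k u hk hu
  have h2 := su_spec ho
  rcases h3.eq_or_lt with rfl | h3
  · exact ⟨0, 0, by simp [W, h4]⟩
  have h5 := (h1 B (by rw [h4]; exact mem_Ioc.2 ⟨h3, le_rfl⟩)).2.1
  refine ⟨su u - B - 1, su u - A - 1, ?_⟩
  ext x
  simp only [W, h4, mem_image, mem_Ioc]
  exact ⟨fun ⟨m, hm, e⟩ => by omega, fun hx => ⟨su u - x, by omega, by omega⟩⟩

theorem sum_W (hCW2 : L_CW2) {k u : ℕ} (hk : 3 ≤ k) (hu : 20 * k ^ 2 ≤ u) (ho : Odd u)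
    (G : ℕ → ℝ) : ∑ x ∈ W k u, G x = ∑ m ∈ iu k u, G (su u - m) := by
  refine sum_image fun a ha b hb e => ?_
  have h1 := ((hCW2 k u hk hu).2.1 a ha).2.1
  have h3 := ((hCW2 k u hk hu).2.1 b hb).2.1
  have h2 := su_spec ho
  beta_reduce at e
  omega

theorem bd_W (hCW2 : L_CW2) {k u x : ℕ} (hk : 3 ≤ k) (hu : 20 * k ^ 2 ≤ u) (ho : Odd u)
    (hx : x ∈ W k u) : u ^ 2 < 16 * x ∧ x ≤ u ^ 2 := by
  obtain ⟨m, hm, e⟩ := mem_W hCW2 hk hu ho hx
  have h2 := su_spec ho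
  have h3 := (mem_iu.1 hm).2.1
  have h4 : 4 * m ≤ u ^ 2 + u := by
    refine Nat.le_of_mul_le_mul_left (h3.trans ?_) (show 0 < k by omega)
    rw [mul_add]
    exact Nat.add_le_add_left (Nat.le_mul_of_pos_left _ (show 0 < k by omega)) _
  have h5 : 2 ≤ u := by nlinarith
  have h6 : 2 * u ≤ u ^ 2 := by rw [pow_two]; exact Nat.mul_le_mul_right _ h5
  omega

theorem disj_W (hCW2 : L_CW2) {k u v : ℕ} (hk : 3 ≤ k) (hu : 20 * k ^ 2 ≤ u) (ho : Odd u)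
    (ho' : Odd v) (h : u < v) : Disjoint (W k u) (W k v) := by
  refine disjoint_left.2 fun x hx hy => ?_
  obtain ⟨m, hm, e⟩ := mem_W hCW2 hk hu ho hx
  obtain ⟨n, hn, f⟩ := mem_W hCW2 hk (hu.trans h.le) ho' hy
  have h2 := su_spec ho
  have h3 := su_spec ho'
  have h4 := (mem_iu.1 hm).2.2
  have h5 := (mem_iu.1 hn).2.1
  have h6 : u ^ 2 + (u + v) ≤ v ^ 2 := by nlinarith
  have h7 := Nat.mul_le_mul_left k h6
  have h8 : 3 * (u + v) ≤ k * (u + v) := Nat.mul_le_mul_right _ hk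
  have h9 : k * (4 * m + 2 * v ^ 2) = k * (4 * n + 2 * u ^ 2) := congrArg _ (by omega)
  rw [mul_add] at h7
  rw [mul_add, mul_add, mul_left_comm k 2, mul_left_comm k 2] at h9
  omega

end FMc

open FMc in
theorem r_FM (hCW2 : L_CW2) (hAVS : K_AVS) :
    K_FM := by
  intro G p k h B hG hk hh hR hB
  have h0 : (0 : ℝ) < h := by exact_mod_cast hh
  have hu : ∀ u ∈ uu p k, 20 * k ^ 2 ≤ u := fun u a => hR.ku.trans (mem_uu.1 a).1.1.le
  have ho : ∀ u ∈ uu p k, Odd u := fun u a => (mem_uu.1 a).2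
  set F : ℕ → ℝ := fun x => ‖es (fun n => (G n : ℂ)) x h 0‖ with hF
  have h1 : ∀ u ∈ uu p k, -((∑ x ∈ W k u, F x / x) / h + 2 * h * ((u : ℝ) ^ 2)⁻¹) ≤
      1 / (u : ℝ) ^ 2 * ∑ m ∈ iu k u, G (su u - m) := fun u a => by
    obtain ⟨c, d, e⟩ := W_eq hCW2 hk (hu u a) (ho u a)
    have a1 := hAVS (fun n => (G n : ℂ)) c d h (fun n => by rw [Complex.norm_real]; exact hG n) hh
    rw [← e, ← Complex.ofReal_sum, Complex.norm_real, Real.norm_eq_abs] at a1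
    have a2 : ((u : ℝ) ^ 2)⁻¹ * ∑ x ∈ W k u, F x ≤ ∑ x ∈ W k u, F x / x := by
      rw [mul_sum]
      refine sum_le_sum fun x hx => ?_
      obtain ⟨b1, b2⟩ := bd_W hCW2 hk (hu u a) (ho u a) hx
      rw [div_eq_inv_mul]
      refine mul_le_mul_of_nonneg_right (inv_anti₀ ?_ ?_) (norm_nonneg _)
      · exact_mod_cast (by omega : 0 < x)
      · exact_mod_cast b2
    have a3 := mul_le_mul_of_nonneg_left ((neg_le_neg a1).trans (neg_abs_le _))
      (by positivity : 0 ≤ ((u : ℝ) ^ 2)⁻¹)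
    have a4 := div_le_div_of_nonneg_right a2 h0.le
    rw [← sum_W hCW2 hk (hu u a) (ho u a), one_div]
    rw [mul_div_assoc] at a4
    refine le_trans ?_ a3
    rw [mul_neg, mul_add]
    linarith
  refine le_trans ?_ (sum_le_sum h1)
  rw [sum_neg_distrib, sum_add_distrib, ← sum_div, ← mul_sum, neg_le_neg_iff]
  have h2 : ∑ u ∈ uu p k, ((u : ℝ) ^ 2)⁻¹ ≤ 2 := by
    refine (sum_le_sum_of_subset_of_nonneg (fun u a => ?_) fun _ _ _ => by positivity).trans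
      ((sum_Ioo_inv_sq_le 0 (p.Y / k + 1)).trans (by norm_num))
    have := (mem_uu.1 a).1
    exact mem_Ioo.2 ⟨by omega, by omega⟩
  have h3 : ∑ u ∈ uu p k, ∑ x ∈ W k u, F x / x ≤ B * h := by
    rw [← sum_biUnion fun u a v b c => ?_]
    · refine (le_ua _ h 0 fun x hx => ?_).trans hB
      obtain ⟨u, a, b⟩ := mem_biUnion.1 hx
      obtain ⟨b1, b2⟩ := bd_W hCW2 hk (hu u a) (ho u a) b
      have c1 := (mem_uu.1 a).1
      have c2 : p.U ^ 2 ≤ u ^ 2 := Nat.pow_le_pow_left c1.1.le 2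
      have c3 : u ≤ p.Y := c1.2.trans (Nat.div_le_self _ _)
      have c4 : u ^ 2 ≤ p.Y ^ 3 :=
        (Nat.pow_le_pow_left c3 2).trans (Nat.pow_le_pow_right (by omega) (by norm_num))
      have c5 := hR.wu
      exact mem_Ioc.2 ⟨by omega, by omega⟩
    · rcases lt_or_gt_of_ne c with d | d
      · exact disj_W hCW2 hk (hu u a) (ho u a) (ho v b) d
      · exact (disj_W hCW2 hk (hu v b) (ho v b) (ho u a) d).symm
  have h4 := (div_le_iff₀ h0).2 h3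
  nlinarith

end Pool.Agent.P.LF
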