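import Pool.Agent.P.MP_e94e4b_nt.LF.IfB

/-! Step FOU. -/

namespace Pool.Agent.P.LF

open Finset Real Filter Topology MeasureTheory
open Pool.Agent.P.MP_e86632_nt (ee nn ee_add norm_ee ee_neg ee_zero)
open Pool.Agent.P.MP_8be758_nt.Avg (gs nsq gs_pos gs_le_one gs_neg gs_anti)
open Pool.Agent.P.E2
open Pool.Agent.P.PAR
open ArithmeticFunction (cardFactors vonMangoldt)
open DirichletCharacter (LFunction)

namespace FOUc

theorem ort (hORT : K_ORT) {M a b : ℕ} (ha : a < M) (hb : b < M) :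
    ∑ k ∈ range M, ee ((k : ℝ) / M * a) * ee (-((k : ℝ) / M * b)) =
      if a = b then (M : ℂ) else 0 := by
  have h := hORT M ((a : ℤ) - b) (by omega)
  have e : ∀ k ∈ range M, ee ((k : ℝ) / M * a) * ee (-((k : ℝ) / M * b)) =
      ee ((k : ℝ) * ((a : ℤ) - b : ℤ) / M) := fun k _ => by
    rw [← ee_add]; congr 1; push_cast; ring
  rw [sum_congr rfl e, h]
  refine if_congr ⟨fun hd => ?_, fun hd => by simp [hd]⟩ rfl rfl
  have := Int.eq_zero_of_abs_lt_dvd hd (by rw [abs_lt]; constructor <;> omega)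
  omega

theorem pair (hORT : K_ORT) {ι : Type} (s : Finset ι) (f : ι → ℂ) (u : ι → ℕ) (g : ℕ → ℂ)
    {M N : ℕ} (hN : N ≤ M) (hu : ∀ x ∈ s, u x < N) :
    ∑ k ∈ range M, (∑ x ∈ s, f x * ee ((k : ℝ) / M * u x)) *
      (∑ i ∈ range N, g i * ee (-((k : ℝ) / M * i))) = M * ∑ x ∈ s, f x * g (u x) := by
  simp only [sum_mul_sum]
  rw [sum_comm, mul_sum]
  refine sum_congr rfl fun x hx => ?_
  rw [sum_comm]
  have e : ∀ i ∈ range N, ∑ k ∈ range M, f x * ee ((k : ℝ) / M * u x) *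
      (g i * ee (-((k : ℝ) / M * i))) = if u x = i then M * (f x * g i) else 0 := by
    intro i hi
    have := ort hORT ((hu x hx).trans_le hN) ((mem_range.1 hi).trans_le hN)
    rw [sum_congr rfl fun k _ => mul_mul_mul_comm _ _ _ _, ← mul_sum, this]
    split_ifs
    · ring
    · ring
  rw [sum_congr rfl e, sum_ite_eq, if_pos (mem_range.2 (hu x hx))]

theorem cj (f : ℕ → ℂ) (N : ℕ) (t : ℝ) :
    ∑ i ∈ range N, (starRingEnd ℂ) (f i) * ee (-(t * i)) =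
      (starRingEnd ℂ) (∑ i ∈ range N, f i * ee (t * i)) := by
  rw [map_sum]
  exact sum_congr rfl fun i _ => by rw [map_mul, ee_neg]

theorem pars (hORT : K_ORT) (f : ℕ → ℂ) (hf : ∀ j, ‖f j‖ ≤ 1) {M N : ℕ} (hN : N ≤ M) :
    ∑ k ∈ range M, ‖∑ j ∈ range N, f j * ee ((k : ℝ) / M * j)‖ ^ 2 ≤ M * N := by
  have h := pair hORT (range N) f id (fun i => (starRingEnd ℂ) (f i)) hN fun x hx => mem_range.1 hx
  simp only [id, cj, Complex.mul_conj, Complex.normSq_eq_norm_sq] at h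
  have h2 : ∑ k ∈ range M, ‖∑ j ∈ range N, f j * ee ((k : ℝ) / M * j)‖ ^ 2 =
      M * ∑ x ∈ range N, ‖f x‖ ^ 2 := by exact_mod_cast h
  rw [h2]
  gcongr
  calc ∑ x ∈ range N, ‖f x‖ ^ 2 ≤ ∑ x ∈ range N, (1 : ℝ) :=
        sum_le_sum fun x _ => pow_le_one₀ (norm_nonneg _) (hf x)
    _ = N := by simp

end FOUc

theorem r_FOU (hORT : K_ORT) :
    K_FOU := by
  intro S Ξ c φ ψ e P τ hP hτ he hφ hψ hΞ
  set M := 16 * P with hM
  set A : ℕ → ℂ := fun k => ∑ j ∈ range (4 * P), φ j * ee ((k : ℝ) / M * j) with hA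
  set B : ℕ → ℂ := fun k => ∑ i ∈ range (8 * P), ψ i * ee (-((k : ℝ) / M * i)) with hB
  have h1 := FOUc.pair hORT (S ×ˢ range (4 * P)) (fun x => c x.1 * φ x.2) (fun x => x.2 + e x.1) ψ
    (M := M) (N := 8 * P) (by omega) fun x hx => by
      have a1 := he _ (mem_product.1 hx).1
      have a2 := mem_range.1 (mem_product.1 hx).2
      omega
  have h2 : ∀ k ∈ range M, (∑ x ∈ S ×ˢ range (4 * P),
      c x.1 * φ x.2 * ee ((k : ℝ) / M * (x.2 + e x.1 : ℕ))) *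
      (∑ i ∈ range (8 * P), ψ i * ee (-((k : ℝ) / M * i))) = hat S c e M k * A k * B k := by
    intro k _
    congr 1
    rw [hat, hA, sum_mul_sum, sum_product]
    refine sum_congr rfl fun q _ => sum_congr rfl fun j _ => ?_
    rw [mul_mul_mul_comm, ← ee_add]
    congr 2; push_cast; ring
  have h3 : ∑ x ∈ S ×ˢ range (4 * P), c x.1 * φ x.2 * ψ (x.2 + e x.1) =
      ∑ q ∈ S, c q * ∑ j ∈ range (4 * P), φ j * ψ (j + e q) := by
    rw [sum_product]
    exact sum_congr rfl fun q _ => by rw [mul_sum]; exact sum_congr rfl fun j _ => mul_assoc _ _ _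
  rw [sum_congr rfl h2, h3] at h1
  have pA := FOUc.pars hORT φ hφ (M := M) (N := 4 * P) (by omega)
  have pB := FOUc.pars hORT (fun i => (starRingEnd ℂ) (ψ i)) (fun j => by simpa using hψ j)
    (M := M) (N := 8 * P) (by omega)
  have eB : ∀ k : ℕ, ‖∑ j ∈ range (8 * P), (starRingEnd ℂ) (ψ j) * ee ((k : ℝ) / M * j)‖ =
      ‖B k‖ := fun k => by
    rw [← Complex.norm_conj, ← FOUc.cj]; simp [hB]
  simp only [eB] at pB
  have bB : ∀ k, ‖B k‖ ≤ 8 * P := fun k => by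
    refine (norm_sum_le _ _).trans ?_
    calc _ ≤ ∑ i ∈ range (8 * P), (1 : ℝ) :=
          sum_le_sum fun i _ => by rw [norm_mul, norm_ee, mul_one]; exact hψ i
      _ = 8 * P := by simp
  have h4 : ∀ k ∈ range M, ‖hat S c e M k * A k * B k‖ ≤ τ / 2 * (‖A k‖ ^ 2 + ‖B k‖ ^ 2) +
      if k ∈ Ξ then 8 * P * (‖hat S c e M k‖ * ‖A k‖) else 0 := by
    intro k hk
    rw [norm_mul, norm_mul]
    split_ifs with h
    · have : ‖hat S c e M k‖ * ‖A k‖ * ‖B k‖ ≤ ‖hat S c e M k‖ * ‖A k‖ * (8 * P) := by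
        gcongr; exact bB k
      have : 0 ≤ τ / 2 * (‖A k‖ ^ 2 + ‖B k‖ ^ 2) := by positivity
      linarith
    · have : ‖hat S c e M k‖ * ‖A k‖ * ‖B k‖ ≤ τ * ‖A k‖ * ‖B k‖ := by
        gcongr; exact hΞ k (mem_range.1 hk) h
      nlinarith [mul_nonneg hτ (sq_nonneg (‖A k‖ - ‖B k‖))]
  have h5 := (norm_sum_le _ _).trans (sum_le_sum h4)
  rw [h1, norm_mul, Complex.norm_natCast, sum_add_distrib, ← mul_sum, sum_add_distrib,
    sum_ite_mem, ← mul_sum] at h5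
  have h6 : ∑ k ∈ range M ∩ Ξ, ‖hat S c e M k‖ * ‖A k‖ ≤ ∑ k ∈ Ξ, ‖hat S c e M k‖ * ‖A k‖ :=
    sum_le_sum_of_subset_of_nonneg inter_subset_right fun _ _ _ => by positivity
  rw [← sum_div]
  change _ ≤ 8 * P * τ + (∑ k ∈ Ξ, ‖hat S c e M k‖ * ‖A k‖) / 2
  have hP' : (0 : ℝ) < P := by exact_mod_cast hP
  have hM' : (M : ℝ) = 16 * P := by rw [hM]; push_cast; ring
  have h7 : τ / 2 * (∑ k ∈ range M, ‖A k‖ ^ 2 + ∑ k ∈ range M, ‖B k‖ ^ 2) ≤
      τ / 2 * (M * (4 * P : ℕ) + M * (8 * P : ℕ)) := by gcongr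
  have h8 := mul_le_mul_of_nonneg_left h6 (by positivity : (0 : ℝ) ≤ 8 * P)
  push_cast at h7
  rw [hM'] at h5 h7
  refine le_of_mul_le_mul_left ?_ (by positivity : (0 : ℝ) < 16 * P)
  nlinarith [mul_nonneg hτ (mul_pos hP' hP').le]

end Pool.Agent.P.LF
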