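import Pool.Agent.P.MP_e94e4b_nt.LF.IfB

/-! Step FS. -/

namespace Pool.Agent.P.LF

open Finset Real Filter Topology MeasureTheory
open Pool.Agent.P.MP_e86632_nt (ee nn ee_add norm_ee ee_neg ee_zero)
open Pool.Agent.P.MP_8be758_nt.Avg (gs nsq gs_pos gs_le_one gs_neg gs_anti)
open Pool.Agent.P.E2
open Pool.Agent.P.PAR
open ArithmeticFunction (cardFactors vonMangoldt)
open DirichletCharacter (LFunction)

namespace FSc

theorem term {D s Δ P L lo b q : ℕ} {d σ ω : ℝ} {ξ : ℕ → BB} {γ : ℕ → ℝ}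
    (hγ : ∀ m, |γ m| ≤ 1) (hR : Rl D s Δ d (2 * P) lo ξ γ) (hq : q ∈ pq D P) (hL : q ≤ L)
    (hb : lo < b) (i j : ℕ) :
    (if q ∣ b * L + i + (j + s * tq D q) then
      wt σ ω ((b * L + i + (j + s * tq D q)) / q : ℕ) * γ ((b * L + i + (j + s * tq D q)) / q) /
        (b * L + i + (j + s * tq D q) : ℕ) else 0) -
      |wb σ ω L b q / ((b : ℝ) * L) - wt σ ω (((b * L + i + (j + s * tq D q) : ℕ) : ℝ) / q) /
        (b * L + i + (j + s * tq D q) : ℕ)| ≤
    1 / ((b : ℝ) * L) * (wb σ ω L b q * if q ∣ b * L + i + j + s * tq D q then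
      pp D Δ d (fun j => ξ (b * L + i + j)) q j else 0) := by
  obtain ⟨⟨-, h2⟩, hp, hm⟩ := mem_pq.1 hq
  rw [← add_assoc (b * L + i) j]
  split_ifs with h
  · obtain ⟨m, hm'⟩ := h
    have h3 : lo ≤ m := by
      by_contra h4
      have h5 : q * m ≤ L * b := Nat.mul_le_mul hL (by omega)
      have h6 : q * (m + 1) ≤ L * b := Nat.mul_le_mul hL (by omega)
      have h7 := hp.pos
      rw [mul_comm L b, mul_add, mul_one] at h6
      omega
    have q0 : (q : ℝ) ≠ 0 := Nat.cast_ne_zero.2 hp.ne_zero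
    rw [pp_shift, hR q m _ hp h2 hm h3 hm', hm', Nat.mul_div_cancel_left _ hp.pos,
      show ((q * m : ℕ) : ℝ) / q = m by push_cast; field_simp]
    set A := wb σ ω L b q / ((b : ℝ) * L) with hA
    set B := wt σ ω m / ((q * m : ℕ) : ℝ) with hB
    have e1 : wt σ ω m * γ m / ((q * m : ℕ) : ℝ) = B * γ m := by rw [hB]; ring
    have e2 : 1 / ((b : ℝ) * L) * (wb σ ω L b q * γ m) = A * γ m := by rw [hA]; ring
    rw [e1, e2]
    have e3 : |(A - B) * γ m| ≤ |A - B| := by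
      rw [abs_mul]; exact mul_le_of_le_one_right (abs_nonneg _) (hγ m)
    have e4 := neg_abs_le ((A - B) * γ m)
    linarith
  · simp

end FSc

theorem r_FS (hFSA : K_FSA) (hFSB : K_FSB) :
    K_FS := by
  intro D s Δ P L ω hs hL
  obtain ⟨C, hC⟩ := hFSA L ω
  refine ⟨(pq D P).card * (4 * P * (6 * L + C)), fun lo hi d σ ξ γ hlo hσ hγ hR => ?_⟩
  have e1 : fa D s Δ P L d σ ω ξ lo hi = ∑ q ∈ pq D P, ∑ j ∈ range (4 * P),
      ∑ b ∈ Ioc lo hi, ∑ i ∈ range L, 1 / ((b : ℝ) * L) * (wb σ ω L b q *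
        if q ∣ b * L + i + j + s * tq D q then
          pp D Δ d (fun j => ξ (b * L + i + j)) q j else 0) := by
    simp only [fa, Fq, mul_sum]
    rw [sum_congr rfl fun b _ => sum_comm, sum_comm]
    refine sum_congr rfl fun q _ => ?_
    rw [sum_congr rfl fun b _ => sum_comm, sum_comm]
  have e2 : 4 * P * rs (pq D P) * cr σ ω γ lo hi - (pq D P).card * (4 * P * (6 * L + C)) =
      ∑ q ∈ pq D P, ∑ _j ∈ range (4 * P), (cr σ ω γ lo hi / q - (6 * L + C)) := by
    simp only [sum_const, card_range, nsmul_eq_mul, mul_sub, sum_sub_distrib, rs, mul_sum, sum_mul]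
    congr 1
    · exact sum_congr rfl fun q _ => by push_cast; ring
    · push_cast; ring
  rw [e1, e2]
  refine sum_le_sum fun q hq => sum_le_sum fun j hj => ?_
  have h1 := mem_pq.1 hq
  have h2 := mul_tq_le hs hq
  have h3 := mem_range.1 hj
  have hq1 : 1 ≤ q := h1.2.1.pos
  have hqL : q ≤ L := by omega
  have he : j + s * tq D q ≤ L := by omega
  have a1 := hC q _ lo hi σ hq1 hqL he hσ
  have a2 := (abs_le.1 (hFSB L q _ lo hi (fun m => wt σ ω m * γ m) hq1 hqL he hlo fun m => by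
    rw [abs_mul]; exact mul_le_one₀ (abs_wt hσ ω m) (abs_nonneg _) (hγ m))).1
  refine le_trans ?_ (sum_le_sum fun b hb => sum_le_sum fun i _ =>
    FSc.term (σ := σ) (ω := ω) hγ hR hq hqL (mem_Ioc.1 hb).1 i j)
  simp only [sum_sub_distrib]
  unfold cr
  linarith

end Pool.Agent.P.LF
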