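import Pool.Agent.P.MP_e94e4b_nt.LF.IfB

/-! Step FSA. -/

namespace Pool.Agent.P.LF

open Finset Real Filter Topology MeasureTheory
open Pool.Agent.P.MP_e86632_nt (ee nn ee_add norm_ee ee_neg ee_zero)
open Pool.Agent.P.MP_8be758_nt.Avg (gs nsq gs_pos gs_le_one gs_neg gs_anti)
open Pool.Agent.P.E2
open Pool.Agent.P.PAR
open ArithmeticFunction (cardFactors vonMangoldt)
open DirichletCharacter (LFunction)

namespace FSAc

theorem sqrt_diff {x n q : ℝ} (hx : 0 < x) (hn : x ≤ n) (hq : 1 ≤ q) :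
    |√(x / q) - √(n / q)| ≤ (n - x) / √x := by
  have hq0 : 0 < q := by linarith
  have hs : 0 < √x := Real.sqrt_pos.2 hx
  have hsq : 1 ≤ √q := Real.one_le_sqrt.2 hq
  have h1 : √x ≤ √n := Real.sqrt_le_sqrt hn
  have h2 : √x * √x = x := Real.mul_self_sqrt hx.le
  have h3 : √n * √n = n := Real.mul_self_sqrt (by linarith)
  rw [Real.sqrt_div' _ hq0.le, Real.sqrt_div' _ hq0.le, ← sub_div, abs_div,
    abs_of_pos (by linarith : 0 < √q), abs_sub_comm, abs_of_nonneg (by linarith)]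
  refine (div_le_self (by linarith) hsq).trans ?_
  rw [le_div_iff₀ hs]
  nlinarith

theorem wt_diff {σ : ℝ} (hσ : |σ| ≤ 1) (ω y z : ℝ) :
    |wt σ ω y - wt σ ω z| ≤ 2 * π * |ω| * |√y - √z| := by
  rw [wt, wt, ← mul_sub, abs_mul]
  have h := Real.abs_cos_sub_cos_le (2 * π * (ω * √y)) (2 * π * (ω * √z))
  have e : 2 * π * (ω * √y) - 2 * π * (ω * √z) = 2 * π * ω * (√y - √z) := by ring
  rw [e, abs_mul, abs_mul, abs_of_pos (by positivity : 0 < 2 * π)] at h
  exact (mul_le_of_le_one_left (abs_nonneg _) hσ).trans h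

theorem point {σ : ℝ} (hσ : |σ| ≤ 1) (ω : ℝ) {b L n q : ℝ} (hb : 1 ≤ b) (hL : 1 ≤ L)
    (hq : 1 ≤ q) (h1 : b * L ≤ n) (h2 : n ≤ b * L + 2 * L) :
    |wt σ ω (b * L / q) / (b * L) - wt σ ω (n / q) / n| ≤ (2 + 4 * π * |ω|) * (1 / (b * √b)) := by
  have hx : 0 < b * L := by positivity
  have hn : 0 < n := by linarith
  have hb0 : 0 < b := by linarith
  have hL0 : 0 < L := by linarith
  have hsb : 1 ≤ √b := Real.one_le_sqrt.2 hb
  have hsb' : √b ≤ b := by
    have := Real.mul_self_sqrt hb0.le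
    nlinarith
  have hsx : √b ≤ √(b * L) := Real.sqrt_le_sqrt (by nlinarith)
  set A := wt σ ω (b * L / q)
  set B := wt σ ω (n / q)
  have hA : |A| ≤ 1 := abs_wt hσ _ _
  have hAB : |A - B| ≤ 2 * π * |ω| * (2 * L / √b) := by
    refine (wt_diff hσ ω _ _).trans (mul_le_mul_of_nonneg_left ?_ (by positivity))
    refine (sqrt_diff hx h1 hq).trans ?_
    exact div_le_div₀ (by positivity) (by linarith) (by positivity) hsx
  have e : A / (b * L) - B / n = A * ((n - b * L) / (b * L * n)) + (A - B) / n := by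
    field_simp; ring
  have t1 : (n - b * L) / (b * L * n) ≤ 2 * (1 / (b * √b)) := by
    have : (n - b * L) / (b * L * n) ≤ 2 * L / (b * L * √b) :=
      div_le_div₀ (by positivity) (by linarith) (by positivity)
        (mul_le_mul_of_nonneg_left (by nlinarith) hx.le)
    refine this.trans_eq ?_
    field_simp
  have t2 : |A - B| / n ≤ 4 * π * |ω| * (1 / (b * √b)) := by
    refine (div_le_div₀ (by positivity) hAB hx h1).trans_eq ?_
    field_simp
    ring
  have t0 : 0 ≤ (n - b * L) / (b * L * n) := div_nonneg (by linarith) (by positivity)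
  rw [e]
  refine (abs_add_le _ _).trans ?_
  rw [abs_mul, abs_div (A - B), abs_of_pos hn, abs_of_nonneg t0]
  have := mul_le_of_le_one_left t0 hA
  linarith

theorem summ : Summable fun b : ℕ => 1 / ((b : ℝ) * √b) := by
  refine (Real.summable_one_div_nat_rpow.2 (show (1 : ℝ) < 1 + 1 / 2 by norm_num)).congr fun b => ?_
  rw [Real.rpow_add_of_nonneg (Nat.cast_nonneg b) (by norm_num) (by norm_num), Real.rpow_one,
    Real.sqrt_eq_rpow]

end FSAc

theorem r_FSA :
    K_FSA := by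
  intro L ω
  refine ⟨L * (2 + 4 * π * |ω|) * ∑' b : ℕ, 1 / ((b : ℝ) * √b), fun q e lo hi σ hq hqL he hσ => ?_⟩
  have hL : (1 : ℝ) ≤ L := by exact_mod_cast hq.trans hqL
  have h1 : ∑ b ∈ Ioc lo hi, 1 / ((b : ℝ) * √b) ≤ ∑' b : ℕ, 1 / ((b : ℝ) * √b) :=
    FSAc.summ.sum_le_tsum _ fun _ _ => by positivity
  refine le_trans ?_ (mul_le_mul_of_nonneg_left h1 (by positivity))
  rw [mul_sum]
  refine sum_le_sum fun b hb => ?_
  have hb1 : (1 : ℝ) ≤ b := by exact_mod_cast Nat.one_le_of_lt (mem_Ioc.1 hb).1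
  refine (sum_le_card_nsmul _ _ ((2 + 4 * π * |ω|) * (1 / ((b : ℝ) * √b))) fun i hi => ?_).trans_eq
    (by rw [card_range, nsmul_eq_mul]; ring)
  have hi' : (i : ℝ) ≤ L := by exact_mod_cast (mem_range.1 hi).le
  have he' : (e : ℝ) ≤ L := by exact_mod_cast he
  have hi0 : (0 : ℝ) ≤ i := Nat.cast_nonneg i
  have he0 : (0 : ℝ) ≤ e := Nat.cast_nonneg e
  exact FSAc.point hσ ω hb1 hL (by exact_mod_cast hq) (by push_cast; linarith)
    (by push_cast; linarith)

end Pool.Agent.P.LF
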