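import Pool.Agent.P.MP_e94e4b_nt.LF.IfB

/-! Step FSB. -/

namespace Pool.Agent.P.LF

open Finset Real Filter Topology MeasureTheory
open Pool.Agent.P.MP_e86632_nt (ee nn ee_add norm_ee ee_neg ee_zero)
open Pool.Agent.P.MP_8be758_nt.Avg (gs nsq gs_pos gs_le_one gs_neg gs_anti)
open Pool.Agent.P.E2
open Pool.Agent.P.PAR
open ArithmeticFunction (cardFactors vonMangoldt)
open DirichletCharacter (LFunction)

namespace FSBc

theorem blocks (L e lo : ℕ) (f : ℕ → ℝ) (hi : ℕ) (h : lo ≤ hi) :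
    ∑ b ∈ Ioc lo hi, ∑ i ∈ range L, f (b * L + i + e) =
      ∑ n ∈ Ico ((lo + 1) * L + e) ((hi + 1) * L + e), f n := by
  induction hi, h using Nat.le_induction with
  | base => simp
  | succ k hk ih =>
    have h1 : (lo + 1) * L + e ≤ (k + 1) * L + e :=
      Nat.add_le_add_right (Nat.mul_le_mul_right _ (by omega)) _
    have h2 : (k + 1) * L + e ≤ (k + 1 + 1) * L + e :=
      Nat.add_le_add_right (Nat.mul_le_mul_right _ (by omega)) _
    rw [sum_Ioc_succ_top hk, ih, ← sum_Ico_consecutive f h1 h2, sum_Ico_eq_sum_range f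
      ((k + 1) * L + e), show (k + 1 + 1) * L + e - ((k + 1) * L + e) = L by
        rw [add_mul (k + 1) 1 L]; omega]
    congr 1
    refine sum_congr rfl fun i _ => ?_
    rw [add_right_comm]

theorem tail (a L : ℕ) (ha : 1 ≤ a) (T : Finset ℕ) (hT : T ⊆ Ioc a (3 * L * a)) (h : ℕ → ℝ)
    (hh : ∀ m, 1 ≤ m → |h m| ≤ 1 / m) : |∑ m ∈ T, h m| ≤ 3 * L := by
  have ha' : (0 : ℝ) < a := by exact_mod_cast ha
  refine (abs_sum_le_sum_abs _ _).trans ?_
  have h1 : ∑ m ∈ T, |h m| ≤ T.card • (1 / (a : ℝ)) := by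
    refine sum_le_card_nsmul _ _ _ fun m hm => ?_
    have h2 := (mem_Ioc.1 (hT hm)).1
    refine (hh m (by omega)).trans (one_div_le_one_div_of_le ha' ?_)
    exact_mod_cast h2.le
  have h3 : T.card ≤ 3 * L * a := (card_le_card hT).trans (by rw [Nat.card_Ioc]; omega)
  have h4 : (T.card : ℝ) ≤ 3 * L * a := by exact_mod_cast h3
  rw [nsmul_eq_mul, mul_one_div] at h1
  exact h1.trans ((div_le_iff₀ ha').2 h4)

end FSBc

theorem r_FSB :
    K_FSB := by
  intro L q e lo hi G hq hqL heL hlo hG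
  rcases le_or_gt lo hi with hle | hlt
  swap
  · rw [Ioc_eq_empty (by omega), sum_empty, sum_empty, zero_div, sub_zero, abs_zero]
    positivity
  have hq' : (1 : ℝ) ≤ q := by exact_mod_cast hq
  rw [FSBc.blocks L e lo (fun n => if q ∣ n then G (n / q) / (n : ℝ) else 0) hi hle, ← sum_filter]
  obtain ⟨M, hM⟩ : ∃ M : Finset ℕ, M = (range ((hi + 1) * L + e)).filter
    fun m => (lo + 1) * L + e ≤ q * m ∧ q * m < (hi + 1) * L + e := ⟨_, rfl⟩
  have hm : ∀ m, m ∈ M ↔ (lo + 1) * L + e ≤ q * m ∧ q * m < (hi + 1) * L + e := by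
    intro m
    rw [hM, mem_filter, mem_range]
    refine ⟨fun h => h.2, fun h => ⟨lt_of_le_of_lt ?_ h.2, h⟩⟩
    exact Nat.le_mul_of_pos_left m hq
  have h1 : ∑ n ∈ (Ico ((lo + 1) * L + e) ((hi + 1) * L + e)).filter (q ∣ ·),
      G (n / q) / (n : ℝ) = ∑ m ∈ M, G m / m / q := by
    refine sum_nbij' (fun n => n / q) (fun m => q * m) ?_ ?_ ?_ ?_ ?_
    · intro n hn
      obtain ⟨h2, h3⟩ := mem_filter.1 hn
      rw [hm, Nat.mul_div_cancel' h3]
      exact mem_Ico.1 h2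
    · intro m h
      exact mem_filter.2 ⟨mem_Ico.2 ((hm m).1 h), dvd_mul_right _ _⟩
    · intro n hn
      exact Nat.mul_div_cancel' (mem_filter.1 hn).2
    · intro m _
      exact Nat.mul_div_cancel_left m hq
    · intro n hn
      obtain ⟨m, rfl⟩ := (mem_filter.1 hn).2
      rw [Nat.mul_div_cancel_left m hq, Nat.cast_mul, div_div, mul_comm]
  rw [h1, sum_div, ← sum_sdiff_sub_sum_sdiff]
  have hh : ∀ m : ℕ, 1 ≤ m → |G m / m / q| ≤ 1 / m := by
    intro m h
    have hm' : (0 : ℝ) < m := by exact_mod_cast h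
    rw [abs_div, abs_div, abs_of_pos hm', abs_of_pos (by linarith : (0 : ℝ) < q)]
    exact (div_le_self (by positivity) hq').trans
      (div_le_div_of_nonneg_right (hG m) hm'.le)
  have a1 := FSBc.tail hi L (by omega) (M \ Ioc lo hi) (fun m h => by
    obtain ⟨h2, h3⟩ := mem_sdiff.1 h
    obtain ⟨h4, h5⟩ := (hm m).1 h2
    have h6 : lo < m := by
      by_contra h7
      have : q * m ≤ L * lo := Nat.mul_le_mul hqL (by omega)
      nlinarith
    have h7 : m ≤ q * m := Nat.le_mul_of_pos_left m hq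
    rw [mem_Ioc] at h3 ⊢
    refine ⟨by omega, ?_⟩
    have : L * 1 ≤ L * hi := Nat.mul_le_mul_left _ (by omega)
    nlinarith) _ hh
  have a2 := FSBc.tail lo L hlo (Ioc lo hi \ M) (fun m h => by
    obtain ⟨h2, h3⟩ := mem_sdiff.1 h
    rw [mem_Ioc] at h2 ⊢
    refine ⟨h2.1, ?_⟩
    by_contra h4
    refine h3 ((hm m).2 ⟨?_, ?_⟩)
    · have h7 : m ≤ q * m := Nat.le_mul_of_pos_left m hq
      have : L * 1 ≤ L * lo := Nat.mul_le_mul_left _ hlo
      nlinarith
    · have : q * m ≤ L * hi := Nat.mul_le_mul hqL h2.2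
      nlinarith) _ hh
  refine (abs_sub _ _).trans ?_
  linarith

end Pool.Agent.P.LF
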