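import Pool.Agent.P.MP_e94e4b_nt.LF.IfB

/-! Step GD2. -/

namespace Pool.Agent.P.LF

open Finset Real Filter Topology MeasureTheory
open Pool.Agent.P.MP_e86632_nt (ee nn ee_add norm_ee ee_neg ee_zero)
open Pool.Agent.P.MP_8be758_nt.Avg (gs nsq gs_pos gs_le_one gs_neg gs_anti)
open Pool.Agent.P.E2
open Pool.Agent.P.PAR
open ArithmeticFunction (cardFactors vonMangoldt)
open DirichletCharacter (LFunction)

namespace GD2c

theorem one_res {q : ℕ} (hq : 0 < q) (s : ℕ) (r : ℝ) :
    ∑ y ∈ range q, (if q ∣ y + s then r else 0) = r := by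
  have h := sum_shift (F := fun n => if q ∣ n then (1 : ℤ) else 0) (L := q)
    (fun n => by simp only [Nat.dvd_add_self_right]) s
  have h2 : ∑ n ∈ range q, (if q ∣ n then (1 : ℤ) else 0) = 1 := by
    rw [sum_eq_single 0]
    · simp
    · intro b hb hb0
      rw [if_neg]
      exact Nat.not_dvd_of_pos_of_lt (Nat.pos_of_ne_zero hb0) (mem_range.1 hb)
    · intro h0
      exact absurd (mem_range.2 hq) h0
  rw [h2] at h
  have h3 : ∑ y ∈ range q, (if q ∣ y + s then (1 : ℝ) else 0) = 1 := by exact_mod_cast h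
  calc _ = ∑ y ∈ range q, (if q ∣ y + s then (1 : ℝ) else 0) * r :=
        sum_congr rfl fun y _ => by split_ifs <;> simp
    _ = r := by rw [← sum_mul, h3, one_mul]

theorem sum_Fq (D s Δ P : ℕ) (d : ℝ) (x : ℕ → BB) {q : ℕ} (hq : 0 < q) :
    ∑ y ∈ range q, Fq D s Δ P d x q y = q * Mq D Δ P d x q := by
  have h0 : (q : ℝ) ≠ 0 := by exact_mod_cast hq.ne'
  unfold Fq Mq
  rw [sum_comm, mul_div_cancel₀ _ h0]
  refine sum_congr rfl fun j _ => ?_
  simp only [add_assoc]
  exact one_res hq _ _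

theorem Fq_per (D s Δ P : ℕ) (d : ℝ) (x : ℕ → BB) {q L : ℕ} (h : q ∣ L) (y : ℕ) :
    Fq D s Δ P d x q (y + L) = Fq D s Δ P d x q y := by
  unfold Fq
  refine sum_congr rfl fun j _ => if_congr ?_ rfl rfl
  rw [show y + L + j + s * tq D q = y + j + s * tq D q + L by ring]
  exact (Nat.dvd_add_iff_left h).symm

end GD2c

open GD2c in
theorem r_GD2 (hHOE : K_HOE) :
    K_GD2 := by
  classical
  intro D s Δ P d η w hΔ d0 d1 η0 η1 hw
  refine ⟨fun x x' y hx h => ?_, fun x y => ?_, fun x => ?_⟩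
  · have e : ∀ q ∈ pq D P, ∀ j ∈ range (4 * P), pp D Δ d x' q j = pp D Δ d x q j := by
      intro q hq j hj
      have h1 := mem_range.1 hj
      have h2 := mul_tq_le hΔ hq
      unfold pp
      rw [hx j (by omega), hx _ (by omega)]
    unfold Ge at h ⊢
    refine h.trans_eq (sum_congr rfl fun q hq => ?_)
    unfold Fq Mq
    rw [sum_congr rfl (e q hq), sum_congr rfl fun j hj => by rw [← e q hq j hj]]
  · unfold Ge
    rw [sum_congr rfl fun q hq => by rw [Fq_per D s Δ P d x (dvd_prod_of_mem (fun q => q) hq)]]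
  · have := hHOE (pq D P) (fun q y => w q * (Fq D s Δ P d x q y - Mq D Δ P d x q)) 9 η
      (fun q hq => (mem_pq.1 hq).2.1) (by norm_num) η0 (by linarith) fun q hq => ⟨fun y => ⟨?_, ?_⟩, ?_⟩
    · rw [show (4 * 9 ^ 2 : ℝ) = 324 by norm_num] at this
      refine le_trans (Nat.cast_le.2 (card_le_card fun y hy => ?_)) this
      exact mem_filter.2 (mem_filter.1 hy)
    · rw [Fq_per D s Δ P d x dvd_rfl]
    · have a := abs_Fq d0 d1 hq s Δ x y
      have b := abs_Mq d0 d1 hq Δ x
      have c := abs_sub (Fq D s Δ P d x q y) (Mq D Δ P d x q)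
      rw [abs_mul]
      exact (mul_le_of_le_one_left (abs_nonneg _) (hw q)).trans (by linarith)
    · rw [← mul_sum, sum_sub_distrib, sum_Fq D s Δ P d x (mem_pq.1 hq).2.1.pos]
      simp

end Pool.Agent.P.LF
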