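import Pool.Agent.P.MP_e94e4b_nt.LF.IfB
import Pool.Agent.P.MP_e94e4b_nt.PAR.TCW1

/-! Step GEO. -/

namespace Pool.Agent.P.LF

open Finset Real Filter Topology MeasureTheory
open Pool.Agent.P.MP_e86632_nt (ee nn ee_add norm_ee ee_neg ee_zero)
open Pool.Agent.P.MP_8be758_nt.Avg (gs nsq gs_pos gs_le_one gs_neg gs_anti)
open Pool.Agent.P.E2
open Pool.Agent.P.PAR
open ArithmeticFunction (cardFactors vonMangoldt)
open DirichletCharacter (LFunction)

theorem r_GEO :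
    K_GEO := by
  intro p s t k u ok hk hz ou hu
  have hc := ck_spec ok
  have hs := su_spec ou
  obtain ⟨N', hN⟩ := ok.mul ou
  obtain ⟨N, rfl⟩ := ou
  rw [hN, show (2 * N' + 1) / 2 = N' by omega]
  refine card_le_card_of_injOn (fun m => k ^ 2 * m - ck k - N' ^ 2 - 1) (fun m hm => ?_)
    fun m hm m' hm' e => ?_
  · obtain ⟨h1, h2, h3⟩ := mem_filter.1 (mem_coe.1 hm)
    obtain ⟨a, b, e1, -, a2, e2, b1, b2, e3⟩ := CW1b.key hk hc hu hN h1
    have e4 : (N + 1) ^ 2 = N ^ 2 + 2 * N + 1 := by ring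
    have e5 : (2 * N + 1) ^ 2 = 4 * N ^ 2 + 4 * N + 1 := by ring
    beta_reduce
    rw [show k ^ 2 * m - ck k - N' ^ 2 - 1 = b by omega]
    refine mem_coe.2 (mem_filter.2 ⟨mem_Icc.2 ⟨b1, b2⟩, ?_, ?_⟩)
    · rwa [Ai, show k ^ 2 * m - ck k = N' ^ 2 + b + 1 by omega] at h3
    · rw [e3, fb_sq_mul (by omega) hz (by omega)]
      rwa [show su (2 * N + 1) - m = (N + 1) ^ 2 - a by omega] at h2
  · obtain ⟨a, b, -, -, -, e2, -⟩ := CW1b.key hk hc hu hN (mem_filter.1 (mem_coe.1 hm)).1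
    obtain ⟨a', b', -, -, -, e2', -⟩ := CW1b.key hk hc hu hN (mem_filter.1 (mem_coe.1 hm')).1
    simp only at e
    exact Nat.eq_of_mul_eq_mul_left (show 0 < k ^ 2 by positivity) (by omega)

end Pool.Agent.P.LF
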