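import Pool.Agent.P.MP_e94e4b_nt.LF.IfA

/-! Step LGA. -/

namespace Pool.Agent.P.LF

open Finset Real Filter Topology MeasureTheory
open Pool.Agent.P.MP_e86632_nt (ee nn ee_add norm_ee ee_neg ee_zero)
open Pool.Agent.P.MP_8be758_nt.Avg (gs nsq gs_pos gs_le_one gs_neg gs_anti)
open Pool.Agent.P.E2
open Pool.Agent.P.PAR
open ArithmeticFunction (cardFactors vonMangoldt)
open DirichletCharacter (LFunction)

namespace LGAc

theorem lower {r δ A : ℝ} (hδ : 0 < δ) (hδ1 : δ ≤ 1 / 2) (h : 2 ≤ r)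
    (h2 : 21 * Real.exp A * r ^ 12 ≤ δ / 32 * r ^ 13) :
    A ≤ Real.log (Real.log (yy (lP r) δ (lV r)) / Real.log (lP r)) := by
  have h0 : 0 < r ^ 12 := by positivity
  have h13 : 16 ≤ r ^ 13 := le_trans (by norm_num) (pow_le_pow_left₀ (by norm_num) h 13)
  have h1 : δ / 2 ≤ Real.log (1 + δ) := by
    refine le_trans ?_ (Real.le_log_one_add_of_nonneg hδ.le)
    rw [div_le_div_iff₀ (by norm_num) (by positivity)]
    nlinarith
  have h3 : r ^ 13 / 16 ≤ (lV r : ℝ) := by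
    have := Nat.lt_floor_add_one (r ^ 13 / 8)
    unfold lV; linarith
  have h4 := mul_le_mul h3 h1 (by positivity) (by positivity)
  have hP : Real.log (lP r) = 21 * r ^ 12 := Real.log_exp _
  rw [log_yy (P := lP r) (Real.exp_pos _) hδ.le, hP, Real.le_log_iff_exp_le (by
    have := Real.log_nonneg (show 1 ≤ 1 + δ by linarith)
    positivity), le_div_iff₀ (by positivity)]
  nlinarith

theorem one {P δ : ℝ} {l : ℕ} (hl1 : 1 ≤ l) (hδ : 0 < δ) (hδ1 : δ ≤ 1 / 2) (hP : 2 ≤ P) (v : ℕ)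
    (h : δ / (2 * l) * yy P δ v / Real.log (yy P δ v) ≤ (pw l P δ v).card) :
    1 / Real.log (yy P δ v) ≤ 4 * l / δ * ∑ p ∈ pw l P δ v, 1 / (p : ℝ) := by
  have h0 : 0 ≤ P := by linarith
  have l0 : (0 : ℝ) < l := by exact_mod_cast hl1
  have hy : 2 ≤ yy P δ v := hP.trans (le_yy h0 hδ.le v)
  have hl : 0 < Real.log (yy P δ v) := Real.log_pos (by linarith)
  have h1 : ((pw l P δ v).card : ℝ) * (1 / (2 * yy P δ v)) ≤ ∑ p ∈ pw l P δ v, 1 / (p : ℝ) := by
    rw [← nsmul_eq_mul]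
    refine card_nsmul_le_sum _ _ _ fun p hp => ?_
    obtain ⟨⟨⟨a, b⟩, _⟩, _⟩ := (mem_pw h0 hδ.le).1 hp
    rw [yy_succ] at b
    exact one_div_le_one_div_of_le (by linarith) (by nlinarith)
  refine le_trans (le_of_eq ?_) (mul_le_mul_of_nonneg_left
    ((mul_le_mul_of_nonneg_right h (by positivity)).trans h1) (by positivity))
  field_simp
  ring

end LGAc

theorem r_LGA (hPNT : S_PNT) (hLG : L_LG) (hMAP : K_MAP) :
    K_LGA := by
  intro l δ A hl hδ hδ1
  have l0 : (0 : ℝ) < l := by exact_mod_cast hl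
  have ht : Tendsto lP atTop atTop :=
    Real.tendsto_exp_atTop.comp ((tendsto_pow_atTop (by norm_num)).const_mul_atTop (by norm_num))
  obtain ⟨u0, hu⟩ := eventually_atTop.1 (hPNT l (δ / (2 * l)) hl (by positivity))
  filter_upwards [ht.eventually (hMAP l hl), ht.eventually_ge_atTop u0, hLG δ 1 hδ hδ1,
    eventually_ge_atTop 2, ev_pp (21 * Real.exp (4 * l * A + 1)) (c := δ / 32) (by positivity)
      (show 12 < 13 by norm_num)] with r h1 h2 h4 h h3
  have hP := h4.p2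
  have h0 : 0 ≤ lP r := by linarith
  have hy : ∀ v, 2 ≤ yy (lP r) δ v := fun v => hP.trans (le_yy h0 hδ.le v)
  refine ⟨h4, le_trans ?_ (h1 _ (le_yy h0 hδ.le (lV r))), ?_⟩
  · rw [le_div_iff₀ (by positivity)]
    linarith [LGAc.lower hδ hδ1 h h3]
  · rw [rs, sum_pb l h0 hδ.le, mul_sum]
    refine sum_le_sum fun v _ => LGAc.one hl hδ hδ1 hP v ?_
    have a := (abs_le.1 (hu _ (h2.trans (le_yy h0 hδ.le v)) (yy (lP r) δ (v + 1)) 1
      (yy_mono h0 hδ.le v.le_succ) (by rw [yy_succ]; nlinarith [hy v])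
      (Nat.coprime_one_left l))).1
    have hl' : 0 < Real.log (yy (lP r) δ v) := Real.log_pos (by linarith [hy v])
    have t0 : (0 : ℝ) < l.totient := by exact_mod_cast Nat.totient_pos.2 hl
    have t1 : (l.totient : ℝ) ≤ l := by exact_mod_cast Nat.totient_le l
    have b : 2 * (δ / (2 * l) * yy (lP r) δ v / Real.log (yy (lP r) δ v)) ≤
        (yy (lP r) δ (v + 1) - yy (lP r) δ v) / (l.totient * Real.log (yy (lP r) δ v)) := by
      have e : 2 * (δ / (2 * l) * yy (lP r) δ v / Real.log (yy (lP r) δ v)) =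
          (yy (lP r) δ (v + 1) - yy (lP r) δ v) / (l * Real.log (yy (lP r) δ v)) := by
        rw [yy_succ]; field_simp; ring
      rw [e]
      exact div_le_div_of_nonneg_left (sub_nonneg.2 (yy_mono h0 hδ.le v.le_succ)) (by positivity)
        (mul_le_mul_of_nonneg_right t1 hl'.le)
    rw [pw, pv, filter_filter]
    linarith

end Pool.Agent.P.LF
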