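import Pool.Agent.P.MP_e94e4b_nt.LF.IfA

/-! Step LQC. -/

namespace Pool.Agent.P.LF

open Finset Real Filter Topology MeasureTheory
open Pool.Agent.P.MP_e86632_nt (ee nn ee_add norm_ee ee_neg ee_zero)
open Pool.Agent.P.MP_8be758_nt.Avg (gs nsq gs_pos gs_le_one gs_neg gs_anti)
open Pool.Agent.P.E2
open Pool.Agent.P.PAR
open ArithmeticFunction (cardFactors vonMangoldt)
open DirichletCharacter (LFunction)

namespace LQCc

theorem ne_one {s : ℂ} (hs : 1 < s.re) : s ≠ 1 := fun e => by rw [e] at hs; simp at hs

theorem dbl {q : ℕ} [NeZero q] (χ : DirichletCharacter ℂ q) :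
    ContinuousOn (fun s : ℂ => LFunction χ (2 * s)) {s | 1 ≤ s.re} := fun s hs =>
  ((χ.differentiableAt_LFunction (2 * s) (.inl (ne_one (by
    have : (1 : ℝ) ≤ s.re := hs
    simp only [Complex.mul_re, Complex.re_ofNat, Complex.im_ofNat]
    linarith)))).continuousAt.comp (f := fun s : ℂ => 2 * s) (by fun_prop)).continuousWithinAt

end LQCc

theorem r_LQC (hLZC : K_LZC) :
    K_LQC := by
  intro q _ χ
  by_cases h : χ = 1
  · subst h
    refine ⟨fun s => LFunction ((1 : DirichletCharacter ℂ q) ^ 2) (2 * s) * (s - 1) /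
      DirichletCharacter.LFunctionTrivChar₁ q s, ContinuousOn.div (ContinuousOn.mul (LQCc.dbl (1 ^ 2))
        (continuous_sub_right 1).continuousOn)
        (DirichletCharacter.differentiable_LFunctionTrivChar₁ q).continuous.continuousOn
        fun s hs => ?_, fun s hs => ?_⟩
    · rcases eq_or_ne s 1 with rfl | h1
      · exact DirichletCharacter.LFunctionTrivChar₁_apply_one_ne_zero q
      · rw [DirichletCharacter.LFunctionTrivChar₁, Function.update_of_ne h1]
        exact mul_ne_zero (sub_ne_zero.2 h1)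
          (DirichletCharacter.LFunction_ne_zero_of_one_le_re _ (.inr h1) hs)
    · have h1 := LQCc.ne_one hs
      have h2 := DirichletCharacter.LFunction_ne_zero_of_one_le_re
        (1 : DirichletCharacter ℂ q) (.inr h1) hs.le
      beta_reduce
      rw [DirichletCharacter.LFunctionTrivChar₁, Function.update_of_ne h1, ← hLZC q 1 s hs,
        div_eq_iff (mul_ne_zero (sub_ne_zero.2 h1) h2)]
      ring
  · refine ⟨fun s => LFunction (χ ^ 2) (2 * s) / LFunction χ s, ContinuousOn.div (LQCc.dbl (χ ^ 2))
      (DirichletCharacter.differentiable_LFunction h).continuous.continuousOn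
      fun s hs => χ.LFunction_ne_zero_of_one_le_re (.inl h) hs, fun s hs => ?_⟩
    beta_reduce
    rw [← hLZC q χ s hs, mul_div_cancel_right₀ _ (χ.LFunction_ne_zero_of_one_le_re (.inl h) hs.le)]

end Pool.Agent.P.LF
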