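import Pool.Agent.P.MP_e94e4b_nt.LF.IfA

/-! Step LSA. -/

namespace Pool.Agent.P.LF

open Finset Real Filter Topology MeasureTheory
open Pool.Agent.P.MP_e86632_nt (ee nn ee_add norm_ee ee_neg ee_zero)
open Pool.Agent.P.MP_8be758_nt.Avg (gs nsq gs_pos gs_le_one gs_neg gs_anti)
open Pool.Agent.P.E2
open Pool.Agent.P.PAR
open ArithmeticFunction (cardFactors vonMangoldt)
open DirichletCharacter (LFunction)

namespace LSAc

theorem q_bound {y M s a e : ℝ} (hM : 1 < M) (hMy : M ≤ y) (hl : Real.log y ≤ 2 * Real.log M)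
    (ha0 : 0 ≤ a) (he : 0 ≤ e) (hs : a + e ≤ s) :
    2 * M / Real.log M * (5 * a + 3 * e) ≤ 20 * s * (y / Real.log y) := by
  have h1 : 0 < Real.log M := Real.log_pos hM
  have h2 : 0 < Real.log y := Real.log_pos (hM.trans_le hMy)
  have h3 : 2 * M / Real.log M ≤ 4 * (y / Real.log y) := by
    rw [← mul_div_assoc, div_le_div_iff₀ h1 h2]
    have h4 : M * Real.log y ≤ y * (2 * Real.log M) :=
      mul_le_mul hMy hl h2.le (by linarith)
    linarith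
  have h5 : 5 * a + 3 * e ≤ 5 * s := by linarith
  have h6 : 0 ≤ 4 * (y / Real.log y) := by
    have : 0 < y := by linarith
    positivity
  calc 2 * M / Real.log M * (5 * a + 3 * e) ≤ 4 * (y / Real.log y) * (5 * s) :=
        mul_le_mul h3 h5 (by linarith) h6
    _ = 20 * s * (y / Real.log y) := by ring

theorem fin_bound {C ε δ E s K S W X m L : ℝ} (hL : 0 < L) (hC : 0 < C) (hε : 0 < ε) (hδ : 0 < δ)
    (hδε : δ ≤ ε / (4 * C)) (hE1 : 1 ≤ E) (hE : 4 * C / ε ≤ E) (hs : 0 ≤ s) (hK : 0 ≤ K)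
    (hS0 : 0 ≤ S) (hS : S ≤ 4 * L / δ * E)
    (hθ : s ^ 2 * K ≤ ε * δ ^ 2 / (25600 * L ^ 2))
    (hW : W ≤ (20 * s * S) ^ 2 * K * X ^ 2)
    (hm : m ≤ C * X ^ 2 * (1 / E + δ) + 2 / E ^ 2 * W) : m ≤ ε * X ^ 2 := by
  have hE0 : 0 < E := by linarith
  have h1 : 1 / E ≤ ε / (4 * C) := by
    rw [div_le_div_iff₀ hE0 (by positivity)]
    rw [div_le_iff₀ hε] at hE
    linarith
  have h2 : C * X ^ 2 * (1 / E + δ) ≤ ε / 2 * X ^ 2 := by
    calc C * X ^ 2 * (1 / E + δ) ≤ C * X ^ 2 * (ε / (4 * C) + ε / (4 * C)) := by gcongr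
      _ = ε / 2 * X ^ 2 := by field_simp; ring
  have h3 : (20 * s * S) ^ 2 * K ≤ ε / 4 * E ^ 2 := by
    calc (20 * s * S) ^ 2 * K ≤ (20 * s * (4 * L / δ * E)) ^ 2 * K := by gcongr
      _ = 6400 * (L ^ 2 * E ^ 2 / δ ^ 2) * (s ^ 2 * K) := by field_simp; ring
      _ ≤ 6400 * (L ^ 2 * E ^ 2 / δ ^ 2) * (ε * δ ^ 2 / (25600 * L ^ 2)) := by gcongr
      _ = ε / 4 * E ^ 2 := by field_simp; ring
  have h4 : 2 / E ^ 2 * W ≤ ε / 2 * X ^ 2 := by
    calc 2 / E ^ 2 * W ≤ 2 / E ^ 2 * (ε / 4 * E ^ 2 * X ^ 2) := by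
          gcongr
          exact hW.trans (by gcongr)
      _ = ε / 2 * X ^ 2 := by field_simp; ring
  linarith

end LSAc

theorem r_LSA (hPQX : K_PQX) (hLGA : K_LGA) (hDEA : K_DEA) (hBWA : K_BWA) :
    K_LSA := by
  intro l ε hl hε
  have hl0 : (0 : ℝ) < l := by exact_mod_cast hl
  obtain ⟨C, hC, hD⟩ := hDEA
  set δ : ℝ := min (1 / 2) (ε / (4 * C)) with hδdef
  have hδ0 : 0 < δ := lt_min (by norm_num) (by positivity)
  have hδ1 : δ ≤ 1 / 2 := min_le_left _ _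
  have hδ2 : δ ≤ ε / (4 * C) := min_le_right _ _
  refine ⟨δ, ε * δ ^ 2 / (25600 * (l : ℝ) ^ 2), hδ0, hδ1, by positivity, ?_⟩
  filter_upwards [hPQX l hl, hLGA l δ (max 1 (4 * C / ε)) hl hδ0 hδ1, eventually_ge_atTop 1,
    ev_pp (-Real.log δ) (c := 1 / 2) (by norm_num) (show 0 < 13 by norm_num)] with r hP hH hr hrδ
  have hL := hH.lg
  have hE1 : 1 ≤ rs (pb l (lP r) δ (lV r)) := (le_max_left _ _).trans hH.ea
  have hE2 : 4 * C / ε ≤ rs (pb l (lP r) δ (lV r)) := (le_max_right _ _).trans hH.ea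
  refine ⟨hL, ?_⟩
  intro X κ g Z T0 K T hX hI hZ1 hZX hT0 hK hT hTt hR hθ
  have hP0 : 0 < lP r := by linarith [hL.p2]
  have hr13 : 0 ≤ r ^ 13 := by positivity
  have hy : yy (lP r) δ (lV r) ^ 2 ≤ δ * X := by
    have h1 := hL.yu (lV r) le_rfl
    have h2 := (yy_pos hP0 hδ0.le (lV r)).le
    rw [pow_zero, mul_one] at hrδ
    calc yy (lP r) δ (lV r) ^ 2 ≤ Real.exp (r ^ 13 / 4) ^ 2 := by gcongr
      _ = Real.exp (r ^ 13 / 2) := by rw [← Real.exp_nat_mul]; congr 1; push_cast; ring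
      _ ≤ Real.exp (Real.log δ + r ^ 13) := Real.exp_le_exp.2 (by linarith)
      _ = δ * X := by rw [Real.exp_add, Real.exp_log hδ0, hX, XX]
  have hs0 : 0 ≤ 1 / (1 + T0) + Real.exp (-r) := by positivity
  have hQ : ∀ v < lV r, ∀ t ∈ T, ‖qw l (lP r) δ v t‖ ≤
      20 * (1 / (1 + T0) + Real.exp (-r)) * (yy (lP r) δ v / Real.log (yy (lP r) δ v)) := by
    intro v hv t ht
    obtain ⟨ht1, ht2⟩ := hTt t ht
    have hN : (⌊yy (lP r) δ (v + 1)⌋₊ : ℝ) ≤ Real.exp (2 * r ^ 13) :=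
      (Nat.floor_le (yy_pos hP0 hδ0.le _).le).trans ((hL.yu (v + 1) hv).trans
        (Real.exp_le_exp.2 (by linarith)))
    have h1 := hP _ _ t (hL.ml v) (hL.mn v).1 (hL.mn v).2 hN
      (ht2.trans (Real.exp_le_exp.2 (by linarith)))
    have hM : (1 : ℝ) < ⌊yy (lP r) δ v⌋₊ :=
      lt_of_lt_of_le (Real.one_lt_exp_iff.2 (by positivity)) (hL.ml v)
    have h2 : 1 / (1 + |t|) ≤ 1 / (1 + T0) := by gcongr
    refine h1.trans (le_trans (le_of_eq ?_) (LSAc.q_bound (a := 1 / (1 + |t|)) (e := Real.exp (-r))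
      hM (Nat.floor_le (yy_pos hP0 hδ0.le v).le) (hL.lg v) (by positivity) (Real.exp_pos _).le
      (by linarith)))
    rw [mul_one_div]
  have hW := hBWA l g X (lV r) (lP r) δ Z _ K T hL.p2 hδ0.le (by linarith) (by positivity) hK hT hQ hR
  have hS0 : 0 ≤ ∑ v ∈ range (lV r), 1 / Real.log (yy (lP r) δ v) :=
    sum_nonneg fun v _ => one_div_nonneg.2 (Real.log_nonneg
      (le_trans (by linarith [hL.p2]) (le_yy hP0.le hδ0.le v)))
  exact LSAc.fin_bound hl0 hC hε hδ0 hδ2 hE1 hE2 hs0 hK hS0 hH.sl hθ hW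
    (hD l X (lV r) κ g (lP r) δ Z T hI hL.p2 hδ0.le (by linarith) hE1 hy hZ1 hZX hT)

end Pool.Agent.P.LF
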