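import Pool.Agent.P.MP_e94e4b_nt.LF.IfA

/-! Step LSV. -/

namespace Pool.Agent.P.LF

open Finset Real Filter Topology MeasureTheory
open Pool.Agent.P.MP_e86632_nt (ee nn ee_add norm_ee ee_neg ee_zero)
open Pool.Agent.P.MP_8be758_nt.Avg (gs nsq gs_pos gs_le_one gs_neg gs_anti)
open Pool.Agent.P.E2
open Pool.Agent.P.PAR
open ArithmeticFunction (cardFactors vonMangoldt)
open DirichletCharacter (LFunction)

namespace LSVc

theorem inv_sq (S : Finset ℕ) (hS : ∀ p ∈ S, 2 ≤ p) : ∑ p ∈ S, 1 / (p : ℝ) * (1 / p) ≤ 1 := by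
  have h1 : S ⊆ Ioc 1 (S.sup id + 1) := fun p hp =>
    mem_Ioc.2 ⟨hS p hp, (le_sup (f := id) hp).trans (Nat.le_succ _)⟩
  have h2 := sum_Ioc_inv_sq_le_sub (α := ℝ) (k := 1) (n := S.sup id + 1) one_ne_zero (by omega)
  have h3 : (0 : ℝ) ≤ ((S.sup id + 1 : ℕ) : ℝ)⁻¹ := by positivity
  refine (sum_le_sum_of_subset_of_nonneg h1 fun _ _ _ => by positivity).trans ?_
  simp only [one_div, ← pow_two, inv_pow]
  simp only [Nat.cast_one, inv_one] at h2
  linarith

theorem mean (S : Finset ℕ) (x h : ℕ) (α : ℝ) (u : ℕ → ℂ) (hu : ∀ p, ‖u p‖ = 1)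
    (hS : ∀ p ∈ S, 2 ≤ p) (hh : 1 ≤ h)
    (hs : ∀ p ∈ S, ∀ p' ∈ S, p ≠ p' → rs S ^ 2 / h ≤ nn (((p : ℝ) - p') * α)) :
    ∑ n ∈ Ioc x (x + h), ‖∑ p ∈ S, u p / p * ee (p * α * n)‖ ^ 2 ≤ 2 * h := by
  rcases S.eq_empty_or_nonempty with rfl | hne
  · simp
  have h0 : (0 : ℝ) < h := by exact_mod_cast hh
  have hR : 0 < rs S := sum_pos (fun p hp => by have := hS p hp; positivity) hne
  have e1 : ∀ n : ℕ, ((‖∑ p ∈ S, u p / p * ee (p * α * n)‖ ^ 2 : ℝ) : ℂ) = ∑ p ∈ S, ∑ p' ∈ S,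
      u p / p * (starRingEnd ℂ) (u p' / p') * ee (n * (((p : ℝ) - p') * α)) := fun n => by
    rw [Complex.ofReal_pow, ← Complex.mul_conj', map_sum, sum_mul_sum]
    refine sum_congr rfl fun p _ => sum_congr rfl fun p' _ => ?_
    rw [map_mul, ← ee_neg, mul_mul_mul_comm, ← ee_add]
    congr 2; ring
  have e2 : ((∑ n ∈ Ioc x (x + h), ‖∑ p ∈ S, u p / p * ee (p * α * n)‖ ^ 2 : ℝ) : ℂ) =
      ∑ p ∈ S, ∑ p' ∈ S, u p / p * (starRingEnd ℂ) (u p' / p') *
        ∑ n ∈ Ioc x (x + h), ee (n * (((p : ℝ) - p') * α)) := by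
    rw [Complex.ofReal_sum, sum_congr rfl fun n _ => e1 n, sum_comm]
    refine sum_congr rfl fun p _ => ?_
    rw [sum_comm]
    exact sum_congr rfl fun p' _ => (mul_sum _ _ _).symm
  have e3 : ∀ p ∈ S, ∀ p' ∈ S, ‖u p / p * (starRingEnd ℂ) (u p' / p') *
      ∑ n ∈ Ioc x (x + h), ee (n * (((p : ℝ) - p') * α))‖ ≤
      (if p = p' then 1 / (p : ℝ) * (1 / p) * h else 0) + 1 / p * (1 / p') * (h / rs S ^ 2) :=
    fun p hp p' hp' => by
    rw [norm_mul, norm_mul, Complex.norm_conj, norm_div, norm_div, hu, hu, Complex.norm_natCast,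
      Complex.norm_natCast]
    split_ifs with e
    · subst e
      refine le_add_of_le_of_nonneg (mul_le_mul_of_nonneg_left ?_ (by positivity)) (by positivity)
      simp
    · rw [zero_add]
      have a1 := hs p hp p' hp' e
      have a2 : 0 < rs S ^ 2 / h := by positivity
      refine mul_le_mul_of_nonneg_left
        ((MP_e86632_nt.geom_bound (a2.trans_le a1) _ _).trans ?_) (by positivity)
      rw [← one_div_div (rs S ^ 2)]
      exact one_div_le_one_div_of_le a2 (by linarith)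
  have e4 : ∑ p ∈ S, ∑ p' ∈ S, 1 / (p : ℝ) * (1 / p') * (h / rs S ^ 2) = (h : ℝ) := by
    simp only [← sum_mul]
    rw [← sum_mul_sum]
    change rs S * rs S * _ = _
    field_simp
  refine (le_abs_self _).trans ?_
  rw [← Real.norm_eq_abs, ← Complex.norm_real, e2]
  refine (norm_sum_le_of_le _ fun p hp => norm_sum_le_of_le _ (e3 p hp)).trans ?_
  simp only [sum_add_distrib, e4, sum_ite_eq]
  rw [sum_congr rfl fun p hp => if_pos hp, ← sum_mul]
  nlinarith [inv_sq S hS]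

end LSVc

theorem r_LSV :
    K_LSV := by
  intro g S x h α hg hS hh hs
  choose u hu hu' using fun p : ℕ => Complex.exists_norm_eq_mul_self (es g x h (p * α))
  have e1 : ((∑ p ∈ S, ‖es g x h (p * α)‖ / p : ℝ) : ℂ) =
      ∑ n ∈ Ioc x (x + h), g n * ∑ p ∈ S, u p / p * ee (p * α * n) := by
    simp only [mul_sum]
    rw [sum_comm, Complex.ofReal_sum]
    refine sum_congr rfl fun p _ => ?_
    rw [Complex.ofReal_div, hu' p, es, mul_sum, sum_div]
    exact sum_congr rfl fun n _ => by push_cast; ring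
  have e2 := LSVc.mean S x h α u hu hS hh hs
  have e3 := sq_sum_le_card_mul_sum_sq (s := Ioc x (x + h))
    (f := fun n : ℕ => ‖∑ p ∈ S, u p / p * ee (p * α * n)‖)
  rw [Nat.card_Ioc, Nat.add_sub_cancel_left] at e3
  have h0 : (0 : ℝ) ≤ h := by positivity
  refine (le_abs_self _).trans ?_
  rw [← Real.norm_eq_abs, ← Complex.norm_real, e1]
  refine (norm_sum_le_of_le _ fun n _ => (norm_mul_le _ _).trans
    (mul_le_of_le_one_left (norm_nonneg _) (hg n))).trans ?_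
  refine (le_abs_self _).trans (abs_le_of_sq_le_sq ?_ (by positivity))
  nlinarith [mul_le_mul_of_nonneg_left e2 h0]

end Pool.Agent.P.LF
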