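import Pool.Agent.P.MP_e94e4b_nt.LF.IfA
import Pool.Agent.P.MP_e86632_nt.PNT

/-! Step LXC. -/

namespace Pool.Agent.P.LF

open Finset Real Filter Topology MeasureTheory
open Pool.Agent.P.MP_e86632_nt (ee nn ee_add norm_ee ee_neg ee_zero)
open Pool.Agent.P.MP_8be758_nt.Avg (gs nsq gs_pos gs_le_one gs_neg gs_anti)
open Pool.Agent.P.E2
open Pool.Agent.P.PAR
open ArithmeticFunction (cardFactors vonMangoldt)
open DirichletCharacter (LFunction)

namespace LXCc

noncomputable def Z : ℂ → ℂ :=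
  Function.update (fun s => riemannZeta s - 1 / (s - 1)) 1 (Real.eulerMascheroniConstant : ℂ)

theorem contZ : ContinuousOn Z {s | 1 ≤ s.re} := fun s _ => by
  refine ContinuousAt.continuousWithinAt ?_
  by_cases h : s = 1
  · subst h
    rw [Z, continuousAt_update_same]
    exact tendsto_riemannZeta_sub_one_div
  · rw [Z, continuousAt_update_of_ne h]
    exact (differentiableAt_riemannZeta h).continuousAt.sub
      (continuousAt_const.div (by fun_prop) (sub_ne_zero.2 h))

theorem re_small {a b : ℕ → ℂ} (ha : ∀ n, ‖a n‖ ≤ 1) (hb : ∀ n, b n = (starRingEnd ℂ) (a n))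
    {G1 G2 : ℂ → ℂ} (c1 : ContinuousOn G1 {s | 1 ≤ s.re}) (c2 : ContinuousOn G2 {s | 1 ≤ s.re})
    (e1 : ∀ s : ℂ, 1 < s.re → G1 s = LSeries a s) (e2 : ∀ s : ℂ, 1 < s.re → G2 s = LSeries b s)
    {ω : ℂ} (hω : ‖ω‖ = 1) {ε : ℝ} (hε : 0 < ε) :
    ∀ᶠ N : ℕ in atTop, |(ω * ∑ n ∈ Icc 1 N, a n).re| ≤ ε * N := by
  have h1 : ∀ n, |(ω * a n).re| ≤ 1 := fun n =>
    (Complex.abs_re_le_norm _).trans (by rw [norm_mul, hω, one_mul]; exact ha n)
  have T := MP_e86632_nt.wiener_ikehara (fun n => 1 + (ω * a n).re)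
    (fun n => by linarith [(abs_le.1 (h1 n)).1]) (C := 2) (A := 1)
    (fun n => (sum_le_card_nsmul _ _ 2 fun j _ => by linarith [(abs_le.1 (h1 j)).2]).trans
      (by simp [mul_comm]))
    (fun s => Z s + (ω / 2 * G1 s + (starRingEnd ℂ) ω / 2 * G2 s))
    (contZ.add ((continuousOn_const.mul c1).add (continuousOn_const.mul c2))) fun s hs => by
      have k1 : s ≠ 1 := by rintro rfl; simp at hs
      have e : (fun n => ((1 + (ω * a n).re : ℝ) : ℂ)) =
          (1 : ℕ → ℂ) + ((ω / 2) • a + ((starRingEnd ℂ) ω / 2) • b) := by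
        funext n
        rw [Complex.ofReal_add, Complex.re_eq_add_conj]
        simp only [Pi.add_apply, Pi.smul_apply, smul_eq_mul, hb, map_mul, Pi.one_apply]
        push_cast; ring
      have s1 : LSeriesSummable (1 : ℕ → ℂ) s :=
        LSeriesSummable_of_bounded_of_one_lt_re (m := 1) (fun n _ => by simp) hs
      have s2 : LSeriesSummable a s :=
        LSeriesSummable_of_bounded_of_one_lt_re (m := 1) (fun n _ => ha n) hs
      have s3 : LSeriesSummable b s :=
        LSeriesSummable_of_bounded_of_one_lt_re (m := 1)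
          (fun n _ => by rw [hb, Complex.norm_conj]; exact ha n) hs
      rw [e, LSeries_add s1 ((s2.smul _).add (s3.smul _)), LSeries_add (s2.smul _) (s3.smul _),
        LSeries_smul, LSeries_smul, LSeries_one_eq_riemannZeta hs, Z, Function.update_of_ne k1,
        e1 s hs, e2 s hs]
      push_cast; ring
  filter_upwards [(Metric.tendsto_nhds.1 T) ε hε, eventually_gt_atTop 0] with N hN h0
  have hN0 : (0 : ℝ) < N := by exact_mod_cast h0
  rw [Real.dist_eq, sum_add_distrib] at hN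
  have e : (∑ _j ∈ Icc 1 N, (1 : ℝ) + ∑ j ∈ Icc 1 N, (ω * a j).re) / N - 1 =
      (ω * ∑ n ∈ Icc 1 N, a n).re / N := by
    simp only [sum_const, Nat.card_Icc, add_tsub_cancel_right, nsmul_eq_mul, mul_one, mul_sum,
      Complex.re_sum]
    field_simp
    ring
  rw [e, abs_div, abs_of_pos hN0, div_lt_iff₀ hN0] at hN
  exact hN.le

end LXCc

theorem r_LXC (hLQC : K_LQC) :
    K_LXC := by
  intro q _ χ ε hε
  obtain ⟨G1, c1, e1⟩ := hLQC q χ
  obtain ⟨G2, c2, e2⟩ := hLQC q χ⁻¹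
  have ha : ∀ n, ‖lc n * ch χ n‖ ≤ 1 := fun n => by
    rw [norm_mul, norm_lc, one_mul]; exact norm_ch_le χ n
  have hb : ∀ n, lc n * ch χ⁻¹ n = (starRingEnd ℂ) (lc n * ch χ n) := fun n => by
    rw [map_mul, lc, Complex.conj_ofReal, ch, ch, ← MulChar.star_eq_inv, MulChar.star_apply]; rfl
  filter_upwards [LXCc.re_small ha hb c1 c2 e1 e2 (ω := 1) (by simp) (half_pos hε),
    LXCc.re_small ha hb c1 c2 e1 e2 (ω := -Complex.I) (by simp) (half_pos hε)] with N h1 h2
  rw [one_mul] at h1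
  rw [show ∀ z : ℂ, (-Complex.I * z).re = z.im from fun z => by simp] at h2
  linarith [Complex.norm_le_abs_re_add_abs_im (∑ n ∈ Icc 1 N, lc n * ch χ n)]

end Pool.Agent.P.LF
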