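import Pool.Agent.P.MP_e94e4b_nt.LF.IfA

/-! Step LXP. -/

namespace Pool.Agent.P.LF

open Finset Real Filter Topology MeasureTheory
open Pool.Agent.P.MP_e86632_nt (ee nn ee_add norm_ee ee_neg ee_zero)
open Pool.Agent.P.MP_8be758_nt.Avg (gs nsq gs_pos gs_le_one gs_neg gs_anti)
open Pool.Agent.P.E2
open Pool.Agent.P.PAR
open ArithmeticFunction (cardFactors vonMangoldt)
open DirichletCharacter (LFunction)

namespace LXPc

theorem cop (hLXC : K_LXC) (q : ℕ) (hq : 1 ≤ q) (ε : ℝ) (hε : 0 < ε) :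
    ∀ᶠ N : ℕ in atTop, ∀ c : ℕ, c.Coprime q →
      ‖∑ n ∈ (Icc 1 N).filter (· ≡ c [MOD q]), lc n‖ ≤ ε * N := by
  have : NeZero q := ⟨by omega⟩
  filter_upwards [eventually_all.2 fun χ : DirichletCharacter ℂ q => hLXC q χ ε hε] with N h c hc
  have hu := (ZMod.isUnit_iff_coprime c q).2 hc
  have hφ : (0 : ℝ) < q.totient := by exact_mod_cast Nat.totient_pos.2 hq
  have e : (q.totient : ℂ) * ∑ n ∈ (Icc 1 N).filter (· ≡ c [MOD q]), lc n =
      ∑ χ : DirichletCharacter ℂ q, χ (c : ZMod q)⁻¹ * ∑ n ∈ Icc 1 N, lc n * ch χ n := by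
    simp only [mul_sum]
    rw [sum_comm, sum_filter]
    refine sum_congr rfl fun n _ => ?_
    have := DirichletCharacter.sum_char_inv_mul_char_eq ℂ hu (n : ZMod q)
    simp only [ch, mul_left_comm _ (lc n)]
    rw [← mul_sum, this]
    simp only [ZMod.natCast_eq_natCast_iff, Nat.ModEq.comm (a := c)]
    split_ifs
    · ring
    · simp
  have h2 : ‖(q.totient : ℂ) * ∑ n ∈ (Icc 1 N).filter (· ≡ c [MOD q]), lc n‖ ≤
      q.totient * (ε * N) := by
    rw [e]
    refine (norm_sum_le _ _).trans ((sum_le_card_nsmul _ _ (ε * N) fun χ _ => ?_).trans_eq ?_)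
    · rw [norm_mul]
      exact (mul_le_of_le_one_left (norm_nonneg _) (χ.norm_le_one _)).trans (h χ)
    · rw [card_univ, nsmul_eq_mul, ← Nat.card_eq_fintype_card,
        DirichletCharacter.card_eq_totient_of_hasEnoughRootsOfUnity]
  rw [norm_mul, Complex.norm_natCast] at h2
  exact le_of_mul_le_mul_left h2 hφ

end LXPc

theorem r_LXP (hLXC : K_LXC) :
    K_LXP := by
  intro l ε hl hε
  have h := (eventually_all_finset l.divisors).2 fun d hd =>
    (Nat.tendsto_div_const_atTop (Nat.pos_of_mem_divisors hd).ne').eventually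
      (LXPc.cop hLXC (l / d) (Nat.div_pos (Nat.divisor_le hd) (Nat.pos_of_mem_divisors hd)) ε hε)
  filter_upwards [h] with N h b
  have hd : 0 < b.gcd l := Nat.gcd_pos_of_pos_right _ hl
  have h1 := h _ (Nat.mem_divisors.2 ⟨Nat.gcd_dvd_right b l, by omega⟩) _
    (Nat.coprime_div_gcd_div_gcd hd)
  have e1 := Nat.mul_div_cancel' (Nat.gcd_dvd_left b l)
  have e2 := Nat.mul_div_cancel' (Nat.gcd_dvd_right b l)
  generalize b / b.gcd l = c at h1 e1
  generalize l / b.gcd l = q at h1 e2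
  generalize b.gcd l = d at h1 e1 e2 hd
  subst e1 e2
  have e : ∑ n ∈ (Icc 1 N).filter (· ≡ d * c [MOD d * q]), lc n =
      lc d * ∑ n ∈ (Icc 1 (N / d)).filter (· ≡ c [MOD q]), lc n := by
    rw [mul_sum]
    symm
    refine sum_bij (fun m _ => d * m) (fun m hm => ?_) (fun m _ m' _ e => ?_) (fun n hn => ?_)
      fun m hm => ?_
    · obtain ⟨a1, a2⟩ := mem_filter.1 hm
      obtain ⟨a3, a4⟩ := mem_Icc.1 a1
      exact mem_filter.2 ⟨mem_Icc.2 ⟨Nat.mul_pos hd a3,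
        by rw [mul_comm]; exact (Nat.le_div_iff_mul_le hd).1 a4⟩, a2.mul_left' d⟩
    · exact Nat.eq_of_mul_eq_mul_left hd e
    · obtain ⟨a1, a2⟩ := mem_filter.1 hn
      obtain ⟨a3, a4⟩ := mem_Icc.1 a1
      obtain ⟨m, rfl⟩ : d ∣ n := (a2.dvd_iff (dvd_mul_right d q)).2 (dvd_mul_right d c)
      exact ⟨m, mem_filter.2 ⟨mem_Icc.2 ⟨Nat.pos_of_mul_pos_left a3,
        (Nat.le_div_iff_mul_le hd).2 (by rwa [mul_comm])⟩, a2.mul_left_cancel' hd.ne'⟩, rfl⟩
    · have := (mem_Icc.1 (mem_filter.1 hm).1).1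
      exact (lc_mul hd.ne' (by omega)).symm
  rw [e, norm_mul, norm_lc, one_mul]
  exact h1.trans (mul_le_mul_of_nonneg_left (by exact_mod_cast Nat.div_le_self N d) hε.le)

end Pool.Agent.P.LF
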