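import Pool.Agent.P.MP_e94e4b_nt.LF.IfB

/-! Step M4. -/

namespace Pool.Agent.P.LF

open Finset Real Filter Topology MeasureTheory
open Pool.Agent.P.MP_e86632_nt (ee nn ee_add norm_ee ee_neg ee_zero)
open Pool.Agent.P.MP_8be758_nt.Avg (gs nsq gs_pos gs_le_one gs_neg gs_anti)
open Pool.Agent.P.E2
open Pool.Agent.P.PAR
open ArithmeticFunction (cardFactors vonMangoldt)
open DirichletCharacter (LFunction)

namespace M4c

/-- the frequency of a quadruple -/
noncomputable def th (ω : ℝ) (L : ℕ) (x : (ℕ × ℕ) × ℕ × ℕ) : ℝ :=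
  ω * √(L : ℝ) * (1 / √(x.1.1 : ℝ) + 1 / √(x.1.2 : ℝ) - 1 / √(x.2.1 : ℝ) - 1 / √(x.2.2 : ℝ))

/-- the product of a quadruple -/
noncomputable def nm (x : (ℕ × ℕ) × ℕ × ℕ) : ℝ := (x.1.1 : ℝ) * x.1.2 * x.2.1 * x.2.2

theorem rt (b L q : ℕ) : √((b : ℝ) * L / q) = √(b : ℝ) * (√(L : ℝ) * (1 / √(q : ℝ))) := by
  rw [Real.sqrt_div' _ (Nat.cast_nonneg q), Real.sqrt_mul (Nat.cast_nonneg b)]
  ring

theorem term (ω : ℝ) (L b : ℕ) (x : (ℕ × ℕ) × ℕ × ℕ) :
    ee (ω * √((b : ℝ) * L / x.1.1)) / x.1.1 * (ee (ω * √((b : ℝ) * L / x.1.2)) / x.1.2) *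
      (starRingEnd ℂ) (ee (ω * √((b : ℝ) * L / x.2.1)) / x.2.1 *
        (ee (ω * √((b : ℝ) * L / x.2.2)) / x.2.2)) =
      ((1 / nm x : ℝ) : ℂ) * ee (th ω L x * √(b : ℝ)) := by
  have e : th ω L x * √(b : ℝ) = ω * √((b : ℝ) * L / x.1.1) + ω * √((b : ℝ) * L / x.1.2) +
      (-(ω * √((b : ℝ) * L / x.2.1)) + -(ω * √((b : ℝ) * L / x.2.2))) := by
    simp only [rt, th]
    ring
  rw [e, ee_add, ee_add, ee_add, ee_neg, ee_neg, nm]
  simp only [map_mul, map_div₀, map_natCast]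
  push_cast
  ring

theorem diag (S : Finset ℕ) (T : Finset ((ℕ × ℕ) × ℕ × ℕ)) (h : T ⊆ (S ×ˢ S) ×ˢ (S ×ˢ S)) :
    (T.filter fun x => x.2 = x.1 ∨ x.2 = x.1.swap).card ≤ 2 * S.card ^ 2 := by
  have h1 : (T.filter fun x => x.2 = x.1 ∨ x.2 = x.1.swap) ⊆
      (S ×ˢ S).image (fun y => (y, y)) ∪ (S ×ˢ S).image fun y => (y, y.swap) := fun x hx => by
    obtain ⟨a, b⟩ := mem_filter.1 hx
    have c := (mem_product.1 (h a)).1
    rcases b with b | b
    · exact mem_union_left _ (mem_image.2 ⟨_, c, Prod.ext rfl b.symm⟩)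
    · exact mem_union_right _ (mem_image.2 ⟨_, c, Prod.ext rfl b.symm⟩)
  refine (card_le_card h1).trans ((card_union_le _ _).trans
    ((add_le_add card_image_le card_image_le).trans_eq ?_))
  rw [card_product]
  ring

end M4c

theorem r_M4 (hF4 : K_F4) (hOSC : K_OSC) (hCVX : K_CVX) :
    K_M4 := by
  intro D Δ P L ω h1 h2 hP hL hω
  choose! C hC using hOSC
  set S := pq D P with hS
  set T := ((S ×ˢ S) ×ˢ (S ×ˢ S)).filter
    (fun x => Δ * tq D x.1.1 + Δ * tq D x.1.2 = Δ * tq D x.2.1 + Δ * tq D x.2.2) with hT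
  refine ⟨16 * P * ∑ x ∈ T, |C (M4c.th ω L x)|, fun lo hi => ?_⟩
  have hP' : (1 : ℝ) ≤ P := by exact_mod_cast hP
  have hl : 0 ≤ 1 + Real.log hi := by linarith [Real.log_natCast_nonneg hi]
  have e1 : ((∑ b ∈ Ioc lo hi, 1 / (b : ℝ) * ∑ k ∈ range (16 * P), ‖hat S
      (fun q => ee (ω * √((b : ℝ) * L / q)) / q) (fun q => Δ * tq D q) (16 * P) k‖ ^ 4 : ℝ) : ℂ) =
      (16 * P : ℕ) * ∑ x ∈ T, ((1 / M4c.nm x : ℝ) : ℂ) *
        ∑ b ∈ Ioc lo hi, ee (M4c.th ω L x * √(b : ℝ)) / b := by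
    rw [Complex.ofReal_sum]
    simp only [mul_sum (s := Ioc lo hi)]
    rw [sum_comm, mul_sum]
    refine sum_congr rfl fun b _ => ?_
    rw [Complex.ofReal_mul, hF4 S _ _ (16 * P) (by omega) fun q hq => by
      have := mul_tq_le h2 hq
      omega]
    simp only [M4c.term]
    rw [mul_left_comm, mul_sum]
    refine congrArg _ (sum_congr rfl fun x _ => ?_)
    push_cast
    ring
  have e2 : ∀ x ∈ T, ‖((1 / M4c.nm x : ℝ) : ℂ) * ∑ b ∈ Ioc lo hi, ee (M4c.th ω L x * √(b : ℝ)) / b‖ ≤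
      (if x.2 = x.1 ∨ x.2 = x.1.swap then 1 / (P : ℝ) ^ 4 * (1 + Real.log hi) else 0) +
        |C (M4c.th ω L x)| := fun x hx => by
    obtain ⟨a, a0⟩ := mem_filter.1 hx
    simp only [mem_product] at a
    obtain ⟨⟨a1, a2⟩, a3, a4⟩ := a
    have b : ∀ q ∈ S, (P : ℝ) ≤ q := fun q hq => by exact_mod_cast (mem_pq.1 hq).1.1.le
    have b1 : (P : ℝ) ^ 4 ≤ M4c.nm x := by
      rw [M4c.nm, show (P : ℝ) ^ 4 = P * P * P * P by ring]
      have := b _ a1; have := b _ a2; have := b _ a3; have := b _ a4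
      gcongr
    have b2 : 1 ≤ (P : ℝ) ^ 4 := one_le_pow₀ hP'
    have b3 : 1 / M4c.nm x ≤ 1 / (P : ℝ) ^ 4 := one_div_le_one_div_of_le (by positivity) b1
    have b4 : 0 ≤ 1 / M4c.nm x := by
      have : 0 ≤ M4c.nm x := by linarith
      positivity
    rw [norm_mul, Complex.norm_real, Real.norm_of_nonneg b4]
    by_cases h0 : M4c.th ω L x = 0
    · have t : ∀ q ∈ S, q = D * tq D q + 1 := fun q hq =>
        tq_spec (mem_pq.1 hq).2.1.one_le (mem_pq.1 hq).2.2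
      have p : ∀ q ∈ S, 0 < q := fun q hq => (mem_pq.1 hq).2.1.pos
      have c1 : tq D x.1.1 + tq D x.1.2 = tq D x.2.1 + tq D x.2.2 :=
        Nat.eq_of_mul_eq_mul_left h1 (by rw [mul_add, mul_add, a0])
      have c2 : x.1.1 + x.1.2 = x.2.1 + x.2.2 := by
        have := congrArg (D * ·) c1
        simp only [mul_add] at this
        have := t _ a1; have := t _ a2; have := t _ a3; have := t _ a4
        omega
      have c3 : √(L : ℝ) ≠ 0 := (Real.sqrt_pos.2 (by exact_mod_cast hL)).ne'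
      have c4 := (mul_eq_zero.1 h0).resolve_left (mul_ne_zero hω c3)
      have c5 := hCVX _ _ _ _ (p _ a1) (p _ a2) (p _ a3) (p _ a4) c2 (by linarith)
      rw [if_pos (c5.imp (fun h => Prod.ext h.1.symm h.2.symm) fun h => Prod.ext h.2.symm h.1.symm)]
      refine le_add_of_le_of_nonneg (mul_le_mul b3 ((norm_sum_le _ _).trans
        (le_of_eq_of_le (sum_congr rfl fun b _ => ?_) (harm_Ioc lo hi))) (norm_nonneg _)
        (by positivity)) (abs_nonneg _)
      rw [norm_div, norm_ee, Complex.norm_natCast]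
    · refine le_add_of_nonneg_of_le (by split_ifs <;> positivity) ?_
      refine (mul_le_of_le_one_left (norm_nonneg _) (b3.trans ?_)).trans
        ((hC _ h0 lo hi).trans (le_abs_self _))
      exact (div_le_one (by positivity)).2 b2
  refine (le_abs_self _).trans ?_
  rw [← Real.norm_eq_abs, ← Complex.norm_real, e1, norm_mul, Complex.norm_natCast]
  refine (mul_le_mul_of_nonneg_left ((norm_sum_le _ _).trans (sum_le_sum e2))
    (Nat.cast_nonneg _)).trans ?_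
  rw [sum_add_distrib, ← sum_filter, sum_const, nsmul_eq_mul, mul_add]
  have e3 : ((T.filter fun x => x.2 = x.1 ∨ x.2 = x.1.swap).card : ℝ) ≤ 2 * (S.card : ℝ) ^ 2 := by
    exact_mod_cast M4c.diag S T (filter_subset _ _)
  push_cast
  refine add_le_add ((mul_le_mul_of_nonneg_left (mul_le_mul_of_nonneg_right e3 (by positivity))
    (by positivity)).trans_eq ?_) le_rfl
  field_simp
  ring

end Pool.Agent.P.LF
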