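import Pool.Agent.P.MP_e94e4b_nt.LF.IfA

/-! Step MAJ. -/

namespace Pool.Agent.P.LF

open Finset Real Filter Topology MeasureTheory
open Pool.Agent.P.MP_e86632_nt (ee nn ee_add norm_ee ee_neg ee_zero)
open Pool.Agent.P.MP_8be758_nt.Avg (gs nsq gs_pos gs_le_one gs_neg gs_anti)
open Pool.Agent.P.E2
open Pool.Agent.P.PAR
open ArithmeticFunction (cardFactors vonMangoldt)
open DirichletCharacter (LFunction)

namespace MAJc

open Pool.Agent.P.MP_e86632_nt (ee_add_int norm_ee_sub_one_le)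

theorem ee_cong {l : ℕ} (hl : 1 ≤ l) (s : ℤ) {a b : ℕ} (h : a ≡ b [MOD l]) :
    ee (s / l * a) = ee (s / l * b) := by
  obtain ⟨k, hk⟩ := (Nat.modEq_iff_dvd.1 h.symm)
  have hl' : (l : ℝ) ≠ 0 := by exact_mod_cast (by omega : l ≠ 0)
  have e : (a : ℝ) = b + l * k := by
    have : ((a : ℤ) : ℝ) - ((b : ℤ) : ℝ) = ((l : ℤ) : ℝ) * k := by exact_mod_cast hk
    push_cast at this; linarith
  rw [← ee_add_int (s / l * b) (s * k), e]
  congr 1
  push_cast
  field_simp

theorem iv_tw {l : ℕ} (hl : 1 ≤ l) (s : ℤ) {κ : ℂ} {X hi : ℕ} {g : ℕ → ℂ} (h : Iv 1 κ hi g)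
    (hX : X ≤ hi) : Iv l κ X fun n => g n * ee (s / l * n) := by
  refine ⟨h.nk, fun n => ?_, fun p m hp h1 h2 hm => ?_⟩
  · rw [norm_mul, norm_ee, mul_one]; exact h.bd n
  · rw [h.mul p m hp Nat.modEq_one (h2.trans hX) hm, mul_assoc,
      ee_cong hl s (show p * m ≡ m [MOD l] by simpa using h1.mul_right m)]

theorem sm_tw {l : ℕ} (hl : 1 ≤ l) (s : ℤ) {κ : ℂ} {e : ℝ} {w X hi : ℕ} {g : ℕ → ℂ}
    (h : Ok l κ (e / l) w hi g) (h1 : w ≤ X) (h2 : X ≤ hi) :
    Sm (fun n => g n * ee (s / l * n)) X e := by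
  intro n hn hn'
  have hl' : (l : ℝ) ≠ 0 := by exact_mod_cast (by omega : l ≠ 0)
  rw [← sum_fiberwise_of_maps_to (t := range l) (g := fun m => m % l)
    fun m _ => mem_range.2 (Nat.mod_lt _ hl)]
  refine (norm_sum_le_of_le _ (n := fun _ => e / l * X) fun b hb => ?_).trans_eq ?_
  · have hb' : b % l = b := Nat.mod_eq_of_lt (mem_range.1 hb)
    have e1 : (Ioc X n).filter (fun m => m % l = b) = (Ioc X n).filter (· ≡ b [MOD l]) := by
      refine filter_congr fun m _ => ?_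
      rw [Nat.ModEq, hb']
    rw [e1, sum_congr rfl fun m hm => by rw [ee_cong hl s (mem_filter.1 hm).2], ← sum_mul,
      norm_mul, norm_ee, mul_one]
    exact h.ap X n b h1 h2 hn hn'
  · rw [sum_const, card_range, nsmul_eq_mul]; field_simp

theorem es_tw {g : ℕ → ℂ} (hg : ∀ n, ‖g n‖ ≤ 1) (x h : ℕ) (a β : ℝ) :
    ‖es g x h (a + β)‖ ≤ ‖es (fun n => g n * ee (a * n)) x h 0‖ + 7 * |β| * h * h := by
  have e : es g x h (a + β) = ee (β * x) * (es (fun n => g n * ee (a * n)) x h 0 +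
      ∑ n ∈ Ioc x (x + h), g n * ee (a * n) * (ee (β * (n - x)) - 1)) := by
    rw [es_zero, ← sum_add_distrib, mul_sum, es]
    refine sum_congr rfl fun n _ => ?_
    have : ee ((a + β) * n) = ee (β * x) * (ee (a * n) * ee (β * (n - x))) := by
      rw [← ee_add, ← ee_add]; congr 1; ring
    rw [this]; ring
  rw [e, norm_mul, norm_ee, one_mul]
  refine (norm_add_le _ _).trans (add_le_add le_rfl ?_)
  refine (norm_sum_le_of_le _ (n := fun _ => 7 * |β| * h) fun n hn => ?_).trans_eq (by simp; ring)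
  rw [norm_mul, norm_mul, norm_ee, mul_one]
  have h1 := norm_ee_sub_one_le (β * (n - x))
  have h2 : (x : ℝ) < n := by exact_mod_cast (mem_Ioc.1 hn).1
  have h3 : (n : ℝ) ≤ x + h := by exact_mod_cast (mem_Ioc.1 hn).2
  rw [abs_mul, abs_of_pos (sub_pos.2 h2)] at h1
  have h4 : |β| * (n - x) ≤ |β| * h := mul_le_mul_of_nonneg_left (by linarith) (abs_nonneg _)
  have h5 : 0 ≤ |β| * h := by positivity
  have h6 := Real.pi_lt_d2
  calc ‖g n‖ * ‖ee (β * (n - x)) - 1‖ ≤ 1 * (2 * π * (|β| * h)) :=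
        mul_le_mul (hg n) (h1.trans (mul_le_mul_of_nonneg_left h4 (by positivity)))
          (norm_nonneg _) zero_le_one
    _ ≤ 7 * |β| * h := by nlinarith

end MAJc

theorem r_MAJ (hMRA : K_MRA) (hDYA : K_DYA) :
    K_MAJ := by
  intro l ε hl hε
  obtain ⟨h, e, h1, he, hev⟩ := hMRA l ε hl hε
  have hl' : (0 : ℝ) < l := by exact_mod_cast hl
  refine ⟨h, e / l, h1, by positivity, ?_⟩
  obtain ⟨X0, hX0⟩ := eventually_atTop.1 hev
  filter_upwards [eventually_ge_atTop X0, eventually_ge_atTop 1] with w hw hw1 hi κ g s β ok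
  have a := hDYA (fun x => ‖es (fun n => g n * ee (s / l * n)) x h 0‖) w hi (ε * h) hw1
    (by positivity) (fun _ => norm_nonneg _) fun X hX hX' =>
      hX0 X (hw.trans hX) κ _ (MAJc.iv_tw hl s ok.iv hX') (MAJc.sm_tw hl s ok hX hX')
  have b := harm_Ioc (2 * w) hi
  calc ua g (2 * w) hi h (s / l + β)
      ≤ ∑ x ∈ Ioc (2 * w) hi, (‖es (fun n => g n * ee (s / l * n)) x h 0‖ / x +
          7 * |β| * h * h * (1 / x)) := by
        refine sum_le_sum fun x _ => ?_
        rw [mul_one_div, ← add_div]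
        exact div_le_div_of_nonneg_right (MAJc.es_tw ok.iv.bd x h _ β) (Nat.cast_nonneg _)
    _ ≤ ε * h * (1 + Real.log hi) + 7 * |β| * h * h * (1 + Real.log hi) := by
        rw [sum_add_distrib, ← mul_sum]
        exact add_le_add a (mul_le_mul_of_nonneg_left b (by positivity))
    _ = _ := by ring

end Pool.Agent.P.LF
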