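import Pool.Agent.P.MP_e94e4b_nt.LF.IfA

/-! Step MAP. -/

namespace Pool.Agent.P.LF

open Finset Real Filter Topology MeasureTheory
open Pool.Agent.P.MP_e86632_nt (ee nn ee_add norm_ee ee_neg ee_zero)
open Pool.Agent.P.MP_8be758_nt.Avg (gs nsq gs_pos gs_le_one gs_neg gs_anti)
open Pool.Agent.P.E2
open Pool.Agent.P.PAR
open ArithmeticFunction (cardFactors vonMangoldt)
open DirichletCharacter (LFunction)

namespace MAPc

theorem step {l P : ℕ} (hl : 1 ≤ l) (hP : 2 ≤ P)
    (h : P / (2 * l * Real.log P) ≤ (pq l P).card) :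
    (Real.log (Real.log ((2 * P : ℕ) : ℝ)) - Real.log (Real.log P)) / (4 * l) ≤ rs (pq l P) := by
  have hP' : (2 : ℝ) ≤ P := by exact_mod_cast hP
  have hl' : (1 : ℝ) ≤ l := by exact_mod_cast hl
  have hL : 0 < Real.log P := Real.log_pos (by linarith)
  have h2 : Real.log 2 ≤ 1 := by
    have := Real.log_le_sub_one_of_pos (show (0 : ℝ) < 2 by norm_num)
    linarith
  have h20 : 0 < Real.log 2 := Real.log_pos (by norm_num)
  have e1 : Real.log ((2 * P : ℕ) : ℝ) = Real.log 2 + Real.log P := by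
    push_cast
    exact Real.log_mul (by norm_num) (by linarith)
  have e2 : Real.log (Real.log ((2 * P : ℕ) : ℝ)) - Real.log (Real.log P) ≤ 1 / Real.log P := by
    rw [e1, ← Real.log_div (by linarith) hL.ne']
    refine (Real.log_le_sub_one_of_pos (by positivity)).trans ?_
    rw [add_div, div_self hL.ne', add_sub_cancel_right]
    exact div_le_div_of_nonneg_right h2 hL.le
  refine le_trans ?_ (le_rs_pq l P)
  calc _ ≤ 1 / Real.log P / (4 * l) := div_le_div_of_nonneg_right e2 (by positivity)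
    _ = P / (2 * l * Real.log P) / (2 * P : ℝ) := by field_simp; norm_num
    _ ≤ _ := div_le_div_of_nonneg_right h (by positivity)

theorem split (l : ℕ) {a b : ℕ} (h : a ≤ b) :
    rs (((Ioc a (2 * b)).filter Nat.Prime).filter (· ≡ 1 [MOD l])) =
      rs (((Ioc a b).filter Nat.Prime).filter (· ≡ 1 [MOD l])) + rs (pq l b) := by
  unfold rs pq
  rw [filter_filter, filter_filter, sum_filter, sum_filter, sum_filter,
    sum_Ioc_consecutive _ h (by omega)]

theorem ind {l m : ℕ} (hl : 1 ≤ l) (hm : 2 ≤ m)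
    (h : ∀ P : ℕ, m ≤ P → P / (2 * l * Real.log P) ≤ (pq l P).card) (J : ℕ) :
    (Real.log (Real.log ((2 ^ J * m : ℕ) : ℝ)) - Real.log (Real.log m)) / (4 * l) ≤
      rs (((Ioc m (2 ^ J * m)).filter Nat.Prime).filter (· ≡ 1 [MOD l])) := by
  induction J with
  | zero => simp [rs]
  | succ J ih =>
    have hle : m ≤ 2 ^ J * m := Nat.le_mul_of_pos_left _ (by positivity)
    have e : 2 ^ (J + 1) * m = 2 * (2 ^ J * m) := by ring
    rw [e, split l hle]
    have := step hl (hm.trans hle) (h _ hle)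
    rw [sub_div] at *
    linarith

end MAPc

theorem r_MAP (hPQC : L_PQC) :
    K_MAP := by
  intro l hl
  obtain ⟨P0, hP0⟩ := eventually_atTop.1 (hPQC.2 l hl)
  filter_upwards [eventually_ge_atTop (P0 : ℝ), eventually_ge_atTop (2 : ℝ)] with y1 h0 h2 y2 h12
  set m := ⌊y1⌋₊ with hm
  have hm2 : 2 ≤ m := Nat.le_floor (by exact_mod_cast h2)
  have hm0 : P0 ≤ m := Nat.le_floor h0
  have hmn : m ≤ ⌊y2⌋₊ := Nat.floor_le_floor h12
  set J := Nat.log 2 (⌊y2⌋₊ / m) with hJ
  have hq : 0 < ⌊y2⌋₊ / m := Nat.div_pos hmn (by omega)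
  have a1 : 2 ^ J * m ≤ ⌊y2⌋₊ :=
    (Nat.mul_le_mul_right m (Nat.pow_log_le_self 2 hq.ne')).trans (Nat.div_mul_le_self _ _)
  have a2 : ⌊y2⌋₊ < 2 ^ (J + 1) * m :=
    (Nat.div_lt_iff_lt_mul (by omega)).1 (Nat.lt_pow_succ_log_self (by norm_num) _)
  have hle : m ≤ 2 ^ J * m := Nat.le_mul_of_pos_left _ (by positivity)
  have key := MAPc.ind hl hm2 (fun P hP => hP0 P (hm0.trans hP)) J
  have e : 2 ^ (J + 1) * m = 2 * (2 ^ J * m) := by ring
  rw [e] at a2
  set Q := 2 ^ J * m with hQ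
  have hQ2 : (2 : ℝ) ≤ Q := by exact_mod_cast hm2.trans hle
  have hm2' : (2 : ℝ) ≤ m := by exact_mod_cast hm2
  have hmy : (m : ℝ) ≤ y1 := Nat.floor_le (by linarith)
  have b1 : y2 ≤ 2 * (Q : ℝ) := by
    have c1 : y2 < (⌊y2⌋₊ : ℝ) + 1 := Nat.lt_floor_add_one y2
    have c2 : ((⌊y2⌋₊ + 1 : ℕ) : ℝ) ≤ ((2 * Q : ℕ) : ℝ) := by exact_mod_cast a2
    push_cast at c2
    linarith
  have lQ : 0 < Real.log Q := Real.log_pos (by linarith)
  have lm : 0 < Real.log m := Real.log_pos (by linarith)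
  have l1 : Real.log m ≤ Real.log y1 := Real.log_le_log (by linarith) hmy
  have ly : 0 < Real.log y2 := Real.log_pos (by linarith)
  have l2 : Real.log y2 ≤ 2 * Real.log Q := by
    have c1 : Real.log y2 ≤ Real.log (2 * (Q : ℝ)) := Real.log_le_log (by linarith) b1
    have c2 : Real.log 2 ≤ Real.log Q := Real.log_le_log (by norm_num) hQ2
    rw [Real.log_mul (by norm_num) (by linarith)] at c1
    linarith
  have h2' : Real.log 2 ≤ 1 := by
    have := Real.log_le_sub_one_of_pos (show (0 : ℝ) < 2 by norm_num)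
    linarith
  have l3 : Real.log (Real.log y2 / Real.log y1) - 1 ≤
      Real.log (Real.log Q) - Real.log (Real.log m) := by
    rw [Real.log_div ly.ne' (by linarith)]
    have c1 : Real.log (Real.log y2) ≤ Real.log (2 * Real.log Q) := Real.log_le_log ly l2
    have c2 : Real.log (Real.log m) ≤ Real.log (Real.log y1) := Real.log_le_log lm l1
    rw [Real.log_mul (by norm_num) lQ.ne'] at c1
    linarith
  refine ((div_le_div_of_nonneg_right l3 (by positivity)).trans key).trans (rs_mono ?_)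
  exact filter_subset_filter _ (filter_subset_filter _ (Ioc_subset_Ioc_right a1))

end Pool.Agent.P.LF
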