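import Pool.Agent.P.MP_e94e4b_nt.LF.IfA

/-! Step MIN. -/

namespace Pool.Agent.P.LF

open Finset Real Filter Topology MeasureTheory
open Pool.Agent.P.MP_e86632_nt (ee nn ee_add norm_ee ee_neg ee_zero)
open Pool.Agent.P.MP_8be758_nt.Avg (gs nsq gs_pos gs_le_one gs_neg gs_anti)
open Pool.Agent.P.E2
open Pool.Agent.P.PAR
open ArithmeticFunction (cardFactors vonMangoldt)
open DirichletCharacter (LFunction)

namespace MINc

theorem pt {g : ℕ → ℂ} (hg : ∀ n, ‖g n‖ ≤ 1) (S : Finset ℕ) (x H : ℕ) (α : ℝ) :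
    rs S * ‖es g x H α‖ ≤ (∑ n ∈ Ioc x (x + H), |rs S - om S n|) +
      ∑ p ∈ S, ‖∑ n ∈ (Ioc x (x + H)).filter (p ∣ ·), g n * ee (α * n)‖ := by
  have e : ((rs S : ℝ) : ℂ) * es g x H α =
      (∑ n ∈ Ioc x (x + H), ((rs S - om S n : ℝ) : ℂ) * (g n * ee (α * n))) +
        ∑ p ∈ S, ∑ n ∈ (Ioc x (x + H)).filter (p ∣ ·), g n * ee (α * n) := by
    simp only [sum_filter]
    rw [sum_comm, ← sum_add_distrib, es, mul_sum]
    refine sum_congr rfl fun n _ => ?_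
    have : ∑ p ∈ S, (if p ∣ n then g n * ee (α * n) else 0) =
        ((om S n : ℝ) : ℂ) * (g n * ee (α * n)) := by
      rw [om_eq_sum, Complex.ofReal_sum, sum_mul]
      refine sum_congr rfl fun p _ => ?_
      split_ifs <;> simp
    rw [this]; push_cast; ring
  have e2 : rs S * ‖es g x H α‖ = ‖((rs S : ℝ) : ℂ) * es g x H α‖ := by
    rw [norm_mul, Complex.norm_real, Real.norm_of_nonneg (rs_nonneg S)]
  rw [e2, e]
  refine (norm_add_le _ _).trans (add_le_add (norm_sum_le_of_le _ fun n _ => ?_) (norm_sum_le _ _))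
  rw [norm_mul, norm_mul, norm_ee, mul_one, Complex.norm_real, Real.norm_eq_abs]
  exact mul_le_of_le_one_right (abs_nonneg _) (hg n)

theorem ls (hLSV : K_LSV) {g : ℕ → ℂ} (hg : ∀ n, ‖g n‖ ≤ 1) {S : Finset ℕ} {h : ℕ} {α : ℝ}
    (h2 : ∀ p ∈ S, 2 ≤ p) (h1 : 1 ≤ h)
    (hs : ∀ p ∈ S, ∀ p' ∈ S, p ≠ p' → rs S ^ 2 / h ≤ nn (((p : ℝ) - p') * α)) (N : ℕ) :
    ∑ p ∈ S, ua g 0 N h (p * α) / p ≤ 2 * h * (1 + Real.log N) := by
  have e : ∑ p ∈ S, ua g 0 N h (p * α) / p =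
      ∑ x ∈ Ioc 0 N, (∑ p ∈ S, ‖es g x h (p * α)‖ / p) * (1 / (x : ℝ)) := by
    simp only [ua, sum_div, sum_mul]
    rw [sum_comm]
    exact sum_congr rfl fun x _ => sum_congr rfl fun p _ => by ring
  rw [e]
  refine (sum_le_sum fun x _ => mul_le_mul_of_nonneg_right (hLSV g S x h α hg h2 h1 hs)
    (by positivity)).trans ?_
  rw [← mul_sum]
  exact mul_le_mul_of_nonneg_left (harm_Ioc 0 N) (by positivity)

end MINc

theorem r_MIN (hLSV : K_LSV) (hMN1 : K_MN1) (hMN2 : K_MN2) :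
    K_MIN := by
  intro S y hS hR
  filter_upwards [hMN1 S (fun p hp => (hS p hp).1) hR, eventually_ge_atTop (y ^ 2),
    eventually_ge_atTop 1, ev_log 2 one_pos] with hi h1 hy hi1 hL g κ lo H h α hg hh hyh hH hs
  rw [one_mul] at hL
  have hh' : (0 : ℝ) < h := by exact_mod_cast hh
  have hH0 : (0 : ℝ) ≤ H := Nat.cast_nonneg H
  have hl2 : Real.log ((2 * hi : ℕ) : ℝ) ≤ 1 + Real.log hi := by
    have : (0 : ℝ) < hi := by exact_mod_cast hi1
    push_cast
    rw [Real.log_mul two_ne_zero this.ne']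
    linarith [Real.log_two_lt_d9]
  have hc : (S.card : ℝ) * h ≤ H := by
    have : S.card ≤ y := (card_le_card fun p hp =>
      mem_Icc.2 ⟨(hS p hp).1.one_le, (hS p hp).2⟩).trans_eq (by rw [Nat.card_Icc]; omega)
    exact_mod_cast (Nat.mul_le_mul_right h this).trans hyh
  have a1 : rs S * ua g lo hi H α ≤
      ∑ x ∈ Ioc lo hi, (∑ n ∈ Ioc x (x + H), |rs S - om S n|) / x + ∑ p ∈ S, ∑ x ∈ Ioc lo hi,
        ‖∑ n ∈ (Ioc x (x + H)).filter (p ∣ ·), g n * ee (α * n)‖ / x := by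
    rw [ua, mul_sum, sum_comm (s := S), ← sum_add_distrib]
    refine sum_le_sum fun x _ => ?_
    rw [← sum_div, ← add_div, ← mul_div_assoc]
    exact div_le_div_of_nonneg_right (MINc.pt hg.bd S x H α) (Nat.cast_nonneg x)
  have a2 : ∑ p ∈ S, ∑ x ∈ Ioc lo hi,
      ‖∑ n ∈ (Ioc x (x + H)).filter (p ∣ ·), g n * ee (α * n)‖ / x ≤
      2 * H / h * (∑ p ∈ S, ua g 0 (2 * hi) h (p * α) / p) +
        S.card * (2 * h * (1 + Real.log hi)) := by
    rw [mul_sum, ← nsmul_eq_mul, ← sum_const, ← sum_add_distrib]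
    refine sum_le_sum fun p hp => hMN2 g κ lo hi H h p α hg (hS p hp).1
      ((Nat.pow_le_pow_left (hS p hp).2 2).trans hy) ?_ hH hh
    exact (hS p hp).2.trans ((Nat.le_mul_of_pos_right y hh).trans (hyh.trans hH))
  have a3 := MINc.ls hLSV hg.bd (fun p hp => (hS p hp).1.two_le) hh hs (2 * hi)
  have a4 : 2 * H / h * (∑ p ∈ S, ua g 0 (2 * hi) h (p * α) / p) ≤ 8 * H * Real.log hi := by
    refine (mul_le_mul_of_nonneg_left a3 (by positivity)).trans ?_
    rw [← mul_assoc, show 2 * (H : ℝ) / h * (2 * h) = 4 * H by field_simp; ring]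
    nlinarith
  have a5 : S.card * (2 * h * (1 + Real.log hi)) ≤ 4 * H * Real.log hi := by
    have : S.card * (2 * h * (1 + Real.log hi)) = (S.card * h) * (2 * (1 + Real.log hi)) := by ring
    rw [this]
    refine (mul_le_mul_of_nonneg_right hc (by linarith)).trans ?_
    nlinarith
  have a6 := h1 lo H hH
  have s1 : 1 ≤ √(rs S) := Real.one_le_sqrt.2 hR
  have s2 : √(rs S) * √(rs S) = rs S := Real.mul_self_sqrt (by linarith)
  have hHL : 0 ≤ (H : ℝ) * Real.log hi := mul_nonneg hH0 (by linarith)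
  rw [le_div_iff₀ (by linarith)]
  refine le_of_mul_le_mul_right ?_ (show 0 < √(rs S) by linarith)
  rw [mul_assoc, s2]
  nlinarith [mul_le_mul_of_nonneg_left s1 hHL]

end Pool.Agent.P.LF
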