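import Pool.Agent.P.MP_e94e4b_nt.LF.IfA

/-! Step MN1. -/

namespace Pool.Agent.P.LF

open Finset Real Filter Topology MeasureTheory
open Pool.Agent.P.MP_e86632_nt (ee nn ee_add norm_ee ee_neg ee_zero)
open Pool.Agent.P.MP_8be758_nt.Avg (gs nsq gs_pos gs_le_one gs_neg gs_anti)
open Pool.Agent.P.E2
open Pool.Agent.P.PAR
open ArithmeticFunction (cardFactors vonMangoldt)
open DirichletCharacter (LFunction)

namespace MN1c

theorem swap (F : ℕ → ℝ) (hF : ∀ n, 0 ≤ F n) {lo hi H : ℕ} (h : H ≤ lo) :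
    ∑ x ∈ Ioc lo hi, (∑ n ∈ Ioc x (x + H), F n) / x ≤ H * ∑ n ∈ Icc 1 (2 * hi), 2 * F n / n := by
  have e : ∀ x, ∑ n ∈ Ioc x (x + H), F n = ∑ j ∈ Ioc 0 H, F (x + j) := fun x => by
    have := map_add_left_Ioc 0 H x
    rw [add_zero] at this
    rw [← this, sum_map]
    rfl
  simp only [e, sum_div]
  rw [sum_comm, show (H : ℝ) = (Ioc 0 H).card by simp, ← nsmul_eq_mul]
  refine sum_le_card_nsmul _ _ _ fun j hj => ?_
  have hj' := mem_Ioc.1 hj
  calc _ ≤ ∑ x ∈ Ioc lo hi, 2 * F (x + j) / ((x + j : ℕ) : ℝ) := sum_le_sum fun x hx => by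
        have a := mem_Ioc.1 hx
        have a1 : (0 : ℝ) < x := by exact_mod_cast (by omega : 0 < x)
        have a2 : ((x + j : ℕ) : ℝ) ≤ 2 * x := by exact_mod_cast (by omega : x + j ≤ 2 * x)
        rw [div_le_div_iff₀ a1 (by exact_mod_cast (by omega : 0 < x + j))]
        nlinarith [hF (x + j)]
    _ = ∑ n ∈ (Ioc lo hi).image (· + j), 2 * F n / n :=
        (sum_image (f := fun n : ℕ => 2 * F n / n) fun _ _ _ _ e => by simpa using e).symm
    _ ≤ _ := sum_le_sum_of_subset_of_nonneg (fun n hn => by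
        obtain ⟨x, hx, rfl⟩ := mem_image.1 hn
        have := mem_Ioc.1 hx
        exact mem_Icc.2 ⟨by omega, by omega⟩) fun n _ _ => by have := hF n; positivity

end MN1c

theorem r_MN1 (hTKL : L_TKL) :
    K_MN1 := by
  intro S hS hR
  obtain ⟨C, hC⟩ := hTKL S hS
  filter_upwards [ev_log (1 + |C|) one_pos, eventually_ge_atTop 2] with hi h1 h2 lo H hH
  refine (MN1c.swap (fun n => |rs S - om S n|) (fun _ => abs_nonneg _) hH).trans ?_
  have l1 : 1 ≤ √(rs S) := Real.one_le_sqrt.2 hR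
  have l2 : √(rs S) ^ 2 = rs S := Real.sq_sqrt (by linarith)
  set lam := √(rs S)
  have l0 : 0 < lam := by linarith
  have a1 : ∑ n ∈ Icc 1 (2 * hi), 2 * |rs S - om S n| / n ≤
      lam * ∑ n ∈ Icc 1 (2 * hi), 1 / (n : ℝ) +
        (∑ n ∈ Icc 1 (2 * hi), (om S n - rs S) ^ 2 / n) / lam := by
    rw [mul_sum, sum_div, ← sum_add_distrib]
    refine sum_le_sum fun n _ => ?_
    rw [mul_one_div, div_right_comm, ← add_div]
    refine div_le_div_of_nonneg_right ?_ (Nat.cast_nonneg n)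
    rw [← sub_le_iff_le_add', le_div_iff₀ l0, ← sq_abs, abs_sub_comm]
    nlinarith [sq_nonneg (|om S n - rs S| - lam)]
  have a2 : Real.log ((2 * hi : ℕ) : ℝ) ≤ 2 * Real.log hi := by
    have b : (2 : ℝ) ≤ hi := by exact_mod_cast h2
    rw [Nat.cast_mul, Nat.cast_two, Real.log_mul two_ne_zero (by linarith)]
    linarith [Real.log_le_log two_pos b]
  have a3 := mul_le_mul_of_nonneg_left (harm_le (2 * hi)) l0.le
  have a4 : (∑ n ∈ Icc 1 (2 * hi), (om S n - rs S) ^ 2 / n) / lam ≤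
      lam * (2 * Real.log ((2 * hi : ℕ) : ℝ) + |C|) := by
    rw [div_le_iff₀ l0]
    nlinarith [hC (2 * hi), le_abs_self C, abs_nonneg C]
  have a5 : lam * (1 + |C| + 3 * Real.log ((2 * hi : ℕ) : ℝ)) ≤ lam * (8 * Real.log hi) :=
    mul_le_mul_of_nonneg_left (by linarith [abs_nonneg C]) l0.le
  calc _ ≤ H * (lam * (8 * Real.log hi)) :=
        mul_le_mul_of_nonneg_left (by linarith) (Nat.cast_nonneg H)
    _ = _ := by ring

end Pool.Agent.P.LF
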