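import Pool.Agent.P.MP_e94e4b_nt.LF.IfA

/-! Step OK1. -/

namespace Pool.Agent.P.LF

open Finset Real Filter Topology MeasureTheory
open Pool.Agent.P.MP_e86632_nt (ee nn ee_add norm_ee ee_neg ee_zero)
open Pool.Agent.P.MP_8be758_nt.Avg (gs nsq gs_pos gs_le_one gs_neg gs_anti)
open Pool.Agent.P.E2
open Pool.Agent.P.PAR
open ArithmeticFunction (cardFactors vonMangoldt)
open DirichletCharacter (LFunction)

namespace OK1c

open Classical in
theorem ind_eq {p : Pm} {m : ℕ} (h0 : m ≠ 0) (hm : m < p.z1 ^ 2) :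
    (if Hp p m then (1 : ℝ) else 0) = ∑ q ∈ lp p, if q ∣ m then (1 : ℝ) else 0 := by
  by_cases h : Hp p m
  · rw [if_pos h]
    obtain ⟨q, hq, hd⟩ := h
    rw [sum_eq_single_of_mem q hq, if_pos hd]
    intro r hr hne
    refine if_neg fun hd' => ?_
    obtain ⟨a1, a2⟩ := mem_lp.1 hq
    obtain ⟨b1, b2⟩ := mem_lp.1 hr
    have h1 : r * q ∣ m := ((Nat.coprime_primes b2 a2).2 hne).mul_dvd_of_dvd_of_dvd hd' hd
    have h2 := Nat.le_of_dvd (Nat.pos_of_ne_zero h0) h1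
    have h3 : p.z1 * p.z1 ≤ r * q := Nat.mul_le_mul b1.1.le a1.1.le
    rw [pow_two] at hm
    omega
  · rw [if_neg h]
    exact (sum_eq_zero fun q hq => if_neg fun hd => h ⟨q, hq, hd⟩).symm

theorem term_le {l q : ℕ} (hl : 0 < l) (hq : q.Prime) (hlq : l < q) (b : ℕ) {X n : ℕ}
    (h : X ≤ n) :
    |∑ m ∈ (Ioc X n).filter (· ≡ b [MOD l]), ((if q ∣ m then (1 : ℝ) else 0) - 1 / q)| ≤ 2 := by
  have hc : l.Coprime q := ((Nat.Prime.coprime_iff_not_dvd hq).2 fun hd => by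
    have := Nat.le_of_dvd hl hd
    omega).symm
  obtain ⟨c, c1, c2⟩ := Nat.chineseRemainder hc b 0
  have e : ((Ioc X n).filter (· ≡ b [MOD l])).filter (q ∣ ·) =
      (Ioc X n).filter (· ≡ c [MOD l * q]) := by
    rw [filter_filter]
    refine filter_congr fun m _ => ?_
    rw [← Nat.modEq_and_modEq_iff_modEq_mul hc, ← Nat.modEq_zero_iff_dvd]
    exact ⟨fun a => ⟨a.1.trans c1.symm, a.2.trans c2.symm⟩, fun a => ⟨a.1.trans c1, a.2.trans c2⟩⟩
  have h1 := card_mod_Ioc hl b h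
  have h2 := card_mod_Ioc (Nat.mul_pos hl hq.pos) c h
  rw [sum_sub_distrib, sum_boole, e, sum_const, nsmul_eq_mul]
  set A : ℝ := (((Ioc X n).filter (· ≡ b [MOD l])).card : ℝ)
  set B : ℝ := (((Ioc X n).filter (· ≡ c [MOD l * q])).card : ℝ)
  have q1 : (1 : ℝ) ≤ q := by exact_mod_cast hq.one_lt.le
  have l0 : (0 : ℝ) < l := by exact_mod_cast hl
  have e2 : B - A * (1 / q) =
      (B - ((n : ℝ) - X) / ((l * q : ℕ) : ℝ)) - (A - ((n : ℝ) - X) / l) * (1 / q) := by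
    push_cast; field_simp; ring
  have h3 : |(A - ((n : ℝ) - X) / l) * (1 / q)| ≤ 1 := by
    rw [abs_mul]
    refine mul_le_one₀ h1 (abs_nonneg _) ?_
    rw [abs_of_nonneg (by positivity), div_le_one (by linarith)]
    exact q1
  rw [e2]
  exact (abs_sub _ _).trans (by linarith)

end OK1c

open Classical in
theorem r_OK1 :
    K_OK1 := by
  intro l ε hl hε
  refine ⟨l + ⌈2 / ε⌉₊ + 1, fun p hp => ⟨⟨norm_one, fun n => ?_, fun q m hq _ hq2 hm => ?_⟩, ?_⟩⟩
  · rw [g1, Complex.norm_real, Real.norm_eq_abs, abs_le]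
    have h1 := hp.d1
    have h2 := rs_nonneg (lp p)
    split_ifs <;> constructor <;> linarith
  · have h1 := hp.zs
    have h2 : q ≤ p.z1 := by
      by_contra hc
      have := Nat.pow_le_pow_left (not_le.1 hc).le 2
      omega
    rw [one_mul, g1, g1]
    simp only [Hp_mul hq.ne_zero h2]
  · intro X n b hw hX hn hn8
    have hz := hp.zs
    have hk := hp.kz
    have e : ∑ m ∈ (Ioc X n).filter (· ≡ b [MOD l]), g1 p m =
        ((∑ q ∈ lp p, ∑ m ∈ (Ioc X n).filter (· ≡ b [MOD l]),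
          ((if q ∣ m then (1 : ℝ) else 0) - 1 / q) : ℝ) : ℂ) := by
      rw [sum_comm, Complex.ofReal_sum]
      refine sum_congr rfl fun m hm => ?_
      have h1 := mem_Ioc.1 (mem_filter.1 hm).1
      rw [g1, OK1c.ind_eq (by omega) (by omega), rs, sum_sub_distrib]
    rw [e, Complex.norm_real, Real.norm_eq_abs]
    refine (abs_sum_le_sum_abs _ _).trans ((sum_le_card_nsmul _ _ 2 fun q hq => ?_).trans ?_)
    · obtain ⟨a1, a2⟩ := mem_lp.1 hq
      exact OK1c.term_le (by omega) a2 (by omega) b hn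
    · have c1 : (lp p).card ≤ p.z2 :=
        (card_filter_le _ _).trans (by rw [Nat.card_Ioc]; omega)
      have c2 : ⌈2 / ε⌉₊ * p.z2 ≤ X :=
        ((Nat.mul_le_mul_right _ (by omega)).trans hp.zw).trans hw
      have c3 : (⌈2 / ε⌉₊ : ℝ) * p.z2 ≤ X := by exact_mod_cast c2
      have c4 : ((lp p).card : ℝ) ≤ p.z2 := by exact_mod_cast c1
      have c5 : 2 / ε * p.z2 ≤ X :=
        (mul_le_mul_of_nonneg_right (Nat.le_ceil _) (Nat.cast_nonneg _)).trans c3
      rw [div_mul_eq_mul_div, div_le_iff₀ hε] at c5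
      rw [nsmul_eq_mul]
      linarith

end Pool.Agent.P.LF
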