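import Pool.Agent.P.MP_e94e4b_nt.LF.IfA

/-! Step OK2. -/

namespace Pool.Agent.P.LF

open Finset Real Filter Topology MeasureTheory
open Pool.Agent.P.MP_e86632_nt (ee nn ee_add norm_ee ee_neg ee_zero)
open Pool.Agent.P.MP_8be758_nt.Avg (gs nsq gs_pos gs_le_one gs_neg gs_anti)
open Pool.Agent.P.E2
open Pool.Agent.P.PAR
open ArithmeticFunction (cardFactors vonMangoldt)
open DirichletCharacter (LFunction)

namespace OK2c

theorem uniq {K : ℕ} {p : Pm} (h : Rm K p) {m q q' : ℕ} (hm : m ≠ 0) (hm' : m ≤ 8 * p.Y ^ 3)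
    (hq : q ∈ lp p) (hq' : q' ∈ lp p) (d : q ∣ m) (d' : q' ∣ m) : q = q' := by
  by_contra ne
  obtain ⟨⟨a1, -⟩, a2⟩ := mem_lp.1 hq
  obtain ⟨⟨b1, -⟩, b2⟩ := mem_lp.1 hq'
  have c := Nat.le_of_dvd (Nat.pos_of_ne_zero hm)
    (((Nat.coprime_primes a2 b2).2 ne).mul_dvd_of_dvd_of_dvd d d')
  have e : p.z1 * p.z1 ≤ q * q' := Nat.mul_le_mul a1.le b1.le
  have z := h.zs
  rw [pow_two] at z
  omega

theorem g2_eq {K : ℕ} {p : Pm} (h : Rm K p) {m : ℕ} (hm : m ≠ 0) (hm' : m ≤ 8 * p.Y ^ 3) :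
    g2 p m = ∑ q ∈ lp p, if q ∣ m then lc m else 0 := by
  unfold g2
  split_ifs with H
  · obtain ⟨q, hq, d⟩ := H
    rw [sum_eq_single_of_mem q hq, if_pos d]
    intro q' hq' ne
    exact if_neg fun d' => ne (uniq h hm hm' hq' hq d' d)
  · exact (sum_eq_zero fun q hq => if_neg fun d => H ⟨q, hq, d⟩).symm

theorem sub_eq (l b : ℕ) {a c : ℕ} (h : a ≤ c) :
    ∑ m ∈ (Ioc a c).filter (· ≡ b [MOD l]), lc m =
      ∑ m ∈ (Icc 1 c).filter (· ≡ b [MOD l]), lc m -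
        ∑ m ∈ (Icc 1 a).filter (· ≡ b [MOD l]), lc m := by
  have e : ∀ k : ℕ, Icc 1 k = Ioc 0 k := fun k => by
    ext x; simp [Nat.one_le_iff_ne_zero, Nat.pos_iff_ne_zero]
  rw [e, e, sum_filter, sum_filter, sum_filter, eq_sub_iff_add_eq',
    sum_Ioc_consecutive _ (Nat.zero_le _) h]

theorem one {l q : ℕ} (hl : 1 ≤ l) (hq : q.Prime) (hlq : l < q) (X n b : ℕ) : ∃ b' : ℕ,
    ∑ m ∈ (Ioc X n).filter (· ≡ b [MOD l]), (if q ∣ m then lc m else 0) =
      -∑ m ∈ (Ioc (X / q) (n / q)).filter (· ≡ b' [MOD l]), lc m := by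
  have co : Nat.Coprime q l := (Nat.Prime.coprime_iff_not_dvd hq).2 fun d => by
    have := Nat.le_of_dvd hl d; omega
  obtain ⟨b', -, hb⟩ := Nat.exists_mul_mod_eq_of_coprime b co (by omega : l ≠ 0)
  have hb' : q * b' ≡ b [MOD l] := hb
  refine ⟨b', ?_⟩
  rw [← sum_filter, ← sum_neg_distrib]
  symm
  refine sum_bij (fun m _ => q * m) (fun m hm => ?_) (fun a _ c _ e => ?_) (fun m hm => ?_)
    fun m hm => ?_
  · obtain ⟨h1, h2⟩ := mem_filter.1 hm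
    obtain ⟨h3, h4⟩ := mem_Ioc.1 h1
    refine mem_filter.2 ⟨mem_filter.2 ⟨mem_Ioc.2 ⟨?_, ?_⟩, (h2.mul_left q).trans hb'⟩,
      dvd_mul_right _ _⟩
    · rw [mul_comm]; exact (Nat.div_lt_iff_lt_mul hq.pos).1 h3
    · rw [mul_comm]; exact (Nat.le_div_iff_mul_le hq.pos).1 h4
  · exact Nat.eq_of_mul_eq_mul_left hq.pos e
  · obtain ⟨h1, k, rfl⟩ := mem_filter.1 hm
    obtain ⟨h2, h3⟩ := mem_filter.1 h1
    obtain ⟨h4, h5⟩ := mem_Ioc.1 h2
    refine ⟨k, mem_filter.2 ⟨mem_Ioc.2 ⟨?_, ?_⟩, ?_⟩, rfl⟩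
    · exact (Nat.div_lt_iff_lt_mul hq.pos).2 (by rwa [mul_comm])
    · exact (Nat.le_div_iff_mul_le hq.pos).2 (by rwa [mul_comm])
    · exact Nat.ModEq.cancel_left_of_coprime co.symm (h3.trans hb'.symm)
  · have h0 : m ≠ 0 := Nat.ne_zero_of_lt (mem_Ioc.1 (mem_filter.1 hm).1).1
    rw [lc_mul hq.ne_zero h0, lc_prime hq, neg_one_mul]

end OK2c

theorem r_OK2 (hLXP : K_LXP) :
    K_OK2 := by
  intro l ε hl hε
  obtain ⟨N0, hN⟩ := eventually_atTop.1 (hLXP l (ε / 9) hl (by positivity))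
  refine ⟨l + N0, fun p h => ⟨⟨by simp, fun n => ?_, fun q m hq _ h2 hm => ?_⟩,
    fun X n b h1 h2 h3 h4 => ?_⟩⟩
  · unfold g2
    split_ifs
    · exact norm_lc_le n
    · simp
  · have hz : q ≤ p.z1 := by
      have := h.zs
      exact (Nat.pow_le_pow_iff_left two_ne_zero).1 (by omega)
    unfold g2
    rw [Hp_mul hq.ne_zero hz]
    split_ifs
    · rw [lc_mul hq.ne_zero hm, lc_prime hq]
    · simp
  · rw [sum_congr rfl fun m hm => OK2c.g2_eq h (m := m)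
      (by have := (mem_Ioc.1 (mem_filter.1 hm).1).1; omega)
      (by have := (mem_Ioc.1 (mem_filter.1 hm).1).2; omega), sum_comm]
    have X0 : (0 : ℝ) ≤ X := Nat.cast_nonneg X
    refine (norm_sum_le_of_le _ (n := fun q : ℕ => ε * X * (1 / (q : ℝ))) fun q hq => ?_).trans ?_
    · obtain ⟨⟨a1, a2⟩, a3⟩ := mem_lp.1 hq
      have kz := h.kz
      obtain ⟨b', e⟩ := OK2c.one hl a3 (by omega) X n b
      have d1 : X / q ≤ n / q := Nat.div_le_div_right h3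
      have d2 : N0 ≤ X / q := by
        refine (Nat.le_div_iff_mul_le a3.pos).2 (le_trans ?_ (h.zw.trans h1))
        exact Nat.mul_le_mul (by omega) a2
      have q0 : (0 : ℝ) < q := by exact_mod_cast a3.pos
      have c1 : ((X / q : ℕ) : ℝ) ≤ X / q := Nat.cast_div_le
      have c2 : ((n / q : ℕ) : ℝ) ≤ 8 * (X / q) := by
        refine Nat.cast_div_le.trans ?_
        rw [← mul_div_assoc]
        exact div_le_div_of_nonneg_right (by exact_mod_cast h4) q0.le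
      rw [e, norm_neg, OK2c.sub_eq l b' d1]
      refine (norm_sub_le _ _).trans ((add_le_add (hN _ (d2.trans d1) b') (hN _ d2 b')).trans ?_)
      have c3 : ε * X * (1 / (q : ℝ)) = ε / 9 * (8 * (X / q)) + ε / 9 * (X / q) := by ring
      rw [c3]
      gcongr
    · rw [← mul_sum]
      exact mul_le_of_le_one_right (by positivity) h.d1

end Pool.Agent.P.LF
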