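import Pool.Agent.P.MP_e94e4b_nt.LF.IfB

/-! Step ORT. -/

namespace Pool.Agent.P.LF

open Finset Real Filter Topology MeasureTheory
open Pool.Agent.P.MP_e86632_nt (ee nn ee_add norm_ee ee_neg ee_zero)
open Pool.Agent.P.MP_8be758_nt.Avg (gs nsq gs_pos gs_le_one gs_neg gs_anti)
open Pool.Agent.P.E2
open Pool.Agent.P.PAR
open ArithmeticFunction (cardFactors vonMangoldt)
open DirichletCharacter (LFunction)

namespace ORTc

theorem one_iff {x : ℝ} : ee x = 1 ↔ ∃ n : ℤ, x = n := by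
  rw [ee, Complex.exp_eq_one_iff]
  refine exists_congr fun n => ⟨fun h => ?_, fun h => ?_⟩
  · have h1 : (x : ℂ) * (2 * π * Complex.I) = n * (2 * π * Complex.I) := by
      rw [← h]; push_cast; ring
    exact_mod_cast mul_right_cancel₀ Complex.two_pi_I_ne_zero h1
  · rw [h]; push_cast; ring

theorem pw (x : ℝ) (k : ℕ) : ee (k * x) = ee x ^ k := by
  induction k with
  | zero => simp [ee_zero]
  | succ k ih => rw [pow_succ, ← ih, ← ee_add]; congr 1; push_cast; ring

end ORTc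

theorem r_ORT :
    K_ORT := by
  intro M z hM
  have h0 : (M : ℝ) ≠ 0 := by exact_mod_cast (by omega : M ≠ 0)
  have h1 : ∀ k : ℕ, ee ((k : ℝ) * z / M) = ee ((z : ℝ) / M) ^ k := fun k => by
    rw [← ORTc.pw, mul_div_assoc]
  simp only [h1]
  split_ifs with h
  · obtain ⟨n, rfl⟩ := h
    have h2 : ee (((M * n : ℤ) : ℝ) / M) = 1 :=
      ORTc.one_iff.2 ⟨n, by push_cast; field_simp⟩
    rw [h2]
    simp
  · have h2 : ee ((z : ℝ) / M) ≠ 1 := fun h' => h (by
      obtain ⟨n, hn⟩ := ORTc.one_iff.1 h'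
      rw [div_eq_iff h0, mul_comm] at hn
      exact ⟨n, by exact_mod_cast hn⟩)
    have h3 : ee ((z : ℝ) / M) ^ M = 1 := by
      rw [← ORTc.pw]
      exact ORTc.one_iff.2 ⟨z, by field_simp⟩
    rw [geom_sum_eq h2, h3, sub_self, zero_div]

end Pool.Agent.P.LF
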