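import Pool.Agent.P.MP_e94e4b_nt.LF.IfA
import Pool.Agent.P.MP_e94e4b_nt.E2.TP0

/-! Step PBX. -/

namespace Pool.Agent.P.LF

open Finset Real Filter Topology MeasureTheory
open Pool.Agent.P.MP_e86632_nt (ee nn ee_add norm_ee ee_neg ee_zero)
open Pool.Agent.P.MP_8be758_nt.Avg (gs nsq gs_pos gs_le_one gs_neg gs_anti)
open Pool.Agent.P.E2
open Pool.Agent.P.PAR
open ArithmeticFunction (cardFactors vonMangoldt)
open DirichletCharacter (LFunction)

namespace PBXc

end PBXc

theorem r_PBX (hLB : S_LB) (hZL1 : S_ZL1) (hZL2 : S_ZL2) (hLD : S_LD) (hHF : S_HF) (hMEL : S_MEL) (hCSN : L_CSN) :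
    K_PBX := by
  intro q _ χ
  obtain ⟨δ, B, G, hδ, hG, hGB⟩ := hHF q χ
  obtain ⟨C, -, hC⟩ := hZL1
  filter_upwards [hLB, hLD, hCSN, ev_pp 1 hδ (show 0 < 11 by norm_num),
    ev_pe B 0 two_pos, ev_pe1 256 7, ev_pe1 3 11, ev_pe1 C 0, ev_pe1 128 0, eventually_ge_atTop 1,
    ev_pp 9 (show (0 : ℝ) < 4 by norm_num) (show 1 < 13 by norm_num), ev_pe1 q 0]
    with r hLB hLD hCSN hδr hB h7 h11 hCr h128 hr1 h9 hqq w v t hw1 hw2 hv1 hv2 ht
  simp only [pow_zero, pow_one, mul_one] at hδr hB hCr h9 h128 hqq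
  have hq : ((1 : ℕ) : ℝ) ≤ Real.exp r := by
    simpa using Real.one_le_exp (by linarith : (0 : ℝ) ≤ r)
  have hw0 : 0 < w := (Real.exp_pos _).trans_le hw1
  have hr11 : 1 ≤ r ^ 11 := one_le_pow₀ hr1
  have hi0 : 0 < 1 / r ^ 11 := by positivity
  have hi1 : 1 / r ^ 11 ≤ 1 := (div_le_one (by positivity)).2 hr11
  have hi2 : 1 / r ^ 11 ≤ δ := (div_le_iff₀ (by positivity)).2 hδr
  have hi3 : 1 / r ^ 11 ≤ 1 / r ^ 9 :=
    one_div_le_one_div_of_le (by positivity) (pow_le_pow_right₀ hr1 (by norm_num))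
  have he : Real.exp r + Real.exp r ≤ Real.exp (2 * r) := by
    rw [two_mul, Real.exp_add]; nlinarith [Real.add_one_le_exp r]
  have hV : 4 * π * r ^ 7 / w ≤ Real.exp (4 * r ^ 13) / 16 := by
    rw [div_le_div_iff₀ hw0 (by norm_num)]
    have h1 : Real.exp r ≤ Real.exp (4 * r ^ 13) * Real.exp (-(8 * r)) := by
      rw [← Real.exp_add]; exact Real.exp_le_exp.2 (by linarith)
    have h2 := mul_le_mul_of_nonneg_left hw1 (Real.exp_pos (4 * r ^ 13)).le
    have h3 := mul_le_mul_of_nonneg_right Real.pi_le_four (show 0 ≤ r ^ 7 by positivity)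
    linarith
  have hT : |2 * π * t| ≤ Real.exp (4 * r ^ 13) / 16 := by
    have e1 : |2 * π * t| = 2 * (π * |t|) := by
      rw [abs_mul, abs_of_pos (by positivity : (0 : ℝ) < 2 * π)]; ring
    have e2 : Real.exp r ≤ Real.exp (r ^ 13) :=
      Real.exp_le_exp.2 (le_self_pow₀ hr1 (by norm_num))
    have e3 : Real.exp (4 * r ^ 13) = Real.exp (r ^ 13) * Real.exp (3 * r ^ 13) := by
      rw [← Real.exp_add]; congr 1; ring
    have e4 : 128 * Real.exp (3 * r ^ 13) ≤ Real.exp (r ^ 13) * Real.exp (3 * r ^ 13) := by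
      gcongr; linarith
    have e5 : π * |t| ≤ 4 * |t| := by gcongr; exact Real.pi_le_four
    rw [e1, e3]; linarith
  have hs := fun (s : ℂ) (h : s.re = 1 + 1 / r ^ 11) =>
    hZL2.2 q χ s (by linarith) (by linarith)
  have hser := fun (s : ℂ) (h : s.re = 1 + 1 / r ^ 11) =>
    P0a.ser (kp χ) (s := s) (by linarith) (hs s h).1
  have m2 := (hMEL (fun n => ch χ n * vonMangoldt n -
    kp χ * on n) w v (1 + 1 / r ^ 11) t
      hw0 (by simp [on]) (hser _ (Complex.ofReal_re _)).1).2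
  have m3 : ∀ u : ℝ, LSeries (fun n => ch χ n * vonMangoldt n -
      kp χ * on n) (pt (1 + 1 / r ^ 11) (u + t)) =
      G (pt (1 + 1 / r ^ 11) u + (2 * π * t : ℝ) * Complex.I) := fun u => by
    rw [pt_add, (hser _ (pt_re _ _)).2, ← (hs _ (pt_re _ _)).2.1, hG]
    intro h
    have := congrArg Complex.re h
    rw [pt_re, Complex.one_re] at this
    linarith
  simp only [m3] at m2
  rw [m2]
  have hd : ∀ s : ℂ, DifferentiableAt ℂ G (s + (2 * π * t : ℝ) * Complex.I) →
      DifferentiableAt ℂ (fun z : ℂ => G (z + (2 * π * t : ℝ) * Complex.I)) s :=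
    fun s h => DifferentiableAt.comp (g := G)
      (f := fun z : ℂ => z + (2 * π * t : ℝ) * Complex.I) s h (by fun_prop)
  have hre : ∀ s : ℂ, (s + (2 * π * t : ℝ) * Complex.I).re = s.re := fun s => by simp
  have him : ∀ s : ℂ, (s + (2 * π * t : ℝ) * Complex.I).im = s.im + 2 * π * t := fun s => by simp
  refine hCSN (fun z => G (z + (2 * π * t : ℝ) * Complex.I)) w v hw1 hw2 hv1 hv2 ?_ ?_
  · intro s h1 h2 h3
    rw [← hre] at h1 h2
    have h3' : |(s + (2 * π * t : ℝ) * Complex.I).im| ≤ Real.exp (4 * r ^ 13) / 8 := by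
      rw [him]; linarith [abs_add_le s.im (2 * π * t)]
    refine And.imp_left (hd s) ?_
    generalize s + (2 * π * t : ℝ) * Complex.I = z at h1 h2 h3'
    rcases le_total |z.im| 3 with h4 | h4
    · obtain ⟨h5, h6⟩ := hGB z (by linarith) (by linarith) h4
      exact ⟨h5, h6.trans hB⟩
    · obtain ⟨h5, h6⟩ := hLD q χ z hqq h1 (by linarith) h4 h3'
      have h7 := hLB 1 1 z hq (by linarith) (by linarith) (by linarith)
        (by linarith [Real.exp_pos (4 * r ^ 13)])
      rw [DirichletCharacter.LFunction_modOne_eq] at h7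
      obtain ⟨h8, h9⟩ := P0a.near hG (s := z)
        (by rintro rfl; rw [Complex.one_im, abs_zero] at h4; linarith) h5
      exact ⟨h8, by linarith⟩
  · intro s h1
    rw [← hre] at h1
    refine And.imp_left (fun h => (hd s h).continuousAt) ?_
    generalize s + (2 * π * t : ℝ) * Complex.I = z at h1
    obtain ⟨-, -, h2, h3, -, -⟩ := hZL2.2 q χ z (by linarith) (by linarith)
    obtain ⟨-, -, -, -, -, h4⟩ := hZL2.2 1 1 z (by linarith) (by linarith)
    rw [DirichletCharacter.LFunction_modOne_eq] at h4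
    have h5 := hC z.re (by linarith) (by linarith)
    have h6 : z.re - 1 = 1 / r ^ 11 := by linarith
    rw [h6, div_div_eq_mul_div, div_one] at h4 h5
    obtain ⟨h8, h9⟩ := P0a.near hG (s := z)
      (by rintro rfl; rw [Complex.one_re] at h1; linarith) h3
    exact ⟨h8, by linarith⟩


end Pool.Agent.P.LF
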