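import Pool.Agent.P.MP_e94e4b_nt.LF.IfB

/-! Step PRG. -/

namespace Pool.Agent.P.LF

open Finset Real Filter Topology MeasureTheory
open Pool.Agent.P.MP_e86632_nt (ee nn ee_add norm_ee ee_neg ee_zero)
open Pool.Agent.P.MP_8be758_nt.Avg (gs nsq gs_pos gs_le_one gs_neg gs_anti)
open Pool.Agent.P.E2
open Pool.Agent.P.PAR
open ArithmeticFunction (cardFactors vonMangoldt)
open DirichletCharacter (LFunction)

namespace PRGc

theorem key (hORT : K_ORT) (G : ℕ → ℂ) {a c x : ℕ} (H : ℕ) (α : ℝ) (ha : 1 ≤ a)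
    (hc : c ≤ a * x) :
    es (fun i => G (a * i - c)) x H α =
      ∑ k ∈ range a, (a : ℂ)⁻¹ * ee ((α + k) / a * c) * es G (a * x - c) (a * H) ((α + k) / a) := by
  have ha0 : (a : ℝ) ≠ 0 := by positivity
  have haC : (a : ℂ) ≠ 0 := by exact_mod_cast (show a ≠ 0 by omega)
  have h1 : ∀ n : ℕ, ∑ k ∈ range a, (a : ℂ)⁻¹ * ee ((α + k) / a * c) * (G n * ee ((α + k) / a * n)) =
      if a ∣ n + c then G n * ee (α * ((n + c : ℕ) / a)) else 0 := by
    intro n
    have h2 := hORT a ((n + c : ℕ) : ℤ) ha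
    have h3 : ∀ k ∈ range a, (a : ℂ)⁻¹ * ee ((α + k) / a * c) * (G n * ee ((α + k) / a * n)) =
        (a : ℂ)⁻¹ * (G n * ee (α * ((n + c : ℕ) / a))) *
          ee ((k : ℝ) * (((n + c : ℕ) : ℤ) : ℝ) / a) := by
      intro k _
      have h4 : ee ((α + k) / a * c) * ee ((α + k) / a * n) =
          ee (α * ((n + c : ℕ) / a)) * ee ((k : ℝ) * (((n + c : ℕ) : ℤ) : ℝ) / a) := by
        rw [← ee_add, ← ee_add]
        congr 1
        push_cast
        field_simp
        ring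
      linear_combination (a : ℂ)⁻¹ * G n * h4
    rw [sum_congr rfl h3, ← mul_sum, h2]
    simp only [Int.natCast_dvd_natCast]
    split_ifs
    · field_simp
    · simp
  simp only [es, mul_sum]
  rw [sum_comm, sum_congr rfl fun n _ => h1 n, ← sum_filter]
  refine sum_bij (fun i _ => a * i - c) ?_ ?_ ?_ ?_
  · intro i hi
    obtain ⟨b1, b2⟩ := mem_Ioc.1 hi
    have b3 : a * (x + 1) ≤ a * i := Nat.mul_le_mul_left a b1
    have b4 : a * i ≤ a * (x + H) := Nat.mul_le_mul_left a b2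
    rw [mul_add] at b3 b4
    refine mem_filter.2 ⟨mem_Ioc.2 ⟨by omega, by omega⟩, ?_⟩
    rw [show a * i - c + c = a * i by omega]
    exact dvd_mul_right _ _
  · intro i hi j hj h
    have b3 : a * (x + 1) ≤ a * i := Nat.mul_le_mul_left a (mem_Ioc.1 hi).1
    have b4 : a * (x + 1) ≤ a * j := Nat.mul_le_mul_left a (mem_Ioc.1 hj).1
    rw [mul_add] at b3 b4
    have h5 : a * i = a * j := by
      have h6 : a * i - c = a * j - c := h
      omega
    exact Nat.eq_of_mul_eq_mul_left ha h5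
  · intro n hn
    obtain ⟨hn1, i, hi⟩ := mem_filter.1 hn
    obtain ⟨b1, b2⟩ := mem_Ioc.1 hn1
    refine ⟨i, mem_Ioc.2 ⟨?_, ?_⟩, by show a * i - c = n; omega⟩
    · exact Nat.lt_of_mul_lt_mul_left (a := a) (by omega)
    · exact Nat.le_of_mul_le_mul_left (c := a) (by rw [mul_add]; omega) ha
  · intro i hi
    have b3 : a * (x + 1) ≤ a * i := Nat.mul_le_mul_left a (mem_Ioc.1 hi).1
    rw [mul_add] at b3
    rw [show a * i - c + c = a * i by omega]
    congr 2
    push_cast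
    field_simp

end PRGc

theorem r_PRG (hORT : K_ORT) :
    K_PRG := by
  intro G a c lo lo' hi hi' H B ha hc hlo hhi hB α
  have ha0 : (0 : ℝ) < a := by positivity
  have hx : ∀ x ∈ Ioc lo hi, c + 1 ≤ a * x ∧ a * x - c ∈ Ioc lo' hi' := by
    intro x hx
    obtain ⟨b1, b2⟩ := mem_Ioc.1 hx
    obtain ⟨y, rfl⟩ : ∃ y, x = y + 2 := ⟨x - 2, by omega⟩
    have b3 : y ≤ a * y := Nat.le_mul_of_pos_left y ha
    have b4 : a * (y + 2) ≤ a * hi := Nat.mul_le_mul_left a b2
    rw [mul_add] at b4 ⊢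
    exact ⟨by omega, mem_Ioc.2 ⟨by omega, by omega⟩⟩
  have h1 : ∀ x ∈ Ioc lo hi, ‖es (fun i => G (a * i - c)) x H α‖ / x ≤
      ∑ k ∈ range a, ‖es G (a * x - c) (a * H) ((α + k) / a)‖ / (a * x - c : ℕ) := by
    intro x hx'
    obtain ⟨b1, b2⟩ := hx x hx'
    rw [PRGc.key hORT G H α ha (by omega)]
    have b0 : (0 : ℝ) < x := by exact_mod_cast (show 0 < x by have := (mem_Ioc.1 hx').1; omega)
    refine (div_le_div_of_nonneg_right (norm_sum_le _ _) b0.le).trans ?_
    rw [sum_div]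
    refine sum_le_sum fun k _ => ?_
    rw [norm_mul, norm_mul, norm_ee, mul_one, norm_inv, Complex.norm_natCast, inv_mul_eq_div,
      div_div]
    have b3 : (0 : ℝ) < (a * x - c : ℕ) := by exact_mod_cast (show 0 < a * x - c by omega)
    have b4 : ((a * x - c : ℕ) : ℝ) ≤ a * x := by exact_mod_cast Nat.sub_le _ _
    exact div_le_div_of_nonneg_left (norm_nonneg _) b3 b4
  refine (sum_le_sum h1).trans ?_
  rw [sum_comm]
  refine (sum_le_card_nsmul _ _ B fun k _ => ?_).trans_eq (by rw [card_range, nsmul_eq_mul])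
  refine le_trans ?_ (hB ((α + k) / a))
  refine le_trans (le_of_eq ?_) (le_ua G (a * H) ((α + k) / a)
    (S := (Ioc lo hi).image fun x => a * x - c) fun n hn => ?_)
  · refine (sum_image (f := fun n : ℕ => ‖es G n (a * H) ((α + k) / a)‖ / (n : ℝ))
      fun i hi j hj h => ?_).symm
    have b1 := (hx i hi).1
    have b2 := (hx j hj).1
    have h6 : a * i - c = a * j - c := h
    exact Nat.eq_of_mul_eq_mul_left ha (by omega)
  · obtain ⟨x, hx', rfl⟩ := mem_image.1 hn
    exact (hx x hx').2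

end Pool.Agent.P.LF
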