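import Pool.Agent.P.MP_e94e4b_nt.LF.IfB

/-! Step REL. -/

namespace Pool.Agent.P.LF

open Finset Real Filter Topology MeasureTheory
open Pool.Agent.P.MP_e86632_nt (ee nn ee_add norm_ee ee_neg ee_zero)
open Pool.Agent.P.MP_8be758_nt.Avg (gs nsq gs_pos gs_le_one gs_neg gs_anti)
open Pool.Agent.P.E2
open Pool.Agent.P.PAR
open ArithmeticFunction (cardFactors vonMangoldt)
open DirichletCharacter (LFunction)

namespace RELc

theorem lt_rel {a a' c c' : ℕ} (h : 2 * c + 3 = 3 * a) (h' : 2 * c' + 3 = 3 * a') (hl : a' < a) :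
    c' * a < c * a' := by
  have e : 2 * (c * a') + 3 * a' = 2 * (c' * a) + 3 * a := by
    zify at h h' ⊢
    linear_combination (a' : ℤ) * h - (a : ℤ) * h'
  omega

theorem key {a a' c c' q t m i : ℕ} (h : 2 * c + 3 = 3 * a) (h' : 2 * c' + 3 = 3 * a')
    (hl : a' < a) (hq : q = a * a' * t + 1) (hi : i + c * a' * t = q * m) (hm : 2 ≤ m) :
    c < a * m ∧ c' < a' * m ∧ a * i - c = q * (a * m - c) ∧
      a' * (i + (c * a' - c' * a) * t) - c' = q * (a' * m - c') := by
  have h1 : c < a * m := by nlinarith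
  have h2 : c' < a' * m := by nlinarith
  have h3 := (lt_rel h h' hl).le
  refine ⟨h1, h2, ?_, ?_⟩
  · refine Nat.sub_eq_of_eq_add ?_
    zify [h1.le] at hq hi ⊢
    linear_combination (a : ℤ) * hi + (c : ℤ) * hq
  · refine Nat.sub_eq_of_eq_add ?_
    zify [h2.le, h3] at hq hi ⊢
    linear_combination (a' : ℤ) * hi + (c' : ℤ) * hq

end RELc

theorem r_REL :
    K_REL := by
  intro p s k k' Q lo hk hk' hlt hQ hlo
  have h := ck_spec hk
  have h' := ck_spec hk'
  have hl : k' ^ 2 < k ^ 2 := Nat.pow_lt_pow_left hlt two_ne_zero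
  have h3 := RELc.lt_rel h h' hl
  refine ⟨?_, by omega, by omega, ?_⟩
  · rw [← mul_assoc]
    exact Nat.mul_le_mul_right _ (by omega)
  · intro q m i hq hqQ hq1 hm hi
    obtain ⟨h1, h2, h4, h5⟩ := RELc.key h h' hl (tq_spec hq.one_le hq1) hi (hlo.trans hm)
    simp only [pp, fv, Ai]
    rw [h4, h5, fb_prime_mul hq (hqQ.trans hQ) (by omega),
      fb_prime_mul hq (hqQ.trans hQ) (by omega)]

end Pool.Agent.P.LF
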