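import Pool.Agent.P.MP_e94e4b_nt.LF.IfA

/-! Step RMA. -/

namespace Pool.Agent.P.LF

open Finset Real Filter Topology MeasureTheory
open Pool.Agent.P.MP_e86632_nt (ee nn ee_add norm_ee ee_neg ee_zero)
open Pool.Agent.P.MP_8be758_nt.Avg (gs nsq gs_pos gs_le_one gs_neg gs_anti)
open Pool.Agent.P.E2
open Pool.Agent.P.PAR
open ArithmeticFunction (cardFactors vonMangoldt)
open DirichletCharacter (LFunction)

namespace RMAc

end RMAc

theorem r_RMA (hMV : S_MV) :
    K_RMA := by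
  obtain ⟨C, hC, h⟩ := hMV
  refine ⟨72 * C, by positivity, fun g X v P δ Z hg hP hδ hZ hX => ?_⟩
  have hy : 0 < yy P δ v := yy_pos (by linarith) hδ v
  have h1 := h Z (8 * X / yy P δ v) (rg X P δ v) g hZ fun n hn =>
    ⟨(mem_Icc.1 (rg_subset X P δ v hn)).1, ((mem_rg (by linarith) hδ).1 hn).2⟩
  have h2 := (nsq_le_card hg (rg X P δ v)).trans (card_rg_le (P := P) (by linarith) hδ X v)
  have h3 : Z ≤ X / yy P δ v := (le_div_iff₀ hy).2 hX
  rw [mul_div_assoc] at h1 h2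
  refine h1.trans ?_
  have h4 : 0 ≤ (X : ℝ) / yy P δ v := by positivity
  have h5 : 0 ≤ nsq (rg X P δ v) g := sum_nonneg fun _ _ => by positivity
  calc _ ≤ C * (X / yy P δ v + 8 * (X / yy P δ v)) * (8 * (X / yy P δ v)) := by gcongr
    _ = _ := by ring

end Pool.Agent.P.LF
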