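import Pool.Agent.P.MP_e94e4b_nt.LF.IfB

/-! Step RN1. -/

namespace Pool.Agent.P.LF

open Finset Real Filter Topology MeasureTheory
open Pool.Agent.P.MP_e86632_nt (ee nn ee_add norm_ee ee_neg ee_zero)
open Pool.Agent.P.MP_8be758_nt.Avg (gs nsq gs_pos gs_le_one gs_neg gs_anti)
open Pool.Agent.P.E2
open Pool.Agent.P.PAR
open ArithmeticFunction (cardFactors vonMangoldt)
open DirichletCharacter (LFunction)

namespace RN1c

theorem lg {y a : ℝ} (hy : 1 ≤ y) (ha : 1 ≤ a) :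
    y ≤ ((⌈y ^ a⌉₊ + 1 : ℕ) : ℝ) ∧ a * Real.log y ≤ Real.log ((⌈y ^ a⌉₊ + 1 : ℕ) : ℝ) ∧
      Real.log ((⌈y ^ a⌉₊ + 1 : ℕ) : ℝ) ≤ a * Real.log y + 2 := by
  have h0 : 0 < y := by linarith
  have h1 : y ≤ y ^ a := by
    simpa using Real.rpow_le_rpow_of_exponent_le hy ha
  have h2 : y ^ a ≤ ⌈y ^ a⌉₊ := Nat.le_ceil _
  have h3 : (⌈y ^ a⌉₊ : ℝ) < y ^ a + 1 := Nat.ceil_lt_add_one (by linarith)
  have h4 : Real.log (y ^ a) = a * Real.log y := Real.log_rpow h0 a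
  push_cast
  refine ⟨by linarith, ?_, ?_⟩
  · rw [← h4]; exact Real.log_le_log (by linarith) (by linarith)
  · have h5 : Real.log ((⌈y ^ a⌉₊ : ℝ) + 1) ≤ Real.log (y ^ a * 3) :=
      Real.log_le_log (by linarith) (by linarith)
    have h6 : Real.log 3 ≤ 3 - 1 := Real.log_le_sub_one_of_pos (by norm_num)
    rw [Real.log_mul (by linarith) (by norm_num), h4] at h5
    linarith

theorem se (a b : ℕ) : (MP_8be758_nt.Avg.PL ((b + 1 : ℕ) : ℝ)).filter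
    (fun p : ℕ => ((a + 1 : ℕ) : ℝ) ≤ (p : ℝ) ∧ (p : ℝ) < ((b + 1 : ℕ) : ℝ)) =
      (Ioc a b).filter Nat.Prime := by
  ext p
  rw [mem_filter, MP_8be758_nt.Avg.mem_PL (Nat.cast_nonneg _), mem_filter, mem_Ioc, Nat.cast_le,
    Nat.cast_le, Nat.cast_lt]
  constructor
  · rintro ⟨⟨_, h⟩, h1, h2⟩; exact ⟨⟨by omega, by omega⟩, h⟩
  · rintro ⟨⟨h1, h2⟩, h⟩; exact ⟨⟨by omega, h⟩, by omega, by omega⟩

theorem rt {η u a b : ℝ} (h0 : 0 < η) (h1 : η ≤ 1 / 4) (hu : 9 ≤ η * u)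
    (a1 : (2 - η) * u ≤ a) (a2 : a ≤ (2 - η) * u + 2) (b1 : (2 - η / 2) * u ≤ b)
    (b2 : b ≤ (2 - η / 2) * u + 2) :
    η / 16 ≤ Real.log (b / a) ∧ Real.log (b / a) ≤ 1 / 2 := by
  have u0 : 0 < u := by
    by_contra h
    have := mul_nonpos_of_nonneg_of_nonpos h0.le (not_lt.1 h)
    linarith
  have u1 : η * u ≤ 1 / 4 * u := mul_le_mul_of_nonneg_right h1 u0.le
  have a0 : 0 < a := by nlinarith
  have r1 : 1 + η / 8 ≤ b / a := by
    rw [le_div_iff₀ a0]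
    have e : (1 + η / 8) * a ≤ (1 + η / 8) * ((2 - η) * u + 2) :=
      mul_le_mul_of_nonneg_left a2 (by linarith)
    have e2 : 0 ≤ η * (η * u) := by positivity
    nlinarith
  have r2 : b / a ≤ 3 / 2 := by
    rw [div_le_iff₀ a0]; nlinarith
  refine ⟨?_, (Real.log_le_sub_one_of_pos (by linarith)).trans (by linarith)⟩
  have l1 := Real.log_le_log (by linarith) r1
  have l2 := Real.one_sub_inv_le_log_of_pos (x := 1 + η / 8) (by linarith)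
  have l3 : (1 + η / 8)⁻¹ ≤ 1 - η / 16 := by
    rw [inv_le_comm₀ (by linarith) (by linarith), inv_eq_one_div, div_le_iff₀ (by linarith)]
    nlinarith
  linarith

end RN1c

theorem r_RN1 (hMR1 : S_MR1) :
    K_RN1 := by
  intro η h0 h1
  obtain ⟨w, hw⟩ := eventually_atTop.1 (hMR1.1 (η / 100) (by positivity))
  have t1 : ∀ᶠ Y : ℕ in atTop, max w 1 ≤ (Y : ℝ) :=
    tendsto_natCast_atTop_atTop.eventually_ge_atTop _
  have t2 : ∀ᶠ Y : ℕ in atTop, 9 / η ≤ Real.log (Y : ℝ) :=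
    (Real.tendsto_log_atTop.comp tendsto_natCast_atTop_atTop).eventually_ge_atTop _
  filter_upwards [t1, t2] with Y y1 y2
  have y3 : (1 : ℝ) ≤ Y := (le_max_right _ _).trans y1
  obtain ⟨a0, a1, a2⟩ := RN1c.lg (a := 2 - η) y3 (by linarith)
  obtain ⟨-, b1, b2⟩ := RN1c.lg (a := 2 - η / 2) y3 (by linarith)
  have hz : ⌈(Y : ℝ) ^ (2 - η)⌉₊ ≤ ⌈(Y : ℝ) ^ (2 - η / 2)⌉₊ :=
    Nat.ceil_mono (Real.rpow_le_rpow_of_exponent_le y3 (by linarith))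
  have k := hw w le_rfl _ _ (((le_max_left _ _).trans y1).trans a0)
    (Nat.cast_le.2 (Nat.add_le_add_right hz 1))
  rw [RN1c.se, abs_le] at k
  rw [div_le_iff₀ h0] at y2
  obtain ⟨r1, r2⟩ := RN1c.rt h0 h1 (by linarith) a1 a2 b1 b2
  unfold rs
  constructor <;> linarith [k.1, k.2]

end Pool.Agent.P.LF
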