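import Pool.Agent.P.MP_e94e4b_nt.LF.IfB

/-! Step RNG. -/

namespace Pool.Agent.P.LF

open Finset Real Filter Topology MeasureTheory
open Pool.Agent.P.MP_e86632_nt (ee nn ee_add norm_ee ee_neg ee_zero)
open Pool.Agent.P.MP_8be758_nt.Avg (gs nsq gs_pos gs_le_one gs_neg gs_anti)
open Pool.Agent.P.E2
open Pool.Agent.P.PAR
open ArithmeticFunction (cardFactors vonMangoldt)
open DirichletCharacter (LFunction)

namespace RNGc

theorem ev_r (C : ℝ) {a b : ℝ} (h : a < b) :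
    ∀ᶠ Y : ℕ in atTop, C * (Y : ℝ) ^ a ≤ (Y : ℝ) ^ b := by
  have h1 : Tendsto (fun Y : ℕ => (Y : ℝ) ^ (b - a)) atTop atTop :=
    (tendsto_rpow_atTop (sub_pos.2 h)).comp tendsto_natCast_atTop_atTop
  filter_upwards [h1.eventually_ge_atTop C, eventually_ge_atTop 1] with Y h2 h3
  have h4 : (0 : ℝ) < Y := by exact_mod_cast h3
  calc C * (Y : ℝ) ^ a ≤ (Y : ℝ) ^ (b - a) * (Y : ℝ) ^ a :=
        mul_le_mul_of_nonneg_right h2 (Real.rpow_nonneg h4.le _)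
    _ = _ := by rw [← Real.rpow_add h4]; congr 1; ring

end RNGc

theorem r_RNG (hODD : K_ODD) (hRN1 : K_RN1) :
    K_RNG := by
  intro η K h0 h4
  filter_upwards [hRN1 η h0 h4, RNGc.ev_r 9 (show (3 : ℝ) < 4 - 2 * η by linarith),
    RNGc.ev_r K (show (0 : ℝ) < 2 - η by linarith),
    RNGc.ev_r (32 * (2 * K + 1)) (show 2 - η / 2 < 2 - η / 4 by linarith),
    RNGc.ev_r K (show (0 : ℝ) < 1 - η / 8 by linarith),
    ev_log K one_pos, ev_log (Real.log (4 * K) / 2 + 1) (show 0 < η / 32 by positivity),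
    eventually_ge_atTop (2 * K + 1)] with Y hR e1 e2 e3 e4 e5 e6 e7
  have hY1 : (1 : ℝ) ≤ Y := by exact_mod_cast (by omega : 1 ≤ Y)
  have hY0 : (0 : ℝ) < Y := by linarith
  rw [Real.rpow_zero, mul_one] at e2 e4
  set a : ℝ := (Y : ℝ) ^ (2 - η) with ha
  set b : ℝ := (Y : ℝ) ^ (2 - η / 2) with hb
  set c : ℝ := (Y : ℝ) ^ (1 - η / 8) with hc
  have ha1 : 1 ≤ a := Real.one_le_rpow hY1 (by linarith)
  have hb1 : 1 ≤ b := Real.one_le_rpow hY1 (by linarith)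
  have hc1 : 1 ≤ c := Real.one_le_rpow hY1 (by linarith)
  have ha2 : a ^ 2 = (Y : ℝ) ^ (4 - 2 * η) := by
    rw [ha, pow_two, ← Real.rpow_add hY0]; congr 1; ring
  have hc2 : c ^ 2 = (Y : ℝ) ^ (2 - η / 4) := by
    rw [hc, pow_two, ← Real.rpow_add hY0]; congr 1; ring
  have hz1 : a ≤ (⌈a⌉₊ : ℝ) := Nat.le_ceil a
  have hz2 : (⌈b⌉₊ : ℝ) ≤ 2 * b := by
    have := Nat.ceil_lt_add_one (show 0 ≤ b by linarith)
    linarith
  have hU1 : c ≤ (⌈c⌉₊ : ℝ) := Nat.le_ceil c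
  have hU2 : (⌈c⌉₊ : ℝ) ≤ 2 * c := by
    have := Nat.ceil_lt_add_one (show 0 ≤ c by linarith)
    linarith
  have hUY : ⌈c⌉₊ ≤ Y := by
    rw [Nat.ceil_le, hc]
    calc (Y : ℝ) ^ (1 - η / 8) ≤ (Y : ℝ) ^ (1 : ℝ) :=
          Real.rpow_le_rpow_of_exponent_le hY1 (by linarith)
      _ = Y := Real.rpow_one _
  have hz21 : 1 ≤ ⌈b⌉₊ := Nat.one_le_iff_ne_zero.2 (Nat.ceil_pos.2 (by linarith)).ne'
  have hU0 : 1 ≤ ⌈c⌉₊ := Nat.one_le_iff_ne_zero.2 (Nat.ceil_pos.2 (by linarith)).ne'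
  have hzw : K * ⌈b⌉₊ ≤ ⌈c⌉₊ ^ 2 / 32 := by
    rw [Nat.le_div_iff_mul_le (by norm_num)]
    have h1 : ((K * ⌈b⌉₊ * 32 : ℕ) : ℝ) ≤ ((⌈c⌉₊ ^ 2 : ℕ) : ℝ) := by
      push_cast
      have h2 : c ^ 2 ≤ (⌈c⌉₊ : ℝ) ^ 2 := pow_le_pow_left₀ (by linarith) hU1 2
      have h3 : (K : ℝ) * ⌈b⌉₊ ≤ K * (2 * b) := mul_le_mul_of_nonneg_left hz2 (by positivity)
      rw [← hc2] at e3
      nlinarith
    exact_mod_cast h1
  refine ⟨⟨Y, ⌈a⌉₊, ⌈b⌉₊, ⌈c⌉₊ ^ 2 / 32, ⌈c⌉₊⟩, rfl,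
    ⟨by simpa using e5, ?_, ?_, hzw, ?_, Nat.mul_div_le _ _, ?_, ?_, hR.2⟩, hz1, hR.1, ?_⟩
  · have h1 : ((8 * Y ^ 3 : ℕ) : ℝ) < ((⌈a⌉₊ ^ 2 : ℕ) : ℝ) := by
      push_cast
      have h2 : a ^ 2 ≤ (⌈a⌉₊ : ℝ) ^ 2 := pow_le_pow_left₀ (by linarith) hz1 2
      have h3 : (Y : ℝ) ^ (3 : ℝ) = (Y : ℝ) ^ 3 := by exact_mod_cast Real.rpow_natCast (Y : ℝ) 3
      have h5 : (0 : ℝ) < (Y : ℝ) ^ 3 := by positivity
      rw [h3, ← ha2] at e1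
      linarith
    exact_mod_cast h1
  · exact_mod_cast e2.trans hz1
  · exact le_trans (Nat.le_mul_of_pos_right _ hz21) hzw
  · exact_mod_cast e4.trans hU1
  · have h1 := Nat.mul_div_le (⌈c⌉₊ ^ 2) 32
    have h2 : ⌈c⌉₊ ^ 2 ≤ Y ^ 2 := Nat.pow_le_pow_left hUY 2
    change 4 * (⌈c⌉₊ ^ 2 / 32) ≤ Y ^ 2
    omega
  · intro k hk1 hkK
    refine le_trans ?_ (hODD ⌈c⌉₊ (Y / k) hU0)
    change η / 32 * Real.log Y ≤ _
    have hk0 : (0 : ℝ) < k := by exact_mod_cast hk1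
    have hkK' : (k : ℝ) ≤ K := by exact_mod_cast hkK
    have hK0 : (0 : ℝ) < K := by linarith
    have h1 : (Y : ℝ) / (2 * K) ≤ ((Y / k : ℕ) : ℝ) := by
      have h2 : Y < k * (Y / k + 1) := Nat.lt_mul_div_succ Y hk1
      have h3 : (Y : ℝ) < k * (((Y / k : ℕ) : ℝ) + 1) := by exact_mod_cast h2
      have h5 : (2 * K + 1 : ℝ) ≤ Y := by exact_mod_cast e7
      have h6 : (0 : ℝ) ≤ ((Y / k : ℕ) : ℝ) := by positivity
      rw [div_le_iff₀ (by positivity)]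
      nlinarith
    have h2 : Real.log Y - Real.log (2 * K) ≤ Real.log ((Y / k : ℕ) : ℝ) := by
      rw [← Real.log_div hY0.ne' (by positivity)]
      exact Real.log_le_log (by positivity) h1
    have h3 : Real.log (⌈c⌉₊ : ℝ) ≤ Real.log 2 + (1 - η / 8) * Real.log Y := by
      rw [← Real.log_rpow hY0, ← Real.log_mul two_ne_zero (by positivity)]
      exact Real.log_le_log (by linarith) hU2
    have h5 : Real.log (4 * K) = Real.log 2 + Real.log (2 * K) := by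
      rw [← Real.log_mul two_ne_zero (by positivity)]; congr 1; ring
    linarith

end Pool.Agent.P.LF
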