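import Pool.Agent.P.MP_e94e4b_nt.LF.IfA

/-! Step SGA. -/

namespace Pool.Agent.P.LF

open Finset Real Filter Topology MeasureTheory
open Pool.Agent.P.MP_e86632_nt (ee nn ee_add norm_ee ee_neg ee_zero)
open Pool.Agent.P.MP_8be758_nt.Avg (gs nsq gs_pos gs_le_one gs_neg gs_anti)
open Pool.Agent.P.E2
open Pool.Agent.P.PAR
open ArithmeticFunction (cardFactors vonMangoldt)
open DirichletCharacter (LFunction)

namespace SGAc

theorem lower {ρ : ℝ} (h : 8 ≤ ρ) : 6 * Real.log ρ - 1 ≤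
    Real.log (Real.log (yy (sP ρ) (sd ρ) (sV ρ)) / Real.log (sP ρ)) := by
  have h0 : 0 < ρ := by linarith
  have h6 : 1 ≤ ρ ^ 6 := one_le_pow₀ (by linarith)
  have hd : 0 < sd ρ := by unfold sd; positivity
  have hd1 : sd ρ ≤ 1 := by rw [sd, div_le_one (by positivity)]; exact h6
  have h1 : sd ρ / 2 ≤ Real.log (1 + sd ρ) := by
    refine le_trans ?_ (Real.le_log_one_add_of_nonneg hd.le)
    rw [div_le_div_iff₀ (by norm_num) (by positivity)]
    nlinarith
  have h2 : ρ ^ 18 ≤ (sV ρ : ℝ) := Nat.le_ceil _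
  have h3 : ρ ^ 12 / 2 ≤ sV ρ * Real.log (1 + sd ρ) := by
    refine le_trans (le_of_eq ?_) (mul_le_mul h2 h1 (by positivity) (by positivity))
    unfold sd; field_simp
  have hP : Real.log (sP ρ) = ρ ^ 6 := Real.log_exp _
  rw [log_yy (P := sP ρ) (Real.exp_pos _) hd.le, hP]
  have h4 : ρ ^ 6 / 2 ≤ (ρ ^ 6 + sV ρ * Real.log (1 + sd ρ)) / ρ ^ 6 := by
    rw [le_div_iff₀ (by positivity)]
    nlinarith
  refine le_trans ?_ (Real.log_le_log (by positivity) h4)
  rw [Real.log_div (by positivity) (by norm_num), Real.log_pow]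
  have := Real.log_two_lt_d9
  push_cast
  linarith

end SGAc

theorem r_SGA (hSG : L_SG) (hMAP : K_MAP) :
    K_SGA := by
  intro l hl
  have ht : Tendsto sP atTop atTop :=
    Real.tendsto_exp_atTop.comp (tendsto_pow_atTop (by norm_num))
  filter_upwards [ht.eventually (hMAP l hl), hSG,
    Real.tendsto_log_atTop.eventually (eventually_ge_atTop (l : ℝ))] with ρ h1 h2 h3
  have hl' : (1 : ℝ) ≤ l := by exact_mod_cast hl
  have h4 := h1 _ (le_yy (by linarith [h2.p4]) h2.d0.le (sV ρ))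
  have h5 := SGAc.lower h2.r8
  have h6 : Real.log ρ / l ≤ rs (pb l (sP ρ) (sd ρ) (sV ρ)) := by
    refine le_trans ?_ h4
    rw [div_le_div_iff₀ (by linarith) (by linarith)]
    nlinarith
  refine ⟨h2, le_trans ?_ h6, h6⟩
  rw [le_div_iff₀ (by linarith)]
  linarith

end Pool.Agent.P.LF
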