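import Pool.Agent.P.MP_e94e4b_nt.LF.IfA

/-! Step SMA. -/

namespace Pool.Agent.P.LF

open Finset Real Filter Topology MeasureTheory
open Pool.Agent.P.MP_e86632_nt (ee nn ee_add norm_ee ee_neg ee_zero)
open Pool.Agent.P.MP_8be758_nt.Avg (gs nsq gs_pos gs_le_one gs_neg gs_anti)
open Pool.Agent.P.E2
open Pool.Agent.P.PAR
open ArithmeticFunction (cardFactors vonMangoldt)
open DirichletCharacter (LFunction)

namespace SMAc

end SMAc

theorem r_SMA :
    K_SMA := by
  intro T ε hε
  have V0 : 0 < 1 + 2 * π * |T| * 7 := by positivity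
  refine ⟨ε / (1 + 2 * π * |T| * 7), by positivity, fun g X t hS ht => ?_⟩
  rcases Nat.eq_zero_or_pos X with h1 | h1
  · subst h1
    simp [FG, dq]
  have x0 : (0 : ℝ) < X := by exact_mod_cast h1
  refine (MP_e86632_nt.abel_bound g (nit t) X (8 * X)
    (ε / (1 + 2 * π * |T| * 7) * X) (1 + 2 * π * |T| * 7) (by positivity) V0.le
    (fun n hn => ?_) fun _ => ?_).trans_eq (by field_simp)
  · rcases le_total n X with h | h
    · rw [Ioc_eq_empty (by omega), sum_empty, norm_zero]; positivity
    exact hS n h hn
  · rw [norm_nit]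
    refine add_le_add le_rfl ?_
    calc _ ≤ ∑ i ∈ Ioc X (8 * X - 1),
          2 * π * |T| * (Real.log ((i + 1 : ℕ) : ℝ) - Real.log (i : ℝ)) := by
          refine sum_le_sum fun i hi => (MP_e86632_nt.norm_ee_sub_ee _ _).trans ?_
          have i0 : (0 : ℝ) < i := by exact_mod_cast Nat.zero_lt_of_lt (mem_Ioc.1 hi).1
          have l : Real.log (i : ℝ) ≤ Real.log ((i + 1 : ℕ) : ℝ) :=
            Real.log_le_log i0 (by push_cast; linarith)
          rw [neg_sub_neg, ← mul_sub, abs_mul, abs_sub_comm, abs_of_nonneg (sub_nonneg.2 l),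
            ← mul_assoc]
          exact mul_le_mul_of_nonneg_right (mul_le_mul_of_nonneg_left (ht.trans (le_abs_self T))
            (by positivity)) (sub_nonneg.2 l)
      _ ≤ _ := by
          rw [← mul_sum, MP_e86632_nt.tele_Ioc (fun i => Real.log (i : ℝ)) X _ (by omega),
            Nat.sub_add_cancel (by omega), ← Real.log_div (by positivity) (by positivity)]
          refine mul_le_mul_of_nonneg_left ((Real.log_le_sub_one_of_pos (by positivity)).trans ?_)
            (by positivity)
          rw [sub_le_iff_le_add, div_le_iff₀ (by positivity)]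
          push_cast
          linarith

end Pool.Agent.P.LF
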