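import Pool.Agent.P.MP_e94e4b_nt.LF.IfB

/-! Step SPC. -/

namespace Pool.Agent.P.LF

open Finset Real Filter Topology MeasureTheory
open Pool.Agent.P.MP_e86632_nt (ee nn ee_add norm_ee ee_neg ee_zero)
open Pool.Agent.P.MP_8be758_nt.Avg (gs nsq gs_pos gs_le_one gs_neg gs_anti)
open Pool.Agent.P.E2
open Pool.Agent.P.PAR
open ArithmeticFunction (cardFactors vonMangoldt)
open DirichletCharacter (LFunction)

namespace SPCc

theorem energy (R : Finset ℕ) (N : ℕ) (h : ∀ q ∈ R, 2 * q ≤ N) :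
    (((R ×ˢ R) ×ˢ (R ×ˢ R)).filter fun x => x.1.1 + x.1.2 = x.2.1 + x.2.2).card ≤
      ∑ s ∈ range (N + 1), ((R ×ˢ R).filter fun x => x.1 + x.2 = s).card ^ 2 := by
  rw [card_eq_sum_card_fiberwise (f := fun x => x.1.1 + x.1.2) (t := range (N + 1)) fun x hx => by
    have hx := mem_product.1 (mem_product.1 (mem_filter.1 (mem_coe.1 hx)).1).1
    have := h _ hx.1
    have := h _ hx.2
    exact mem_coe.2 (mem_range.2 (by beta_reduce; omega))]
  refine sum_le_sum fun s _ => ?_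
  rw [pow_two, ← card_product]
  refine card_le_card fun x hx => ?_
  simp only [mem_filter, mem_product] at hx ⊢
  exact ⟨⟨hx.1.1.1, hx.2⟩, hx.1.1.2, hx.1.2 ▸ hx.2⟩

end SPCc

theorem r_SPC (hPQC : L_PQC) (hEN : L_EN) (hF4 : K_F4) :
    K_SPC := by
  classical
  intro D Δ τ hD h1 h2 hτ
  obtain ⟨C, hC, hE⟩ := hEN
  have hD' : (0 : ℝ) < D := by exact_mod_cast hD
  refine ⟨16 * C * (2 * D) ^ 4 / τ ^ 4, by positivity, ?_⟩
  filter_upwards [hE, hPQC.2 D hD, eventually_ge_atTop 2] with P e1 e2 hP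
  have hP' : (0 : ℝ) < P := by exact_mod_cast (by omega : 0 < P)
  have hl : 0 < Real.log P := Real.log_pos (by exact_mod_cast (by omega : 1 < P))
  have f := congrArg norm (hF4 (pq D P) (fun q => 1 / (q : ℂ)) (fun q => Δ * tq D q) (16 * P)
    (by omega) fun q hq => by have := mul_tq_le h2 hq; omega)
  rw [Complex.norm_real, Real.norm_of_nonneg (by positivity), norm_mul, Complex.norm_natCast] at f
  set Q := ((pq D P ×ˢ pq D P) ×ˢ (pq D P ×ˢ pq D P)).filter
    (fun x => Δ * tq D x.1.1 + Δ * tq D x.1.2 = Δ * tq D x.2.1 + Δ * tq D x.2.2) with hQ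
  have b1 : ∀ q ∈ pq D P, ‖1 / (q : ℂ)‖ ≤ 1 / P := fun q hq => by
    rw [norm_div, norm_one, Complex.norm_natCast]
    exact one_div_le_one_div_of_le hP' (by exact_mod_cast (mem_pq.1 hq).1.1.le)
  have b2 : ‖∑ x ∈ Q, 1 / (x.1.1 : ℂ) * (1 / (x.1.2 : ℂ)) *
      (starRingEnd ℂ) (1 / (x.2.1 : ℂ) * (1 / (x.2.2 : ℂ)))‖ ≤ Q.card * (1 / (P : ℝ)) ^ 4 := by
    rw [← nsmul_eq_mul]
    refine (norm_sum_le _ _).trans (sum_le_card_nsmul _ _ _ fun x hx => ?_)
    simp only [hQ, mem_filter, mem_product] at hx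
    rw [norm_mul, Complex.norm_conj, show (1 / (P : ℝ)) ^ 4 = 1 / P * (1 / P) * (1 / P * (1 / P))
      by ring]
    exact mul_le_mul (norm_mul_le_of_le (b1 _ hx.1.1.1) (b1 _ hx.1.1.2))
      (norm_mul_le_of_le (b1 _ hx.1.2.1) (b1 _ hx.1.2.2)) (norm_nonneg _) (by positivity)
  have b3 : (Q.card : ℝ) ≤ C * P ^ 3 / Real.log P ^ 4 := by
    refine le_trans ?_ e1
    have := (card_le_card (s := Q) fun x hx => ?_).trans
      (SPCc.energy (pr2 P) (4 * P) fun q hq => by have := (mem_pr2.1 hq).1.2; omega)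
    · exact_mod_cast this
    simp only [hQ, mem_filter, mem_product] at hx ⊢
    obtain ⟨⟨⟨a1, a2⟩, a3, a4⟩, a5⟩ := hx
    refine ⟨⟨⟨pq_subset _ _ a1, pq_subset _ _ a2⟩, pq_subset _ _ a3, pq_subset _ _ a4⟩, ?_⟩
    have t : ∀ q ∈ pq D P, q = D * tq D q + 1 := fun q hq =>
      tq_spec (mem_pq.1 hq).2.1.pos (mem_pq.1 hq).2.2
    rw [← mul_add, ← mul_add] at a5
    have a6 := congrArg (D * ·) (Nat.eq_of_mul_eq_mul_left h1 a5)
    simp only [mul_add] at a6
    have := t _ a1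
    have := t _ a2
    have := t _ a3
    have := t _ a4
    omega
  set T := (range (16 * P)).filter fun k => τ * ((pq D P).card / P) <
    ‖hat (pq D P) (fun q => 1 / (q : ℂ)) (fun q => Δ * tq D q) (16 * P) k‖ with hT
  have b4 : τ / (2 * D * Real.log P) ≤ τ * ((pq D P).card / P) := by
    rw [div_eq_mul_one_div]
    refine mul_le_mul_of_nonneg_left ?_ hτ.le
    rw [le_div_iff₀ hP', one_div_mul_eq_div]
    exact e2
  have b5 : T.card * (τ / (2 * D * Real.log P)) ^ 4 ≤ ∑ k ∈ range (16 * P),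
      ‖hat (pq D P) (fun q => 1 / (q : ℂ)) (fun q => Δ * tq D q) (16 * P) k‖ ^ 4 := by
    rw [← nsmul_eq_mul]
    refine (card_nsmul_le_sum _ _ _ fun k hk => pow_le_pow_left₀ (by positivity)
      (b4.trans (mem_filter.1 hk).2.le) 4).trans
      (sum_le_sum_of_subset_of_nonneg (filter_subset _ _) fun _ _ _ => by positivity)
  have b6 := (b5.trans_eq f).trans (mul_le_mul_of_nonneg_left
    (b2.trans (mul_le_mul_of_nonneg_right b3 (by positivity))) (Nat.cast_nonneg _))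
  rw [← le_div_iff₀ (by positivity)] at b6
  refine b6.trans_eq ?_
  push_cast
  field_simp

end Pool.Agent.P.LF
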