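import Pool.Agent.P.MP_e94e4b_nt.LF.IfA

/-! Step SPL. -/

namespace Pool.Agent.P.LF

open Finset Real Filter Topology MeasureTheory
open Pool.Agent.P.MP_e86632_nt (ee nn ee_add norm_ee ee_neg ee_zero)
open Pool.Agent.P.MP_8be758_nt.Avg (gs nsq gs_pos gs_le_one gs_neg gs_anti)
open Pool.Agent.P.E2
open Pool.Agent.P.PAR
open ArithmeticFunction (cardFactors vonMangoldt)
open DirichletCharacter (LFunction)

namespace SPLc

theorem blocks (g : ℕ → ℂ) (α : ℝ) (x h I : ℕ) :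
    ‖es g x (I * h) α‖ ≤ ∑ i ∈ range I, ‖es g (x + i * h) h α‖ := by
  induction I with
  | zero => simp [es]
  | succ I ih =>
    rw [Nat.succ_mul, es_add, sum_range_succ]
    exact (norm_add_le _ _).trans (add_le_add ih le_rfl)

theorem part1 {g : ℕ → ℂ} (α : ℝ) (hg : ∀ n, ‖g n‖ ≤ 1) (x H h I E : ℕ) (h1 : I * h ≤ H)
    (h2 : H ≤ I * h + E) :
    ‖es g x H α‖ ≤ ∑ i ∈ range I, ‖es g (x + i * h) h α‖ + E := by
  obtain ⟨r, rfl⟩ := Nat.exists_eq_add_of_le h1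
  rw [es_add]
  refine (norm_add_le _ _).trans (add_le_add (blocks g α x h I) ?_)
  refine (norm_es_le hg _ _ _).trans ?_
  exact_mod_cast (by omega : r ≤ E)

theorem shift {g : ℕ → ℂ} (α : ℝ) (hg : ∀ n, ‖g n‖ ≤ 1) {lo hi s : ℕ} (h : ℕ) (hs : s ≤ lo)
    (hlh : lo < hi) :
    ∑ x ∈ Ioc lo hi, ‖es g (x + s) h α‖ / x ≤ 2 * ua g lo hi h α + 2 * h := by
  have e1 : ∑ x ∈ Ioc lo hi, ‖es g (x + s) h α‖ / x ≤
      ∑ x ∈ Ioc lo hi, 2 * (‖es g (x + s) h α‖ / ((x + s : ℕ) : ℝ)) := by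
    refine sum_le_sum fun x hx => ?_
    have hx1 := (mem_Ioc.1 hx).1
    have hx0 : (0 : ℝ) < x := by exact_mod_cast (by omega : 0 < x)
    have hxs : (0 : ℝ) < ((x + s : ℕ) : ℝ) := by exact_mod_cast (by omega : 0 < x + s)
    have h2 : ((x + s : ℕ) : ℝ) ≤ 2 * x := by exact_mod_cast (by omega : x + s ≤ 2 * x)
    rw [← mul_div_assoc, div_le_div_iff₀ hx0 hxs]
    nlinarith [norm_nonneg (es g (x + s) h α)]
  have e2 : ∑ x ∈ Ioc lo hi, ‖es g (x + s) h α‖ / ((x + s : ℕ) : ℝ) =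
      ∑ y ∈ Ioc (lo + s) (hi + s), ‖es g y h α‖ / (y : ℝ) := by
    rw [← map_add_right_Ioc, sum_map]
    rfl
  have e3 : ∑ y ∈ Ioc (lo + s) (hi + s), ‖es g y h α‖ / (y : ℝ) ≤
      ∑ y ∈ Ioc lo (hi + s), ‖es g y h α‖ / (y : ℝ) :=
    sum_le_sum_of_subset_of_nonneg (Ioc_subset_Ioc (by omega) le_rfl) fun _ _ _ => by positivity
  have e4 : ∑ y ∈ Ioc lo (hi + s), ‖es g y h α‖ / (y : ℝ) =
      ua g lo hi h α + ∑ y ∈ Ioc hi (hi + s), ‖es g y h α‖ / (y : ℝ) := by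
    rw [ua, sum_Ioc_consecutive _ hlh.le (Nat.le_add_right _ _)]
  have hhi : (0 : ℝ) < hi := by exact_mod_cast (by omega : 0 < hi)
  have e5 : ∑ y ∈ Ioc hi (hi + s), ‖es g y h α‖ / (y : ℝ) ≤ h := by
    have : ∑ y ∈ Ioc hi (hi + s), ‖es g y h α‖ / (y : ℝ) ≤ ∑ _y ∈ Ioc hi (hi + s), (h : ℝ) / hi := by
      refine sum_le_sum fun y hy => ?_
      have hy1 : (hi : ℝ) ≤ y := by exact_mod_cast (mem_Ioc.1 hy).1.le
      exact div_le_div₀ (by positivity) (norm_es_le hg _ _ _) hhi hy1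
    refine this.trans ?_
    rw [sum_const, Nat.card_Ioc, nsmul_eq_mul, Nat.add_sub_cancel_left, ← mul_div_assoc,
      div_le_iff₀ hhi]
    have h3 : (s : ℝ) ≤ hi := by exact_mod_cast (by omega : s ≤ hi)
    have h4 : (0 : ℝ) ≤ h := by positivity
    nlinarith
  rw [← mul_sum, e2] at e1
  linarith

end SPLc

theorem r_SPL :
    K_SPL := by
  intro g α hg
  refine ⟨fun x H h I E h1 h2 => SPLc.part1 α hg x H h I E h1 h2, fun lo hi H h hh hH => ?_⟩
  have hh0 : (0 : ℝ) < h := by exact_mod_cast hh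
  have hu := ua_nonneg g lo hi h α
  have hlog : 0 ≤ Real.log hi := Real.log_natCast_nonneg hi
  rcases le_or_gt hi lo with hl | hl
  · have : ua g lo hi H α = 0 := by rw [ua, Ioc_eq_empty (by omega), sum_empty]
    rw [this]; positivity
  have hI1 : H / h * h ≤ H := Nat.div_mul_le_self H h
  have hI2 : H ≤ H / h * h + h := by
    have := Nat.lt_div_mul_add (a := H) (show 0 < h by omega)
    omega
  have e1 : ua g lo hi H α ≤ ∑ x ∈ Ioc lo hi,
      (∑ i ∈ range (H / h), ‖es g (x + i * h) h α‖ / x + h * (1 / (x : ℝ))) := by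
    refine sum_le_sum fun x _ => ?_
    rw [← sum_div, mul_one_div, ← add_div]
    exact div_le_div_of_nonneg_right (SPLc.part1 α hg x H h _ h hI1 hI2) (by positivity)
  rw [sum_add_distrib, sum_comm, ← mul_sum] at e1
  have e2 : ∑ i ∈ range (H / h), ∑ x ∈ Ioc lo hi, ‖es g (x + i * h) h α‖ / x ≤
      ∑ _i ∈ range (H / h), (2 * ua g lo hi h α + 2 * h) := by
    refine sum_le_sum fun i hi' => SPLc.shift α hg h ?_ hl
    have : i * h ≤ H / h * h := Nat.mul_le_mul_right h (mem_range.1 hi').le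
    omega
  rw [sum_const, card_range, nsmul_eq_mul] at e2
  have e3 : ((H / h : ℕ) : ℝ) * (2 * ua g lo hi h α + 2 * h) ≤
      (H : ℝ) / h * (2 * ua g lo hi h α + 2 * h) :=
    mul_le_mul_of_nonneg_right Nat.cast_div_le (by positivity)
  have e4 := mul_le_mul_of_nonneg_left (harm_Ioc lo hi) hh0.le
  linarith

end Pool.Agent.P.LF
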