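import Pool.Agent.P.MP_e94e4b_nt.LF.IfB

/-! Step SQR. -/

namespace Pool.Agent.P.LF

open Finset Real Filter Topology MeasureTheory
open Pool.Agent.P.MP_e86632_nt (ee nn ee_add norm_ee ee_neg ee_zero)
open Pool.Agent.P.MP_8be758_nt.Avg (gs nsq gs_pos gs_le_one gs_neg gs_anti)
open Pool.Agent.P.E2
open Pool.Agent.P.PAR
open ArithmeticFunction (cardFactors vonMangoldt)
open DirichletCharacter (LFunction)

namespace SQRc

end SQRc

theorem r_SQR (hFEJ : K_FEJ) (hFJM : K_FJM) :
    K_SQR := by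
  intro r hr
  obtain ⟨C0, hC0⟩ := hFJM r hr
  refine ⟨r * C0, fun F lo hi E hE hF hcr => ?_⟩
  have hr0 : (0 : ℝ) < r := by exact_mod_cast hr
  set T : ℕ → ℕ → ℝ := fun i j => ∑ m ∈ Ioc lo hi, fj r m * (F i m * F j m) / m with hT
  have e1 : ∑ m ∈ Ioc lo hi, fj r m * (∑ i ∈ range r, F i m) ^ 2 / m =
      ∑ i ∈ range r, ∑ j ∈ range r, T i j := by
    simp only [hT]
    rw [sum_congr rfl fun i _ => sum_comm, sum_comm]
    refine sum_congr rfl fun m _ => ?_
    rw [pow_two, sum_mul_sum, mul_sum, sum_div]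
    refine sum_congr rfl fun i _ => ?_
    rw [mul_sum, sum_div]
  have e2 : ∀ i, T i i ≤ 4 / r * (1 + Real.log hi) + C0 := by
    intro i
    refine le_trans (sum_le_sum fun m _ => ?_) (hC0 lo hi)
    refine div_le_div_of_nonneg_right ?_ (Nat.cast_nonneg _)
    have h1 := (hFEJ r hr).1 m
    have h2 : F i m * F i m ≤ 1 := by
      have := abs_le.1 (hF i m)
      nlinarith
    nlinarith
  have e3 : ∀ i < r, ∀ j < r, i ≠ j → T i j ≤ 4 * E := by
    intro i hi' j hj hij
    have h1 : T i j = 4 / (r : ℝ) ^ 2 * ∑ a ∈ range r, ∑ b ∈ range r,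
        cr ((-1) ^ (a + b)) ((a : ℝ) - b) (fun m => F i m * F j m) lo hi := by
      simp only [hT, cr, fj]
      rw [sum_congr rfl fun a _ => sum_comm, sum_comm, mul_sum]
      refine sum_congr rfl fun m _ => ?_
      rw [mul_assoc, mul_div_assoc, sum_mul, sum_div]
      congr 1
      refine sum_congr rfl fun a _ => ?_
      rw [sum_mul, sum_div]
    have h2 : ∑ a ∈ range r, ∑ b ∈ range r,
        cr ((-1) ^ (a + b)) ((a : ℝ) - b) (fun m => F i m * F j m) lo hi ≤
        ∑ a ∈ range r, ∑ b ∈ range r, E :=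
      sum_le_sum fun a ha => sum_le_sum fun b hb =>
        hcr i hi' j hj hij a (mem_range.1 ha) b (mem_range.1 hb)
    simp only [sum_const, card_range, nsmul_eq_mul] at h2
    rw [h1]
    calc _ ≤ 4 / (r : ℝ) ^ 2 * (r * (r * E)) := by gcongr
      _ = 4 * E := by field_simp
  have e4 : ∀ i ∈ range r, ∑ j ∈ range r, T i j ≤
      4 / r * (1 + Real.log hi) + C0 + r * (4 * E) := by
    intro i hi'
    have h1 : ∑ j ∈ range r, T i j ≤ ∑ j ∈ range r,
        ((if i = j then 4 / r * (1 + Real.log hi) + C0 else 0) + 4 * E) := by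
      refine sum_le_sum fun j hj => ?_
      split_ifs with h
      · subst h
        have := e2 i
        linarith
      · have := e3 i (mem_range.1 hi') j (mem_range.1 hj) h
        linarith
    rw [sum_add_distrib, sum_ite_eq, if_pos hi'] at h1
    simpa only [sum_const, card_range, nsmul_eq_mul] using h1
  rw [e1]
  refine (sum_le_sum e4).trans (le_of_eq ?_)
  simp only [sum_const, card_range, nsmul_eq_mul]
  field_simp

end Pool.Agent.P.LF
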