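import Pool.Agent.P.MP_e94e4b_nt.LF.IfA
import Pool.Agent.P.MP_e94e4b_nt.PAR.TT2

/-! Step TA2. -/

namespace Pool.Agent.P.LF

open Finset Real Filter Topology MeasureTheory
open Pool.Agent.P.MP_e86632_nt (ee nn ee_add norm_ee ee_neg ee_zero)
open Pool.Agent.P.MP_8be758_nt.Avg (gs nsq gs_pos gs_le_one gs_neg gs_anti)
open Pool.Agent.P.E2
open Pool.Agent.P.PAR
open ArithmeticFunction (cardFactors vonMangoldt)
open DirichletCharacter (LFunction)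

theorem r_TA2 (hMOM : L_MOM) :
    K_TA2 := by
  obtain ⟨C, hC, hM⟩ := hMOM
  refine ⟨72 * C, by positivity, fun k g ρ α Z X u v hg s1 s2 h0 h1 hZ hZX hu hv => ?_⟩
  have p1 : 0 < sP ρ := Real.exp_pos _
  have p2 : 0 < sP (nx ρ) := Real.exp_pos _
  set Y' := yy (sP ρ) (sd ρ) u with hY'
  set Y := yy (sP (nx ρ)) (sd (nx ρ)) v with hY
  have y1 : 4 ≤ Y' := s1.p4.trans (le_yy p1.le s1.d0.le u)
  have y2 : 4 ≤ Y := s2.p4.trans (le_yy p2.le s2.d0.le v)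
  have y3 : 0 < Y' := by linarith
  have y4 : 0 < Y := by linarith
  have l1 : ρ ^ 6 ≤ Real.log Y' := (Real.le_log_iff_exp_le y3).2 (s1.yl u)
  have l2 : Real.log Y' ≤ 2 * ρ ^ 12 := (Real.log_le_iff_le_exp y3).2 (s1.yu u hu.le)
  have l3 : Real.exp (ρ ^ 2) ≤ Real.log Y :=
    nx_pow_six ρ ▸ (Real.le_log_iff_exp_le y4).2 (s2.yl v)
  have l4 : Real.log Y ≤ 2 * Real.exp (2 * ρ ^ 2) :=
    nx_pow_twelve ρ ▸ (Real.log_le_iff_le_exp y4).2 (s2.yu v hv.le)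
  have l5 : 0 < Real.log Y' := Real.log_pos (by linarith)
  have l6 : 0 < Real.log Y := Real.log_pos (by linarith)
  set l := ⌈Real.log Y / Real.log Y'⌉₊ with hl
  have l7 : 1 ≤ l := Nat.ceil_pos.2 (div_pos l6 l5)
  have l8 : Real.log Y ≤ l * Real.log Y' := (div_le_iff₀ l5).1 (Nat.le_ceil _)
  have l9 : l * Real.log Y' ≤ Real.log Y + Real.log Y' := by
    have := (Nat.ceil_lt_add_one (div_pos l6 l5).le).le
    rw [div_add_one l5.ne', le_div_iff₀ l5] at this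
    exact this
  have hn := T2b.num s1.r8 h0 h1 l1 l2 l3 l4 l9
  rw [← Real.rpow_def_of_pos y4, ← Real.rpow_def_of_pos y3, Real.exp_log y3, Real.exp_log y4] at hn
  have w1 : 1 ≤ Y' ^ l / Y := by
    rw [one_le_div y4, ← Real.log_le_log_iff y4 (by positivity), Real.log_pow]; exact l8
  have u1 : yy (sP ρ) (sd ρ) (u + 1) ≤ 3 / 2 * Y' := by
    rw [yy_succ]; exact mul_le_mul_of_nonneg_right (by linarith [s1.d1]) y3.le
  have u2 := Nat.floor_le (yy_pos p1 s1.d0.le (u + 1)).le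
  have hrs : rs (pv (sP ρ) (sd ρ) u) ≤ 1 := by
    refine (sum_le_card_nsmul _ _ (1 / Y') fun p hp => one_div_le_one_div_of_le y3
      ((mem_pv p1.le s1.d0.le).1 hp).1.1.le).trans ?_
    rw [nsmul_eq_mul, mul_one_div, div_le_one y3]
    refine le_trans (Nat.cast_le.2 (card_filter_le _ _)) ?_
    rw [Nat.card_Ioc, Nat.cast_sub (Nat.floor_le_floor (yy_mono p1.le s1.d0.le u.le_succ))]
    linarith [Nat.lt_floor_add_one Y']
  have hm := hM (pw k (sP ρ) (sd ρ) u) (rg X (sP (nx ρ)) (sd (nx ρ)) v) g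
    ⌊yy (sP ρ) (sd ρ) (u + 1)⌋₊ ⌊8 * X / Y⌋₊ l Z
    (fun p hp => ⟨(mem_filter.1 (pw_subset _ _ _ _ hp)).2,
      (mem_Ioc.1 (mem_filter.1 (pw_subset _ _ _ _ hp)).1).2⟩)
    ((rs_mono (pw_subset _ _ _ _)).trans hrs)
    (rg_subset _ _ _ _) hg l7 hZ
  refine (T2b.ana (bd_qw k _ _ u) (bd_qw k _ _ v) (bd_rc g X _ _ v) (by linarith)
    (Real.rpow_pos_of_pos y3 _) l).trans ?_
  refine (mul_le_mul_of_nonneg_left hm (by positivity)).trans ?_
  refine le_trans ?_ (mul_le_mul_of_nonneg_left hn (by positivity))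
  rw [mul_left_comm (72 * C * _)]
  refine mul_le_mul_of_nonneg_left ?_ (by positivity)
  have x0 : (0 : ℝ) ≤ X := Nat.cast_nonneg X
  have t1 : (1 : ℝ) ≤ 2 ^ l := one_le_pow₀ (by norm_num)
  have w2 : (⌊yy (sP ρ) (sd ρ) (u + 1)⌋₊ : ℝ) ^ l * (⌊8 * X / Y⌋₊ : ℕ) ≤
      8 * (2 ^ l * (X * (Y' ^ l / Y))) := by
    refine (mul_le_mul (pow_le_pow_left₀ (by positivity) (show _ ≤ 2 * Y' by linarith) l)
      (Nat.floor_le (by positivity)) (by positivity) (by positivity)).trans_eq ?_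
    rw [mul_pow]; ring
  have w3 : Z ≤ 2 ^ l * (X * (Y' ^ l / Y)) :=
    (hZX.trans (le_mul_of_one_le_right x0 w1)).trans (le_mul_of_one_le_left (by positivity) t1)
  calc _ ≤ C * (9 * (2 ^ l * (X * (Y' ^ l / Y)))) * (8 * (2 ^ l * (X * (Y' ^ l / Y)))) *
        (3 * l : ℝ) ^ (2 * l) := by gcongr; linarith
    _ = _ := by
      rw [show (6 * l : ℝ) = 2 * (3 * l) by ring, mul_pow 2, pow_mul' 2]; ring

end Pool.Agent.P.LF
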