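import Pool.Agent.P.MP_e94e4b_nt.LF.IfB

/-! Step TB2. -/

namespace Pool.Agent.P.LF

open Finset Real Filter Topology MeasureTheory
open Pool.Agent.P.MP_e86632_nt (ee nn ee_add norm_ee ee_neg ee_zero)
open Pool.Agent.P.MP_8be758_nt.Avg (gs nsq gs_pos gs_le_one gs_neg gs_anti)
open Pool.Agent.P.E2
open Pool.Agent.P.PAR
open ArithmeticFunction (cardFactors vonMangoldt)
open DirichletCharacter (LFunction)

namespace TB2c

end TB2c

theorem r_TB2 (hGD2 : K_GD2) :
    K_TB2 := by
  classical
  intro D s Δ P L b d η w ξ hΔ d0 d1 e0 e1 hw hL hq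
  have hc : (0 : ℝ) ≤ (pq D P).card := Nat.cast_nonneg _
  have h1 : ∀ i, ∑ q ∈ pq D P, w q * (Fq D s Δ P d (fun j => ξ (b * L + i + j)) q (b * L + i) -
      Mq D Δ P d (fun j => ξ (b * L + i + j)) q) ≤ (pq D P).card *
      (η + 9 * (if Ge D s Δ P d η w (fun j => ξ (b * L + (i + j) % L)) i then 1 else 0) +
        9 * if L < i + 8 * P then 1 else 0) := fun i => by
    have h2 : ∑ q ∈ pq D P, w q * (Fq D s Δ P d (fun j => ξ (b * L + i + j)) q (b * L + i) -
        Mq D Δ P d (fun j => ξ (b * L + i + j)) q) ≤ (pq D P).card * 9 := by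
      rw [← nsmul_eq_mul]
      refine sum_le_card_nsmul _ _ _ fun q h => (le_abs_self _).trans ?_
      rw [abs_mul]
      refine (mul_le_of_le_one_left (abs_nonneg _) (hw q)).trans ((abs_sub _ _).trans ?_)
      linarith [abs_Fq d0 d1 h s Δ (fun j => ξ (b * L + i + j)) (b * L + i),
        abs_Mq d0 d1 h Δ (fun j => ξ (b * L + i + j))]
    split_ifs with a c c
    · exact h2.trans (mul_le_mul_of_nonneg_left (by linarith) hc)
    · exact h2.trans (mul_le_mul_of_nonneg_left (by linarith) hc)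
    · exact h2.trans (mul_le_mul_of_nonneg_left (by linarith) hc)
    have h3 : ¬ Ge D s Δ P d η w (fun j => ξ (b * L + i + j)) i := fun h =>
      a ((hGD2 D s Δ P d η w hΔ d0 d1 e0 e1 hw).1 _ _ i (fun j hj => by
        rw [Nat.mod_eq_of_lt (by omega), add_assoc]) h)
    rw [Ge, not_le] at h3
    rw [mul_zero, add_zero, add_zero, mul_comm _ η]
    refine le_trans (le_of_eq (sum_congr rfl fun q h => ?_)) h3.le
    congr 2
    refine sum_congr rfl fun j _ => if_congr ?_ rfl rfl
    rw [add_assoc, add_assoc, Nat.dvd_add_right ((hq q h).mul_left b), add_assoc]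
  refine (sum_le_sum fun i _ => h1 i).trans ?_
  rw [← mul_sum]
  refine mul_le_mul_of_nonneg_left ?_ hc
  have h4 : (((range L).filter fun i => L < i + 8 * P).card : ℝ) ≤ 8 * P := by
    have : ((range L).filter fun i => L < i + 8 * P).card ≤ (Ico (L - 8 * P) L).card :=
      card_le_card fun i hi => by
        obtain ⟨a, c⟩ := mem_filter.1 hi
        exact mem_Ico.2 ⟨by omega, mem_range.1 a⟩
    rw [Nat.card_Ico] at this
    exact_mod_cast this.trans (by omega)
  have h5 : (L : ℝ) ≠ 0 := by exact_mod_cast hL.ne'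
  rw [sum_add_distrib, sum_add_distrib, ← mul_sum, ← mul_sum, sum_boole, sum_boole, sum_const,
    card_range, nsmul_eq_mul, tc, fq_eq, mul_add, mul_left_comm, mul_div_cancel₀ _ h5]
  linarith

end Pool.Agent.P.LF
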