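import Pool.Agent.P.MP_e94e4b_nt.LF.IfB

/-! Step TH2. -/

namespace Pool.Agent.P.LF

open Finset Real Filter Topology MeasureTheory
open Pool.Agent.P.MP_e86632_nt (ee nn ee_add norm_ee ee_neg ee_zero)
open Pool.Agent.P.MP_8be758_nt.Avg (gs nsq gs_pos gs_le_one gs_neg gs_anti)
open Pool.Agent.P.E2
open Pool.Agent.P.PAR
open ArithmeticFunction (cardFactors vonMangoldt)
open DirichletCharacter (LFunction)

theorem r_TH2 (hPQC : L_PQC) (hTB2 : K_TB2) (hFS : K_FS) (hDS0 : K_DS0) (hDS1 : K_DS1) :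
    K_TH2 := by
  intro D s Δ ω ε hD hs h1 h2 hε
  obtain ⟨η, e0, e1, e2⟩ : ∃ η : ℝ, 0 < η ∧ η ≤ 1 ∧ η ≤ ε / 6 :=
    ⟨min 1 (ε / 6), by positivity, min_le_left _ _, min_le_right _ _⟩
  obtain ⟨ε', e3, hds⟩ : ∃ ε' : ℝ, 0 < ε' ∧ ∀ᶠ P : ℕ in atTop, ∀ L : ℕ, 2 ≤ L →
      ∀ᶠ hi : ℕ in atTop, ∀ (lo : ℕ) (d σ : ℝ) (ξ : ℕ → BB), 0 ≤ d → d ≤ 1 → |σ| ≤ 1 →
        (∀ α : ℝ, ua (ph1 d ξ) lo (2 * L * hi) (4 * P) α ≤ ε' * Real.log hi * (4 * P : ℕ)) →
        da D Δ P L d σ ω ξ lo hi ≤ η * (pq D P).card * Real.log hi := by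
    rcases eq_or_ne ω 0 with rfl | h
    · obtain ⟨ε', a, b⟩ := hDS0 D Δ η hD h1 h2 e0
      exact ⟨ε', a, b.mono fun P c L hL => (eventually_ge_atTop 3).mono
        fun hi h3 lo d σ ξ => c L lo hi d σ ξ hL h3⟩
    · exact ⟨1, one_pos, (hDS1 D Δ ω η hD h1 h2 h e0).mono fun P c L hL =>
        (c L (by omega)).mono fun hi h3 lo d σ ξ a b c _ => h3 lo d σ ξ a b c⟩
  have k1 : 72 / η ≤ (⌈72 / η⌉₊ : ℕ) := Nat.le_ceil _
  have k2 : 72 ≤ ⌈72 / η⌉₊ := by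
    have : (72 : ℝ) ≤ 72 / η := le_div_self (by norm_num) e0 e1
    exact_mod_cast this.trans k1
  refine ⟨η, ε', ⌈72 / η⌉₊, e0, e1, e3, by omega, ?_⟩
  filter_upwards [hds, hPQC.2 D hD, eventually_ge_atTop 2] with P a1 a2 a3 L hL hq
  have l1 : 72 * P ≤ L := (Nat.mul_le_mul_right _ k2).trans hL
  have p0 : (1 : ℝ) < P := by exact_mod_cast a3
  have L0 : (0 : ℝ) < L := by exact_mod_cast (by omega : 0 < L)
  have l2 : 72 * (P : ℝ) ≤ L * η := by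
    have : (⌈72 / η⌉₊ : ℝ) * P ≤ L := by exact_mod_cast hL
    rw [div_le_iff₀ e0] at k1
    nlinarith
  have n1 : (1 : ℝ) ≤ (pq D P).card := by
    have := Real.log_pos p0
    exact_mod_cast Nat.cast_pos.1 (lt_of_lt_of_le (by positivity) a2)
  obtain ⟨C, hC⟩ := hFS D s Δ P L ω hs (by omega)
  filter_upwards [a1 L (by omega), ev_log C (c := ε / 6) (by positivity), ev_log 1 one_pos]
    with hi b1 b2 b3 lo d σ ξ γ c1 c2 c3 c4 c5 c6 c7 c8
  have f1 := b1 lo d σ ξ c2 c3 c4 c7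
  have f2 := hC lo hi d σ ξ γ c1 c4 c5 c6
  have f3 : fa D s Δ P L d σ ω ξ lo hi - da D Δ P L d σ ω ξ lo hi ≤ (pq D P).card *
      (2 * η * ∑ b ∈ Ioc lo hi, 1 / (b : ℝ) +
        9 * ∑ b ∈ Ioc lo hi, 1 / (b : ℝ) * tc D s Δ P L d η (wb σ ω L b) ξ b) := by
    rw [fa, da, ← sum_sub_distrib, mul_sum, mul_sum, ← sum_add_distrib, mul_sum]
    refine sum_le_sum fun b hb => ?_
    have b0 : (0 : ℝ) < b := by exact_mod_cast (Nat.zero_le _).trans_lt (mem_Ioc.1 hb).1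
    have := hTB2 D s Δ P L b d η (wb σ ω L b) ξ h2 c2 c3 e0.le e1 (fun q => abs_wt c4 _ _)
      (by omega) hq
    simp only [mul_sub, sum_sub_distrib] at this
    rw [← mul_sum, ← mul_sum, ← mul_sub]
    refine (mul_le_mul_of_nonneg_left (this.trans (mul_le_mul_of_nonneg_left
      (add_le_add le_rfl l2) (by positivity))) (by positivity)).trans_eq ?_
    field_simp
    ring
  have f4 : 2 * (pq D P).card ≤ 4 * P * rs (pq D P) := by
    have := le_rs_pq D P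
    rw [div_le_iff₀ (by positivity)] at this
    linarith
  have f5 := mul_le_mul f4 c8 (by positivity) (by linarith)
  have f6 : η * ∑ b ∈ Ioc lo hi, 1 / (b : ℝ) ≤ ε / 6 * (2 * Real.log hi) :=
    mul_le_mul e2 ((harm_Ioc lo hi).trans (by linarith)) (by positivity) (by positivity)
  have f7 : η * Real.log hi ≤ ε / 6 * Real.log hi := by gcongr
  have f8 : ε / 6 * Real.log hi ≤ (pq D P).card * (ε / 6 * Real.log hi) :=
    le_mul_of_one_le_left (by positivity) n1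
  have f9 := mul_le_mul_of_nonneg_left f6 (zero_le_one.trans n1)
  have f10 := mul_le_mul_of_nonneg_left f7 (zero_le_one.trans n1)
  refine le_of_mul_le_mul_left ?_ (zero_lt_one.trans_le n1)
  nlinarith

end Pool.Agent.P.LF
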