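import Pool.Agent.P.MP_e94e4b_nt.LF.IfA

/-! Step UAL. -/

namespace Pool.Agent.P.LF

open Finset Real Filter Topology MeasureTheory
open Pool.Agent.P.MP_e86632_nt (ee nn ee_add norm_ee ee_neg ee_zero)
open Pool.Agent.P.MP_8be758_nt.Avg (gs nsq gs_pos gs_le_one gs_neg gs_anti)
open Pool.Agent.P.E2
open Pool.Agent.P.PAR
open ArithmeticFunction (cardFactors vonMangoldt)
open DirichletCharacter (LFunction)

namespace UALc

theorem big (B : ℝ) : ∃ S : Finset ℕ, (∀ p ∈ S, p.Prime) ∧ B ≤ rs S := by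
  by_contra h
  refine not_summable_one_div_on_primes (summable_of_sum_le (c := B)
    (fun n => Set.indicator_nonneg (fun _ _ => by positivity) n) fun u => ?_)
  have e : ∑ x ∈ u, Set.indicator {p : ℕ | p.Prime} (fun n : ℕ => (1 : ℝ) / n) x =
      rs (u.filter Nat.Prime) := by
    rw [rs, sum_filter]
    exact sum_congr rfl fun x _ => by simp [Set.indicator_apply]
  rw [e]
  exact le_of_not_ge fun a => h ⟨_, fun p hp => (mem_filter.1 hp).2, a⟩

theorem maj {y p q : ℕ} (hp : p ≤ y) (hq : q ≤ y) (h : p ≠ q) (α : ℝ) :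
    ∃ (s : ℤ) (β : ℝ), α = s / (y.factorial : ℕ) + β ∧ |β| ≤ nn (((p : ℝ) - q) * α) := by
  obtain ⟨c, hc⟩ : ((p : ℤ) - q) ∣ (y.factorial : ℕ) :=
    Int.natAbs_dvd.1 (Int.natCast_dvd_natCast.2 (Nat.dvd_factorial (by omega) (by omega)))
  have h1 : (1 : ℝ) ≤ |(p : ℝ) - q| := by
    have : (1 : ℤ) ≤ |(p : ℤ) - q| := Int.one_le_abs (by omega)
    exact_mod_cast this
  have h2 : ((y.factorial : ℕ) : ℝ) = ((p : ℝ) - q) * c := by exact_mod_cast hc
  have h3 : ((y.factorial : ℕ) : ℝ) ≠ 0 := by exact_mod_cast y.factorial_ne_zero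
  refine ⟨round (((p : ℝ) - q) * α) * c, _, (add_sub_cancel _ _).symm, ?_⟩
  refine (le_mul_of_one_le_left (abs_nonneg _) h1).trans_eq ?_
  rw [← abs_mul, nn, mul_sub, ← mul_div_assoc, Int.cast_mul, mul_left_comm, ← h2,
    mul_div_cancel_right₀ _ h3]

end UALc

theorem r_UAL (hSPL : K_SPL) (hMAJ : K_MAJ) (hMIN : K_MIN) :
    K_UAL := by
  intro ε hε
  obtain ⟨S, hS, hR⟩ := UALc.big (max 1 ((24 / ε) ^ 2))
  obtain ⟨R1, R2⟩ := max_le_iff.1 hR
  have hy : ∀ p ∈ S, p ≤ S.sup id := fun p hp => le_sup (f := id) hp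
  generalize S.sup id = y at hy
  obtain ⟨k, ε', k1, e0, evJ⟩ := hMAJ y.factorial (ε / 24) y.factorial_pos (by positivity)
  have k0 : (0 : ℝ) < k := by exact_mod_cast k1
  obtain ⟨h, hh⟩ := exists_nat_gt (7 * rs S ^ 2 * k / (ε / 24))
  have h0 : (0 : ℝ) < h := lt_of_le_of_lt (by positivity) hh
  refine ⟨y.factorial, max (y * h) ⌈6 * k / ε⌉₊, ε', y.factorial_pos, e0, fun H hH => ?_⟩
  obtain ⟨H1, H2⟩ := max_le_iff.1 hH
  have H3 : 6 * (k : ℝ) ≤ H * ε := (div_le_iff₀ hε).1 (Nat.ceil_le.1 H2)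
  have evL : ∀ᶠ w : ℕ in atTop, max 1 (6 / ε) ≤ Real.log w :=
    (Real.tendsto_log_atTop.comp tendsto_natCast_atTop_atTop).eventually_ge_atTop _
  filter_upwards [evJ, eventually_ge_atTop H, eventually_forall_ge_atTop.2 evL,
    eventually_forall_ge_atTop.2 (hMIN S y (fun p hp => ⟨hS p hp, hy p hp⟩) R1)] with w wJ wH wL wM
  intro hi κ g α hw ok
  obtain ⟨L1, L2⟩ := max_le_iff.1 (wL hi hw)
  have L3 : 6 ≤ Real.log hi * ε := (div_le_iff₀ hε).1 L2
  have H0 : (0 : ℝ) ≤ H := Nat.cast_nonneg H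
  by_cases c : ∀ p ∈ S, ∀ p' ∈ S, p ≠ p' → rs S ^ 2 / h ≤ nn (((p : ℝ) - p') * α)
  · refine (wM hi hw g κ (2 * w) H h α ok.iv (by exact_mod_cast h0) H1 (by omega) c).trans ?_
    have a : 24 / ε ≤ √(rs S) := Real.le_sqrt_of_sq_le R2
    have b : 0 < √(rs S) := lt_of_lt_of_le (by positivity) a
    rw [div_le_iff₀ hε] at a
    rw [div_le_iff₀ b]
    nlinarith [mul_le_mul_of_nonneg_right a (mul_nonneg H0 (zero_le_one.trans L1))]
  · push Not at c
    obtain ⟨p, hp, q, hq, pq, lt⟩ := c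
    obtain ⟨s, β, e, hβ⟩ := UALc.maj (hy p hp) (hy q hq) pq α
    have J := wJ hi κ g s β ok
    rw [← e] at J
    have a : 7 * |β| * k ≤ ε / 24 := by
      have b := (lt_div_iff₀ h0).1 (hβ.trans_lt lt)
      rw [div_lt_iff₀ (by positivity)] at hh
      refine le_of_mul_le_mul_right ?_ h0
      nlinarith [mul_le_mul_of_nonneg_right b.le k0.le]
    have J2 : ua g (2 * w) hi k α ≤ ε / 6 * k * Real.log hi := J.trans <| by
      calc _ ≤ (ε / 24 + ε / 24) * k * (Real.log hi + Real.log hi) := by gcongr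
        _ = _ := by ring
    refine ((hSPL g α ok.iv.bd).2 (2 * w) hi H k k1 (by omega)).trans ?_
    calc _ ≤ (H : ℝ) / k * (2 * (ε / 6 * k * Real.log hi) + 2 * k) +
          k * (Real.log hi + Real.log hi) := by gcongr
      _ = ε / 3 * H * Real.log hi + 2 * H + 2 * k * Real.log hi := by field_simp; ring
      _ ≤ _ := by
        nlinarith [mul_le_mul_of_nonneg_right L3 H0,
          mul_le_mul_of_nonneg_right H3 (zero_le_one.trans L1)]

end Pool.Agent.P.LF
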