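import Pool.Agent.P.MP_e94e4b_nt.LF.IfA

/-! Step UF. -/

namespace Pool.Agent.P.LF

open Finset Real Filter Topology MeasureTheory
open Pool.Agent.P.MP_e86632_nt (ee nn ee_add norm_ee ee_neg ee_zero)
open Pool.Agent.P.MP_8be758_nt.Avg (gs nsq gs_pos gs_le_one gs_neg gs_anti)
open Pool.Agent.P.E2
open Pool.Agent.P.PAR
open ArithmeticFunction (cardFactors vonMangoldt)
open DirichletCharacter (LFunction)

namespace UFc

theorem ua_fv (p : Pm) (s : Bool) (lo hi H : ℕ) (α : ℝ) :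
    ua (fun n => (fv p s n : ℂ)) lo hi H α ≤ (ua (g1 p) lo hi H α + ua (g2 p) lo hi H α) / 2 := by
  unfold ua
  rw [← sum_add_distrib, sum_div]
  refine sum_le_sum fun x _ => ?_
  have e : es (fun n => (fv p s n : ℂ)) x H α =
      (es (g1 p) x H α + (if s then 1 else -1) * es (g2 p) x H α) / 2 := by
    unfold es
    rw [mul_sum, ← sum_add_distrib, sum_div]
    exact sum_congr rfl fun n _ => by beta_reduce; rw [fv_eq]; ring
  have h : ‖es (fun n => (fv p s n : ℂ)) x H α‖ ≤ (‖es (g1 p) x H α‖ + ‖es (g2 p) x H α‖) / 2 := by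
    rw [e, norm_div, Complex.norm_ofNat]
    refine div_le_div_of_nonneg_right ((norm_add_le _ _).trans (le_of_eq ?_)) (by norm_num)
    cases s <;> simp
  rw [← add_div, div_right_comm]
  exact div_le_div_of_nonneg_right h (Nat.cast_nonneg x)

end UFc

theorem r_UF (hUAL : K_UAL) (hOK1 : K_OK1) (hOK2 : K_OK2) :
    K_UF := by
  intro ε hε
  obtain ⟨l, H0, e, hl, he, hU⟩ := hUAL (ε / 3) (by positivity)
  refine ⟨H0, fun H1 => ?_⟩
  obtain ⟨K1, hK1⟩ := hOK1 l e hl he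
  obtain ⟨K2, hK2⟩ := hOK2 l e hl he
  obtain ⟨w0, hw0⟩ := eventually_atTop.1
    ((eventually_all_finset (Icc H0 H1)).2 fun H hH => hU H (mem_Icc.1 hH).1)
  refine ⟨w0 + K1 + K2 + 1, fun p s hp H h0 h1 α => ?_⟩
  have hw := hp.kw
  have hY := hp.kY
  have hwy : p.w ≤ p.Y ^ 3 := by
    have a := hp.wy
    have b : p.Y ^ 2 ≤ p.Y ^ 3 := Nat.pow_le_pow_right (by omega) (by norm_num)
    omega
  have hh := hw0 p.w (by omega) H (mem_Icc.2 ⟨h0, h1⟩) (p.Y ^ 3)
  have a := hh 1 _ α hwy (hK1 p (hp.mono (by omega)))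
  have b := hh (-1) _ α hwy (hK2 p (hp.mono (by omega)))
  have c := UFc.ua_fv p s (2 * p.w) (p.Y ^ 3) H α
  rw [Nat.cast_pow, Real.log_pow] at a b
  push_cast at a b
  linarith

end Pool.Agent.P.LF
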