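import Pool.Agent.P.MP_e94e4b_nt.LF.IfA

/-! Step UUA. -/

namespace Pool.Agent.P.LF

open Finset Real Filter Topology MeasureTheory
open Pool.Agent.P.MP_e86632_nt (ee nn ee_add norm_ee ee_neg ee_zero)
open Pool.Agent.P.MP_8be758_nt.Avg (gs nsq gs_pos gs_le_one gs_neg gs_anti)
open Pool.Agent.P.E2
open Pool.Agent.P.PAR
open ArithmeticFunction (cardFactors vonMangoldt)
open DirichletCharacter (LFunction)

namespace UUAc

end UUAc

theorem r_UUA (hHB : S_HB) (hLSA : K_LSA) :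
    K_UUA := by
  obtain ⟨κ0, hκ, hH⟩ := hHB
  refine ⟨κ0, hκ, fun l ε hl hε => ?_⟩
  obtain ⟨δ, θ, hδ, -, hθ, hL⟩ := hLSA l ε hl hε
  filter_upwards [hH, hL, ev_pe (12800 / θ) 13 two_pos, eventually_ge_atTop 2]
    with r h1 h2 h3 h4 X κ g Z U hX hI hZ1 hZX hU
  obtain ⟨hG, h2⟩ := h2
  have hr : (0 : ℝ) < r := by linarith
  refine h2 X κ g Z (Real.exp (4 * r)) (3200 * r ^ 13) U hX hI hZ1 hZX (Real.exp_pos _).le
    (by positivity) hU.1 hU.2.1 (fun v hv => ?_) ?_
  · have hP : 0 < lP r := Real.exp_pos _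
    have hy := yy_pos hP hδ.le v
    have hyu := hG.yu v hv.le
    have hc := card_rg_le hP.le hδ.le X v
    have hU' : Us (Real.exp (4 * r)) (2 * Real.exp (2 * r ^ 13)) (Real.exp (κ0 * r ^ 13)) U :=
      ⟨hU.1, fun t ht => ⟨(hU.2.1 t ht).1, by
        linarith [(hU.2.1 t ht).2, Real.exp_pos (2 * r ^ 13)]⟩, hU.2.2⟩
    have hs : (2 : ℝ) ≤ r ^ 13 := h4.trans (le_self_pow₀ (by linarith) (by norm_num))
    have hM : Real.exp (r ^ 13 / 4) ≤ (⌊X / yy (lP r) δ v⌋₊ : ℝ) := by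
      have a1 := Nat.lt_floor_add_one (X / yy (lP r) δ v)
      have a2 : Real.exp (r ^ 13 / 4) * Real.exp (r ^ 13 / 2) ≤ X / yy (lP r) δ v := by
        rw [le_div_iff₀ hy, hX, XX]
        refine (mul_le_mul_of_nonneg_left hyu (by positivity)).trans_eq ?_
        rw [← Real.exp_add, ← Real.exp_add]
        congr 1; ring
      have a3 := Real.add_one_le_exp (r ^ 13 / 2)
      have a4 := Real.add_one_le_exp (r ^ 13 / 4)
      nlinarith
    have hb := h1 ⌊X / yy (lP r) δ v⌋₊ ⌊8 * X / yy (lP r) δ v⌋₊ g U hM hU'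
    have hN : (⌊8 * X / yy (lP r) δ v⌋₊ : ℝ) ≤ 8 * X / yy (lP r) δ v :=
      Nat.floor_le (by positivity)
    replace hb := hb.trans (mul_le_mul_of_nonneg_left (nsq_le_card hI.bd _) (by positivity))
    calc ∫ t in U, gs (t / Z) * ‖rc g X (lP r) δ v t‖ ^ 2
        ≤ ∫ t in U, ‖rc g X (lP r) δ v t‖ ^ 2 :=
          setIntegral_mono_on (hU.intOn (by fun_prop)) (hU.intOn (by fun_prop)) hU.1
            fun t _ => mul_le_of_le_one_left (by positivity) (gs_le_one _)
      _ ≤ _ := hb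
      _ ≤ 50 * r ^ 13 * (8 * X / yy (lP r) δ v) * (8 * X / yy (lP r) δ v) :=
          mul_le_mul (mul_le_mul_of_nonneg_left hN (by positivity)) hc (Nat.cast_nonneg _)
            (by positivity)
      _ = _ := by ring
  · have a1 : 1 / (1 + Real.exp (4 * r)) ≤ Real.exp (-r) := by
      rw [Real.exp_neg, ← one_div]
      refine one_div_le_one_div_of_le (Real.exp_pos _) ?_
      linarith [Real.exp_le_exp.2 (show r ≤ 4 * r by linarith)]
    have a2 : Real.exp (-r) ^ 2 * Real.exp (2 * r) = 1 := by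
      rw [← Real.exp_nat_mul, ← Real.exp_add]; simp
    have a3 : 12800 * r ^ 13 ≤ θ * Real.exp (2 * r) := by
      have := mul_le_mul_of_nonneg_left h3 hθ.le
      rwa [← mul_assoc, mul_div_cancel₀ _ hθ.ne'] at this
    calc (1 / (1 + Real.exp (4 * r)) + Real.exp (-r)) ^ 2 * (3200 * r ^ 13)
        ≤ (2 * Real.exp (-r)) ^ 2 * (3200 * r ^ 13) := by
          gcongr; linarith
      _ = Real.exp (-r) ^ 2 * (12800 * r ^ 13) := by ring
      _ ≤ Real.exp (-r) ^ 2 * (θ * Real.exp (2 * r)) := by gcongr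
      _ = θ := by linear_combination θ * a2

end Pool.Agent.P.LF
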