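import Pool.Agent.P.MP_e94e4b_nt.PAR.All
import Pool.Agent.P.MP_e94e4b_nt.LF.TPBX
import Pool.Agent.P.MP_e94e4b_nt.LF.TSHX
import Pool.Agent.P.MP_e94e4b_nt.LF.TPQX
import Pool.Agent.P.MP_e94e4b_nt.LF.TMAP
import Pool.Agent.P.MP_e94e4b_nt.LF.TSGA
import Pool.Agent.P.MP_e94e4b_nt.LF.TLGA
import Pool.Agent.P.MP_e94e4b_nt.LF.TDIA
import Pool.Agent.P.MP_e94e4b_nt.LF.TOTA
import Pool.Agent.P.MP_e94e4b_nt.LF.TDNA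
import Pool.Agent.P.MP_e94e4b_nt.LF.TDEA
import Pool.Agent.P.MP_e94e4b_nt.LF.TRMA
import Pool.Agent.P.MP_e94e4b_nt.LF.TSA1
import Pool.Agent.P.MP_e94e4b_nt.LF.TTA2
import Pool.Agent.P.MP_e94e4b_nt.LF.TSA2
import Pool.Agent.P.MP_e94e4b_nt.LF.TCHA
import Pool.Agent.P.MP_e94e4b_nt.LF.TBMA
import Pool.Agent.P.MP_e94e4b_nt.LF.TBWA
import Pool.Agent.P.MP_e94e4b_nt.LF.TLSA
import Pool.Agent.P.MP_e94e4b_nt.LF.TMIA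
import Pool.Agent.P.MP_e94e4b_nt.LF.TUUA
import Pool.Agent.P.MP_e94e4b_nt.LF.TSMA
import Pool.Agent.P.MP_e94e4b_nt.LF.TFFA
import Pool.Agent.P.MP_e94e4b_nt.LF.TMRA
import Pool.Agent.P.MP_e94e4b_nt.LF.TSPL
import Pool.Agent.P.MP_e94e4b_nt.LF.TDYA
import Pool.Agent.P.MP_e94e4b_nt.LF.TMAJ
import Pool.Agent.P.MP_e94e4b_nt.LF.TLSV
import Pool.Agent.P.MP_e94e4b_nt.LF.TMN1
import Pool.Agent.P.MP_e94e4b_nt.LF.TMN2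
import Pool.Agent.P.MP_e94e4b_nt.LF.TMIN
import Pool.Agent.P.MP_e94e4b_nt.LF.TUAL
import Pool.Agent.P.MP_e94e4b_nt.LF.TLZC
import Pool.Agent.P.MP_e94e4b_nt.LF.TLQC
import Pool.Agent.P.MP_e94e4b_nt.LF.TLXC
import Pool.Agent.P.MP_e94e4b_nt.LF.TLXP
import Pool.Agent.P.MP_e94e4b_nt.LF.TOK1
import Pool.Agent.P.MP_e94e4b_nt.LF.TOK2
import Pool.Agent.P.MP_e94e4b_nt.LF.TUF
import Pool.Agent.P.MP_e94e4b_nt.LF.THOE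
import Pool.Agent.P.MP_e94e4b_nt.LF.TGD2
import Pool.Agent.P.MP_e94e4b_nt.LF.TEB2
import Pool.Agent.P.MP_e94e4b_nt.LF.TTB2
import Pool.Agent.P.MP_e94e4b_nt.LF.TFSA
import Pool.Agent.P.MP_e94e4b_nt.LF.TFSB
import Pool.Agent.P.MP_e94e4b_nt.LF.TFS
import Pool.Agent.P.MP_e94e4b_nt.LF.TORT
import Pool.Agent.P.MP_e94e4b_nt.LF.TFOU
import Pool.Agent.P.MP_e94e4b_nt.LF.TF4
import Pool.Agent.P.MP_e94e4b_nt.LF.TSPC
import Pool.Agent.P.MP_e94e4b_nt.LF.TOSC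
import Pool.Agent.P.MP_e94e4b_nt.LF.TCVX
import Pool.Agent.P.MP_e94e4b_nt.LF.TM4
import Pool.Agent.P.MP_e94e4b_nt.LF.TDS0
import Pool.Agent.P.MP_e94e4b_nt.LF.TDS1
import Pool.Agent.P.MP_e94e4b_nt.LF.TTH2
import Pool.Agent.P.MP_e94e4b_nt.LF.TCOR
import Pool.Agent.P.MP_e94e4b_nt.LF.TPRG
import Pool.Agent.P.MP_e94e4b_nt.LF.TREL
import Pool.Agent.P.MP_e94e4b_nt.LF.TCO2
import Pool.Agent.P.MP_e94e4b_nt.LF.TODD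
import Pool.Agent.P.MP_e94e4b_nt.LF.TRN1
import Pool.Agent.P.MP_e94e4b_nt.LF.TRNG
import Pool.Agent.P.MP_e94e4b_nt.LF.TFEJ
import Pool.Agent.P.MP_e94e4b_nt.LF.TFJM
import Pool.Agent.P.MP_e94e4b_nt.LF.TAVS
import Pool.Agent.P.MP_e94e4b_nt.LF.TFM
import Pool.Agent.P.MP_e94e4b_nt.LF.TCHB
import Pool.Agent.P.MP_e94e4b_nt.LF.TSQR
import Pool.Agent.P.MP_e94e4b_nt.LF.TGEO
import Pool.Agent.P.MP_e94e4b_nt.LF.TCT
import Pool.Agent.P.MP_e94e4b_nt.LF.TMAIN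
import Pool.Agent.P.MP_e94e4b_nt.LF.TFIN

/-! Assembly of all steps. -/

namespace Pool.Agent.P.LF

open Pool.Agent.P.PAR

theorem c_PBX : K_PBX := r_PBX a_LB a_ZL1 a_ZL2 a_LD a_HF a_MEL b_CSN

theorem c_SHX : K_SHX := r_SHX a_SWP b_WIN c_PBX

theorem c_PQX : K_PQX := r_PQX a_PW b_INT c_SHX

theorem c_MAP : K_MAP := r_MAP b_PQC

theorem c_SGA : K_SGA := r_SGA b_SG c_MAP

theorem c_LGA : K_LGA := r_LGA a_PNT b_LG c_MAP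

theorem c_DIA : K_DIA := r_DIA

theorem c_OTA : K_OTA := r_OTA

theorem c_DNA : K_DNA := r_DNA b_TK c_OTA

theorem c_DEA : K_DEA := r_DEA a_MV c_DIA c_DNA

theorem c_RMA : K_RMA := r_RMA a_MV

theorem c_SA1 : K_SA1 := r_SA1 c_SGA c_DEA c_RMA

theorem c_TA2 : K_TA2 := r_TA2 b_MOM

theorem c_SA2 : K_SA2 := r_SA2 c_SGA c_DEA c_TA2

theorem c_CHA : K_CHA := r_CHA b_SG b_LD1 c_SA1 c_SA2

theorem c_BMA : K_BMA := r_BMA a_UM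

theorem c_BWA : K_BWA := r_BWA

theorem c_LSA : K_LSA := r_LSA c_PQX c_LGA c_DEA c_BWA

theorem c_MIA : K_MIA := r_MIA c_RMA c_LSA

theorem c_UUA : K_UUA := r_UUA a_HB c_LSA

theorem c_SMA : K_SMA := r_SMA

theorem c_FFA : K_FFA := r_FFA c_CHA c_BMA c_MIA c_UUA c_SMA

theorem c_MRA : K_MRA := r_MRA a_PL b_SS b_OVL c_FFA

theorem c_SPL : K_SPL := r_SPL

theorem c_DYA : K_DYA := r_DYA

theorem c_MAJ : K_MAJ := r_MAJ c_MRA c_DYA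

theorem c_LSV : K_LSV := r_LSV

theorem c_MN1 : K_MN1 := r_MN1 b_TKL

theorem c_MN2 : K_MN2 := r_MN2 c_SPL

theorem c_MIN : K_MIN := r_MIN c_LSV c_MN1 c_MN2

theorem c_UAL : K_UAL := r_UAL c_SPL c_MAJ c_MIN

theorem c_LZC : K_LZC := r_LZC

theorem c_LQC : K_LQC := r_LQC c_LZC

theorem c_LXC : K_LXC := r_LXC c_LQC

theorem c_LXP : K_LXP := r_LXP c_LXC

theorem c_OK1 : K_OK1 := r_OK1

theorem c_OK2 : K_OK2 := r_OK2 c_LXP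

theorem c_UF : K_UF := r_UF c_UAL c_OK1 c_OK2

theorem c_HOE : K_HOE := r_HOE b_CRT

theorem c_GD2 : K_GD2 := r_GD2 c_HOE

theorem c_EB2 : K_EB2 := r_EB2 b_ED b_PQC c_GD2

theorem c_TB2 : K_TB2 := r_TB2 c_GD2

theorem c_FSA : K_FSA := r_FSA

theorem c_FSB : K_FSB := r_FSB

theorem c_FS : K_FS := r_FS c_FSA c_FSB

theorem c_ORT : K_ORT := r_ORT

theorem c_FOU : K_FOU := r_FOU c_ORT

theorem c_F4 : K_F4 := r_F4 c_ORT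

theorem c_SPC : K_SPC := r_SPC b_PQC b_EN c_F4

theorem c_OSC : K_OSC := r_OSC

theorem c_CVX : K_CVX := r_CVX

theorem c_M4 : K_M4 := r_M4 c_F4 c_OSC c_CVX

theorem c_DS0 : K_DS0 := r_DS0 c_FOU c_SPC

theorem c_DS1 : K_DS1 := r_DS1 b_PQC c_FOU c_M4

theorem c_TH2 : K_TH2 := r_TH2 b_PQC c_TB2 c_FS c_DS0 c_DS1

theorem c_COR : K_COR := r_COR b_PQC b_LAD c_EB2 c_TH2

theorem c_PRG : K_PRG := r_PRG c_ORT

theorem c_REL : K_REL := r_REL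

theorem c_CO2 : K_CO2 := r_CO2 c_UF c_COR c_PRG c_REL

theorem c_ODD : K_ODD := r_ODD

theorem c_RN1 : K_RN1 := r_RN1 a_MR1

theorem c_RNG : K_RNG := r_RNG c_ODD c_RN1

theorem c_FEJ : K_FEJ := r_FEJ

theorem c_FJM : K_FJM := r_FJM c_OSC

theorem c_AVS : K_AVS := r_AVS

theorem c_FM : K_FM := r_FM b_CW2 c_AVS

theorem c_CHB : K_CHB := r_CHB b_CW2 c_FEJ

theorem c_SQR : K_SQR := r_SQR c_FEJ c_FJM

theorem c_GEO : K_GEO := r_GEO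

theorem c_CT : K_CT := r_CT c_GEO

theorem c_MAIN : K_MAIN := r_MAIN b_CW2 c_UF c_CO2 c_FM c_CHB c_SQR c_CT

theorem c_FIN : K_FIN := r_FIN c_RNG c_MAIN

end Pool.Agent.P.LF
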