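import Pool.Agent.P.MP_e94e4b_nt.LF.Defs

/-! Small facts about the definitions, shared by all steps. -/

namespace Pool.Agent.P.LF

open Finset Real Filter Topology MeasureTheory
open Pool.Agent.P.MP_e86632_nt (ee ee_add norm_ee ee_neg ee_zero)
open Pool.Agent.P.MP_8be758_nt.Avg (gs nsq gs_pos gs_le_one)
open Pool.Agent.P.E2
open Pool.Agent.P.PAR
open ArithmeticFunction (cardFactors vonMangoldt)

/-! ### Short ranges -/

theorem Iv.mono {l X X' : ℕ} {κ : ℂ} {g : ℕ → ℂ} (h : Iv l κ X g) (hX : X' ≤ X) : Iv l κ X' g :=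
  ⟨h.nk, h.bd, fun p m a b c d => h.mul p m a b (c.trans hX) d⟩

theorem pw_subset (l : ℕ) (P δ : ℝ) (v : ℕ) : pw l P δ v ⊆ pv P δ v := filter_subset _ _

theorem pb_subset (l : ℕ) (P δ : ℝ) (V : ℕ) : pb l P δ V ⊆ pa P δ V := filter_subset _ _

theorem mem_pw {l : ℕ} {P δ : ℝ} (hP : 0 ≤ P) (hδ : 0 ≤ δ) {v p : ℕ} : p ∈ pw l P δ v ↔
    ((yy P δ v < p ∧ (p : ℝ) ≤ yy P δ (v + 1)) ∧ p.Prime) ∧ p ≡ 1 [MOD l] := by
  rw [pw, mem_filter, mem_pv hP hδ]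

theorem mem_pb {l : ℕ} {P δ : ℝ} (hP : 0 ≤ P) (hδ : 0 ≤ δ) {V p : ℕ} : p ∈ pb l P δ V ↔
    ((P < p ∧ (p : ℝ) ≤ yy P δ V) ∧ p.Prime) ∧ p ≡ 1 [MOD l] := by
  rw [pb, mem_filter, mem_pa hP hδ]

theorem rs_mono {S T : Finset ℕ} (h : S ⊆ T) : rs S ≤ rs T :=
  sum_le_sum_of_subset_of_nonneg h fun _ _ _ => by positivity

theorem card_pb_le (l : ℕ) {P δ : ℝ} (hP : 0 ≤ P) (hδ : 0 ≤ δ) (V : ℕ) :
    ((pb l P δ V).card : ℝ) ≤ yy P δ V :=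
  (Nat.cast_le.2 (card_le_card (pb_subset l P δ V))).trans (card_pa_le hP hδ V)

/-- the ranges partition the primes of a stage -/
theorem sum_pb {E : Type*} [AddCommMonoid E] (l : ℕ) {P δ : ℝ} (hP : 0 ≤ P) (hδ : 0 ≤ δ) (V : ℕ)
    (f : ℕ → E) : ∑ p ∈ pb l P δ V, f p = ∑ v ∈ range V, ∑ p ∈ pw l P δ v, f p := by
  simp only [pb, pw, sum_filter]
  exact sum_pa hP hδ V _

theorem nsq_le_card {g : ℕ → ℂ} (h : ∀ n, ‖g n‖ ≤ 1) (S : Finset ℕ) : nsq S g ≤ S.card := by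
  simpa using nsq_le (I := S) (B := 1) fun n _ => h n

theorem bd_FG (g : ℕ → ℂ) (X : ℕ) : Bd (FG g X) := bd_dq _ _

theorem bd_qw (l : ℕ) (P δ : ℝ) (v : ℕ) : Bd (qw l P δ v) := bd_dq _ _

theorem bd_rc (g : ℕ → ℂ) (X : ℕ) (P δ : ℝ) (v : ℕ) : Bd (rc g X P δ v) := bd_dq _ _

theorem bd_bm (l : ℕ) (g : ℕ → ℂ) (X : ℕ) (P δ : ℝ) (V : ℕ) : Bd (bm l g X P δ V) :=
  Bd.sum (range V) fun v => (bd_qw l P δ v).mul (bd_rc g X P δ v)

@[fun_prop] theorem cont_FG (g : ℕ → ℂ) (X : ℕ) : Continuous (FG g X) := (bd_FG g X).1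

@[fun_prop] theorem cont_qw (l : ℕ) (P δ : ℝ) (v : ℕ) : Continuous (qw l P δ v) := (bd_qw l P δ v).1

@[fun_prop] theorem cont_rc (g : ℕ → ℂ) (X : ℕ) (P δ : ℝ) (v : ℕ) : Continuous (rc g X P δ v) :=
  (bd_rc g X P δ v).1

@[fun_prop] theorem cont_bm (l : ℕ) (g : ℕ → ℂ) (X : ℕ) (P δ : ℝ) (V : ℕ) :
    Continuous (bm l g X P δ V) := (bd_bm l g X P δ V).1

theorem mg_nonneg (g : ℕ → ℂ) (X : ℕ) (Z : ℝ) (T : Set ℝ) : 0 ≤ mg g X Z T :=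
  integral_nonneg (gsq_nonneg _ Z)

theorem mg_mono (g : ℕ → ℂ) (X : ℕ) {Z : ℝ} (hZ : 0 < Z) {T T' : Set ℝ} (hT : T ⊆ T') :
    mg g X Z T ≤ mg g X Z T' := (bd_FG g X).mono hZ hT

theorem mg_union (g : ℕ → ℂ) (X : ℕ) {Z : ℝ} (hZ : 0 < Z) {T T' : Set ℝ} (hT : MeasurableSet T) :
    mg g X Z (T ∪ T') ≤ mg g X Z T + mg g X Z T' := (bd_FG g X).union hZ hT

theorem norm_FG_le {g : ℕ → ℂ} (h : ∀ n, ‖g n‖ ≤ 1) (X : ℕ) (t : ℝ) : ‖FG g X t‖ ≤ 7 * X := by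
  refine (norm_dq_le (B := 1) (fun n _ => h n) t).trans_eq ?_
  rw [Nat.card_Ioc, show 8 * X - X = 7 * X by omega]; simp

theorem meas_bw (l : ℕ) (ρ α : ℝ) : MeasurableSet (bw l ρ α) := by
  have : bw l ρ α = ⋃ v ∈ range (sV ρ),
      {t | yy (sP ρ) (sd ρ) v ^ (1 - α) < ‖qw l (sP ρ) (sd ρ) v t‖} := by
    ext t; simp [bw]
  rw [this]
  exact Finset.measurableSet_biUnion _ fun v _ => meas_lt _ (cont_qw l _ _ v)

/-! ### Exponential sums -/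

theorem re_ee (x : ℝ) : (ee x).re = Real.cos (2 * π * x) := by
  rw [aa_ee, Pool.Agent.P.MP_b60056_nt.AA.ee, Complex.exp_ofReal_mul_I_re]

theorem norm_es_le {g : ℕ → ℂ} (h : ∀ n, ‖g n‖ ≤ 1) (x H : ℕ) (α : ℝ) : ‖es g x H α‖ ≤ H := by
  refine (norm_sum_le_of_le _ (n := fun _ => (1 : ℝ)) fun n _ => ?_).trans (by simp)
  rw [norm_mul, norm_ee, mul_one]; exact h n

theorem es_zero (g : ℕ → ℂ) (x H : ℕ) : es g x H 0 = ∑ n ∈ Ioc x (x + H), g n := by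
  simp [es, ee_zero]

theorem es_add (g : ℕ → ℂ) (x H H' : ℕ) (α : ℝ) :
    es g x (H + H') α = es g x H α + es g (x + H) H' α := by
  rw [es, es, es, ← add_assoc, sum_Ioc_consecutive _ (Nat.le_add_right _ _) (Nat.le_add_right _ _)]

theorem es_range (g : ℕ → ℂ) (x H : ℕ) (α : ℝ) :
    es g x H α = ee (α * (x + 1 : ℕ)) * ∑ j ∈ range H, g (x + 1 + j) * ee (α * j) := by
  induction H with
  | zero => simp [es]
  | succ H ih =>
    rw [es_add, ih, sum_range_succ, mul_add, es, Nat.Ioc_succ_singleton, sum_singleton,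
      mul_left_comm, ← ee_add, add_right_comm x H 1]
    congr 3
    push_cast; ring

theorem norm_es_range (g : ℕ → ℂ) (x H : ℕ) (α : ℝ) :
    ‖∑ j ∈ range H, g (x + 1 + j) * ee (α * j)‖ = ‖es g x H α‖ := by
  rw [es_range, norm_mul, norm_ee, one_mul]

theorem harm_Ioc (lo hi : ℕ) : ∑ n ∈ Ioc lo hi, 1 / (n : ℝ) ≤ 1 + Real.log hi :=
  (sum_le_sum_of_subset_of_nonneg (fun _ h => mem_Icc.2
    ⟨Nat.one_le_of_lt (mem_Ioc.1 h).1, (mem_Ioc.1 h).2⟩) fun _ _ _ => by positivity).trans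
    (harm_le hi)

theorem ua_nonneg (g : ℕ → ℂ) (lo hi H : ℕ) (α : ℝ) : 0 ≤ ua g lo hi H α :=
  sum_nonneg fun _ _ => by positivity

theorem ua_mono (g : ℕ → ℂ) {lo hi lo' hi' : ℕ} (h1 : lo' ≤ lo) (h2 : hi ≤ hi') (H : ℕ) (α : ℝ) :
    ua g lo hi H α ≤ ua g lo' hi' H α :=
  sum_le_sum_of_subset_of_nonneg (Ioc_subset_Ioc h1 h2) fun _ _ _ => by positivity

/-- any finite set of starting points inside the range -/
theorem le_ua (g : ℕ → ℂ) {lo hi : ℕ} (H : ℕ) (α : ℝ) {S : Finset ℕ} (h : S ⊆ Ioc lo hi) :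
    ∑ x ∈ S, ‖es g x H α‖ / x ≤ ua g lo hi H α :=
  sum_le_sum_of_subset_of_nonneg h fun _ _ _ => by positivity

/-- a residue class in an interval -/
theorem card_mod_Ioc {l : ℕ} (hl : 0 < l) (b : ℕ) {A B : ℕ} (h : A ≤ B) :
    |(((Ioc A B).filter (· ≡ b [MOD l])).card : ℝ) - ((B : ℝ) - A) / l| ≤ 1 := by
  have h1 := card_dvd_Ioc hl (Nat.add_le_add_right h ((l - 1) * b))
  have h2 : ((Ioc A B).filter (· ≡ b [MOD l])).card =
      ((Ioc (A + (l - 1) * b) (B + (l - 1) * b)).filter (l ∣ ·)).card := by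
    rw [← map_add_right_Ioc, filter_map, card_map]
    refine congrArg _ (filter_congr fun n _ => ?_)
    obtain ⟨k, rfl⟩ : ∃ k, l = k + 1 := ⟨l - 1, by omega⟩
    have e : b + k * b ≡ 0 [MOD k + 1] :=
      (Nat.modEq_zero_iff_dvd).2 ⟨b, by ring⟩
    simp only [Function.comp, addRightEmbedding_apply, Nat.add_sub_cancel]
    rw [← Nat.modEq_zero_iff_dvd]
    exact ⟨fun h => (h.add_right _).trans e, fun h => Nat.ModEq.add_right_cancel' _ (h.trans e.symm)⟩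
  rw [h2]
  push_cast at h1
  rwa [add_sub_add_right_eq_sub] at h1

/-! ### Letters and weights -/

theorem abs_vl {d : ℝ} (h0 : 0 ≤ d) (h1 : d ≤ 1) (b : Bool) : |vl d b| ≤ 1 := by
  unfold vl; rw [abs_le]; split_ifs <;> constructor <;> linarith

theorem abs_pp {d : ℝ} (h0 : 0 ≤ d) (h1 : d ≤ 1) (D Δ : ℕ) (x : ℕ → BB) (q j : ℕ) :
    |pp D Δ d x q j| ≤ 1 := by
  rw [pp, abs_mul]
  exact mul_le_one₀ (abs_vl h0 h1 _) (abs_nonneg _) (abs_vl h0 h1 _)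

theorem norm_ph1 {d : ℝ} (h0 : 0 ≤ d) (h1 : d ≤ 1) (ξ : ℕ → BB) (i : ℕ) : ‖ph1 d ξ i‖ ≤ 1 := by
  rw [ph1, Complex.norm_real]; exact abs_vl h0 h1 _

theorem pp_shift (D Δ : ℕ) (d : ℝ) (ξ : ℕ → BB) (n q j : ℕ) :
    pp D Δ d (fun i => ξ (n + i)) q j = pp D Δ d ξ q (n + j) := by simp only [pp, add_assoc]

theorem abs_wt {σ : ℝ} (h : |σ| ≤ 1) (ω x : ℝ) : |wt σ ω x| ≤ 1 := by
  rw [wt, abs_mul]
  exact mul_le_one₀ h (abs_nonneg _) (Real.abs_cos_le_one _)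

theorem wt_zero (σ x : ℝ) : wt σ 0 x = σ := by simp [wt]

theorem wt_eq (σ ω x : ℝ) : wt σ ω x = σ * (ee (ω * √x)).re := by rw [wt, re_ee]

theorem tq_spec {D q : ℕ} (h1 : 1 ≤ q) (h : q ≡ 1 [MOD D]) : q = D * tq D q + 1 := by
  have := Nat.mul_div_cancel' ((Nat.modEq_iff_dvd' h1).1 h.symm)
  unfold tq; omega

theorem mul_tq_le {D P s q : ℕ} (hs : s ≤ 2 * D) (h : q ∈ pq D P) : s * tq D q ≤ 4 * P := by
  have h1 := (mem_pq.1 h).1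
  have h2 := Nat.mul_div_le (q - 1) D
  have h3 := Nat.mul_le_mul_right (tq D q) hs
  rw [mul_assoc] at h3
  unfold tq at h3 ⊢
  omega

theorem abs_Mq {d : ℝ} (h0 : 0 ≤ d) (h1 : d ≤ 1) {D P q : ℕ} (h : q ∈ pq D P) (Δ : ℕ)
    (x : ℕ → BB) : |Mq D Δ P d x q| ≤ 4 := by
  have a : (P : ℝ) < q := by exact_mod_cast (mem_pq.1 h).1.1
  have b : (0 : ℝ) ≤ P := Nat.cast_nonneg P
  rw [Mq, abs_div, Nat.abs_cast, div_le_iff₀ (by linarith)]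
  refine (abs_sum_le_sum_abs _ _).trans ((sum_le_card_nsmul _ _ 1 fun j _ =>
    abs_pp h0 h1 D Δ x q j).trans ?_)
  simp only [card_range, nsmul_eq_mul]
  push_cast; linarith

theorem abs_Fq {d : ℝ} (h0 : 0 ≤ d) (h1 : d ≤ 1) {D P q : ℕ} (h : q ∈ pq D P) (s Δ : ℕ)
    (x : ℕ → BB) (y : ℕ) : |Fq D s Δ P d x q y| ≤ 5 := by
  have a : (P : ℝ) < q := by exact_mod_cast (mem_pq.1 h).1.1
  have b : (0 : ℝ) ≤ P := Nat.cast_nonneg P
  set e := y + s * tq D q + q with he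
  have q0 := (mem_pq.1 h).2.1.pos
  have c := (abs_le.1 (card_dvd_Ioc q0 (Nat.le_add_right (e - 1) (4 * P)))).2
  have c1 : ((range (4 * P)).filter fun j => q ∣ y + j + s * tq D q).card ≤
      ((Ioc (e - 1) (e - 1 + 4 * P)).filter (q ∣ ·)).card := by
    refine card_le_card_of_injOn (fun j => e + j) (fun j hj => ?_) fun _ _ _ _ h => by simpa using h
    obtain ⟨h1, h2⟩ := mem_filter.1 (mem_coe.1 hj)
    have h3 := mem_range.1 h1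
    beta_reduce
    refine mem_coe.2 (mem_filter.2 ⟨mem_Ioc.2 ⟨by omega, by omega⟩, ?_⟩)
    rw [show e + j = y + j + s * tq D q + q by omega]
    exact h2.add dvd_rfl
  have c2 : (4 * P : ℝ) / q ≤ 4 := by rw [div_le_iff₀ (by linarith)]; linarith
  rw [Fq, ← sum_filter]
  refine (abs_sum_le_sum_abs _ _).trans ((sum_le_card_nsmul _ _ 1 fun j _ =>
    abs_pp h0 h1 D Δ x q j).trans ?_)
  have c3 := (Nat.cast_le (α := ℝ)).2 c1
  push_cast at c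
  rw [add_sub_cancel_left] at c
  rw [nsmul_eq_mul]; linarith

theorem tc_nonneg (D s Δ P L : ℕ) (d η : ℝ) (w : ℕ → ℝ) (ξ : ℕ → BB) (b : ℕ) :
    0 ≤ tc D s Δ P L d η w ξ b := fq_nonneg _ _

theorem rs_pq_le (D P : ℕ) (hP : 0 < P) : rs (pq D P) ≤ (pq D P).card / P := by
  have a : (0 : ℝ) < P := by exact_mod_cast hP
  refine (sum_le_card_nsmul _ _ (1 / (P : ℝ)) fun q h => one_div_le_one_div_of_le a ?_).trans_eq
    (by rw [nsmul_eq_mul, mul_one_div])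
  exact_mod_cast (mem_pq.1 h).1.1.le

theorem le_rs_pq (D P : ℕ) : (pq D P).card / (2 * P : ℝ) ≤ rs (pq D P) := by
  rw [← mul_one_div, ← nsmul_eq_mul]
  refine card_nsmul_le_sum _ _ _ fun q h => one_div_le_one_div_of_le ?_ ?_
  · exact_mod_cast (mem_pq.1 h).2.1.pos
  · exact_mod_cast (mem_pq.1 h).1.2

theorem Rl.mono {D s Δ Q Q' lo lo' : ℕ} {d : ℝ} {ξ : ℕ → BB} {γ : ℕ → ℝ}
    (h : Rl D s Δ d Q lo ξ γ) (h1 : Q' ≤ Q) (h2 : lo ≤ lo') : Rl D s Δ d Q' lo' ξ γ :=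
  fun q m i a b c e f => h q m i a (b.trans h1) c (h2.trans e) f

/-! ### Large prime factors -/

theorem mem_lp {p : Pm} {q : ℕ} : q ∈ lp p ↔ (p.z1 < q ∧ q ≤ p.z2) ∧ q.Prime := by
  rw [lp, mem_filter, mem_Ioc]

theorem mem_uu {p : Pm} {k u : ℕ} : u ∈ uu p k ↔ (p.U < u ∧ u ≤ p.Y / k) ∧ Odd u := by
  rw [uu, mem_filter, mem_Ioc]

theorem fb_iff {p : Pm} {s : Bool} {n : ℕ} : fb p s n = true ↔ Hp p n ∧ par n = s := by
  simp [fb]

/-- a small factor does not change the property -/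
theorem Hp_mul {p : Pm} {k : ℕ} (h0 : k ≠ 0) (hk : k ≤ p.z1) (m : ℕ) : Hp p (k * m) ↔ Hp p m := by
  refine exists_congr fun q => and_congr_right fun hq => ⟨fun h => ?_, fun h => h.mul_left k⟩
  obtain ⟨h1, h2⟩ := mem_lp.1 hq
  refine ((Nat.Prime.dvd_mul h2).1 h).resolve_left fun h3 => ?_
  have := Nat.le_of_dvd (Nat.pos_of_ne_zero h0) h3
  omega

theorem par_prime_mul {q m : ℕ} (hq : q.Prime) (hm : m ≠ 0) : par (q * m) = !par m := by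
  rw [par_mul hq.ne_zero hm, show par q = false by
    simp [par, ArithmeticFunction.cardFactors_apply_prime hq]]
  cases par m <;> rfl

theorem fb_prime_mul {p : Pm} {q m : ℕ} (hq : q.Prime) (hz : q ≤ p.z1) (hm : m ≠ 0) (s : Bool) :
    fb p (!s) (q * m) = fb p s m := by
  rw [Bool.eq_iff_iff, fb_iff, fb_iff, Hp_mul hq.ne_zero hz, par_prime_mul hq hm, Bool.not_inj_iff]

theorem fb_sq_mul {p : Pm} {k m : ℕ} (h0 : k ≠ 0) (hz : k ≤ p.z1) (hm : m ≠ 0) (s : Bool) :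
    fb p s (k ^ 2 * m) = fb p s m := by
  rw [Bool.eq_iff_iff, fb_iff, fb_iff, par_sq_mul h0 hm, pow_two, mul_assoc, Hp_mul h0 hz,
    Hp_mul h0 hz]

theorem abs_fv {p : Pm} (h : rs (lp p) ≤ 1) (s : Bool) (n : ℕ) : |fv p s n| ≤ 1 :=
  abs_vl (by linarith [rs_nonneg (lp p)]) (by linarith) _

theorem fv_eq (p : Pm) (s : Bool) (n : ℕ) :
    (fv p s n : ℂ) = (g1 p n + (if s then 1 else -1) * g2 p n) / 2 := by
  unfold fv vl g1 g2
  rw [lc, lam_par]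
  by_cases h : Hp p n <;> cases s <;> cases h2 : par n <;> simp [fb, h, h2] <;> ring

theorem Rm.mono {K K' : ℕ} {p : Pm} (h : Rm K p) (hK : K' ≤ K) : Rm K' p :=
  ⟨(Nat.cast_le.2 hK).trans h.ky, h.zs, hK.trans h.kz, (Nat.mul_le_mul_right _ hK).trans h.zw,
    hK.trans h.kw, h.wu, hK.trans h.ku, h.wy, h.d1⟩

theorem Rn.mono {η d0 : ℝ} {K K' : ℕ} {p : Pm} (h : Rn η d0 K p) (hK : K' ≤ K) : Rn η d0 K' p :=
  ⟨h.rm.mono hK, h.zl, h.dl, fun k a b => h.ms k a (b.trans hK)⟩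

theorem Rm.kY {K : ℕ} {p : Pm} (h : Rm K p) : K ≤ p.Y := by
  exact_mod_cast h.ky.trans (log_le_nat p.Y)

theorem ck_spec {k : ℕ} (h : Odd k) : 2 * ck k + 3 = 3 * k ^ 2 := by
  obtain ⟨j, rfl⟩ := h
  have : (2 * j + 1) ^ 2 = 2 * (2 * j ^ 2 + 2 * j) + 1 := by ring
  unfold ck; omega

theorem su_spec {u : ℕ} (h : Odd u) : 2 * su u = u ^ 2 + 3 := by
  obtain ⟨j, hj⟩ := h.pow (n := 2)
  unfold su; omega

theorem iu_anti {k K : ℕ} (h : k ≤ K) (u : ℕ) : iu K u ⊆ iu k u := fun m hm => by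
  obtain ⟨h1, h2, h3⟩ := mem_iu.1 hm
  obtain ⟨e, rfl⟩ := Nat.exists_eq_add_of_le h
  rw [add_mul, add_mul] at h2 h3
  refine mem_iu.2 ⟨h1, ?_, ?_⟩
  · rcases le_total (4 * m) (u ^ 2) with a | a
    · have := Nat.mul_le_mul_left k a; omega
    · have := Nat.mul_le_mul_left e a; omega
  · rcases le_total (4 * m) (u ^ 2) with a | a
    · have := Nat.mul_le_mul_left e a; omega
    · have := Nat.mul_le_mul_left k a; omega

end Pool.Agent.P.LF
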