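import Pool.Agent.P.MP_e94e4b_nt.PAR.IfE

/-! Definitions for the theorem on pairs between consecutive squares with large prime factors. -/

namespace Pool.Agent.P.LF

open Finset Real Filter Topology MeasureTheory
open Pool.Agent.P.MP_e86632_nt (ee)
open Pool.Agent.P.MP_8be758_nt.Avg (gs nsq)
open Pool.Agent.P.E2 (dq gk)
open Pool.Agent.P.PAR
open ArithmeticFunction (cardFactors)

noncomputable section

/-! ### Functions that are invariant under primes -/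

/-- bounded, and multiplied by `κ` under the small primes that are one modulo `l` -/
structure Iv (l : ℕ) (κ : ℂ) (X : ℕ) (g : ℕ → ℂ) : Prop where
  nk : ‖κ‖ = 1
  bd : ∀ n, ‖g n‖ ≤ 1
  mul : ∀ p m : ℕ, p.Prime → p ≡ 1 [MOD l] → p ^ 2 ≤ X → m ≠ 0 → g (p * m) = κ * g m

/-- small long sums -/
def Sm (g : ℕ → ℂ) (X : ℕ) (ε : ℝ) : Prop :=
  ∀ n, X ≤ n → n ≤ 8 * X → ‖∑ m ∈ Ioc X n, g m‖ ≤ ε * X

/-- the main polynomial -/
def FG (g : ℕ → ℂ) (X : ℕ) (t : ℝ) : ℂ := dq (Ioc X (8 * X)) g t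

/-- weighted mean square of the main polynomial on a set -/
def mg (g : ℕ → ℂ) (X : ℕ) (Z : ℝ) (T : Set ℝ) : ℝ := ∫ t in T, gs (t / Z) * ‖FG g X t‖ ^ 2

/-- primes one modulo `l` in a short range -/
def pw (l : ℕ) (P δ : ℝ) (v : ℕ) : Finset ℕ := (pv P δ v).filter (· ≡ 1 [MOD l])

/-- prime polynomial of a short range -/
def qw (l : ℕ) (P δ : ℝ) (v : ℕ) (t : ℝ) : ℂ := dq (pw l P δ v) (fun _ => 1) t

/-- cofactor polynomial -/
def rc (g : ℕ → ℂ) (X : ℕ) (P δ : ℝ) (v : ℕ) (t : ℝ) : ℂ := dq (rg X P δ v) g t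

/-- primes one modulo `l` of the first `V` ranges -/
def pb (l : ℕ) (P δ : ℝ) (V : ℕ) : Finset ℕ := (pa P δ V).filter (· ≡ 1 [MOD l])

/-- the bilinear main term -/
def bm (l : ℕ) (g : ℕ → ℂ) (X : ℕ) (P δ : ℝ) (V : ℕ) (t : ℝ) : ℂ :=
  ∑ v ∈ range V, qw l P δ v t * rc g X P δ v t

/-- number of factorizations used by the bilinear term -/
def ou (l X : ℕ) (P δ : ℝ) (V n : ℕ) : ℝ :=
  ∑ v ∈ range V, (((pw l P δ v).filter fun p => p ∣ n ∧ n / p ∈ rg X P δ v).card : ℝ)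

/-- frequencies where a prime polynomial of the stage is large -/
def bw (l : ℕ) (ρ α : ℝ) : Set ℝ :=
  {t | ∃ v < sV ρ, yy (sP ρ) (sd ρ) v ^ (1 - α) < ‖qw l (sP ρ) (sd ρ) v t‖}

/-- size facts for a stage -/
structure Sh (l : ℕ) (ρ : ℝ) : Prop where
  sg : Sg ρ
  e1 : 1 ≤ rs (pb l (sP ρ) (sd ρ) (sV ρ))
  el : Real.log ρ / l ≤ rs (pb l (sP ρ) (sd ρ) (sV ρ))

/-- size facts for the last stage -/
structure Lh (l : ℕ) (r δ A : ℝ) : Prop where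
  lg : Lg r δ 1
  ea : A ≤ rs (pb l (lP r) δ (lV r))
  sl : ∑ v ∈ range (lV r), 1 / Real.log (yy (lP r) δ v) ≤ 4 * l / δ * rs (pb l (lP r) δ (lV r))

/-! ### Short exponential sums -/

/-- short exponential sum -/
def es (g : ℕ → ℂ) (x H : ℕ) (α : ℝ) : ℂ := ∑ n ∈ Ioc x (x + H), g n * ee (α * n)

/-- its logarithmic average -/
def ua (g : ℕ → ℂ) (lo hi H : ℕ) (α : ℝ) : ℝ := ∑ x ∈ Ioc lo hi, ‖es g x H α‖ / x

/-- uniformity at all lengths between `H0` and `H1` -/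
def Un (g : ℕ → ℂ) (lo hi H0 H1 : ℕ) (B : ℝ) : Prop :=
  ∀ H, H0 ≤ H → H ≤ H1 → ∀ α : ℝ, ua g lo hi H α ≤ B * H

/-- invariance under all small primes and cancellation in progressions -/
structure Ok (l : ℕ) (κ : ℂ) (ε : ℝ) (w hi : ℕ) (g : ℕ → ℂ) : Prop where
  iv : Iv 1 κ hi g
  ap : ∀ X n b : ℕ, w ≤ X → X ≤ hi → X ≤ n → n ≤ 8 * X →
    ‖∑ m ∈ (Ioc X n).filter (· ≡ b [MOD l]), g m‖ ≤ ε * X

/-! ### Correlations -/

/-- centred value of a letter -/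
def vl (d : ℝ) (b : Bool) : ℝ := (if b then 1 else 0) - d

/-- the parameter of a prime that is one modulo `D` -/
def tq (D q : ℕ) : ℕ := (q - 1) / D

/-- the oscillating weight -/
def wt (σ ω x : ℝ) : ℝ := σ * Real.cos (2 * π * (ω * √x))

/-- the weight of a prime in block `b` -/
def wb (σ ω : ℝ) (L b q : ℕ) : ℝ := wt σ ω ((b : ℝ) * L / q)

/-- weighted logarithmic sum -/
def cr (σ ω : ℝ) (γ : ℕ → ℝ) (lo hi : ℕ) : ℝ := ∑ m ∈ Ioc lo hi, wt σ ω m * γ m / m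

/-- product of the two letters at the shift of `q` -/
def pp (D Δ : ℕ) (d : ℝ) (x : ℕ → BB) (q j : ℕ) : ℝ := vl d (x j).1 * vl d (x (j + Δ * tq D q)).2

/-- correlation of a pattern on the multiples of `q` -/
def Fq (D s Δ P : ℕ) (d : ℝ) (x : ℕ → BB) (q y : ℕ) : ℝ :=
  ∑ j ∈ range (4 * P), if q ∣ y + j + s * tq D q then pp D Δ d x q j else 0

/-- its mean -/
def Mq (D Δ P : ℕ) (d : ℝ) (x : ℕ → BB) (q : ℕ) : ℝ := (∑ j ∈ range (4 * P), pp D Δ d x q j) / q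

/-- large deviation from the mean -/
def Ge (D s Δ P : ℕ) (d η : ℝ) (w : ℕ → ℝ) (x : ℕ → BB) (y : ℕ) : Prop :=
  η * (pq D P).card ≤ ∑ q ∈ pq D P, w q * (Fq D s Δ P d x q y - Mq D Δ P d x q)

/-- frequency of the large deviations in the cyclic sequence of block `b` -/
def tc (D s Δ P L : ℕ) (d η : ℝ) (w : ℕ → ℝ) (ξ : ℕ → BB) (b : ℕ) : ℝ :=
  fq L fun n => Ge D s Δ P d η w (fun i => ξ (b * L + (n + i) % L)) n

/-- average over the blocks of the correlations on multiples -/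
def fa (D s Δ P L : ℕ) (d σ ω : ℝ) (ξ : ℕ → BB) (lo hi : ℕ) : ℝ :=
  ∑ b ∈ Ioc lo hi, ∑ i ∈ range L, 1 / ((b : ℝ) * L) *
    ∑ q ∈ pq D P, wb σ ω L b q * Fq D s Δ P d (fun j => ξ (b * L + i + j)) q (b * L + i)

/-- average over the blocks of the means -/
def da (D Δ P L : ℕ) (d σ ω : ℝ) (ξ : ℕ → BB) (lo hi : ℕ) : ℝ :=
  ∑ b ∈ Ioc lo hi, ∑ i ∈ range L, 1 / ((b : ℝ) * L) *
    ∑ q ∈ pq D P, wb σ ω L b q * Mq D Δ P d (fun j => ξ (b * L + i + j)) q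

/-- the dilation relation between the sequence `ξ` and the summand `γ` -/
def Rl (D s Δ : ℕ) (d : ℝ) (Q lo : ℕ) (ξ : ℕ → BB) (γ : ℕ → ℝ) : Prop :=
  ∀ q m i : ℕ, q.Prime → q ≤ Q → q ≡ 1 [MOD D] → lo ≤ m → i + s * tq D q = q * m →
    pp D Δ d ξ q i = γ m

/-- the first letters as a complex sequence -/
def ph1 (d : ℝ) (ξ : ℕ → BB) (i : ℕ) : ℂ := (vl d (ξ i).1 : ℝ)

/-- discrete Fourier transform of weights placed at the points `e q` -/
def hat (S : Finset ℕ) (c : ℕ → ℂ) (e : ℕ → ℕ) (M k : ℕ) : ℂ :=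
  ∑ q ∈ S, c q * ee ((k : ℝ) * e q / M)

/-! ### Large prime factors -/

/-- the scales -/
structure Pm where
  Y : ℕ
  z1 : ℕ
  z2 : ℕ
  w : ℕ
  U : ℕ

/-- the large primes -/
def lp (p : Pm) : Finset ℕ := (Ioc p.z1 p.z2).filter Nat.Prime

/-- having a large prime factor -/
def Hp (p : Pm) (n : ℕ) : Prop := ∃ q ∈ lp p, q ∣ n

open Classical in
/-- having a large prime factor and the parity `s` -/
def fb (p : Pm) (s : Bool) (n : ℕ) : Bool := decide (Hp p n ∧ par n = s)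

/-- centred indicator -/
def fv (p : Pm) (s : Bool) (n : ℕ) : ℝ := vl (rs (lp p) / 2) (fb p s n)

open Classical in
/-- the even part -/
def g1 (p : Pm) (n : ℕ) : ℂ := (((if Hp p n then 1 else 0) - rs (lp p) : ℝ) : ℂ)

open Classical in
/-- the odd part -/
def g2 (p : Pm) (n : ℕ) : ℂ := if Hp p n then lc n else 0

/-- the odd numbers used as indices of windows -/
def uu (p : Pm) (k : ℕ) : Finset ℕ := (Ioc p.U (p.Y / k)).filter Odd

/-- size conditions -/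
structure Rm (K : ℕ) (p : Pm) : Prop where
  ky : (K : ℝ) ≤ Real.log p.Y
  zs : 8 * p.Y ^ 3 < p.z1 ^ 2
  kz : K ≤ p.z1
  zw : K * p.z2 ≤ p.w
  kw : K ≤ p.w
  wu : 32 * p.w ≤ p.U ^ 2
  ku : K ≤ p.U
  wy : 4 * p.w ≤ p.Y ^ 2
  d1 : rs (lp p) ≤ 1

/-- size conditions that depend on the exponent -/
structure Rn (η d0 : ℝ) (K : ℕ) (p : Pm) : Prop where
  rm : Rm K p
  zl : (p.Y : ℝ) ^ (2 - η) ≤ p.z1
  dl : d0 ≤ rs (lp p)
  ms : ∀ k, 1 ≤ k → k ≤ K → η / 32 * Real.log p.Y ≤ ∑ u ∈ uu p k, 1 / (u : ℝ)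

/-- the common sum of the pairs of the window with index `u` -/
def su (u : ℕ) : ℕ := (u ^ 2 + 3) / 2

/-- the shift of a concentric window -/
def ck (k : ℕ) : ℕ := 3 * (k ^ 2 - 1) / 2

/-- the partner in the concentric window -/
def Ai (k m : ℕ) : ℕ := k ^ 2 * m - ck k

/-- the majorant of the central parts -/
def fj (J : ℕ) (x : ℝ) : ℝ :=
  4 / (J : ℝ) ^ 2 * ∑ a ∈ range J, ∑ b ∈ range J, wt ((-1) ^ (a + b)) ((a : ℝ) - b) x

/-- number of pairs of the window `N` with both properties -/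
def cn (p : Pm) (s t : Bool) (N : ℕ) : ℕ :=
  ((Icc 2 (2 * N)).filter fun k => fb p s (N ^ 2 + k + 1) ∧ fb p t ((N + 1) ^ 2 - k)).card

/-- weighted number of successful stars -/
def tt (p : Pm) (s t : Bool) (r : ℕ) : ℝ :=
  ∑ u ∈ uu p (3 * r), 1 / (u : ℝ) ^ 2 * (((iu (3 * r) u).filter fun m =>
    fb p t (su u - m) ∧ ∃ i < r, fb p s (Ai (2 * i + 3) m)).card : ℝ)

open Classical in
/-- number of pairs as in the theorem -/
def cf (η : ℝ) (s t N : ℕ) : ℕ :=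
  ((Icc 2 (2 * N)).filter fun k =>
    cardFactors (N ^ 2 + k + 1) % 2 = s ∧ cardFactors ((N + 1) ^ 2 - k) % 2 = t ∧
    (∃ q : ℕ, q.Prime ∧ q ∣ N ^ 2 + k + 1 ∧ (N : ℝ) ^ (2 - η) < q) ∧
    ∃ q : ℕ, q.Prime ∧ q ∣ (N + 1) ^ 2 - k ∧ (N : ℝ) ^ (2 - η) < q).card

end

end Pool.Agent.P.LF
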