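import Pool.Agent.P.MP_e94e4b_nt.LF.Basic

/-! Statements of the steps, part A: short sums of functions that are invariant under primes. -/

namespace Pool.Agent.P.LF

open Finset Real Filter Topology MeasureTheory
open Pool.Agent.P.MP_e86632_nt (ee nn)
open Pool.Agent.P.MP_8be758_nt.Avg (gs nsq)
open Pool.Agent.P.E2
open Pool.Agent.P.PAR
open ArithmeticFunction (cardFactors vonMangoldt)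
open DirichletCharacter (LFunction)

/-! ### Prime sums -/

-- deps: S_LB S_ZL1 S_ZL2 S_LD S_HF S_MEL L_CSN
def K_PBX : Prop := ∀ (q : ℕ) [NeZero q] (χ : DirichletCharacter ℂ q), ∀ᶠ r : ℝ in atTop,
  ∀ w v t : ℝ, Real.exp (-(8 * r)) ≤ w → w ≤ Real.exp (-(2 * r)) → 20 * r ^ 12 ≤ v →
    v ≤ 2 * r ^ 13 → |t| ≤ Real.exp (3 * r ^ 13) →
    ‖∑' n : ℕ, (ch χ n * vonMangoldt n - kp χ * on n) * nit t n *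
      (gk w (Real.log n - v) : ℂ)‖ ≤ Real.exp (v - 9 * r)

-- deps: S_SWP L_WIN K_PBX
def K_SHX : Prop := ∀ (q : ℕ) [NeZero q] (χ : DirichletCharacter ℂ q), ∀ᶠ r : ℝ in atTop,
  ∀ (M N : ℕ) (t : ℝ), Real.exp (20 * r ^ 12) ≤ M → M ≤ N → N ≤ 2 * M →
    (N : ℝ) ≤ Real.exp (2 * r ^ 13) → |t| ≤ Real.exp (3 * r ^ 13) →
    ‖dq (Ioc M N) (fun n => ch χ n * vonMangoldt n - kp χ * on n) t‖ ≤ M * Real.exp (-r)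

-- deps: S_PW L_INT K_SHX
def K_PQX : Prop := ∀ l : ℕ, 1 ≤ l → ∀ᶠ r : ℝ in atTop, ∀ (M N : ℕ) (t : ℝ),
  Real.exp (20 * r ^ 12) ≤ M → M ≤ N → N ≤ 2 * M → (N : ℝ) ≤ Real.exp (2 * r ^ 13) →
  |t| ≤ Real.exp (3 * r ^ 13) →
  ‖dq (((Ioc M N).filter Nat.Prime).filter (· ≡ 1 [MOD l])) (fun _ => 1) t‖ ≤
    2 * M / Real.log M * (5 / (1 + |t|) + 3 * Real.exp (-r))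

-- deps: L_PQC
def K_MAP : Prop := ∀ l : ℕ, 1 ≤ l → ∀ᶠ y1 : ℝ in atTop, ∀ y2 : ℝ, y1 ≤ y2 →
  (Real.log (Real.log y2 / Real.log y1) - 1) / (4 * l) ≤
    rs (((Ioc ⌊y1⌋₊ ⌊y2⌋₊).filter Nat.Prime).filter (· ≡ 1 [MOD l]))

-- deps: L_SG K_MAP
def K_SGA : Prop := ∀ l : ℕ, 1 ≤ l → ∀ᶠ ρ : ℝ in atTop, Sh l ρ

-- deps: S_PNT L_LG K_MAP
def K_LGA : Prop := ∀ (l : ℕ) (δ A : ℝ), 1 ≤ l → 0 < δ → δ ≤ 1 / 2 → ∀ᶠ r : ℝ in atTop, Lh l r δ A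

/-! ### The decomposition -/

-- deps:
def K_DIA : Prop := ∀ (l X V : ℕ) (κ : ℂ) (g : ℕ → ℂ) (P δ t : ℝ), Iv l κ X g → 1 ≤ P → 0 ≤ δ →
  δ ≤ 1 → yy P δ V ^ 2 ≤ X →
  κ * bm l g X P δ V t = dq (Icc 1 (16 * X)) (fun n => g n * (ou l X P δ V n : ℂ)) t

-- deps:
def K_OTA : Prop := ∀ (l X V n : ℕ) (P δ : ℝ), 1 ≤ P → 0 ≤ δ →
  0 ≤ ou l X P δ V n ∧ ou l X P δ V n ≤ om (pb l P δ V) n ∧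
  ((1 + δ) * X < n → n ≤ 8 * X → ou l X P δ V n = om (pb l P δ V) n) ∧
  (n ≤ X ∨ 8 * (1 + δ) * X < n → ou l X P δ V n = 0)

-- deps: L_TK K_OTA
def K_DNA : Prop := ∀ (l X V : ℕ) (P δ : ℝ), 2 ≤ P → 0 ≤ δ → δ ≤ 1 → 1 ≤ rs (pb l P δ V) →
  yy P δ V ^ 2 ≤ δ * X →
  ∑ n ∈ Icc 1 (16 * X),
      ((if n ∈ Ioc X (8 * X) then rs (pb l P δ V) else 0) - ou l X P δ V n) ^ 2 ≤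
    40 * X * (rs (pb l P δ V) + δ * rs (pb l P δ V) ^ 2)

-- deps: S_MV K_DIA K_DNA
def K_DEA : Prop := ∃ C : ℝ, 0 < C ∧ ∀ (l X V : ℕ) (κ : ℂ) (g : ℕ → ℂ) (P δ Z : ℝ) (T : Set ℝ),
  Iv l κ X g → 2 ≤ P → 0 ≤ δ → δ ≤ 1 → 1 ≤ rs (pb l P δ V) → yy P δ V ^ 2 ≤ δ * X → 1 ≤ Z →
  Z ≤ X → MeasurableSet T →
  mg g X Z T ≤ C * X ^ 2 * (1 / rs (pb l P δ V) + δ) +
    2 / rs (pb l P δ V) ^ 2 * ∫ t in T, gs (t / Z) * ‖bm l g X P δ V t‖ ^ 2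

-- deps: S_MV
def K_RMA : Prop := ∃ C : ℝ, 0 < C ∧ ∀ (g : ℕ → ℂ) (X v : ℕ) (P δ Z : ℝ), (∀ n, ‖g n‖ ≤ 1) →
  1 ≤ P → 0 ≤ δ → 1 ≤ Z → Z * yy P δ v ≤ X →
  ∫ t : ℝ, gs (t / Z) * ‖rc g X P δ v t‖ ^ 2 ≤ C * (X / yy P δ v) ^ 2

/-! ### The stages -/

-- deps: K_SGA K_DEA K_RMA
def K_SA1 : Prop := ∀ l : ℕ, 1 ≤ l → ∃ C : ℝ, 0 < C ∧ ∀ α0 : ℝ, 0 < α0 → ∀ᶠ ρ : ℝ in atTop,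
  ∀ (α Z : ℝ) (X : ℕ) (κ : ℂ) (g : ℕ → ℂ), Iv l κ X g → α0 ≤ α → Real.exp (5 * ρ ^ 12) ≤ X →
    1 ≤ Z → Z * Real.exp (2 * ρ ^ 12) ≤ X → mg g X Z (bw l ρ α)ᶜ ≤ C * X ^ 2 / Real.log ρ

-- deps: L_MOM
def K_TA2 : Prop := ∃ C : ℝ, 0 < C ∧ ∀ (l : ℕ) (g : ℕ → ℂ) (ρ α Z : ℝ) (X u v : ℕ),
  (∀ n, ‖g n‖ ≤ 1) → Sg ρ → Sg (nx ρ) → 0 ≤ α → α ≤ 1 / 2 → 1 ≤ Z → Z ≤ X → u < sV ρ →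
  v < sV (nx ρ) →
  ∫ t in {t : ℝ | yy (sP ρ) (sd ρ) u ^ (1 - α) < ‖qw l (sP ρ) (sd ρ) u t‖ ∧
      ‖qw l (sP (nx ρ)) (sd (nx ρ)) v t‖ ≤ yy (sP (nx ρ)) (sd (nx ρ)) v ^ (1 - (α + 1 / ρ ^ 3))},
    gs (t / Z) * ‖qw l (sP (nx ρ)) (sd (nx ρ)) v t * rc g X (sP (nx ρ)) (sd (nx ρ)) v t‖ ^ 2 ≤
    C * X ^ 2 * Real.exp (2 * ρ ^ 12 - Real.exp (ρ ^ 2) / ρ ^ 3)

-- deps: K_SGA K_DEA K_TA2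
def K_SA2 : Prop := ∀ l : ℕ, 1 ≤ l → ∃ C : ℝ, 0 < C ∧ ∀ᶠ ρ : ℝ in atTop,
  ∀ (α Z : ℝ) (X : ℕ) (κ : ℂ) (g : ℕ → ℂ), Iv l κ X g → 0 ≤ α → α ≤ 1 / 2 →
    Real.exp (5 * nx ρ ^ 12) ≤ X → 1 ≤ Z → Z ≤ X →
    mg g X Z (bw l ρ α \ bw l (nx ρ) (α + 1 / ρ ^ 3)) ≤ C * X ^ 2 / Real.log (nx ρ)

-- deps: L_SG L_LD1 K_SA1 K_SA2
def K_CHA : Prop := ∀ (l : ℕ) (α ε : ℝ) (b : ℕ), 1 ≤ l → 0 < α → 0 < ε → ∃ h0 : ℝ, 1 ≤ h0 ∧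
  ∀ᶠ r : ℝ in atTop, ∀ X : ℕ, (X : ℝ) = XX r → ∃ ρ α' : ℝ, Sg ρ ∧ b * Real.log r ≤ ρ ^ 6 ∧
    2 * ρ ^ 12 ≤ r ∧ α' ≤ α ∧ ∀ (κ : ℂ) (g : ℕ → ℂ), Iv l κ X g →
      mg g X (X / h0) (bw l ρ α')ᶜ ≤ ε * X ^ 2

-- deps: S_UM
def K_BMA : Prop := ∀ κ : ℝ, 0 < κ → ∃ (α : ℝ) (b : ℕ), 0 < α ∧ ∀ᶠ r : ℝ in atTop,
  ∀ (l : ℕ) (ρ α' : ℝ), Sg ρ → b * Real.log r ≤ ρ ^ 6 → 2 * ρ ^ 12 ≤ r → α' ≤ α →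
    Us (Real.exp (4 * r)) (Real.exp (2 * r ^ 13)) (Real.exp (κ * r ^ 13))
      (bw l ρ α' ∩ {t | Real.exp (4 * r) ≤ |t| ∧ |t| ≤ Real.exp (2 * r ^ 13)})

-- deps:
def K_BWA : Prop := ∀ (l : ℕ) (g : ℕ → ℂ) (X V : ℕ) (P δ Z η K : ℝ) (T : Set ℝ), 2 ≤ P → 0 ≤ δ →
  0 < Z → 0 ≤ η → 0 ≤ K → MeasurableSet T →
  (∀ v < V, ∀ t ∈ T, ‖qw l P δ v t‖ ≤ η * (yy P δ v / Real.log (yy P δ v))) →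
  (∀ v < V, ∫ t in T, gs (t / Z) * ‖rc g X P δ v t‖ ^ 2 ≤ K * (X / yy P δ v) ^ 2) →
  ∫ t in T, gs (t / Z) * ‖bm l g X P δ V t‖ ^ 2 ≤
    (η * ∑ v ∈ range V, 1 / Real.log (yy P δ v)) ^ 2 * K * X ^ 2

-- deps: K_PQX K_LGA K_DEA K_BWA
def K_LSA : Prop := ∀ (l : ℕ) (ε : ℝ), 1 ≤ l → 0 < ε → ∃ δ θ : ℝ, 0 < δ ∧ δ ≤ 1 / 2 ∧ 0 < θ ∧
  ∀ᶠ r : ℝ in atTop, Lg r δ 1 ∧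
    ∀ (X : ℕ) (κ : ℂ) (g : ℕ → ℂ) (Z T0 K : ℝ) (T : Set ℝ), (X : ℝ) = XX r → Iv l κ X g → 1 ≤ Z →
      Z ≤ X → 0 ≤ T0 → 0 ≤ K → MeasurableSet T →
      (∀ t ∈ T, T0 ≤ |t| ∧ |t| ≤ Real.exp (2 * r ^ 13)) →
      (∀ v < lV r, ∫ t in T, gs (t / Z) * ‖rc g X (lP r) δ v t‖ ^ 2 ≤
        K * (X / yy (lP r) δ v) ^ 2) →
      (1 / (1 + T0) + Real.exp (-r)) ^ 2 * K ≤ θ → mg g X Z T ≤ ε * X ^ 2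

-- deps: K_RMA K_LSA
def K_MIA : Prop := ∀ (l : ℕ) (ε : ℝ), 1 ≤ l → 0 < ε → ∃ T1 : ℝ, ∀ᶠ r : ℝ in atTop,
  ∀ (X : ℕ) (κ : ℂ) (g : ℕ → ℂ) (Z : ℝ), (X : ℝ) = XX r → Iv l κ X g → 1 ≤ Z → Z ≤ X →
    mg g X Z {t | T1 ≤ |t| ∧ |t| ≤ Real.exp (4 * r)} ≤ ε * X ^ 2

-- deps: S_HB K_LSA
def K_UUA : Prop := ∃ κ0 : ℝ, 0 < κ0 ∧ ∀ (l : ℕ) (ε : ℝ), 1 ≤ l → 0 < ε → ∀ᶠ r : ℝ in atTop,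
  ∀ (X : ℕ) (κ : ℂ) (g : ℕ → ℂ) (Z : ℝ) (U : Set ℝ), (X : ℝ) = XX r → Iv l κ X g → 1 ≤ Z → Z ≤ X →
    Us (Real.exp (4 * r)) (Real.exp (2 * r ^ 13)) (Real.exp (κ0 * r ^ 13)) U →
    mg g X Z U ≤ ε * X ^ 2

-- deps:
def K_SMA : Prop := ∀ T ε : ℝ, 0 < ε → ∃ ε' : ℝ, 0 < ε' ∧ ∀ (g : ℕ → ℂ) (X : ℕ) (t : ℝ),
  Sm g X ε' → |t| ≤ T → ‖FG g X t‖ ≤ ε * X

-- deps: K_CHA K_BMA K_MIA K_UUA K_SMA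
def K_FFA : Prop := ∀ (l : ℕ) (ε : ℝ), 1 ≤ l → 0 < ε → ∃ h0 ε' : ℝ, 1 ≤ h0 ∧ 0 < ε' ∧
  ∀ᶠ X : ℕ in atTop, ∀ (κ : ℂ) (g : ℕ → ℂ), Iv l κ X g → Sm g X ε' →
    mg g X (X / h0) Set.univ ≤ ε * X ^ 2

-- deps: S_PL L_SS L_OVL K_FFA
def K_MRA : Prop := ∀ (l : ℕ) (ε : ℝ), 1 ≤ l → 0 < ε → ∃ (h : ℕ) (ε' : ℝ), 1 ≤ h ∧ 0 < ε' ∧
  ∀ᶠ X : ℕ in atTop, ∀ (κ : ℂ) (g : ℕ → ℂ), Iv l κ X g → Sm g X ε' →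
    ∑ x ∈ Ioc (2 * X) (4 * X), ‖es g x h 0‖ ≤ ε * h * X

/-! ### Uniformity in the frequency -/

-- deps:
def K_SPL : Prop := ∀ (g : ℕ → ℂ) (α : ℝ), (∀ n, ‖g n‖ ≤ 1) →
  (∀ x H h I E : ℕ, I * h ≤ H → H ≤ I * h + E →
    ‖es g x H α‖ ≤ ∑ i ∈ range I, ‖es g (x + i * h) h α‖ + E) ∧
  ∀ lo hi H h : ℕ, 1 ≤ h → H ≤ lo →
    ua g lo hi H α ≤ (H : ℝ) / h * (2 * ua g lo hi h α + 2 * h) + h * (1 + Real.log hi)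

-- deps:
def K_DYA : Prop := ∀ (F : ℕ → ℝ) (w hi : ℕ) (B : ℝ), 1 ≤ w → 0 ≤ B → (∀ x, 0 ≤ F x) →
  (∀ X, w ≤ X → X ≤ hi → ∑ x ∈ Ioc (2 * X) (4 * X), F x ≤ B * X) →
  ∑ x ∈ Ioc (2 * w) hi, F x / x ≤ B * (1 + Real.log hi)

-- deps: K_MRA K_DYA
def K_MAJ : Prop := ∀ (l : ℕ) (ε : ℝ), 1 ≤ l → 0 < ε → ∃ (h : ℕ) (ε' : ℝ), 1 ≤ h ∧ 0 < ε' ∧
  ∀ᶠ w : ℕ in atTop, ∀ (hi : ℕ) (κ : ℂ) (g : ℕ → ℂ) (s : ℤ) (β : ℝ), Ok l κ ε' w hi g →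
    ua g (2 * w) hi h (s / l + β) ≤ (ε + 7 * |β| * h) * h * (1 + Real.log hi)

-- deps:
def K_LSV : Prop := ∀ (g : ℕ → ℂ) (S : Finset ℕ) (x h : ℕ) (α : ℝ), (∀ n, ‖g n‖ ≤ 1) →
  (∀ p ∈ S, 2 ≤ p) → 1 ≤ h →
  (∀ p ∈ S, ∀ p' ∈ S, p ≠ p' → rs S ^ 2 / h ≤ nn (((p : ℝ) - p') * α)) →
  ∑ p ∈ S, ‖es g x h (p * α)‖ / p ≤ 2 * h

-- deps: L_TKL
def K_MN1 : Prop := ∀ S : Finset ℕ, (∀ p ∈ S, p.Prime) → 1 ≤ rs S → ∀ᶠ hi : ℕ in atTop,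
  ∀ lo H : ℕ, H ≤ lo → ∑ x ∈ Ioc lo hi, (∑ n ∈ Ioc x (x + H), |rs S - om S n|) / x ≤
    8 * H * √(rs S) * Real.log hi

-- deps: K_SPL
def K_MN2 : Prop := ∀ (g : ℕ → ℂ) (κ : ℂ) (lo hi H h p : ℕ) (α : ℝ), Iv 1 κ hi g → p.Prime →
  p ^ 2 ≤ hi → p ≤ lo → H ≤ lo → 1 ≤ h →
  ∑ x ∈ Ioc lo hi, ‖∑ n ∈ (Ioc x (x + H)).filter (p ∣ ·), g n * ee (α * n)‖ / x ≤
    2 * H / h * (ua g 0 (2 * hi) h (p * α) / p) + 2 * h * (1 + Real.log hi)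

-- deps: K_LSV K_MN1 K_MN2
def K_MIN : Prop := ∀ (S : Finset ℕ) (y : ℕ), (∀ p ∈ S, p.Prime ∧ p ≤ y) → 1 ≤ rs S →
  ∀ᶠ hi : ℕ in atTop, ∀ (g : ℕ → ℂ) (κ : ℂ) (lo H h : ℕ) (α : ℝ), Iv 1 κ hi g → 1 ≤ h →
    y * h ≤ H → H ≤ lo →
    (∀ p ∈ S, ∀ p' ∈ S, p ≠ p' → rs S ^ 2 / h ≤ nn (((p : ℝ) - p') * α)) →
    ua g lo hi H α ≤ 24 * H * Real.log hi / √(rs S)

-- deps: K_SPL K_MAJ K_MIN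
def K_UAL : Prop := ∀ ε : ℝ, 0 < ε → ∃ (l H0 : ℕ) (ε' : ℝ), 1 ≤ l ∧ 0 < ε' ∧ ∀ H : ℕ, H0 ≤ H →
  ∀ᶠ w : ℕ in atTop, ∀ (hi : ℕ) (κ : ℂ) (g : ℕ → ℂ) (α : ℝ), w ≤ hi → Ok l κ ε' w hi g →
    ua g (2 * w) hi H α ≤ ε * H * Real.log hi

/-! ### The two functions -/

-- deps:
def K_LZC : Prop := ∀ (q : ℕ) [NeZero q] (χ : DirichletCharacter ℂ q) (s : ℂ), 1 < s.re →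
  LSeries (fun n => lc n * ch χ n) s * LFunction χ s = LFunction (χ ^ 2) (2 * s)

-- deps: K_LZC
def K_LQC : Prop := ∀ (q : ℕ) [NeZero q] (χ : DirichletCharacter ℂ q), ∃ G : ℂ → ℂ,
  ContinuousOn G {s | 1 ≤ s.re} ∧ ∀ s : ℂ, 1 < s.re → G s = LSeries (fun n => lc n * ch χ n) s

-- deps: K_LQC
def K_LXC : Prop := ∀ (q : ℕ) [NeZero q] (χ : DirichletCharacter ℂ q) (ε : ℝ), 0 < ε →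
  ∀ᶠ N : ℕ in atTop, ‖∑ n ∈ Icc 1 N, lc n * ch χ n‖ ≤ ε * N

-- deps: K_LXC
def K_LXP : Prop := ∀ (l : ℕ) (ε : ℝ), 1 ≤ l → 0 < ε → ∀ᶠ N : ℕ in atTop, ∀ b : ℕ,
  ‖∑ n ∈ (Icc 1 N).filter (· ≡ b [MOD l]), lc n‖ ≤ ε * N

-- deps:
def K_OK1 : Prop := ∀ (l : ℕ) (ε : ℝ), 1 ≤ l → 0 < ε → ∃ K : ℕ, ∀ p : Pm, Rm K p →
  Ok l 1 ε p.w (p.Y ^ 3) (g1 p)

-- deps: K_LXP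
def K_OK2 : Prop := ∀ (l : ℕ) (ε : ℝ), 1 ≤ l → 0 < ε → ∃ K : ℕ, ∀ p : Pm, Rm K p →
  Ok l (-1) ε p.w (p.Y ^ 3) (g2 p)

-- deps: K_UAL K_OK1 K_OK2
def K_UF : Prop := ∀ ε : ℝ, 0 < ε → ∃ H0 : ℕ, ∀ H1 : ℕ, ∃ K : ℕ, ∀ (p : Pm) (s : Bool), Rm K p →
  Un (fun n => (fv p s n : ℂ)) (2 * p.w) (p.Y ^ 3) H0 H1 (ε * Real.log p.Y)

end Pool.Agent.P.LF
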