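import Pool.Agent.P.MP_e94e4b_nt.LF.IfA

/-! Statements of the steps, part B: the twisted correlation and the stars. -/

namespace Pool.Agent.P.LF

open Finset Real Filter Topology MeasureTheory
open Pool.Agent.P.MP_e86632_nt (ee nn)
open Pool.Agent.P.MP_8be758_nt.Avg (gs nsq)
open Pool.Agent.P.E2
open Pool.Agent.P.PAR
open ArithmeticFunction (cardFactors vonMangoldt)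

/-! ### The coding argument -/

-- deps: L_CRT
def K_HOE : Prop := ∀ (S : Finset ℕ) (f : ℕ → ℕ → ℝ) (R η : ℝ), (∀ q ∈ S, q.Prime) → 0 < R →
  0 ≤ η → η ≤ R → (∀ q ∈ S, (∀ y, f q (y + q) = f q y ∧ |f q y| ≤ R) ∧ ∑ y ∈ range q, f q y = 0) →
  (((range (∏ q ∈ S, q)).filter fun y => η * S.card ≤ ∑ q ∈ S, f q y).card : ℝ) ≤
    Real.exp (-(η ^ 2 * S.card / (4 * R ^ 2))) * (∏ q ∈ S, q : ℕ)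

open Classical in
-- deps: K_HOE
def K_GD2 : Prop := ∀ (D s Δ P : ℕ) (d η : ℝ) (w : ℕ → ℝ), Δ ≤ 2 * D → 0 ≤ d → d ≤ 1 → 0 ≤ η →
  η ≤ 1 → (∀ q, |w q| ≤ 1) →
  (∀ x x' y, (∀ i < 8 * P, x i = x' i) → Ge D s Δ P d η w x y → Ge D s Δ P d η w x' y) ∧
  (∀ x y, Ge D s Δ P d η w x (y + ∏ q ∈ pq D P, q) ↔ Ge D s Δ P d η w x y) ∧
  ∀ x, (((range (∏ q ∈ pq D P, q)).filter (Ge D s Δ P d η w x)).card : ℝ) ≤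
    Real.exp (-(η ^ 2 * (pq D P).card / 324)) * (∏ q ∈ pq D P, q : ℕ)

-- deps: L_ED L_PQC K_GD2
def K_EB2 : Prop := ∀ (D s Δ L b J : ℕ) (d η : ℝ) (w : ℕ → ℝ) (ξ : ℕ → BB) (P k : ℕ → ℕ), 1 ≤ D →
  Δ ≤ 2 * D → 0 ≤ d → d ≤ 1 → 0 ≤ η → η ≤ 1 → (∀ q, |w q| ≤ 1) → 0 < L → 1 ≤ P 0 →
  (∀ j < J, 2 ≤ P j ∧ 1 ≤ k j ∧ P (j + 1) = k j * P j ∧ (∏ q ∈ pq D (P j), q) ∣ L ∧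
    P j / (2 * D * Real.log (P j)) ≤ (pq D (P j)).card) →
  ∑ j ∈ range J, (η ^ 2 / (5184 * D) / Real.log (P j) * tc D s Δ (P j) L d η w ξ b -
    1 / P j - 1 / k j) ≤ Real.log 4

-- deps: K_GD2
def K_TB2 : Prop := ∀ (D s Δ P L b : ℕ) (d η : ℝ) (w : ℕ → ℝ) (ξ : ℕ → BB), Δ ≤ 2 * D → 0 ≤ d →
  d ≤ 1 → 0 ≤ η → η ≤ 1 → (∀ q, |w q| ≤ 1) → 0 < L → (∀ q ∈ pq D P, q ∣ L) →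
  ∑ i ∈ range L, ∑ q ∈ pq D P, w q * (Fq D s Δ P d (fun j => ξ (b * L + i + j)) q (b * L + i) -
      Mq D Δ P d (fun j => ξ (b * L + i + j)) q) ≤
    (pq D P).card * (L * (η + 9 * tc D s Δ P L d η w ξ b) + 72 * P)

/-! ### The mean on the multiples -/

-- deps:
def K_FSA : Prop := ∀ (L : ℕ) (ω : ℝ), ∃ C : ℝ, ∀ (q e lo hi : ℕ) (σ : ℝ), 1 ≤ q → q ≤ L → e ≤ L →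
  |σ| ≤ 1 → ∑ b ∈ Ioc lo hi, ∑ i ∈ range L, |wb σ ω L b q / ((b : ℝ) * L) -
    wt σ ω (((b * L + i + e : ℕ) : ℝ) / q) / (b * L + i + e : ℕ)| ≤ C

-- deps:
def K_FSB : Prop := ∀ (L q e lo hi : ℕ) (G : ℕ → ℝ), 1 ≤ q → q ≤ L → e ≤ L → 1 ≤ lo →
  (∀ m, |G m| ≤ 1) →
  |∑ b ∈ Ioc lo hi, ∑ i ∈ range L,
      (if q ∣ b * L + i + e then G ((b * L + i + e) / q) / (b * L + i + e : ℕ) else 0) -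
    (∑ m ∈ Ioc lo hi, G m / m) / q| ≤ 6 * L

-- deps: K_FSA K_FSB
def K_FS : Prop := ∀ (D s Δ P L : ℕ) (ω : ℝ), s ≤ 2 * D → 8 * P ≤ L → ∃ C : ℝ,
  ∀ (lo hi : ℕ) (d σ : ℝ) (ξ : ℕ → BB) (γ : ℕ → ℝ), 1 ≤ lo → |σ| ≤ 1 → (∀ m, |γ m| ≤ 1) →
    Rl D s Δ d (2 * P) lo ξ γ →
    4 * P * rs (pq D P) * cr σ ω γ lo hi - C ≤ fa D s Δ P L d σ ω ξ lo hi

/-! ### The mean of the means -/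

-- deps:
def K_ORT : Prop := ∀ (M : ℕ) (z : ℤ), 1 ≤ M →
  ∑ k ∈ range M, ee ((k : ℝ) * z / M) = if (M : ℤ) ∣ z then (M : ℂ) else 0

-- deps: K_ORT
def K_FOU : Prop := ∀ (S Ξ : Finset ℕ) (c φ ψ : ℕ → ℂ) (e : ℕ → ℕ) (P : ℕ) (τ : ℝ), 1 ≤ P →
  0 ≤ τ → (∀ q ∈ S, e q ≤ 4 * P) → (∀ j, ‖φ j‖ ≤ 1) → (∀ j, ‖ψ j‖ ≤ 1) →
  (∀ k < 16 * P, k ∉ Ξ → ‖hat S c e (16 * P) k‖ ≤ τ) →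
  ‖∑ q ∈ S, c q * ∑ j ∈ range (4 * P), φ j * ψ (j + e q)‖ ≤ 8 * P * τ +
    ∑ k ∈ Ξ, ‖hat S c e (16 * P) k‖ *
      ‖∑ j ∈ range (4 * P), φ j * ee ((k : ℝ) / (16 * P : ℕ) * j)‖ / 2

-- deps: K_ORT
def K_F4 : Prop := ∀ (S : Finset ℕ) (c : ℕ → ℂ) (e : ℕ → ℕ) (M : ℕ), 1 ≤ M →
  (∀ q ∈ S, 2 * e q < M) →
  ((∑ k ∈ range M, ‖hat S c e M k‖ ^ 4 : ℝ) : ℂ) =
    M * ∑ x ∈ ((S ×ˢ S) ×ˢ (S ×ˢ S)).filter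
        (fun x => e x.1.1 + e x.1.2 = e x.2.1 + e x.2.2),
      c x.1.1 * c x.1.2 * (starRingEnd ℂ) (c x.2.1 * c x.2.2)

open Classical in
-- deps: L_PQC L_EN K_F4
def K_SPC : Prop := ∀ (D Δ : ℕ) (τ : ℝ), 1 ≤ D → 1 ≤ Δ → Δ ≤ 2 * D → 0 < τ → ∃ K0 : ℝ, 0 < K0 ∧
  ∀ᶠ P : ℕ in atTop, (((range (16 * P)).filter fun k => τ * ((pq D P).card / P) <
    ‖hat (pq D P) (fun q => 1 / (q : ℂ)) (fun q => Δ * tq D q) (16 * P) k‖).card : ℝ) ≤ K0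

-- deps:
def K_OSC : Prop := ∀ θ : ℝ, θ ≠ 0 → ∃ C : ℝ, ∀ lo hi : ℕ,
  ‖∑ b ∈ Ioc lo hi, ee (θ * √(b : ℝ)) / b‖ ≤ C

-- deps:
def K_CVX : Prop := ∀ a b c d : ℕ, 0 < a → 0 < b → 0 < c → 0 < d → a + b = c + d →
  1 / √(a : ℝ) + 1 / √(b : ℝ) = 1 / √(c : ℝ) + 1 / √(d : ℝ) → (a = c ∧ b = d) ∨ (a = d ∧ b = c)

-- deps: K_F4 K_OSC K_CVX
def K_M4 : Prop := ∀ (D Δ P L : ℕ) (ω : ℝ), 1 ≤ Δ → Δ ≤ 2 * D → 1 ≤ P → 1 ≤ L → ω ≠ 0 → ∃ C : ℝ,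
  ∀ lo hi : ℕ, ∑ b ∈ Ioc lo hi, 1 / (b : ℝ) * ∑ k ∈ range (16 * P),
      ‖hat (pq D P) (fun q => ee (ω * √((b : ℝ) * L / q)) / q) (fun q => Δ * tq D q) (16 * P) k‖ ^ 4 ≤
    32 * ((pq D P).card : ℝ) ^ 2 / P ^ 3 * (1 + Real.log hi) + C

-- deps: K_FOU K_SPC
def K_DS0 : Prop := ∀ (D Δ : ℕ) (η : ℝ), 1 ≤ D → 1 ≤ Δ → Δ ≤ 2 * D → 0 < η → ∃ ε' : ℝ, 0 < ε' ∧
  ∀ᶠ P : ℕ in atTop, ∀ (L lo hi : ℕ) (d σ : ℝ) (ξ : ℕ → BB), 2 ≤ L → 3 ≤ hi → 0 ≤ d → d ≤ 1 →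
    |σ| ≤ 1 →
    (∀ α : ℝ, ua (ph1 d ξ) lo (2 * L * hi) (4 * P) α ≤ ε' * Real.log hi * (4 * P : ℕ)) →
    da D Δ P L d σ 0 ξ lo hi ≤ η * (pq D P).card * Real.log hi

-- deps: L_PQC K_FOU K_M4
def K_DS1 : Prop := ∀ (D Δ : ℕ) (ω η : ℝ), 1 ≤ D → 1 ≤ Δ → Δ ≤ 2 * D → ω ≠ 0 → 0 < η →
  ∀ᶠ P : ℕ in atTop, ∀ L : ℕ, 1 ≤ L → ∀ᶠ hi : ℕ in atTop, ∀ (lo : ℕ) (d σ : ℝ) (ξ : ℕ → BB),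
    0 ≤ d → d ≤ 1 → |σ| ≤ 1 → da D Δ P L d σ ω ξ lo hi ≤ η * (pq D P).card * Real.log hi

/-! ### The correlation -/

-- deps: L_PQC K_TB2 K_FS K_DS0 K_DS1
def K_TH2 : Prop := ∀ (D s Δ : ℕ) (ω ε : ℝ), 1 ≤ D → s ≤ 2 * D → 1 ≤ Δ → Δ ≤ 2 * D → 0 < ε →
  ∃ (η ε' : ℝ) (K : ℕ), 0 < η ∧ η ≤ 1 ∧ 0 < ε' ∧ 8 ≤ K ∧ ∀ᶠ P : ℕ in atTop, ∀ L : ℕ, K * P ≤ L →
    (∀ q ∈ pq D P, q ∣ L) → ∀ᶠ hi : ℕ in atTop,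
      ∀ (lo : ℕ) (d σ : ℝ) (ξ : ℕ → BB) (γ : ℕ → ℝ), 1 ≤ lo → 0 ≤ d → d ≤ 1 → |σ| ≤ 1 →
        (∀ m, |γ m| ≤ 1) → Rl D s Δ d (2 * P) lo ξ γ →
        (∀ α : ℝ, ua (ph1 d ξ) lo (2 * L * hi) (4 * P) α ≤ ε' * Real.log hi * (4 * P : ℕ)) →
        ε * Real.log hi ≤ cr σ ω γ lo hi →
        ε / 9 * Real.log hi ≤
          ∑ b ∈ Ioc lo hi, 1 / (b : ℝ) * tc D s Δ P L d η (wb σ ω L b) ξ b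

-- deps: L_PQC L_LAD K_EB2 K_TH2
def K_COR : Prop := ∀ (D s Δ : ℕ) (ω ε : ℝ), 1 ≤ D → s ≤ 2 * D → 1 ≤ Δ → Δ ≤ 2 * D → 0 < ε →
  ∃ ε' : ℝ, 0 < ε' ∧ ∀ H0 : ℕ, ∃ L : ℕ, ∀ᶠ hi : ℕ in atTop,
    ∀ (lo : ℕ) (d σ : ℝ) (ξ : ℕ → BB) (γ : ℕ → ℝ), 1 ≤ lo → 0 ≤ d → d ≤ 1 → |σ| ≤ 1 →
      (∀ m, |γ m| ≤ 1) → Rl D s Δ d L lo ξ γ →
      Un (ph1 d ξ) lo (2 * L * hi) H0 L (ε' * Real.log hi) → cr σ ω γ lo hi ≤ ε * Real.log hi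

-- deps: K_ORT
def K_PRG : Prop := ∀ (G : ℕ → ℂ) (a c lo lo' hi hi' H : ℕ) (B : ℝ), 1 ≤ a → c + 1 ≤ 2 * a →
  lo' + 2 ≤ lo → a * hi ≤ hi' → (∀ α : ℝ, ua G lo' hi' (a * H) α ≤ B) →
  ∀ α : ℝ, ua (fun i => G (a * i - c)) lo hi H α ≤ a * B

-- deps:
def K_REL : Prop := ∀ (p : Pm) (s : Bool) (k k' Q lo : ℕ), Odd k → Odd k' → k' < k → Q ≤ p.z1 →
  2 ≤ lo →
  ck k * k' ^ 2 ≤ 2 * (k ^ 2 * k' ^ 2) ∧ 1 ≤ ck k * k' ^ 2 - ck k' * k ^ 2 ∧ ck k + 1 ≤ 2 * k ^ 2 ∧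
  Rl (k ^ 2 * k' ^ 2) (ck k * k' ^ 2) (ck k * k' ^ 2 - ck k' * k ^ 2) (rs (lp p) / 2) Q lo
    (fun i => (fb p (!s) (Ai k i), fb p (!s) (Ai k' i)))
    (fun m => fv p s (Ai k m) * fv p s (Ai k' m))

-- deps: K_UF K_COR K_PRG K_REL
def K_CO2 : Prop := ∀ (k k' : ℕ) (ω ε : ℝ), Odd k → Odd k' → k ≠ k' → 0 < ε → ∃ K : ℕ,
  ∀ (p : Pm) (s : Bool) (σ : ℝ), Rm K p → |σ| ≤ 1 →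
    cr σ ω (fun m => fv p s (Ai k m) * fv p s (Ai k' m)) (4 * p.w) (p.Y ^ 2) ≤ ε * Real.log p.Y

/-! ### Stars -/

-- deps:
def K_ODD : Prop := ∀ A B : ℕ, 1 ≤ A →
  (Real.log B - Real.log A) / 2 - 1 ≤ ∑ u ∈ (Ioc A B).filter Odd, 1 / (u : ℝ)

-- deps: S_MR1
def K_RN1 : Prop := ∀ η : ℝ, 0 < η → η ≤ 1 / 4 → ∀ᶠ Y : ℕ in atTop,
  η / 32 ≤ rs ((Ioc ⌈(Y : ℝ) ^ (2 - η)⌉₊ ⌈(Y : ℝ) ^ (2 - η / 2)⌉₊).filter Nat.Prime) ∧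
    rs ((Ioc ⌈(Y : ℝ) ^ (2 - η)⌉₊ ⌈(Y : ℝ) ^ (2 - η / 2)⌉₊).filter Nat.Prime) ≤ 1

-- deps: K_ODD K_RN1
def K_RNG : Prop := ∀ (η : ℝ) (K : ℕ), 0 < η → η ≤ 1 / 4 → ∀ᶠ Y : ℕ in atTop,
  ∃ p : Pm, p.Y = Y ∧ Rn η (η / 32) K p

-- deps:
def K_FEJ : Prop := ∀ J : ℕ, 1 ≤ J → (∀ x, 0 ≤ fj J x) ∧
  ∀ u m : ℕ, Odd u → m ∈ iu (3 * J) u → 1 ≤ fj J m

-- deps: K_OSC
def K_FJM : Prop := ∀ J : ℕ, 1 ≤ J → ∃ C : ℝ, ∀ lo hi : ℕ,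
  ∑ m ∈ Ioc lo hi, fj J m / m ≤ 4 / J * (1 + Real.log hi) + C

-- deps:
def K_AVS : Prop := ∀ (G : ℕ → ℂ) (A B h : ℕ), (∀ n, ‖G n‖ ≤ 1) → 1 ≤ h →
  ‖∑ n ∈ Ioc A B, G n‖ ≤ (∑ x ∈ Ioc A B, ‖es G x h 0‖) / h + 2 * h

-- deps: L_CW2 K_AVS
def K_FM : Prop := ∀ (G : ℕ → ℝ) (p : Pm) (k h : ℕ) (B : ℝ), (∀ n, |G n| ≤ 1) → 3 ≤ k → 1 ≤ h →
  Rm (20 * k ^ 2) p → ua (fun n => (G n : ℂ)) (2 * p.w) (p.Y ^ 3) h 0 ≤ B * h →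
  -(B + 4 * h) ≤ ∑ u ∈ uu p k, 1 / (u : ℝ) ^ 2 * ∑ m ∈ iu k u, G (su u - m)

-- deps: L_CW2 K_FEJ
def K_CHB : Prop := ∀ (p : Pm) (s t : Bool) (r : ℕ), 1 ≤ r → Rm (20 * (3 * r) ^ 2) p →
  0 < rs (lp p) →
  ∑ u ∈ uu p (3 * r), 1 / (u : ℝ) ^ 2 * ∑ m ∈ iu (3 * r) u, (fv p t (su u - m) + rs (lp p) / 2) -
    4 / (r * rs (lp p)) ^ 2 * ∑ m ∈ Ioc (4 * p.w) (p.Y ^ 2),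
      fj r m * (∑ i ∈ range r, fv p s (Ai (2 * i + 3) m)) ^ 2 / m ≤ tt p s t r

-- deps: K_FEJ K_FJM
def K_SQR : Prop := ∀ r : ℕ, 1 ≤ r → ∃ C : ℝ, ∀ (F : ℕ → ℕ → ℝ) (lo hi : ℕ) (E : ℝ), 0 ≤ E →
  (∀ i m, |F i m| ≤ 1) →
  (∀ i < r, ∀ j < r, i ≠ j → ∀ a < r, ∀ b < r,
    cr ((-1) ^ (a + b)) ((a : ℝ) - b) (fun m => F i m * F j m) lo hi ≤ E) →
  ∑ m ∈ Ioc lo hi, fj r m * (∑ i ∈ range r, F i m) ^ 2 / m ≤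
    4 * (1 + Real.log hi) + C + 4 * r ^ 2 * E

-- deps:
def K_GEO : Prop := ∀ (p : Pm) (s t : Bool) (k u : ℕ), Odd k → 3 ≤ k → k ≤ p.z1 → Odd u →
  20 * k ^ 2 ≤ u →
  ((iu k u).filter fun m => fb p t (su u - m) ∧ fb p s (Ai k m)).card ≤ cn p s t (k * u / 2)

-- deps: K_GEO
def K_CT : Prop := ∀ (p : Pm) (s t : Bool) (r : ℕ), 1 ≤ r → Rm (20 * (3 * r) ^ 2) p →
  tt p s t r ≤ 9 * r ^ 3 * ∑ N ∈ Icc 1 p.Y, (cn p s t N : ℝ) / N ^ 2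

-- deps: L_CW2 K_UF K_CO2 K_FM K_CHB K_SQR K_CT
def K_MAIN : Prop := ∀ η d0 : ℝ, 0 < η → 0 < d0 → ∃ (c : ℝ) (K : ℕ), 0 < c ∧
  ∀ (p : Pm) (s t : Bool), Rn η d0 K p →
    c * Real.log p.Y ≤ ∑ N ∈ Icc 1 p.Y, (cn p s t N : ℝ) / N ^ 2

-- deps: K_RNG K_MAIN
def K_FIN : Prop := ∀ (η : ℝ) (s t : ℕ), 0 < η → s < 2 → t < 2 → ∃ c : ℝ, 0 < c ∧
  ∀ᶠ Y : ℕ in atTop, c * Real.log Y ≤ lm Y fun N => c * N ≤ (cf η s t N : ℝ)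

end Pool.Agent.P.LF
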