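import Pool.Agent.P.MP_e94e4b_nt.LF.IfB

/-! Step HOE. -/

namespace Pool.Agent.P.LF

open Finset Real Filter Topology MeasureTheory
open Pool.Agent.P.MP_e86632_nt (ee nn ee_add norm_ee ee_neg ee_zero)
open Pool.Agent.P.MP_8be758_nt.Avg (gs nsq gs_pos gs_le_one gs_neg gs_anti)
open Pool.Agent.P.E2
open Pool.Agent.P.PAR
open ArithmeticFunction (cardFactors vonMangoldt)
open DirichletCharacter (LFunction)

namespace HOEc

theorem one (q : ℕ) (g : ℕ → ℝ) {R s : ℝ} (hs : 0 ≤ s) (h1 : s * R ≤ 1)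
    (hg : ∀ y, |g y| ≤ R) (h0 : ∑ y ∈ range q, g y = 0) :
    ∑ y ∈ range q, Real.exp (s * g y) ≤ q * Real.exp ((s * R) ^ 2) := by
  have h2 : ∑ y ∈ range q, Real.exp (s * g y) ≤ ∑ y ∈ range q, (1 + (s * R) ^ 2 + s * g y) := by
    refine sum_le_sum fun y _ => ?_
    have a : |s * g y| ≤ s * R := by
      rw [abs_mul, abs_of_nonneg hs]; exact mul_le_mul_of_nonneg_left (hg y) hs
    have b := (abs_le.1 (Real.abs_exp_sub_one_sub_id_le (a.trans h1))).2
    have c : (s * g y) ^ 2 ≤ (s * R) ^ 2 := sq_le_sq' (abs_le.1 a).1 (abs_le.1 a).2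
    linarith
  refine h2.trans ?_
  rw [sum_add_distrib, ← mul_sum, h0, mul_zero, add_zero, sum_const, card_range, nsmul_eq_mul]
  exact mul_le_mul_of_nonneg_left (by linarith [Real.add_one_le_exp ((s * R) ^ 2)])
    (Nat.cast_nonneg q)

end HOEc

theorem r_HOE (hCRT : L_CRT) :
    K_HOE := by
  intro S f R η hS hR h0 h1 hf
  set s : ℝ := η / (2 * R ^ 2) with hs
  have s0 : 0 ≤ s := by positivity
  have s1 : s * R ≤ 1 := by
    rw [hs, div_mul_eq_mul_div, div_le_one (by positivity)]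
    nlinarith
  have h2 : (((range (∏ q ∈ S, q)).filter fun y => η * S.card ≤ ∑ q ∈ S, f q y).card : ℝ) ≤
      ∑ y ∈ range (∏ q ∈ S, q),
        Real.exp (-(s * (η * S.card))) * ∏ q ∈ S, Real.exp (s * f q y) := by
    rw [card_eq_sum_ones, Nat.cast_sum]
    refine le_trans (sum_le_sum fun y hy => ?_)
      (sum_le_sum_of_subset_of_nonneg (filter_subset _ _) fun y _ _ => by positivity)
    rw [← Real.exp_sum, ← Real.exp_add, Nat.cast_one, ← mul_sum]
    refine Real.one_le_exp ?_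
    linarith [mul_le_mul_of_nonneg_left (mem_filter.1 hy).2 s0]
  refine h2.trans ?_
  rw [← mul_sum, hCRT S (fun q y => Real.exp (s * f q y)) hS
    (fun q hq y => by simp only [((hf q hq).1 y).1])]
  have h3 : ∏ q ∈ S, ∑ y ∈ range q, Real.exp (s * f q y) ≤
      ∏ q ∈ S, (q : ℝ) * Real.exp ((s * R) ^ 2) :=
    prod_le_prod (fun q _ => sum_nonneg fun y _ => (Real.exp_pos _).le) fun q hq =>
      HOEc.one q (f q) s0 s1 (fun y => ((hf q hq).1 y).2) (hf q hq).2
  refine (mul_le_mul_of_nonneg_left h3 (Real.exp_pos _).le).trans ?_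
  rw [prod_mul_distrib, prod_const, ← Real.exp_nat_mul, Nat.cast_prod,
    mul_comm (∏ q ∈ S, (q : ℝ)), ← mul_assoc, ← Real.exp_add]
  refine mul_le_mul_of_nonneg_right (Real.exp_le_exp.2 (le_of_eq ?_)) (by positivity)
  rw [hs]
  field_simp
  ring

end Pool.Agent.P.LF
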