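import Pool.Agent.P.MP_e94e4b_nt.LF.IfB

/-! Step MAIN. -/

namespace Pool.Agent.P.LF

open Finset Real Filter Topology MeasureTheory
open Pool.Agent.P.MP_e86632_nt (ee nn ee_add norm_ee ee_neg ee_zero)
open Pool.Agent.P.MP_8be758_nt.Avg (gs nsq gs_pos gs_le_one gs_neg gs_anti)
open Pool.Agent.P.E2
open Pool.Agent.P.PAR
open ArithmeticFunction (cardFactors vonMangoldt)
open DirichletCharacter (LFunction)

namespace MAINc

theorem ev_Rm {Φ : Pm → Prop} (h : ∃ K, ∀ p, Rm K p → Φ p) :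
    ∀ᶠ K : ℕ in atTop, ∀ p, Rm K p → Φ p := by
  obtain ⟨K, h⟩ := h
  filter_upwards [eventually_ge_atTop K] with K' hK p hp using h p (hp.mono hK)

theorem pairs (hCO2 : K_CO2) (r : ℕ) {ε : ℝ} (hε : 0 < ε) : ∀ᶠ K : ℕ in atTop,
    ∀ i ∈ range r, ∀ j ∈ range r, ∀ a ∈ range r, ∀ b ∈ range r, ∀ p : Pm, Rm K p → i ≠ j →
      ∀ s : Bool, cr ((-1) ^ (a + b)) ((a : ℝ) - b)
        (fun m => fv p s (Ai (2 * i + 3) m) * fv p s (Ai (2 * j + 3) m)) (4 * p.w) (p.Y ^ 2) ≤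
        ε * Real.log p.Y := by
  simp only [eventually_all_finset]
  intro i _ j _ a _ b _
  refine ev_Rm ?_
  by_cases h : i = j
  · exact ⟨0, fun _ _ h' => absurd h h'⟩
  obtain ⟨K, hK⟩ := hCO2 (2 * i + 3) (2 * j + 3) ((a : ℝ) - b) ε ⟨i + 1, by ring⟩ ⟨j + 1, by ring⟩
    (by omega) hε
  exact ⟨K, fun p hp _ s => hK p s _ hp (by simp)⟩

theorem first (hCW2 : L_CW2) {η d0 : ℝ} {K k : ℕ} {p : Pm} (hp : Rn η d0 K p) (hd : 0 < d0)
    (hk : 3 ≤ k) (hK : 20 * k ^ 2 ≤ K) (F : ℕ → ℕ → ℝ) :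
    ∑ u ∈ uu p k, 1 / (u : ℝ) ^ 2 * ∑ m ∈ iu k u, F u m + d0 * η / (256 * k) * Real.log p.Y ≤
      ∑ u ∈ uu p k, 1 / (u : ℝ) ^ 2 * ∑ m ∈ iu k u, (F u m + rs (lp p) / 2) := by
  have k0 : (0 : ℝ) < k := by exact_mod_cast (by omega : 0 < k)
  have h1 := hp.ms k (by omega) (by nlinarith)
  have h2 : d0 * η / (256 * k) * Real.log p.Y ≤ ∑ u ∈ uu p k, d0 / (8 * k) * (1 / (u : ℝ)) := by
    rw [← mul_sum]
    refine le_trans (le_of_eq ?_) (mul_le_mul_of_nonneg_left h1 (by positivity))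
    field_simp; ring
  refine (add_le_add le_rfl h2).trans ?_
  rw [← sum_add_distrib]
  refine sum_le_sum fun u hu => ?_
  have h3 := (mem_uu.1 hu).1.1
  have h4 := hp.rm.ku
  have u0 : (0 : ℝ) < u := by exact_mod_cast (by omega : 0 < u)
  have h5 := (hCW2 k u hk (by omega)).1
  rw [sum_add_distrib, mul_add, sum_const, nsmul_eq_mul]
  refine add_le_add le_rfl ?_
  calc d0 / (8 * k) * (1 / (u : ℝ)) = 1 / (u : ℝ) ^ 2 * (u / (4 * k) * (d0 / 2)) := by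
        field_simp; norm_num
    _ ≤ _ := by gcongr; exact hp.dl

end MAINc

theorem r_MAIN (hCW2 : L_CW2) (hUF : K_UF) (hCO2 : K_CO2) (hFM : K_FM) (hCHB : K_CHB)
    (hSQR : K_SQR) (hCT : K_CT) :
    K_MAIN := by
  intro η d0 hη hd
  obtain ⟨r, hr, r1⟩ : ∃ r : ℕ, 122880 / (η * d0 ^ 3) ≤ r ∧ 1 ≤ r :=
    ⟨⌈122880 / (η * d0 ^ 3)⌉₊ + 1, by push_cast; linarith [Nat.le_ceil (122880 / (η * d0 ^ 3))],
      by omega⟩
  have r1' : (1 : ℝ) ≤ r := by exact_mod_cast r1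
  obtain ⟨σ, hσ, σ0⟩ : ∃ σ : ℝ, σ = d0 * η / (3840 * r) ∧ 0 < σ := ⟨_, rfl, by positivity⟩
  obtain ⟨H0, hU⟩ := hUF σ σ0
  obtain ⟨K1, hU⟩ := hU (H0 + 1)
  obtain ⟨C, hC⟩ := hSQR r r1
  obtain ⟨K, k1, k2, k3, k4⟩ := ((eventually_ge_atTop K1).and
    ((eventually_ge_atTop (20 * (3 * r) ^ 2)).and
    ((tendsto_natCast_atTop_atTop (R := ℝ).eventually_ge_atTop
      ((4 * (H0 + 1 : ℕ) + 4 * (4 + |C|) / d0 ^ 2) / σ)).and
    (MAINc.pairs hCO2 r (ε := σ * d0 ^ 2 / 16) (by positivity))))).exists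
  refine ⟨σ / (9 * r ^ 3), K, by positivity, fun p s t hp => ?_⟩
  have p2 := hp.rm.mono k2
  have d1 : 0 < rs (lp p) := hd.trans_le hp.dl
  have l0 : 0 ≤ Real.log p.Y := Real.log_natCast_nonneg _
  have a1 := hCT p s t r r1 p2
  have a2 := hCHB p s t r r1 p2 d1
  have a3 := MAINc.first hCW2 hp hd (k := 3 * r) (by omega) k2 fun u m => fv p t (su u - m)
  have a4 := hFM (fv p t) p (3 * r) (H0 + 1) _ (abs_fv hp.rm.d1 t) (by omega) (by omega) p2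
    (hU p t (hp.rm.mono k1) (H0 + 1) (by omega) le_rfl 0)
  have a5 := hC (fun i m => fv p s (Ai (2 * i + 3) m)) (4 * p.w) (p.Y ^ 2)
    (σ * d0 ^ 2 / 16 * Real.log p.Y) (by positivity) (fun _ _ => abs_fv hp.rm.d1 s _)
    fun i hi j hj hij a ha b hb => k4 i (mem_range.2 hi) j (mem_range.2 hj) a (mem_range.2 ha) b
      (mem_range.2 hb) p hp.rm hij s
  rw [Nat.cast_pow, Real.log_pow] at a5
  have a6 : 4 * ((H0 + 1 : ℕ) : ℝ) + 4 * (4 + |C|) / d0 ^ 2 ≤ σ * Real.log p.Y := by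
    rw [div_le_iff₀' σ0] at k3
    exact k3.trans (mul_le_mul_of_nonneg_left hp.rm.ky σ0.le)
  have a7 : d0 * η / (256 * ((3 * r : ℕ) : ℝ)) = 5 * σ := by
    rw [hσ]; push_cast; field_simp; norm_num
  have a8 : 32 / (r * d0) ^ 2 ≤ σ := by
    rw [div_le_iff₀ (by positivity)] at hr
    rw [hσ, div_le_div_iff₀ (by positivity) (by positivity)]
    nlinarith [mul_le_mul_of_nonneg_left hr (show (0 : ℝ) ≤ r by positivity)]
  have a9 : 4 / (r * rs (lp p)) ^ 2 * ∑ m ∈ Ioc (4 * p.w) (p.Y ^ 2),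
      fj r m * (∑ i ∈ range r, fv p s (Ai (2 * i + 3) m)) ^ 2 / m ≤
      4 * (4 + |C|) / d0 ^ 2 + 2 * (σ * Real.log p.Y) := by
    have b1 := le_abs_self C
    calc _ ≤ 4 / (r * rs (lp p)) ^ 2 * ((4 + |C|) + 8 * Real.log p.Y +
          4 * r ^ 2 * (σ * d0 ^ 2 / 16 * Real.log p.Y)) :=
          mul_le_mul_of_nonneg_left (by push_cast at a5; linarith) (by positivity)
      _ ≤ 4 / (r * d0) ^ 2 * ((4 + |C|) + 8 * Real.log p.Y +
          4 * r ^ 2 * (σ * d0 ^ 2 / 16 * Real.log p.Y)) := by gcongr; exact hp.dl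
      _ = 4 * (4 + |C|) / (r * d0) ^ 2 + 32 / (r * d0) ^ 2 * Real.log p.Y +
          σ * Real.log p.Y := by field_simp; ring
      _ ≤ 4 * (4 + |C|) / (1 * d0) ^ 2 + σ * Real.log p.Y + σ * Real.log p.Y := by gcongr
      _ = _ := by ring
  rw [a7] at a3
  rw [div_mul_eq_mul_div, div_le_iff₀' (by positivity)]
  linarith

end Pool.Agent.P.LF
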