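import Pool.Agent.P.MP_e94e4b_nt.LF.IfA

/-! Step MN2. -/

namespace Pool.Agent.P.LF

open Finset Real Filter Topology MeasureTheory
open Pool.Agent.P.MP_e86632_nt (ee nn ee_add norm_ee ee_neg ee_zero)
open Pool.Agent.P.MP_8be758_nt.Avg (gs nsq gs_pos gs_le_one gs_neg gs_anti)
open Pool.Agent.P.E2
open Pool.Agent.P.PAR
open ArithmeticFunction (cardFactors vonMangoldt)
open DirichletCharacter (LFunction)

namespace MN2c

theorem dil {g : ℕ → ℂ} {κ : ℂ} {hi p : ℕ} (hg : Iv 1 κ hi g) (hp : p.Prime) (h2 : p ^ 2 ≤ hi)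
    (x H : ℕ) (α : ℝ) :
    ‖∑ n ∈ (Ioc x (x + H)).filter (p ∣ ·), g n * ee (α * n)‖ =
      ‖es g (x / p) ((x + H) / p - x / p) (p * α)‖ := by
  have e : ∑ n ∈ (Ioc x (x + H)).filter (p ∣ ·), g n * ee (α * n) =
      κ * es g (x / p) ((x + H) / p - x / p) (p * α) := by
    rw [es, Nat.add_sub_cancel' (Nat.div_le_div_right (Nat.le_add_right _ _)), mul_sum]
    symm
    refine sum_bij (fun m _ => p * m) (fun m hm => ?_)
      (fun _ _ _ _ h => Nat.eq_of_mul_eq_mul_left hp.pos h) (fun n hn => ?_) fun m hm => ?_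
    · obtain ⟨a, b⟩ := mem_Ioc.1 hm
      rw [Nat.div_lt_iff_lt_mul hp.pos] at a
      rw [Nat.le_div_iff_mul_le hp.pos] at b
      exact mem_filter.2 ⟨mem_Ioc.2 ⟨by linarith, by linarith⟩, dvd_mul_right _ _⟩
    · obtain ⟨a, m, rfl⟩ := mem_filter.1 hn
      obtain ⟨a, b⟩ := mem_Ioc.1 a
      exact ⟨m, mem_Ioc.2 ⟨(Nat.div_lt_iff_lt_mul hp.pos).2 (by linarith),
        (Nat.le_div_iff_mul_le hp.pos).2 (by linarith)⟩, rfl⟩
    · rw [hg.mul p m hp Nat.modEq_one h2 (Nat.ne_zero_of_lt (mem_Ioc.1 hm).1), mul_assoc κ]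
      congr 3
      push_cast; ring
  rw [e, norm_mul, hg.nk, one_mul]

theorem fib {F : ℕ → ℝ} (hF : ∀ x, 0 ≤ F x) {p c lo hi : ℕ} (hp : 0 < p) (h1 : p ≤ lo)
    (h2 : c ≤ lo / p) : ∑ x ∈ Ioc lo hi, F (x / p + c) / x ≤ 2 * ∑ y ∈ Ioc 0 (2 * hi), F y / y := by
  have p0 : (0 : ℝ) < p := by exact_mod_cast hp
  have k : ∀ x ∈ Ioc lo hi, 1 ≤ x / p ∧ c ≤ x / p ∧ x / p ≤ hi := fun x hx =>
    ⟨(Nat.le_div_iff_mul_le hp).2 (by linarith [(mem_Ioc.1 hx).1]),
      h2.trans (Nat.div_le_div_right (mem_Ioc.1 hx).1.le),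
      (Nat.div_le_self _ _).trans (mem_Ioc.1 hx).2⟩
  rw [← sum_fiberwise_of_maps_to (g := fun x => x / p + c) (t := Ioc 0 (2 * hi))
    fun x hx => mem_Ioc.2 ⟨by linarith [(k x hx).1, Nat.zero_le c],
      by linarith [(k x hx).2.1, (k x hx).2.2]⟩, mul_sum]
  refine sum_le_sum fun y hy => ?_
  have y0 : (0 : ℝ) < y := by exact_mod_cast (mem_Ioc.1 hy).1
  refine (sum_le_card_nsmul _ _ (2 * (F y / y) / p) fun x hx => ?_).trans ?_
  · obtain ⟨a, b⟩ := mem_filter.1 hx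
    have c1 : p * y ≤ 2 * x := by
      have := Nat.mul_div_le x p
      have := Nat.mul_le_mul_left p (k x a).2.1
      rw [← b, mul_add]; omega
    have c2 := (Nat.cast_le (α := ℝ)).2 c1
    have x0 : (0 : ℝ) < x := by exact_mod_cast Nat.zero_lt_of_lt (mem_Ioc.1 a).1
    push_cast at c2
    rw [b, ← mul_div_assoc, div_div, div_le_div_iff₀ x0 (by positivity)]
    nlinarith [mul_le_mul_of_nonneg_left c2 (hF y)]
  · have : ((Ioc lo hi).filter fun x => x / p + c = y).card ≤ p := by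
      refine (card_le_card_of_injOn (· % p) (fun x _ => mem_coe.2 (mem_range.2 (Nat.mod_lt _ hp)))
        fun x hx x' hx' e => ?_).trans_eq (card_range p)
      have a := (mem_filter.1 (mem_coe.1 hx)).2
      have b := (mem_filter.1 (mem_coe.1 hx')).2
      rw [← Nat.div_add_mod x p, ← Nat.div_add_mod x' p, show x / p = x' / p by omega]
      exact congrArg _ e
    have h3 := hF y
    rw [nsmul_eq_mul]
    calc _ ≤ (p : ℝ) * (2 * (F y / y) / p) := by gcongr
      _ = _ := by field_simp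

end MN2c

theorem r_MN2 (hSPL : K_SPL) :
    K_MN2 := by
  intro g κ lo hi H h p α hg hp h2 h3 h4 h5
  have p0 : (0 : ℝ) < p := by exact_mod_cast hp.pos
  have h0 : (0 : ℝ) < h := by exact_mod_cast h5
  have i1 : H / p / h * h ≤ H / p := Nat.div_mul_le_self _ _
  have i2 : H / p < H / p / h * h + h := Nat.lt_div_mul_add h5
  have a : ∀ x ∈ Ioc lo hi, ‖∑ n ∈ (Ioc x (x + H)).filter (p ∣ ·), g n * ee (α * n)‖ / x ≤
      ∑ i ∈ range (H / p / h), ‖es g (x / p + i * h) h (p * α)‖ / x + 2 * h * (1 / (x : ℝ)) := by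
    intro x _
    rw [MN2c.dil hg hp h2, ← sum_div, mul_one_div, ← add_div]
    have e := Nat.add_div (a := x) (b := H) hp.pos
    have := (hSPL g (p * α) hg.bd).1 (x / p) ((x + H) / p - x / p) h (H / p / h) (2 * h)
      (by split_ifs at e <;> omega) (by split_ifs at e <;> omega)
    push_cast at this
    gcongr
  refine (sum_le_sum a).trans ?_
  rw [sum_add_distrib, sum_comm, ← mul_sum]
  refine add_le_add ?_ (mul_le_mul_of_nonneg_left (harm_Ioc _ _) (by positivity))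
  refine (sum_le_card_nsmul _ _ (2 * ua g 0 (2 * hi) h (p * α)) fun i hi' => ?_).trans ?_
  · refine MN2c.fib (F := fun y => ‖es g y h (p * α)‖) (fun _ => norm_nonneg _) hp.pos h3 ?_
    exact ((Nat.mul_le_mul_right _ (mem_range.1 hi').le).trans i1).trans (Nat.div_le_div_right h4)
  · have b : ((H / p / h : ℕ) : ℝ) ≤ H / p / h :=
      Nat.cast_div_le.trans (div_le_div_of_nonneg_right Nat.cast_div_le h0.le)
    have := ua_nonneg g 0 (2 * hi) h (p * α)
    rw [card_range, nsmul_eq_mul]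
    calc _ ≤ (H : ℝ) / p / h * (2 * ua g 0 (2 * hi) h (p * α)) := by gcongr
      _ = _ := by field_simp

end Pool.Agent.P.LF
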