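import Pool.Agent.P.MP_e94e4b_nt.LF.IfB

/-! Step ODD. -/

namespace Pool.Agent.P.LF

open Finset Real Filter Topology MeasureTheory
open Pool.Agent.P.MP_e86632_nt (ee nn ee_add norm_ee ee_neg ee_zero)
open Pool.Agent.P.MP_8be758_nt.Avg (gs nsq gs_pos gs_le_one gs_neg gs_anti)
open Pool.Agent.P.E2
open Pool.Agent.P.PAR
open ArithmeticFunction (cardFactors vonMangoldt)
open DirichletCharacter (LFunction)

namespace ODDc

theorem step (A j : ℕ) : (Real.log (A + 2 * j + 2) - Real.log (A + 2)) / 2 ≤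
    ∑ u ∈ (Ioc A (A + 2 * j)).filter Odd, 1 / (u : ℝ) := by
  rw [sum_filter]
  induction j with
  | zero => simp
  | succ j ih =>
    rw [show A + 2 * (j + 1) = A + 2 * j + 1 + 1 by ring, sum_Ioc_succ_top (by omega),
      sum_Ioc_succ_top (by omega)]
    have h0 : (0 : ℝ) < A + 2 * j + 1 := by positivity
    have h1 : Real.log (A + 2 * (j + 1 : ℕ) + 2) - Real.log (A + 2 * j + 2) ≤
        2 * (1 / (A + 2 * j + 2)) := by
      rw [← Real.log_div (by positivity) (by positivity)]
      refine (Real.log_le_sub_one_of_pos (by positivity)).trans_eq ?_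
      push_cast
      field_simp
      ring
    have h2 : (1 : ℝ) / (A + 2 * j + 2) ≤ 1 / (A + 2 * j + 1) :=
      one_div_le_one_div_of_le h0 (by linarith)
    have h3 : (1 : ℝ) / (A + 2 * j + 2) ≤
        (if Odd (A + 2 * j + 1) then 1 / ((A + 2 * j + 1 : ℕ) : ℝ) else 0) +
        (if Odd (A + 2 * j + 1 + 1) then 1 / ((A + 2 * j + 1 + 1 : ℕ) : ℝ) else 0) := by
      by_cases h : Odd (A + 2 * j + 1)
      · rw [if_pos h, if_neg (Nat.not_odd_iff_even.2 h.add_one)]
        push_cast; linarith
      · rw [if_neg h, if_pos (Nat.not_odd_iff_even.1 h).add_one]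
        push_cast
        rw [zero_add, add_assoc (A + 2 * j : ℝ), one_add_one_eq_two]
    linarith

end ODDc

theorem r_ODD :
    K_ODD := by
  intro A B hA
  have h0 : 0 ≤ ∑ u ∈ (Ioc A B).filter Odd, 1 / (u : ℝ) := sum_nonneg fun _ _ => by positivity
  have hA' : (1 : ℝ) ≤ A := by exact_mod_cast hA
  rcases le_or_gt B A with h | h
  · have : Real.log B ≤ Real.log A := by
      rcases Nat.eq_zero_or_pos B with rfl | hB
      · simpa using Real.log_nonneg hA'
      · exact Real.log_le_log (by exact_mod_cast hB) (by exact_mod_cast h)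
    linarith
  obtain ⟨j, h1, h2⟩ : ∃ j, A + 2 * j ≤ B ∧ B ≤ A + 2 * j + 2 := ⟨(B - A) / 2, by omega, by omega⟩
  have h3 := (ODDc.step A j).trans (sum_le_sum_of_subset_of_nonneg
    (filter_subset_filter _ (Ioc_subset_Ioc_right h1)) fun _ _ _ => by positivity)
  have h4 : Real.log B ≤ Real.log (A + 2 * j + 2) :=
    Real.log_le_log (by exact_mod_cast (by omega : 0 < B)) (by exact_mod_cast h2)
  have h5 : Real.log (A + 2) ≤ Real.log A + Real.log 3 := by
    rw [← Real.log_mul (by positivity) (by norm_num)]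
    exact Real.log_le_log (by positivity) (by linarith)
  have h6 := Real.log_le_sub_one_of_pos (by norm_num : (0 : ℝ) < 3)
  linarith

end Pool.Agent.P.LF
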