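import Pool.Agent.P.MP_e94e4b_nt.LF.IfB

/-! Step OSC. -/

namespace Pool.Agent.P.LF

open Finset Real Filter Topology MeasureTheory
open Pool.Agent.P.MP_e86632_nt (ee nn ee_add norm_ee ee_neg ee_zero)
open Pool.Agent.P.MP_8be758_nt.Avg (gs nsq gs_pos gs_le_one gs_neg gs_anti)
open Pool.Agent.P.E2
open Pool.Agent.P.PAR
open ArithmeticFunction (cardFactors vonMangoldt)
open DirichletCharacter (LFunction)

namespace OSCc

theorem tay (u : ℝ) : ‖ee u - 1 - ((2 * π * u : ℝ) : ℂ) * Complex.I‖ ≤ 3 * (2 * π * u) ^ 2 := by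
  have h0 : ee u = Complex.exp (((2 * π * u : ℝ) : ℂ) * Complex.I) := aa_ee u
  have h1 := norm_ee u
  rw [h0] at h1 ⊢
  generalize 2 * π * u = v at h1 ⊢
  have h2 : ‖(v : ℂ) * Complex.I‖ = |v| := by simp
  have h3 := sq_abs v
  rcases le_total |v| 1 with h | h
  · have := Complex.norm_exp_sub_one_sub_id_le (h2.trans_le h)
    rw [h2] at this
    nlinarith [abs_nonneg v]
  · have h4 := norm_sub_le (Complex.exp (v * Complex.I) - 1) (v * Complex.I)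
    have h5 := norm_sub_le (Complex.exp (v * Complex.I)) 1
    rw [norm_one, h1] at h5
    rw [h2] at h4
    nlinarith

theorem step (θ : ℝ) {x y : ℝ} (hx : 1 ≤ x) (hy : 0 ≤ y) (h : y ^ 2 = x ^ 2 + 1) :
    ‖((π * θ : ℝ) : ℂ) * Complex.I * (ee (θ * x) / ((x ^ 2 : ℝ) : ℂ)) + ee (θ * x) / x -
      ee (θ * y) / y‖ ≤ 4 * (1 + |2 * π * θ| + (2 * π * θ) ^ 2) * (1 / x - 1 / y) := by
  have x0 : 0 < x := by linarith
  have hxy : x < y := by nlinarith
  have y0 : 0 < y := by linarith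
  have hy2 : 2 * y ≤ 3 * x := by nlinarith
  obtain ⟨d, rfl⟩ : ∃ d, y = x + d := ⟨y - x, by ring⟩
  have d0 : 0 < d := by linarith
  have hd : d * (2 * x + d) = 1 := by linarith
  have hdx : 2 * (d * x) ≤ 1 := by nlinarith
  have h1 := tay (θ * d)
  obtain ⟨R, hR⟩ : ∃ R, R = ee (θ * d) - 1 - ((2 * π * (θ * d) : ℝ) : ℂ) * Complex.I := ⟨_, rfl⟩
  rw [← hR] at h1
  have xc : (x : ℂ) ≠ 0 := by exact_mod_cast x0.ne'
  have yc : (x : ℂ) + d ≠ 0 := by exact_mod_cast y0.ne'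
  have e : ((π * θ : ℝ) : ℂ) * Complex.I * (ee (θ * x) / ((x ^ 2 : ℝ) : ℂ)) + ee (θ * x) / x -
      ee (θ * (x + d)) / ((x + d : ℝ) : ℂ) = ee (θ * x) * (((1 / x - 1 / (x + d) : ℝ) : ℂ) +
        ((2 * π * θ * (1 / (2 * x ^ 2) - d / (x + d)) : ℝ) : ℂ) * Complex.I -
        R / ((x + d : ℝ) : ℂ)) := by
    rw [mul_add θ, ee_add, hR]
    push_cast
    field_simp
    ring
  have a0 : 1 / x ^ 3 ≤ 4 * (1 / x - 1 / (x + d)) := by
    have : 1 / x - 1 / (x + d) = 1 / (x * (x + d) * (2 * x + d)) := by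
      field_simp
      linarith
    rw [this, mul_one_div, div_le_div_iff₀ (by positivity) (by positivity)]
    have : (x + d) * (2 * x + d) ≤ 4 * x ^ 2 := by nlinarith
    nlinarith
  have a1 : 0 ≤ 1 / x - 1 / (x + d) := sub_nonneg.2 (one_div_le_one_div_of_le x0 hxy.le)
  have a2 : |1 / (2 * x ^ 2) - d / (x + d)| ≤ 1 / x ^ 3 := by
    have : 1 / (2 * x ^ 2) - d / (x + d) = (1 + d * x) / (2 * x ^ 2 * (x + d) * (2 * x + d)) := by
      field_simp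
      linear_combination (-(2 * x ^ 2) + 1) * hd
    rw [this, abs_of_nonneg (by positivity), div_le_div_iff₀ (by positivity) (by positivity)]
    have b1 : 2 * x ^ 2 ≤ (x + d) * (2 * x + d) := by nlinarith
    have b2 : x ^ 3 ≤ x ^ 2 * x ^ 2 := by nlinarith [pow_pos x0 3]
    nlinarith [pow_pos x0 3, mul_le_mul_of_nonneg_left b1 (pow_pos x0 2).le]
  have a3 : ‖R / ((x + d : ℝ) : ℂ)‖ ≤ (2 * π * θ) ^ 2 * (1 / x ^ 3) := by
    rw [norm_div, Complex.norm_real, Real.norm_of_nonneg y0.le, div_le_iff₀ y0]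
    refine h1.trans ?_
    have b1 : 3 * d ^ 2 ≤ 1 / x ^ 3 * (x + d) := by
      rw [one_div_mul_eq_div, le_div_iff₀ (by positivity)]
      have : (d * x) ^ 2 ≤ 1 / 4 := by nlinarith [mul_pos d0 x0]
      nlinarith
    nlinarith [mul_le_mul_of_nonneg_left b1 (sq_nonneg (2 * π * θ))]
  rw [e, norm_mul, norm_ee, one_mul]
  refine (norm_sub_le _ _).trans ((add_le_add (norm_add_le _ _) a3).trans ?_)
  rw [norm_mul, Complex.norm_I, mul_one, Complex.norm_real, Complex.norm_real,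
    Real.norm_of_nonneg a1, Real.norm_eq_abs, abs_mul (2 * π * θ)]
  nlinarith [mul_le_mul_of_nonneg_left (a2.trans a0) (abs_nonneg (2 * π * θ)),
    mul_le_mul_of_nonneg_left a0 (sq_nonneg (2 * π * θ))]

theorem tel (θ : ℝ) (lo hi : ℕ) (h : lo ≤ hi) :
    ‖((π * θ : ℝ) : ℂ) * Complex.I * (∑ b ∈ Ioc lo hi, ee (θ * √(b : ℝ)) / b) +
      ee (θ * √((lo + 1 : ℕ) : ℝ)) / √((lo + 1 : ℕ) : ℝ) -
      ee (θ * √((hi + 1 : ℕ) : ℝ)) / √((hi + 1 : ℕ) : ℝ)‖ ≤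
      4 * (1 + |2 * π * θ| + (2 * π * θ) ^ 2) *
        (1 / √((lo + 1 : ℕ) : ℝ) - 1 / √((hi + 1 : ℕ) : ℝ)) := by
  induction hi, h using Nat.le_induction with
  | base => simp
  | succ n hn ih =>
    have h1 := step θ (x := √((n + 1 : ℕ) : ℝ)) (y := √((n + 1 + 1 : ℕ) : ℝ))
      (Real.one_le_sqrt.2 (by exact_mod_cast Nat.succ_pos n)) (sqrt_nonneg _) (by
        rw [sq_sqrt (Nat.cast_nonneg _), sq_sqrt (Nat.cast_nonneg _)]; push_cast; ring)
    rw [sq_sqrt (Nat.cast_nonneg _), Complex.ofReal_natCast] at h1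
    rw [sum_Ioc_succ_top hn]
    refine le_trans (le_of_eq (congrArg _ ?_)) ((norm_add_le_of_le ih h1).trans (le_of_eq ?_))
    · ring
    · ring

end OSCc

theorem r_OSC :
    K_OSC := by
  intro θ hθ
  have h0 : 0 < |π * θ| := abs_pos.2 (mul_ne_zero pi_ne_zero hθ)
  obtain ⟨c, hc, c0⟩ : ∃ c, c = 4 * (1 + |2 * π * θ| + (2 * π * θ) ^ 2) ∧ 0 ≤ c :=
    ⟨_, rfl, by positivity⟩
  refine ⟨(c + 2) / |π * θ|, fun lo hi => ?_⟩
  rcases le_total hi lo with h | h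
  · rw [Ioc_eq_empty_of_le h, sum_empty, norm_zero]; positivity
  have h1 := OSCc.tel θ lo hi h
  have h2 : ∀ n : ℕ, 1 / √((n + 1 : ℕ) : ℝ) ≤ 1 := fun n =>
    div_le_one_of_le₀ (Real.one_le_sqrt.2 (by exact_mod_cast Nat.succ_pos n)) (sqrt_nonneg _)
  have h3 : ∀ n : ℕ, ‖ee (θ * √((n + 1 : ℕ) : ℝ)) / √((n + 1 : ℕ) : ℝ)‖ ≤ 1 := fun n => by
    rw [norm_div, norm_ee, Complex.norm_real, Real.norm_of_nonneg (sqrt_nonneg _)]
    exact h2 n
  rw [← hc] at h1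
  have h4 : c * (1 / √((lo + 1 : ℕ) : ℝ) - 1 / √((hi + 1 : ℕ) : ℝ)) ≤ c :=
    mul_le_of_le_one_right c0 ((sub_le_self _ (by positivity)).trans (h2 lo))
  have h5 := norm_add_le_of_le (norm_sub_le_of_le (h1.trans h4) (h3 lo)) (h3 hi)
  rw [sub_right_comm, add_sub_cancel_right, sub_add_cancel, norm_mul, norm_mul, Complex.norm_I,
    mul_one, Complex.norm_real, Real.norm_eq_abs] at h5
  rw [le_div_iff₀' h0]
  linarith

end Pool.Agent.P.LF
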